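import Mathlib

namespace Pool.Agent.P.MP_4cf0b2_an

open scoped ENNReal NNReal Pointwise symmDiff
open Filter

/-- A tempered Følner sequence with `|F n| / log n → ∞`. -/
def Admissible {G : Type*} [Group G] [DecidableEq G] (F : ℕ → Finset G) : Prop :=
  (∀ n, (F n).Nonempty) ∧
  (∀ s : G, Tendsto (fun n => (((F n) ∆ (s • F n)).card : ℝ) / (F n).card) atTop (nhds 0)) ∧
  (∃ C : ℝ, 0 < C ∧ ∀ n, 1 < n →
    (((Finset.range n).biUnion fun k => (F k)⁻¹ * F n).card : ℝ) ≤ C * (F n).card) ∧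
  Tendsto (fun n : ℕ => ((F n).card : ℝ) / Real.log n) atTop atTop

variable {G X : Type*} [Group G] [MulAction G X] [MetricSpace X]

/-- The open Bowen ball `B_F(x, ε)`. -/
def bowenBall (F : Finset G) (x : X) (ε : ℝ) : Set X :=
  {y | ∀ g ∈ F, dist (g • x) (g • y) < ε}

/-- `M(Z, N, ε, s)`. -/
noncomputable def bowenM (F : ℕ → Finset G) (Z : Set X) (N : ℕ) (ε : ℝ) (s : ℝ≥0) : ℝ≥0∞ :=
  ⨅ (I : Set ℕ) (x : I → X) (n : I → ℕ) (_ : ∀ i, N ≤ n i)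
    (_ : Z ⊆ ⋃ i, bowenBall (F (n i)) (x i) ε),
    ∑' i, ENNReal.ofReal (Real.exp (-(s : ℝ) * (F (n i)).card))

/-- `h^B(Z, ε)`; the limit in `N` of the nondecreasing sequence `M(Z, N, ε, s)` is its supremum. -/
noncomputable def bowenEnt (F : ℕ → Finset G) (Z : Set X) (ε : ℝ) : ℝ≥0∞ :=
  ⨅ (s : ℝ≥0) (_ : (⨆ N, bowenM F Z N ε s) = 0), (s : ℝ≥0∞)

/-- `h^B_top(Z, {F n})`; the limit as `ε` decreases to `0` is a supremum. -/
noncomputable def bowenTop (F : ℕ → Finset G) (Z : Set X) : ℝ≥0∞ :=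
  ⨆ (ε : ℝ) (_ : 0 < ε), bowenEnt F Z ε

/-- `(X, G)` is D-hereditarily lowerable along `F`. -/
def DHereditarilyLowerable (X : Type*) [MulAction G X] [MetricSpace X] (F : ℕ → Finset G) : Prop :=
  ∀ K : Set X, K.Nonempty → MeasureTheory.AnalyticSet K →
    ∀ h ≤ bowenTop F K, ∃ Z ⊆ K, bowenTop F Z = h

end Pool.Agent.P.MP_4cf0b2_an
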