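import Mathlib
import Pool.Agent.P.MP_4cf0b2_an.Defs

namespace Pool.Agent.P.MP_4cf0b2_an

open scoped ENNReal NNReal
open Filter

variable {G X : Type*} [Group G] [MulAction G X] [MetricSpace X]

/-- The least number of members of the join of the covers `g⁻¹ U`, `g ∈ F`, needed to cover `X`. -/
noncomputable def coverNum (U : Finset (Set X)) (F : Finset G) : ℕ :=
  sInf {k | ∃ S : Finset (G → Set X), S.card = k ∧ (∀ u ∈ S, ∀ g ∈ F, u g ∈ U) ∧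
    ∀ x : X, ∃ u ∈ S, ∀ g ∈ F, g • x ∈ u g}

/-- Open-cover topological entropy along `F`. -/
noncomputable def hTop (X : Type*) [MulAction G X] [MetricSpace X] (F : ℕ → Finset G) : ℝ≥0∞ :=
  ⨆ (U : Finset (Set X)) (_ : ∀ V ∈ U, IsOpen V) (_ : ∀ x : X, ∃ V ∈ U, x ∈ V),
    limsup (fun n => ENNReal.ofReal (Real.log (coverNum U (F n)) / (F n).card)) atTop

/-- The closed Bowen ball. -/
def closedBowenBall (F : Finset G) (x : X) (ε : ℝ) : Set X :=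
  {y | ∀ g ∈ F, dist (g • x) (g • y) ≤ ε}

/-- `P(Z, N, ε, s)`. -/
noncomputable def packP (F : ℕ → Finset G) (Z : Set X) (N : ℕ) (ε : ℝ) (s : ℝ≥0) : ℝ≥0∞ :=
  ⨆ (I : Set ℕ) (x : I → X) (n : I → ℕ) (_ : ∀ i, N ≤ n i) (_ : ∀ i, x i ∈ Z)
    (_ : ∀ i j, i ≠ j →
      Disjoint (closedBowenBall (F (n i)) (x i) ε) (closedBowenBall (F (n j)) (x j) ε)),
    ∑' i, ENNReal.ofReal (Real.exp (-(s : ℝ) * (F (n i)).card))

/-- The packing outer measure; the limit in `N` of the nonincreasing sequence `P(Z, N, ε, s)` is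
its infimum. -/
noncomputable def packM (F : ℕ → Finset G) (Z : Set X) (ε : ℝ) (s : ℝ≥0) : ℝ≥0∞ :=
  ⨅ (Y : ℕ → Set X) (_ : Z ⊆ ⋃ i, Y i), ∑' i, ⨅ N, packP F (Y i) N ε s

/-- `h^P(Z, ε)`. -/
noncomputable def packEnt (F : ℕ → Finset G) (Z : Set X) (ε : ℝ) : ℝ≥0∞ :=
  ⨅ (s : ℝ≥0) (_ : packM F Z ε s = 0), (s : ℝ≥0∞)

/-- `h^P_top(Z, {F n})`; the limit as `ε` decreases to `0` is a supremum. -/
noncomputable def packTop (F : ℕ → Finset G) (Z : Set X) : ℝ≥0∞ :=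
  ⨆ (ε : ℝ) (_ : 0 < ε), packEnt F Z ε

/-- `(X, G)` is D-lowerable along `F`. -/
def DLowerable (X : Type*) [MulAction G X] [MetricSpace X] (F : ℕ → Finset G) : Prop :=
  ∀ h ≤ hTop X F, ∃ Z : Set X, Z.Nonempty ∧ bowenTop F Z = h

/-- `(X, G)` is P-lowerable along `F`. -/
def PLowerable (X : Type*) [MulAction G X] [MetricSpace X] (F : ℕ → Finset G) : Prop :=
  ∀ h ≤ hTop X F, ∃ Z : Set X, Z.Nonempty ∧ packTop F Z = h

end Pool.Agent.P.MP_4cf0b2_an
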