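import Mathlib

set_option autoImplicit false

namespace Pool.Agent.P.MP_4cf0b2_an

open Set Filter Real
open scoped Topology

variable {X : Type*}

/-- finite range -/
abbrev FR {α : Type*} (f : X → α) : Prop := (Set.range f).Finite

lemma FR.comp {α β : Type*} {f : X → α} (hf : FR f) (ψ : α → β) : FR (fun x => ψ (f x)) :=
  (hf.image ψ).subset (by rintro _ ⟨x, rfl⟩; exact ⟨_, ⟨x, rfl⟩, rfl⟩)

lemma FR.prod {α β : Type*} {f : X → α} {g : X → β} (hf : FR f) (hg : FR g) :
    FR (fun x => (f x, g x)) :=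
  (Set.Finite.prod hf hg).subset (by rintro _ ⟨x, rfl⟩; exact ⟨⟨x, rfl⟩, ⟨x, rfl⟩⟩)

lemma FR.comp₂ {α β γ : Type*} {f : X → α} {g : X → β} (hf : FR f) (hg : FR g)
    (ψ : α → β → γ) : FR (fun x => ψ (f x) (g x)) :=
  (hf.prod hg).comp (fun p => ψ p.1 p.2)

lemma FR.of_finite {α : Type*} [Finite α] (f : X → α) : FR f := Set.toFinite _

lemma FR.const {α : Type*} (a : α) : FR (fun _ : X => a) :=
  (Set.finite_singleton a).subset (by rintro _ ⟨x, rfl⟩; rfl)

lemma FR.precomp {α : Type*} {f : X → α} (hf : FR f) (T : X → X) : FR (fun x => f (T x)) :=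
  Set.Finite.subset hf (by rintro _ ⟨x, rfl⟩; exact ⟨_, rfl⟩)

lemma FR.add {f g : X → ℝ} (hf : FR f) (hg : FR g) : FR (f + g) := hf.comp₂ hg (· + ·)
lemma FR.sub {f g : X → ℝ} (hf : FR f) (hg : FR g) : FR (f - g) := hf.comp₂ hg (· - ·)
lemma FR.smul {f : X → ℝ} (c : ℝ) (hf : FR f) : FR (c • f) := hf.comp (c * ·)

lemma FR.bdd {f : X → ℝ} (hf : FR f) : ∃ C, 0 ≤ C ∧ ∀ x, |f x| ≤ C := by
  obtain ⟨C, hC⟩ := (hf.comp (fun t => |t|)).bddAbove
  exact ⟨max C 0, le_max_right _ _, fun x => (hC ⟨x, rfl⟩).trans (le_max_left _ _)⟩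

/-- `g` is determined by `f` -/
def Det {α β : Type*} (f : X → α) (g : X → β) : Prop := ∀ x y, f x = f y → g x = g y

lemma FR.of_det {α β : Type*} {f : X → α} {g : X → β} (hf : FR f) (h : Det f g) : FR g := by
  classical
  rcases isEmpty_or_nonempty X with hX | hX
  · exact Set.finite_range g
  have : g = fun x => g (Function.invFun f (f x)) := by
    funext x
    exact h _ _ (Function.invFun_eq ⟨x, rfl⟩).symm
  rw [this]
  exact hf.comp (fun a => g (Function.invFun f a))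

/-- indicator -/
noncomputable def ind (s : Set X) : X → ℝ := s.indicator 1

lemma ind_of_mem {s : Set X} {x : X} (h : x ∈ s) : ind s x = 1 := by simp [ind, h]
lemma ind_of_notMem {s : Set X} {x : X} (h : x ∉ s) : ind s x = 0 := by simp [ind, h]

lemma ind_nonneg (s : Set X) (x : X) : 0 ≤ ind s x := by
  by_cases h : x ∈ s <;> simp [ind, h]

lemma ind_le_one (s : Set X) (x : X) : ind s x ≤ 1 := by
  by_cases h : x ∈ s <;> simp [ind, h]

lemma FR.ind (s : Set X) : FR (ind s) := by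
  refine (FR.of_finite (fun x => x ∈ s)).of_det ?_
  intro x y h
  have h' : (x ∈ s) = (y ∈ s) := h
  by_cases hx : x ∈ s
  · rw [ind_of_mem hx, ind_of_mem (h' ▸ hx)]
  · rw [ind_of_notMem hx, ind_of_notMem (h' ▸ hx)]

/-- a finitely additive positive measure on all subsets, as a functional -/
structure Mean (X : Type*) where
  E : (X → ℝ) →ₗ[ℝ] ℝ
  pos : ∀ φ, FR φ → (∀ x, 0 ≤ φ x) → 0 ≤ E φ

namespace Mean

variable (m : Mean X)

noncomputable def μ (s : Set X) : ℝ := m.E (ind s)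

lemma mono {φ ψ : X → ℝ} (hφ : FR φ) (hψ : FR ψ) (h : ∀ x, φ x ≤ ψ x) : m.E φ ≤ m.E ψ := by
  have := m.pos (ψ - φ) (hψ.sub hφ) (fun x => by simp [h x])
  rw [map_sub] at this
  linarith

lemma μ_nonneg (s : Set X) : 0 ≤ m.μ s := m.pos _ (FR.ind s) (ind_nonneg s)

lemma μ_mono {s t : Set X} (h : s ⊆ t) : m.μ s ≤ m.μ t := by
  refine m.mono (FR.ind s) (FR.ind t) (fun x => ?_)
  by_cases hx : x ∈ s
  · rw [ind_of_mem hx, ind_of_mem (h hx)]
  · rw [ind_of_notMem hx]; exact ind_nonneg _ _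

lemma μ_empty : m.μ ∅ = 0 := by
  have : ind (∅ : Set X) = 0 := by funext x; simp [ind]
  rw [μ, this, map_zero]

lemma μ_union_le (s t : Set X) : m.μ (s ∪ t) ≤ m.μ s + m.μ t := by
  unfold μ
  rw [← map_add]
  refine m.mono (FR.ind _) ((FR.ind s).add (FR.ind t)) (fun x => ?_)
  by_cases hx : x ∈ s <;> by_cases hy : x ∈ t <;> simp [ind, hx, hy]

lemma μ_inter_add_diff (s t : Set X) : m.μ (s ∩ t) + m.μ (s \ t) = m.μ s := by
  unfold μ
  rw [← map_add]
  congr 1
  funext x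
  by_cases hx : x ∈ s <;> by_cases hy : x ∈ t <;> simp [ind, hx, hy]

lemma μ_biUnion_le {ι : Type*} (J : Finset ι) (s : ι → Set X) :
    m.μ (⋃ i ∈ J, s i) ≤ ∑ i ∈ J, m.μ (s i) := by
  classical
  induction J using Finset.induction_on with
  | empty => simp [μ_empty]
  | insert a J ha ih =>
    rw [Finset.set_biUnion_insert, Finset.sum_insert ha]
    linarith [m.μ_union_le (s a) (⋃ i ∈ J, s i)]

lemma E_const (c : ℝ) : m.E (fun _ => c) = c * m.μ univ := by
  have : (fun _ : X => c) = c • ind univ := by funext x; simp [ind]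
  rw [this, map_smul]; rfl

lemma E_add (φ ψ : X → ℝ) : m.E (fun x => φ x + ψ x) = m.E φ + m.E ψ := map_add m.E φ ψ
lemma E_sub (φ ψ : X → ℝ) : m.E (fun x => φ x - ψ x) = m.E φ - m.E ψ := map_sub m.E φ ψ
lemma E_mul (c : ℝ) (φ : X → ℝ) : m.E (fun x => c * φ x) = c * m.E φ := map_smul m.E c φ
lemma E_neg (φ : X → ℝ) : m.E (fun x => - φ x) = - m.E φ := map_neg m.E φ

lemma E_sum {ι : Type*} (J : Finset ι) (φ : ι → X → ℝ) :
    m.E (fun x => ∑ i ∈ J, φ i x) = ∑ i ∈ J, m.E (φ i) := by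
  rw [← map_sum]; congr 1; funext x; simp

lemma mono_ae {φ ψ : X → ℝ} (hφ : FR φ) (hψ : FR ψ) {s : Set X} (hs : m.μ s = 0)
    (h : ∀ x, x ∉ s → φ x ≤ ψ x) : m.E φ ≤ m.E ψ := by
  obtain ⟨C, hC0, hC⟩ := (hφ.sub hψ).bdd
  have := m.mono hφ (hψ.add ((FR.ind s).smul C)) (fun x => by
    by_cases hx : x ∈ s
    · have := (le_abs_self _).trans (hC x)
      simp [ind_of_mem hx] at this ⊢
      linarith
    · simp [ind_of_notMem hx, h x hx])
  rw [map_add, map_smul] at this
  have e : m.E (ind s) = 0 := hs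
  rw [e] at this
  simpa using this

lemma abs_le {φ : X → ℝ} (hφ : FR φ) {C : ℝ} (h : ∀ x, |φ x| ≤ C) : |m.E φ| ≤ C * m.μ univ := by
  have a := m.mono (FR.const (-C)) hφ (fun x => (_root_.abs_le.1 (h x)).1)
  have b := m.mono hφ (FR.const C) (fun x => (_root_.abs_le.1 (h x)).2)
  rw [E_const] at a b
  rw [_root_.abs_le]
  constructor <;> linarith

lemma markov {φ : X → ℝ} (hφ : FR φ) {s : Set X} (hs : m.μ s = 0) (h0 : ∀ x, x ∉ s → 0 ≤ φ x)
    {t : ℝ} {B : Set X} (hB : ∀ x ∈ B, x ∉ s → t ≤ φ x) : t * m.μ B ≤ m.E φ := by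
  have := m.mono_ae ((FR.ind B).smul t) hφ hs (fun x hx => by
    by_cases hb : x ∈ B
    · simpa [ind_of_mem hb] using hB x hb hx
    · simpa [ind_of_notMem hb] using h0 x hx)
  rwa [map_smul] at this

lemma expand {α : Type*} {f : X → α} (hf : FR f) (ψ : α → ℝ) :
    m.E (fun x => ψ (f x)) = ∑ a ∈ hf.toFinset, m.μ {x | f x = a} * ψ a := by
  classical
  have : (fun x => ψ (f x)) = fun x => ∑ a ∈ hf.toFinset, ψ a * ind {x | f x = a} x := by
    funext x
    rw [Finset.sum_eq_single (f x)]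
    · rw [ind_of_mem (by simp), mul_one]
    · intro b _ hb
      rw [ind_of_notMem (by simpa using hb.symm), mul_zero]
    · intro h; exact absurd (by simp) h
  rw [this, E_sum]
  refine Finset.sum_congr rfl (fun a _ => ?_)
  rw [E_mul, mul_comm]; rfl

lemma sum_cells {α : Type*} {f : X → α} (hf : FR f) (s : Set X) :
    ∑ a ∈ hf.toFinset, m.μ (s ∩ {x | f x = a}) = m.μ s := by
  classical
  unfold μ
  rw [← E_sum]
  congr 1
  funext x
  rw [Finset.sum_eq_single (f x)]
  · by_cases hx : x ∈ s <;> simp [ind, hx]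
  · intro b _ hb
    exact ind_of_notMem (fun h => hb h.2.symm)
  · intro h; exact absurd (by simp) h

lemma sum_cells' {α : Type*} {f : X → α} (hf : FR f) :
    ∑ a ∈ hf.toFinset, m.μ {x | f x = a} = m.μ univ := by
  rw [← m.sum_cells hf univ]; simp

/-- measure of the cell of `x` -/
noncomputable def pr {α : Type*} (f : X → α) (x : X) : ℝ := m.μ {y | f y = f x}

lemma pr_nonneg {α : Type*} (f : X → α) (x : X) : 0 ≤ m.pr f x := m.μ_nonneg _

lemma pr_le {α : Type*} (f : X → α) (x : X) : m.pr f x ≤ m.μ univ := m.μ_mono (subset_univ _)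

lemma FR_pr {α : Type*} {f : X → α} (hf : FR f) : FR (m.pr f) :=
  hf.comp (fun a => m.μ {y | f y = a})

lemma pr_mono {α β : Type*} {f : X → α} {g : X → β} (h : Det f g) (x : X) :
    m.pr f x ≤ m.pr g x := m.μ_mono (fun y hy => h y x hy)

lemma pr_congr {α β : Type*} {f : X → α} {g : X → β} (h : Det f g) (h' : Det g f) :
    m.pr f = m.pr g := funext fun x => le_antisymm (m.pr_mono h x) (m.pr_mono h' x)

lemma null_pr {α : Type*} {f : X → α} (hf : FR f) : m.μ {x | m.pr f x = 0} = 0 := by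
  rw [← m.sum_cells hf]
  refine Finset.sum_eq_zero (fun a _ => ?_)
  by_cases h : m.μ {x | f x = a} = 0
  · exact le_antisymm (h ▸ m.μ_mono inter_subset_right) (m.μ_nonneg _)
  · have : {x | m.pr f x = 0} ∩ {x | f x = a} = ∅ := by
      ext x
      simp only [mem_inter_iff, mem_ofPred_eq, mem_empty_iff_false, iff_false, not_and]
      rintro h1 rfl
      exact h h1
    rw [this, μ_empty]

lemma pr_pos {α : Type*} {f : X → α} {x : X} (h : x ∉ {x | m.pr f x = 0}) : 0 < m.pr f x :=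
  lt_of_le_of_ne (m.pr_nonneg f x) (Ne.symm h)

lemma ratio_le {α : Type*} {f : X → α} (hf : FR f) (ψ : α → ℝ) (h0 : ∀ a, 0 ≤ ψ a) :
    m.E (fun x => ψ (f x) / m.pr f x) ≤ ∑ a ∈ hf.toFinset, ψ a := by
  have := m.expand hf (fun a => ψ a / m.μ {y | f y = a})
  unfold pr
  rw [this]
  refine Finset.sum_le_sum (fun a _ => ?_)
  by_cases h : m.μ {y | f y = a} = 0
  · rw [h]; simpa using h0 a
  · rw [mul_div_cancel₀ _ h]

/-- Shannon entropy -/
noncomputable def H {α : Type*} (f : X → α) : ℝ := m.E (fun x => - log (m.pr f x))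

lemma FR_log {α : Type*} {f : X → α} (hf : FR f) : FR (fun x => - log (m.pr f x)) :=
  (m.FR_pr hf).comp (fun t => - log t)

lemma H_congr {α β : Type*} {f : X → α} {g : X → β} (h : Det f g) (h' : Det g f) :
    m.H f = m.H g := by
  unfold H; rw [m.pr_congr h h']

lemma H_mono {α β : Type*} {f : X → α} {g : X → β} (hf : FR f) (h : Det f g) :
    m.H g ≤ m.H f := by
  refine m.mono_ae (m.FR_log (hf.of_det h)) (m.FR_log hf) (m.null_pr hf) (fun x hx => ?_)
  have := log_le_log (m.pr_pos hx) (m.pr_mono h x)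
  linarith

lemma H_eq_sum {α : Type*} {f : X → α} (hf : FR f) :
    m.H f = ∑ a ∈ hf.toFinset, negMulLog (m.μ {x | f x = a}) := by
  have := m.expand hf (fun a => - log (m.μ {y | f y = a}))
  unfold H pr
  rw [this]
  refine Finset.sum_congr rfl (fun a _ => ?_)
  simp [negMulLog]

/-- if `exp (-L)` has mean at most one then `L` has nonnegative mean -/
lemma logratio_nonneg (h1 : m.μ univ = 1) {L ρ : X → ℝ} (hL : FR L) (hρ : FR ρ) {s : Set X}
    (hs : m.μ s = 0) (h : ∀ x, x ∉ s → exp (- L x) ≤ ρ x) (hE : m.E ρ ≤ 1) : 0 ≤ m.E L := by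
  have := m.mono_ae ((FR.const (1 : ℝ)).comp₂ hL (· - ·)) hρ hs (fun x hx => by
    have := add_one_le_exp (- L x)
    have := h x hx
    show 1 - L x ≤ ρ x
    linarith)
  rw [E_sub, E_const, h1] at this
  linarith

lemma logratio_markov (h1 : m.μ univ = 1) {L ρ : X → ℝ} (hL : FR L) (hρ : FR ρ) {s : Set X}
    (hs : m.μ s = 0) (h : ∀ x, x ∉ s → exp (- L x) ≤ ρ x) (hE : m.E ρ ≤ 1) (t : ℝ)
    {B : Set X} (hB : ∀ x ∈ B, x ∉ s → t + 1 ≤ L x) : t * m.μ B ≤ m.E L := by
  have := m.markov (φ := fun x => L x + ρ x - 1) ((hL.add hρ).comp (· - 1)) hs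
    (fun x hx => by linarith [add_one_le_exp (- L x), h x hx]) (t := t) (B := B)
    (fun x hx hx' => by linarith [exp_pos (- L x), h x hx', hB x hx hx'])
  rw [E_sub, E_add, E_const, h1] at this
  linarith

lemma gibbs (h1 : m.μ univ = 1) {α : Type*} {f : X → α} (hf : FR f) (q : α → ℝ)
    (h0 : ∀ a, 0 ≤ q a) (hq : ∀ x, 0 < m.pr f x → 0 < q (f x))
    (hs : ∑ a ∈ hf.toFinset, q a ≤ 1) : m.H f ≤ m.E (fun x => - log (q (f x))) := by
  have := m.logratio_nonneg h1 (L := fun x => - log (q (f x)) - - log (m.pr f x))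
    (ρ := fun x => q (f x) / m.pr f x)
    ((hf.comp (fun a => - log (q a))).sub (m.FR_log hf)) ((hf.comp q).comp₂ (m.FR_pr hf) (· / ·))
    (m.null_pr hf) (fun x hx => by
      have p0 := m.pr_pos hx
      rw [show -(-log (q (f x)) - -log (m.pr f x)) = log (q (f x)) - log (m.pr f x) by ring,
        exp_sub, exp_log (hq x p0), exp_log p0]) ((m.ratio_le hf q h0).trans hs)
  rw [E_sub] at this
  unfold H
  linarith

lemma lr (h1 : m.μ univ = 1) {α β γ : Type*} {f : X → α} {g : X → β} {h : X → γ} (hf : FR f)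
    (hg : FR g) (hh : FR h) :
    m.E (fun x => m.pr (fun y => (f y, h y)) x * m.pr (fun y => (g y, h y)) x / m.pr h x /
      m.pr (fun y => (f y, g y, h y)) x) ≤ 1 := by
  classical
  set ψ : α × β × γ → ℝ := fun p => m.μ ({y | h y = p.2.2} ∩ {y | f y = p.1}) *
    m.μ ({y | h y = p.2.2} ∩ {y | g y = p.2.1}) / m.μ {y | h y = p.2.2} with hψ
  have hψ0 : ∀ p, 0 ≤ ψ p := fun p =>
    div_nonneg (mul_nonneg (m.μ_nonneg _) (m.μ_nonneg _)) (m.μ_nonneg _)
  have h2 := m.ratio_le (hf.prod (hg.prod hh)) ψ hψ0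
  have e : (fun x => m.pr (fun y => (f y, h y)) x * m.pr (fun y => (g y, h y)) x / m.pr h x /
      m.pr (fun y => (f y, g y, h y)) x) =
      fun x => ψ (f x, g x, h x) / m.pr (fun y => (f y, g y, h y)) x := by
    funext x
    simp only [hψ, pr, Prod.mk.injEq]
    congr 4 <;> ext y <;> simp [and_comm]
  rw [e]
  refine h2.trans ?_
  have h3 : (hf.prod (hg.prod hh)).toFinset ⊆ hf.toFinset ×ˢ hg.toFinset ×ˢ hh.toFinset := by
    intro p hp
    obtain ⟨x, rfl⟩ := (Set.Finite.mem_toFinset _).1 hp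
    simp
  refine (Finset.sum_le_sum_of_subset_of_nonneg h3 (fun p _ _ => hψ0 p)).trans ?_
  rw [← h1, ← m.sum_cells' hh, Finset.sum_product, Finset.sum_comm, Finset.sum_product,
    Finset.sum_comm]
  refine Finset.sum_le_sum (fun c _ => ?_)
  simp only [hψ]
  have : ∀ b, ∑ a ∈ hf.toFinset, m.μ ({y | h y = c} ∩ {y | f y = a}) *
      m.μ ({y | h y = c} ∩ {y | g y = b}) / m.μ {y | h y = c} =
      m.μ {y | h y = c} / m.μ {y | h y = c} * m.μ ({y | h y = c} ∩ {y | g y = b}) := by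
    intro b
    rw [← Finset.sum_div, ← Finset.sum_mul, m.sum_cells hf]; ring
  simp only [this]
  rw [← Finset.mul_sum, m.sum_cells hg]
  exact mul_le_of_le_one_left (m.μ_nonneg _) (div_self_le_one _)

lemma submod (h1 : m.μ univ = 1) {α β γ : Type*} {f : X → α} {g : X → β} {h : X → γ} (hf : FR f)
    (hg : FR g) (hh : FR h) :
    m.H (fun y => (f y, g y, h y)) + m.H h ≤
      m.H (fun y => (f y, h y)) + m.H (fun y => (g y, h y)) := by
  have F3 := hf.prod (hg.prod hh)
  have := m.logratio_nonneg h1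
    (L := fun x => (- log (m.pr (fun y => (f y, h y)) x) + - log (m.pr (fun y => (g y, h y)) x)) -
      (- log (m.pr (fun y => (f y, g y, h y)) x) + - log (m.pr h x)))
    (((m.FR_log (hf.prod hh)).add (m.FR_log (hg.prod hh))).sub ((m.FR_log F3).add (m.FR_log hh)))
    ((((m.FR_pr (hf.prod hh)).comp₂ (m.FR_pr (hg.prod hh)) (· * ·)).comp₂ (m.FR_pr hh)
      (· / ·)).comp₂ (m.FR_pr F3) (· / ·)) (m.null_pr F3) (fun x hx => by
      have p0 := m.pr_pos hx
      have p1 : 0 < m.pr (fun y => (f y, h y)) x :=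
        p0.trans_le (m.pr_mono (fun a b e => by simp at e ⊢; tauto) x)
      have p2 : 0 < m.pr (fun y => (g y, h y)) x :=
        p0.trans_le (m.pr_mono (fun a b e => by simp at e ⊢; tauto) x)
      have p3 : 0 < m.pr h x := p0.trans_le (m.pr_mono (fun a b e => by simp at e ⊢; tauto) x)
      apply le_of_eq
      rw [← exp_log (x := _ / _ / _) (by positivity)]
      congr 1
      rw [log_div (by positivity) p0.ne', log_div (by positivity) p3.ne', log_mul p1.ne' p2.ne']
      ring) (m.lr h1 hf hg hh)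
  rw [E_sub, E_add, E_add] at this
  unfold H
  linarith

lemma H_const (h1 : m.μ univ = 1) {α : Type*} {f : X → α} (h : ∀ x y, f x = f y) : m.H f = 0 := by
  unfold H pr
  have : (fun x => - log (m.μ {y | f y = f x})) = fun _ => 0 := by
    funext x
    have : {y | f y = f x} = univ := by ext y; simp [h y x]
    rw [this, h1]; simp
  rw [this, E_const]; simp

lemma H_nonneg (h1 : m.μ univ = 1) {α : Type*} {f : X → α} (hf : FR f) : 0 ≤ m.H f := by
  rw [← m.H_const h1 (f := fun _ => ()) (fun _ _ => rfl)]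
  exact m.H_mono hf (fun _ _ _ => rfl)

lemma H_pair_le (h1 : m.μ univ = 1) {α β : Type*} {f : X → α} {g : X → β} (hf : FR f)
    (hg : FR g) : m.H (fun y => (f y, g y)) ≤ m.H f + m.H g := by
  have := m.submod h1 hf hg (FR.const ())
  rw [m.H_const h1 (f := fun _ => ()) (fun _ _ => rfl),
    m.H_congr (g := fun y => (f y, g y)) (fun a b e => by simpa using e)
      (fun a b e => by simpa using e),
    m.H_congr (f := fun y => (f y, ())) (g := f) (fun a b e => by simpa using e)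
      (fun a b e => by simpa using e),
    m.H_congr (f := fun y => (g y, ())) (g := g) (fun a b e => by simpa using e)
      (fun a b e => by simpa using e)] at this
  linarith

/-- conditioning on more reduces entropy -/
lemma cond_mono (h1 : m.μ univ = 1) {α β γ : Type*} {f : X → α} {g : X → β} {h : X → γ}
    (hf : FR f) (hg : FR g) (hd : Det g h) :
    m.H (fun y => (f y, g y)) - m.H g ≤ m.H (fun y => (f y, h y)) - m.H h := by
  have := m.submod h1 hf hg (hg.of_det hd)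
  rw [m.H_congr (g := fun y => (f y, g y)) (fun a b e => by simp at e ⊢; tauto)
      (fun a b e => by simp at e ⊢; exact ⟨e.1, e.2, hd _ _ e.2⟩),
    m.H_congr (f := fun y => (g y, h y)) (g := g) (fun a b e => by simp at e ⊢; tauto)
      (fun a b e => by simp at e ⊢; exact ⟨e, hd _ _ e⟩)] at this
  linarith

noncomputable def restr (B : Set X) : Mean X where
  E := { toFun := fun φ => m.E (fun x => ind B x * φ x)
         map_add' := fun φ ψ => by rw [← E_add]; congr 1; funext x; simp; ring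
         map_smul' := fun c φ => by
           rw [RingHom.id_apply, smul_eq_mul, ← E_mul]; congr 1; funext x; simp; ring }
  pos := fun φ hφ h0 => m.pos _ ((FR.ind B).comp₂ hφ (· * ·))
    (fun x => mul_nonneg (ind_nonneg B x) (h0 x))

lemma restr_μ (B s : Set X) : (m.restr B).μ s = m.μ (B ∩ s) := by
  show m.E (fun x => ind B x * ind s x) = m.E (ind (B ∩ s))
  congr 1
  funext x
  by_cases hx : x ∈ B <;> by_cases hy : x ∈ s <;> simp [ind, hx, hy]

noncomputable def wsum {ι : Type*} (J : Finset ι) (w : ι → ℝ) (hw : ∀ i, 0 ≤ w i) (ν : ι → Mean X) : Mean X where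
  E := ∑ i ∈ J, w i • (ν i).E
  pos := fun φ hφ h0 => by
    simp only [LinearMap.coe_sum, Finset.sum_apply, LinearMap.smul_apply, smul_eq_mul]
    exact Finset.sum_nonneg (fun i _ => mul_nonneg (hw i) ((ν i).pos φ hφ h0))

lemma wsum_E {ι : Type*} (J : Finset ι) (w : ι → ℝ) (hw : ∀ i, 0 ≤ w i) (ν : ι → Mean X)
    (φ : X → ℝ) : (wsum J w hw ν).E φ = ∑ i ∈ J, w i * (ν i).E φ := by
  simp [wsum]

lemma wsum_μ {ι : Type*} (J : Finset ι) (w : ι → ℝ) (hw : ∀ i, 0 ≤ w i) (ν : ι → Mean X)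
    (s : Set X) : (wsum J w hw ν).μ s = ∑ i ∈ J, w i * (ν i).μ s := wsum_E J w hw ν _

noncomputable def dirac (a : X) : Mean X where
  E := LinearMap.proj a
  pos := fun _ _ h0 => h0 a

noncomputable def push (T : X → X) : Mean X where
  E := m.E ∘ₗ LinearMap.funLeft ℝ ℝ T
  pos := fun φ hφ h0 => m.pos _ (hφ.precomp T) (fun x => h0 _)

lemma push_E (T : X → X) (φ : X → ℝ) : (m.push T).E φ = m.E (fun x => φ (T x)) := rfl

lemma push_μ (T : X → X) (s : Set X) : (m.push T).μ s = m.μ (T ⁻¹' s) := rfl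

lemma push_H {α : Type*} (T : X → X) (f : X → α) : (m.push T).H f = m.H (fun x => f (T x)) := rfl

lemma concave {ι α : Type*} (J : Finset ι) (w : ι → ℝ) (hw : ∀ i, 0 ≤ w i)
    (hs : ∑ i ∈ J, w i = 1) (ν : ι → Mean X) (h1 : ∀ i, (ν i).μ univ = 1) {f : X → α}
    (hf : FR f) : ∑ i ∈ J, w i * (ν i).H f ≤ (wsum J w hw ν).H f := by
  unfold H
  rw [wsum_E]
  refine Finset.sum_le_sum (fun i hi => ?_)
  rcases eq_or_lt_of_le (hw i) with h0 | h0
  · rw [← h0]; simp
  refine mul_le_mul_of_nonneg_left ?_ (hw i)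
  refine (ν i).gibbs (h1 i) hf (fun a => (wsum J w hw ν).μ {y | f y = a})
    (fun a => μ_nonneg _ _) (fun x hx => ?_) ?_
  · rw [wsum_μ]
    exact (mul_pos h0 hx).trans_le (Finset.single_le_sum (f := fun j => w j * (ν j).μ {y | f y = f x})
      (fun j _ => mul_nonneg (hw j) (μ_nonneg _ _)) hi)
  · rw [sum_cells', wsum_μ]
    simp [h1, hs]

lemma exists_lim (ν : ℕ → Mean X) (h1 : ∀ n, (ν n).μ univ ≤ 1) :
    ∃ m : Mean X, ∀ φ, FR φ →
      Tendsto (fun n => (ν n).E φ) (hyperfilter ℕ) (𝓝 (m.E φ)) := by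
  let S : Submodule ℝ (X → ℝ) :=
    { carrier := {φ | FR φ}
      add_mem' := fun ha hb => FR.add ha hb
      zero_mem' := FR.const 0
      smul_mem' := fun c _ h => FR.smul c h }
  have ex : ∀ φ : S, ∃ l, Tendsto (fun n => (ν n).E φ) (hyperfilter ℕ) (𝓝 l) := by
    intro φ
    obtain ⟨C, hC0, hC⟩ := FR.bdd φ.2
    obtain ⟨l, -, hl⟩ := (isCompact_Icc (a := -C) (b := C)).ultrafilter_le_nhds'
      ((hyperfilter ℕ).map (fun n => (ν n).E φ)) (by
        refine Filter.mem_map.2 (Filter.Eventually.of_forall (fun n => ?_))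
        have := (ν n).abs_le φ.2 hC
        exact _root_.abs_le.1 (this.trans (mul_le_of_le_one_right hC0 (h1 n))))
    exact ⟨l, hl⟩
  choose l hl using ex
  let L : S →ₗ[ℝ] ℝ :=
    { toFun := l
      map_add' := fun φ ψ => tendsto_nhds_unique (hl _) (by simpa using (hl φ).add (hl ψ))
      map_smul' := fun c φ => tendsto_nhds_unique (hl _) (by simpa using (hl φ).const_mul c) }
  obtain ⟨E, hE⟩ := LinearMap.exists_extend L
  have hE' : ∀ φ (h : FR φ), E φ = l ⟨φ, h⟩ := fun φ h => LinearMap.congr_fun hE ⟨φ, h⟩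
  refine ⟨⟨E, fun φ hφ h0 => ?_⟩, fun φ hφ => ?_⟩
  · rw [hE' φ hφ]
    exact ge_of_tendsto' (hl ⟨φ, hφ⟩) (fun n => (ν n).pos φ hφ h0)
  · show Tendsto _ _ (𝓝 (E φ))
    rw [hE' φ hφ]
    exact hl ⟨φ, hφ⟩

end Mean

/-- number of values on `Y` -/
noncomputable def cnt {α : Type*} (f : X → α) (Y : Set X) : ℕ := (f '' Y).ncard

lemma FR.img {α : Type*} {f : X → α} (hf : FR f) (Y : Set X) : (f '' Y).Finite :=
  Set.Finite.subset hf (image_subset_range f Y)

lemma cnt_mono {α : Type*} {f : X → α} (hf : FR f) {Y Y' : Set X} (h : Y ⊆ Y') :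
    cnt f Y ≤ cnt f Y' := Set.ncard_le_ncard (image_mono h) (hf.img Y')

lemma cnt_det {α β : Type*} {f : X → α} {g : X → β} (hf : FR f) {Y : Set X}
    (h : ∀ x ∈ Y, ∀ y ∈ Y, f x = f y → g x = g y) : cnt g Y ≤ cnt f Y := by
  classical
  rcases isEmpty_or_nonempty X with hX | hX
  · simp [cnt, Set.eq_empty_of_isEmpty Y]
  have : g '' Y ⊆ (fun a => g (Function.invFunOn f Y a)) '' (f '' Y) := by
    rintro _ ⟨x, hx, rfl⟩
    refine ⟨f x, ⟨x, hx, rfl⟩, ?_⟩
    exact h _ (Function.invFunOn_mem ⟨x, hx, rfl⟩) _ hx (Function.invFunOn_eq ⟨x, hx, rfl⟩)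
  exact (Set.ncard_le_ncard this ((hf.img Y).image _)).trans (Set.ncard_image_le (hf.img Y))

lemma cnt_pair_le {α β : Type*} {f : X → α} {g : X → β} (hf : FR f) (hg : FR g) (Y : Set X) :
    cnt (fun x => (f x, g x)) Y ≤ cnt f Y * cnt g Y := by
  unfold cnt
  rw [← Set.ncard_prod]
  refine Set.ncard_le_ncard ?_ ((hf.img Y).prod (hg.img Y))
  rintro _ ⟨x, hx, rfl⟩
  exact ⟨⟨x, hx, rfl⟩, ⟨x, hx, rfl⟩⟩

lemma cnt_le_one {α : Type*} {f : X → α} {Y : Set X} (h : ∀ x ∈ Y, ∀ y ∈ Y, f x = f y) :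
    cnt f Y ≤ 1 := by
  unfold cnt
  rcases Y.eq_empty_or_nonempty with rfl | ⟨x, hx⟩
  · simp
  · have : f '' Y ⊆ {f x} := by rintro _ ⟨y, hy, rfl⟩; exact h y hy x hx
    simpa using Set.ncard_le_ncard this

lemma cnt_pos {α : Type*} {f : X → α} (hf : FR f) {Y : Set X} (h : Y.Nonempty) : 0 < cnt f Y :=
  (Set.ncard_pos (hf.img Y)).2 (h.image f)

lemma cnt_univ {α : Type*} {f : X → α} (hf : FR f) : cnt f univ = hf.toFinset.card := by
  unfold cnt
  rw [image_univ, Set.ncard_eq_toFinset_card _ hf]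

lemma cnt_le_card {α : Type*} [Fintype α] (f : X → α) (Y : Set X) : cnt f Y ≤ Fintype.card α := by
  unfold cnt
  rw [← Nat.card_eq_fintype_card]
  exact Set.ncard_le_card _

namespace Mean

variable (m : Mean X)

lemma μ_le_cnt {α : Type*} {f : X → α} (hf : FR f) (Y : Set X) {b : ℝ}
    (h : ∀ x ∈ Y, m.μ (Y ∩ {y | f y = f x}) ≤ b) : m.μ Y ≤ cnt f Y * b := by
  have h1 : Y ⊆ ⋃ a ∈ (hf.img Y).toFinset, Y ∩ {y | f y = a} := by
    intro x hx
    simp only [mem_iUnion]
    exact ⟨f x, by simpa using ⟨x, hx, rfl⟩, hx, rfl⟩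
  refine (m.μ_mono h1).trans ((m.μ_biUnion_le _ _).trans ?_)
  unfold cnt
  rw [Set.ncard_eq_toFinset_card _ (hf.img Y), ← nsmul_eq_mul]
  refine Finset.sum_le_card_nsmul _ _ _ (fun a ha => ?_)
  obtain ⟨x, hx, rfl⟩ := (Set.Finite.mem_toFinset _).1 ha
  exact h x hx

lemma cnt_heavy {α : Type*} {f : X → α} (hf : FR f) (Y : Set X) {b : ℝ}
    (h : ∀ x ∈ Y, b ≤ m.pr f x) : cnt f Y * b ≤ m.μ univ := by
  rw [← m.sum_cells' hf]
  unfold cnt
  rw [Set.ncard_eq_toFinset_card _ (hf.img Y), ← nsmul_eq_mul]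
  refine (Finset.card_nsmul_le_sum _ (fun a => m.μ {x | f x = a}) _ (fun a ha => ?_)).trans ?_
  · obtain ⟨x, hx, rfl⟩ := (Set.Finite.mem_toFinset _).1 ha
    exact h x hx
  · exact Finset.sum_le_sum_of_subset_of_nonneg
      (by simpa using image_subset_range f Y) (fun a _ _ => m.μ_nonneg _)

/-- sum over the values of a pair grouped by the first coordinate -/
lemma sum_pair_le {α β : Type*} {t : X → α} {f : X → β} (ht : FR t) (hf : FR f) (w c : α → ℝ)
    (hw : ∀ a, 0 ≤ w a) (hc : ∀ x, (cnt f {y | t y = t x} : ℝ) ≤ c (t x)) :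
    ∑ p ∈ (ht.prod hf).toFinset, w p.1 / c p.1 ≤ ∑ a ∈ ht.toFinset, w a := by
  classical
  rw [← Finset.sum_fiberwise_of_maps_to (t := ht.toFinset) (g := Prod.fst) (by
    intro p hp
    obtain ⟨x, rfl⟩ := (Set.Finite.mem_toFinset _).1 hp
    simp)]
  refine Finset.sum_le_sum (fun a ha => ?_)
  obtain ⟨x, rfl⟩ := (Set.Finite.mem_toFinset _).1 ha
  have c0 : (0 : ℝ) < c (t x) :=
    lt_of_lt_of_le (by exact_mod_cast cnt_pos hf (Y := {y | t y = t x}) ⟨x, rfl⟩) (hc x)
  rw [Finset.sum_congr rfl (g := fun _ => w (t x) / c (t x))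
    (fun p hp => by rw [(Finset.mem_filter.1 hp).2]), Finset.sum_const, nsmul_eq_mul]
  have : (((ht.prod hf).toFinset.filter (fun p => p.1 = t x)).card : ℝ) ≤ c (t x) := by
    refine le_trans ?_ (hc x)
    unfold cnt
    rw [Set.ncard_eq_toFinset_card _ (hf.img _)]
    exact_mod_cast Finset.card_le_card_of_injOn Prod.snd (by
      intro p hp
      obtain ⟨h1, h2⟩ := Finset.mem_filter.1 hp
      obtain ⟨y, rfl⟩ := (Set.Finite.mem_toFinset _).1 h1
      simpa using ⟨y, h2, rfl⟩) (by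
      intro p hp q hq e
      exact Prod.ext (((Finset.mem_filter.1 hp).2).trans (Finset.mem_filter.1 hq).2.symm) e)
  rw [mul_div_assoc', div_le_iff₀ c0, mul_comm]
  exact mul_le_mul_of_nonneg_left this (hw _)

/-- coding bound -/
lemma H_le_code (h1 : m.μ univ = 1) {α β : Type*} {t : X → α} {f : X → β} (ht : FR t)
    (hf : FR f) (w c : α → ℝ) (hw : ∀ a, 0 < w a) (hc0 : ∀ a, 0 < c a)
    (hc : ∀ x, (cnt f {y | t y = t x} : ℝ) ≤ c (t x)) (hs : ∑ a ∈ ht.toFinset, w a ≤ 1) :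
    m.H f ≤ m.E (fun x => log (c (t x)) - log (w (t x))) := by
  refine (m.H_mono (ht.prod hf) (fun a b e => by simp at e; exact e.2)).trans ?_
  refine (m.gibbs h1 (ht.prod hf) (fun p => w p.1 / c p.1)
    (fun p => (div_pos (hw _) (hc0 _)).le) (fun x _ => div_pos (hw _) (hc0 _))
    ((sum_pair_le ht hf w c (fun a => (hw a).le) hc).trans hs)).trans (le_of_eq ?_)
  congr 1
  funext x
  rw [log_div (hw _).ne' (hc0 _).ne']; ring

lemma H_le_log (h1 : m.μ univ = 1) {β : Type*} {f : X → β} (hf : FR f) {c : ℝ} (hc0 : 0 < c)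
    (hc : (cnt f univ : ℝ) ≤ c) : m.H f ≤ log c := by
  have := m.H_le_code h1 (FR.const ()) hf (fun _ => 1) (fun _ => c) (fun _ => one_pos)
    (fun _ => hc0) (fun x => by simpa using hc) (by
      rw [Finset.sum_const, nsmul_eq_mul, mul_one]
      exact_mod_cast Finset.card_le_one.2 (fun _ _ _ _ => rfl))
  rw [E_const, h1] at this
  simpa using this

/-- conditional near-uniformity -/
lemma near_unif (h1 : m.μ univ = 1) {α β : Type*} {t : X → α} {f : X → β} (ht : FR t)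
    (hf : FR f) {c : ℝ} (hc : ∀ x, (cnt f {y | t y = t x} : ℝ) ≤ exp c) (u : ℝ) :
    u * m.μ {x | exp (u + 1 - c) * m.pr t x ≤ m.pr (fun y => (t y, f y)) x} ≤
      c - (m.H (fun y => (t y, f y)) - m.H t) := by
  have F2 := ht.prod hf
  have := m.logratio_markov h1
    (L := fun x => c - (- log (m.pr (fun y => (t y, f y)) x) - - log (m.pr t x)))
    (ρ := fun x => (m.pr t x / exp c) / m.pr (fun y => (t y, f y)) x)
    (((m.FR_log F2).sub (m.FR_log ht)).comp (c - ·))
    (((m.FR_pr ht).comp (· / exp c)).comp₂ (m.FR_pr F2) (· / ·)) (m.null_pr F2)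
    (fun x hx => by
      have p0 := m.pr_pos hx
      have p1 : 0 < m.pr t x := p0.trans_le (m.pr_mono (fun a b e => by simp at e; exact e.1) x)
      apply le_of_eq
      rw [← exp_log (x := _ / _ / _) (by positivity)]
      congr 1
      rw [log_div (by positivity) p0.ne', log_div p1.ne' (exp_pos c).ne', log_exp]
      ring)
    (by
      refine (m.ratio_le F2 (fun p => m.μ {y | t y = p.1} / exp c)
        (fun p => div_nonneg (m.μ_nonneg _) (exp_pos c).le)).trans ?_
      refine (sum_pair_le ht hf (fun a => m.μ {y | t y = a}) (fun _ => exp c)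
        (fun a => m.μ_nonneg _) hc).trans ?_
      rw [m.sum_cells' ht, h1]) u
    (B := {x | exp (u + 1 - c) * m.pr t x ≤ m.pr (fun y => (t y, f y)) x})
    (fun x hx hx' => by
      have p0 := m.pr_pos hx'
      have p1 : 0 < m.pr t x := p0.trans_le (m.pr_mono (fun a b e => by simp at e; exact e.1) x)
      have := log_le_log (by positivity) hx
      rw [log_mul (exp_pos _).ne' p1.ne', log_exp] at this
      linarith)
  rw [E_sub, E_sub, E_const, h1] at this
  unfold H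
  linarith

/-- light cells have small total mass -/
lemma light (h1 : m.μ univ = 1) {α β : Type*} {t : X → α} {f : X → β} (ht : FR t)
    (hf : FR f) {c : ℝ} (hc : ∀ x, (cnt f {y | t y = t x} : ℝ) ≤ c) {b : ℝ} (hb : 0 ≤ b) :
    m.μ {x | m.pr (fun y => (t y, f y)) x ≤ b * m.pr t x} ≤ c * b := by
  rw [← m.sum_cells ht, ← mul_one (c * b), ← h1, ← m.sum_cells' ht, Finset.mul_sum]
  refine Finset.sum_le_sum (fun a ha => ?_)
  obtain ⟨x, rfl⟩ := (Set.Finite.mem_toFinset _).1 ha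
  refine (m.μ_le_cnt hf _ (b := b * m.pr t x) ?_).trans ?_
  · rintro y ⟨hy1, hy2⟩
    have e : m.pr t y = m.pr t x := by unfold pr; rw [show t y = t x from hy2]
    have hy1' : m.pr (fun y => (t y, f y)) y ≤ b * m.pr t y := hy1
    rw [e] at hy1'
    refine le_trans (m.μ_mono ?_) hy1'
    rintro z ⟨⟨-, hz2⟩, hz3⟩
    exact Prod.ext (hz2.trans hy2.symm) hz3
  · have h2 : (cnt f ({x | m.pr (fun y => (t y, f y)) x ≤ b * m.pr t x} ∩ {y | t y = t x}) : ℝ) ≤ c :=
      le_trans (by exact_mod_cast cnt_mono hf inter_subset_right) (hc x)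
    rw [mul_assoc]
    exact mul_le_mul_of_nonneg_right h2 (mul_nonneg hb (m.pr_nonneg _ _))

end Mean

end Pool.Agent.P.MP_4cf0b2_an
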