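import Mathlib
import Pool.Agent.P.MP_4cf0b2_an.Mean

set_option autoImplicit false
set_option linter.unusedSectionVars false

namespace Pool.Agent.P.MP_4cf0b2_an

open Set Filter Real
open scoped Topology Pointwise symmDiff

variable {X : Type*}

section tup

variable {ι β : Type*} [DecidableEq ι]

/-- tuple of the values of the functions indexed by `J` -/
def tup (f : ι → X → β) (J : Finset ι) (x : X) : ι → Option β :=
  fun j => if j ∈ J then some (f j x) else none

lemma tup_eq_iff {f : ι → X → β} {J : Finset ι} {x y : X} :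
    tup f J x = tup f J y ↔ ∀ j ∈ J, f j x = f j y := by
  constructor
  · intro h j hj
    have := congrFun h j
    simpa [tup, hj] using this
  · intro h
    funext j
    by_cases hj : j ∈ J
    · simp [tup, hj, h j hj]
    · simp [tup, hj]

lemma FR_tup {f : ι → X → β} {J : Finset ι} (hf : ∀ j ∈ J, FR (f j)) : FR (tup f J) := by
  induction J using Finset.induction_on with
  | empty => exact (FR.const ()).of_det (fun x y _ => tup_eq_iff.2 (by simp))
  | insert a J ha ih =>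
    refine (FR.prod (hf a (by simp)) (ih (fun j hj => hf j (by simp [hj])))).of_det ?_
    intro x y h
    simp only [Prod.mk.injEq, tup_eq_iff] at h
    rw [tup_eq_iff]
    simpa using h

lemma cnt_tup_le {f : ι → X → β} {J : Finset ι} (hf : ∀ j ∈ J, FR (f j)) (Y : Set X) :
    cnt (tup f J) Y ≤ ∏ j ∈ J, cnt (f j) Y := by
  induction J using Finset.induction_on with
  | empty => simpa using cnt_le_one (fun x _ y _ => tup_eq_iff.2 (by simp))
  | insert a J ha ih =>
    have h1 := hf a (by simp)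
    have h2 : ∀ j ∈ J, FR (f j) := fun j hj => hf j (by simp [hj])
    rw [Finset.prod_insert ha]
    refine le_trans (cnt_det (FR.prod h1 (FR_tup h2)) ?_)
      ((cnt_pair_le h1 (FR_tup h2) Y).trans (Nat.mul_le_mul_left _ (ih h2)))
    intro x _ y _ h
    simp only [Prod.mk.injEq, tup_eq_iff] at h
    rw [tup_eq_iff]
    simpa using h

lemma Mean.H_tup_le (m : Mean X) (h1 : m.μ univ = 1) {f : ι → X → β} {J : Finset ι}
    (hf : ∀ j ∈ J, FR (f j)) : m.H (tup f J) ≤ ∑ j ∈ J, m.H (f j) := by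
  induction J using Finset.induction_on with
  | empty => simpa using (m.H_const h1 (fun x y => tup_eq_iff.2 (by simp))).le
  | insert a J ha ih =>
    have h3 := hf a (by simp)
    have h2 : ∀ j ∈ J, FR (f j) := fun j hj => hf j (by simp [hj])
    rw [Finset.sum_insert ha]
    refine le_trans (m.H_mono (FR.prod h3 (FR_tup h2)) ?_)
      ((m.H_pair_le h1 h3 (FR_tup h2)).trans (by linarith [ih h2]))
    intro x y h
    simp only [Prod.mk.injEq, tup_eq_iff] at h
    rw [tup_eq_iff]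
    simpa using h

/-- abstract Shearer inequality -/
lemma shearer_abs {κ : Type*} (φ : Finset ι → ℝ) (h0 : φ ∅ = 0)
    (hm : ∀ A B, A ⊆ B → φ A ≤ φ B) (hs : ∀ A B, φ (A ∪ B) + φ (A ∩ B) ≤ φ A + φ B)
    (I : Finset κ) (S : κ → Finset ι) (k : ℕ) (Φ : Finset ι)
    (hk : ∀ a ∈ Φ, k ≤ (I.filter (fun i => a ∈ S i)).card) :
    k * φ Φ ≤ ∑ i ∈ I, φ (S i) := by
  have key : k * φ Φ ≤ ∑ i ∈ I, φ (S i ∩ Φ) := by
    induction Φ using Finset.induction_on with
    | empty => simp [h0]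
    | insert a Φ ha ih =>
      have ih' := ih (fun b hb => hk b (by simp [hb]))
      have d0 : 0 ≤ φ (insert a Φ) - φ Φ := sub_nonneg.2 (hm _ _ (Finset.subset_insert _ _))
      have h1 : ∑ i ∈ I, (φ (S i ∩ Φ) + if a ∈ S i then φ (insert a Φ) - φ Φ else 0) ≤
          ∑ i ∈ I, φ (S i ∩ insert a Φ) := by
        refine Finset.sum_le_sum (fun i _ => ?_)
        split_ifs with hi
        · have := hs (S i ∩ insert a Φ) Φ
          have e1 : S i ∩ insert a Φ ∪ Φ = insert a Φ := by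
            ext b; simp only [Finset.mem_union, Finset.mem_inter, Finset.mem_insert]
            constructor
            · tauto
            · rintro (rfl | h) <;> tauto
          have e2 : S i ∩ insert a Φ ∩ Φ = S i ∩ Φ := by
            ext b; simp only [Finset.mem_inter, Finset.mem_insert]; tauto
          rw [e1, e2] at this
          linarith
        · rw [add_zero]
          exact hm _ _ (Finset.inter_subset_inter_left (Finset.subset_insert _ _))
      rw [Finset.sum_add_distrib, ← Finset.sum_filter, Finset.sum_const, nsmul_eq_mul] at h1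
      have h2 : (k : ℝ) ≤ (I.filter (fun i => a ∈ S i)).card := by exact_mod_cast hk a (by simp)
      nlinarith
  exact key.trans (Finset.sum_le_sum (fun i _ => hm _ _ Finset.inter_subset_left))

lemma Mean.shearer_cond (m : Mean X) (h1 : m.μ univ = 1) {f : ι → X → β} (hf : ∀ j, FR (f j))
    {γ κ : Type*} {t : X → γ} (ht : FR t) (I : Finset κ) (S : κ → Finset ι) (k : ℕ) (Φ : Finset ι)
    (hk : ∀ a ∈ Φ, k ≤ (I.filter (fun i => a ∈ S i)).card) :
    k * (m.H (fun x => (tup f Φ x, t x)) - m.H t) ≤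
      ∑ i ∈ I, (m.H (fun x => (tup f (S i) x, t x)) - m.H t) := by
  have F : ∀ A, FR (tup f A) := fun A => FR_tup (fun j _ => hf j)
  refine shearer_abs (fun A => m.H (fun x => (tup f A x, t x)) - m.H t) ?_ ?_ ?_ I S k Φ hk
  · rw [m.H_congr (g := t) (fun x y h => by simp at h; exact h.2)
      (fun x y h => by simp [tup_eq_iff, h])]
    simp
  · intro A B hAB
    have := m.H_mono (f := fun x => (tup f B x, t x)) (g := fun x => (tup f A x, t x))
      (FR.prod (F B) ht) (fun x y h => by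
        simp only [Prod.mk.injEq, tup_eq_iff] at h ⊢
        exact ⟨fun j hj => h.1 j (hAB hj), h.2⟩)
    linarith
  · intro A B
    have := m.submod h1 (F A) (F B) (FR.prod (F (A ∩ B)) ht)
    rw [m.H_congr (g := fun x => (tup f (A ∪ B) x, t x)) (fun x y h => by
        simp only [Prod.mk.injEq, tup_eq_iff, Finset.mem_union, Finset.mem_inter] at h ⊢
        exact ⟨fun j hj => hj.elim (h.1 j) (h.2.1 j), h.2.2.2⟩) (fun x y h => by
        simp only [Prod.mk.injEq, tup_eq_iff, Finset.mem_union, Finset.mem_inter] at h ⊢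
        exact ⟨fun j hj => h.1 j (Or.inl hj), fun j hj => h.1 j (Or.inr hj),
          fun j hj => h.1 j (Or.inl hj.1), h.2⟩),
      m.H_congr (f := fun x => (tup f A x, tup f (A ∩ B) x, t x)) (g := fun x => (tup f A x, t x))
        (fun x y h => by
        simp only [Prod.mk.injEq, tup_eq_iff, Finset.mem_inter] at h ⊢
        exact ⟨h.1, h.2.2⟩) (fun x y h => by
        simp only [Prod.mk.injEq, tup_eq_iff, Finset.mem_inter] at h ⊢
        exact ⟨h.1, fun j hj => h.1 j hj.1, h.2⟩),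
      m.H_congr (f := fun x => (tup f B x, tup f (A ∩ B) x, t x)) (g := fun x => (tup f B x, t x))
        (fun x y h => by
        simp only [Prod.mk.injEq, tup_eq_iff, Finset.mem_inter] at h ⊢
        exact ⟨h.1, h.2.2⟩) (fun x y h => by
        simp only [Prod.mk.injEq, tup_eq_iff, Finset.mem_inter] at h ⊢
        exact ⟨h.1, fun j hj => h.1 j hj.2, h.2⟩)] at this
    linarith

lemma Mean.shearer (m : Mean X) (h1 : m.μ univ = 1) {f : ι → X → β} (hf : ∀ j, FR (f j))
    {κ : Type*} (I : Finset κ) (S : κ → Finset ι) (k : ℕ) (Φ : Finset ι)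
    (hk : ∀ a ∈ Φ, k ≤ (I.filter (fun i => a ∈ S i)).card) :
    k * m.H (tup f Φ) ≤ ∑ i ∈ I, m.H (tup f (S i)) := by
  have := m.shearer_cond h1 hf (FR.const ()) I S k Φ hk
  have e : ∀ A, m.H (fun x => (tup f A x, ())) = m.H (tup f A) := fun A =>
    m.H_congr (fun x y h => by simpa using h) (fun x y h => by simpa using h)
  simpa [e, m.H_const h1 (f := fun _ => ()) (fun _ _ => rfl)] using this

end tup

/-! counting lemmas -/

lemma cnt_union_le {α : Type*} (f : X → α) (Y Y' : Set X) :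
    cnt f (Y ∪ Y') ≤ cnt f Y + cnt f Y' := by
  unfold cnt
  rw [image_union]
  exact Set.ncard_union_le _ _

lemma cnt_empty {α : Type*} (f : X → α) : cnt f ∅ = 0 := by simp [cnt]

lemma cnt_biUnion_le {α ι : Type*} (f : X → α) (J : Finset ι) (Y : ι → Set X) :
    cnt f (⋃ i ∈ J, Y i) ≤ ∑ i ∈ J, cnt f (Y i) := by
  classical
  induction J using Finset.induction_on with
  | empty => simp [cnt_empty]
  | insert a J ha ih =>
    rw [Finset.set_biUnion_insert, Finset.sum_insert ha]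
    exact (cnt_union_le _ _ _).trans (Nat.add_le_add_left ih _)

lemma cnt_le_sum_fiber {α β : Type*} {f : X → α} (hf : FR f) (t : X → β) (Y : Set X)
    (T : Finset β) (hT : ∀ x ∈ Y, t x ∈ T) :
    cnt f Y ≤ ∑ a ∈ T, cnt f (Y ∩ {x | t x = a}) := by
  refine le_trans (cnt_mono hf ?_) (cnt_biUnion_le f T _)
  intro x hx
  simp only [mem_iUnion]
  exact ⟨t x, hT x hx, hx, rfl⟩

lemma cnt_fiber {α β : Type*} {f : X → α} (hf : FR f) {t : X → β} (ht : FR t) (Y : Set X) {c : ℝ}
    (hc : ∀ x ∈ Y, (cnt f (Y ∩ {y | t y = t x}) : ℝ) ≤ c) : (cnt f Y : ℝ) ≤ cnt t Y * c := by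
  have h1 := cnt_le_sum_fiber hf t Y (ht.img Y).toFinset (fun x hx => by simpa using ⟨x, hx, rfl⟩)
  have h2 : (cnt f Y : ℝ) ≤ ∑ a ∈ (ht.img Y).toFinset, (cnt f (Y ∩ {x | t x = a}) : ℝ) := by
    exact_mod_cast h1
  refine h2.trans ?_
  unfold cnt
  rw [Set.ncard_eq_toFinset_card _ (ht.img Y), ← nsmul_eq_mul]
  refine Finset.sum_le_card_nsmul _ _ _ (fun a ha => ?_)
  obtain ⟨x, hx, rfl⟩ := (Set.Finite.mem_toFinset _).1 ha
  exact hc x hx

lemma cnt_precomp {α : Type*} {f : X → α} (hf : FR f) (T : X → X) {Y Y' : Set X}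
    (h : ∀ x ∈ Y, T x ∈ Y') : cnt (fun x => f (T x)) Y ≤ cnt f Y' := by
  unfold cnt
  refine Set.ncard_le_ncard ?_ (hf.img Y')
  rintro _ ⟨x, hx, rfl⟩
  exact ⟨T x, h x hx, rfl⟩

/-- a mean that is uniform on representatives of the values of `f` -/
lemma exists_unif [Nonempty X] {α : Type*} {f : X → α} (hf : FR f) :
    ∃ ν : Mean X, ν.μ univ = 1 ∧ ν.H f = log (cnt f univ) := by
  classical
  set c : ℝ := (cnt f univ : ℝ) with hc
  have c0 : 0 < c := by rw [hc]; exact_mod_cast cnt_pos hf univ_nonempty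
  have hcard : (hf.toFinset.card : ℝ) = c := by rw [hc, cnt_univ hf]
  set ν := Mean.wsum hf.toFinset (fun _ => c⁻¹) (fun _ => by positivity)
    (fun a => Mean.dirac (Function.invFun f a)) with hν
  have hμ : ∀ s, ν.μ s = ∑ a ∈ hf.toFinset, c⁻¹ * ind s (Function.invFun f a) := fun s => by
    rw [hν, Mean.wsum_μ]; rfl
  have h1 : ν.μ univ = 1 := by
    rw [hμ]; simp [ind, hcard, c0.ne']
  have h2 : ∀ x, ν.pr f x = c⁻¹ := by
    intro x
    unfold Mean.pr
    rw [hμ, Finset.sum_eq_single (f x)]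
    · rw [ind_of_mem, mul_one]
      exact Function.invFun_eq ⟨x, rfl⟩
    · intro b hb hne
      obtain ⟨y, rfl⟩ := (Set.Finite.mem_toFinset _).1 hb
      rw [ind_of_notMem, mul_zero]
      show ¬ f (Function.invFun f (f y)) = f x
      rw [Function.invFun_eq (f := f) ⟨y, rfl⟩]
      exact hne
    · intro h; exact absurd (by simp) h
  refine ⟨ν, h1, ?_⟩
  unfold Mean.H
  simp only [h2]
  rw [Mean.E_const, h1]
  simp

section group

variable {G : Type*} [Group G] [DecidableEq G]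

/-- right translate -/
def rt (T : Finset G) (c : G) : Finset G := T.image (· * c)

lemma mem_rt {T : Finset G} {c g : G} : g ∈ rt T c ↔ g * c⁻¹ ∈ T := by
  unfold rt
  simp only [Finset.mem_image]
  constructor
  · rintro ⟨t, ht, rfl⟩; simpa using ht
  · intro h; exact ⟨_, h, by simp⟩

lemma mul_mem_rt {T : Finset G} {c t : G} (h : t ∈ T) : t * c ∈ rt T c := by simp [mem_rt, h]

lemma card_rt (T : Finset G) (c : G) : (rt T c).card = T.card :=
  Finset.card_image_of_injective _ (mul_left_injective c)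

/-- boundary -/
def bdy (K S : Finset G) : Finset G := K.biUnion (fun k => S ∆ (k⁻¹ • S))

lemma mem_bdy {K S : Finset G} {g : G} : g ∈ bdy K S ↔ ∃ k ∈ K, ¬ (g ∈ S ↔ k * g ∈ S) := by
  unfold bdy
  simp only [Finset.mem_biUnion, Finset.mem_symmDiff, Finset.mem_inv_smul_finset_iff, smul_eq_mul]
  refine exists_congr (fun k => and_congr_right (fun _ => ?_))
  tauto

lemma notMem_bdy {K S : Finset G} {g : G} : g ∉ bdy K S ↔ ∀ k ∈ K, (g ∈ S ↔ k * g ∈ S) := by
  rw [mem_bdy]; push Not; rfl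

lemma bdy_mono {K K' : Finset G} (h : K ⊆ K') (S : Finset G) : bdy K S ⊆ bdy K' S :=
  Finset.biUnion_subset_biUnion_of_subset_left _ h

lemma bdy_rt (K S : Finset G) (c : G) : bdy K (rt S c) = rt (bdy K S) c := by
  ext g
  simp only [mem_bdy, mem_rt, mul_assoc]

lemma bdy_union (K A B : Finset G) : bdy K (A ∪ B) ⊆ bdy K A ∪ bdy K B := by
  intro g hg
  by_contra h
  simp only [Finset.mem_union, not_or, notMem_bdy] at h
  obtain ⟨k, hk, h'⟩ := mem_bdy.1 hg
  have := h.1 k hk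
  have := h.2 k hk
  simp only [Finset.mem_union] at h'
  tauto

lemma bdy_sdiff (K A B : Finset G) : bdy K (A \ B) ⊆ bdy K A ∪ bdy K B := by
  intro g hg
  by_contra h
  simp only [Finset.mem_union, not_or, notMem_bdy] at h
  obtain ⟨k, hk, h'⟩ := mem_bdy.1 hg
  have := h.1 k hk
  have := h.2 k hk
  simp only [Finset.mem_sdiff] at h'
  tauto

lemma bdy_biUnion {κ : Type*} (K : Finset G) (J : Finset κ) (S : κ → Finset G) :
    bdy K (J.biUnion S) ⊆ J.biUnion (fun j => bdy K (S j)) := by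
  intro g hg
  by_contra h
  simp only [Finset.mem_biUnion, not_exists, not_and, notMem_bdy] at h
  obtain ⟨k, hk, h'⟩ := mem_bdy.1 hg
  apply h'
  simp only [Finset.mem_biUnion]
  exact exists_congr (fun j => and_congr_right (fun hj => h j hj k hk))

lemma card_mul_le_bdy (K Φ : Finset G) :
    (K * Φ).card ≤ Φ.card + K.card * (Φ ∩ bdy K Φ).card := by
  have : K * Φ ⊆ Φ ∪ K * (Φ ∩ bdy K Φ) := by
    intro g hg
    obtain ⟨k, hk, a, ha, rfl⟩ := Finset.mem_mul.1 hg
    by_cases h : k * a ∈ Φ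
    · exact Finset.mem_union_left _ h
    · exact Finset.mem_union_right _ (Finset.mul_mem_mul hk (Finset.mem_inter.2
        ⟨ha, mem_bdy.2 ⟨k, hk, by tauto⟩⟩))
  exact (Finset.card_le_card this).trans ((Finset.card_union_le _ _).trans
    (Nat.add_le_add_left Finset.card_mul_le _))

lemma cover_count (F Φ I : Finset G) (h : ∀ f ∈ F, ∀ a ∈ Φ, f⁻¹ * a ∈ I) :
    ∀ a ∈ Φ, F.card ≤ (I.filter (fun g => a ∈ rt F g)).card := by
  intro a ha
  refine Finset.card_le_card_of_injOn (fun f => f⁻¹ * a) ?_ ?_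
  · intro f hf
    simp only [Finset.coe_filter, mem_ofPred_eq, mem_rt]
    exact ⟨h f hf a ha, by simpa using hf⟩
  · intro f _ f' _ e
    simpa using e

/-- the entropy rate attached to a function with the Shearer property -/
lemma exists_rate (φ : Finset G → ℝ) (h0 : ∀ F, 0 ≤ φ F)
    (hs : ∀ F Φ : Finset G, F.card * φ Φ ≤ (F⁻¹ * Φ).card * φ F) :
    ∃ h : ℝ, 0 ≤ h ∧ (∀ F : Finset G, h * F.card ≤ φ F) ∧
      ∀ δ > 0, ∃ K : Finset G, ∀ Φ : Finset G, φ Φ ≤ (h + δ) * (K * Φ).card := by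
  set S : Set ℝ := {r | ∃ F : Finset G, F.Nonempty ∧ r = φ F / F.card} with hS
  have hne : S.Nonempty := ⟨_, {1}, by simp, rfl⟩
  have hlb : ∀ r ∈ S, 0 ≤ r := by
    rintro _ ⟨F, -, rfl⟩
    exact div_nonneg (h0 F) (Nat.cast_nonneg _)
  refine ⟨sInf S, le_csInf hne hlb, fun F => ?_, fun δ hδ => ?_⟩
  · rcases F.eq_empty_or_nonempty with rfl | hF
    · simpa using h0 ∅
    · have c0 : (0 : ℝ) < F.card := by exact_mod_cast hF.card_pos
      rw [← le_div_iff₀ c0]
      exact csInf_le ⟨0, hlb⟩ ⟨F, hF, rfl⟩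
  · obtain ⟨_, ⟨F, hF, rfl⟩, hlt⟩ := exists_lt_of_csInf_lt hne (lt_add_of_pos_right (sInf S) hδ)
    refine ⟨F⁻¹, fun Φ => ?_⟩
    have c0 : (0 : ℝ) < F.card := by exact_mod_cast hF.card_pos
    rw [div_lt_iff₀ c0] at hlt
    have := hs F Φ
    have c1 : (0 : ℝ) ≤ (F⁻¹ * Φ).card := Nat.cast_nonneg _
    refine le_of_mul_le_mul_left ?_ c0
    nlinarith

variable [MulAction G X]

/-- the name of `x` along `F` -/
def nm {β : Type*} (P : X → β) (F : Finset G) : X → G → Option β :=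
  tup (fun g x => P (g • x)) F

lemma nm_eq_iff {β : Type*} {P : X → β} {F : Finset G} {x y : X} :
    nm P F x = nm P F y ↔ ∀ g ∈ F, P (g • x) = P (g • y) := tup_eq_iff

lemma FR_nm {β : Type*} {P : X → β} (hP : FR P) (F : Finset G) : FR (nm P F) :=
  FR_tup (fun g _ => hP.precomp (fun x => g • x))

lemma cnt_nm_le {β : Type*} {P : X → β} (hP : FR P) (F : Finset G) (Y : Set X) :
    cnt (nm P F) Y ≤ cnt P univ ^ F.card := by
  refine (cnt_tup_le (fun g _ => hP.precomp (fun x => g • x)) Y).trans ?_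
  exact Finset.prod_le_pow_card _ _ _ (fun g _ => cnt_precomp hP _ (fun _ _ => mem_univ _))

lemma nm_rt_iff {β : Type*} {P : X → β} {F : Finset G} {c : G} {x y : X} :
    nm P (rt F c) x = nm P (rt F c) y ↔ nm P F (c • x) = nm P F (c • y) := by
  simp only [nm_eq_iff, ← mul_smul]
  constructor
  · intro h g hg; exact h _ (mul_mem_rt hg)
  · intro h g hg; simpa using h _ (mem_rt.1 hg)

lemma nm_det {β γ : Type*} {P : X → β} {Q : X → γ} (h : Det P Q) {F F' : Finset G} (hF : F' ⊆ F) :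
    Det (nm P F) (nm Q F') := fun _ _ e =>
  nm_eq_iff.2 (fun g hg => h _ _ (nm_eq_iff.1 e g (hF hg)))

lemma det_refl {β : Type*} (P : X → β) : Det P P := fun _ _ h => h

lemma cnt_nm_rt {β : Type*} {P : X → β} (hP : FR P) (F : Finset G) (c : G) {Y Y' : Set X}
    (h : ∀ x ∈ Y, c • x ∈ Y') : cnt (nm P (rt F c)) Y ≤ cnt (nm P F) Y' :=
  (cnt_det ((FR_nm hP F).precomp (fun x => c • x)) (fun _ _ _ _ e => nm_rt_iff.2 e)).trans
    (cnt_precomp (FR_nm hP F) _ h)

variable (G) in
/-- invariance of a mean -/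
def Mean.Inv (m : Mean X) : Prop := ∀ (g : G) (s : Set X), m.μ {x | g • x ∈ s} = m.μ s

lemma Mean.Inv.H {m : Mean X} (hm : m.Inv G) {α : Type*} {f : X → α} (hf : FR f) (g : G) :
    m.H (fun x => f (g • x)) = m.H f := by
  have e : (hf.precomp (fun x => g • x)).toFinset = hf.toFinset := by
    ext a
    simp only [Set.Finite.mem_toFinset, mem_range]
    constructor
    · rintro ⟨x, rfl⟩; exact ⟨_, rfl⟩
    · rintro ⟨x, rfl⟩; exact ⟨g⁻¹ • x, by simp⟩
  rw [m.H_eq_sum hf, m.H_eq_sum (hf.precomp (fun x => g • x)), e]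
  refine Finset.sum_congr rfl (fun a _ => ?_)
  rw [← hm g {x | f x = a}]
  rfl

lemma Mean.Inv.H_rt {m : Mean X} (hm : m.Inv G) {β : Type*} {P : X → β} (hP : FR P) (F : Finset G)
    (c : G) : m.H (nm P (rt F c)) = m.H (nm P F) := by
  rw [← hm.H (FR_nm hP F) c]
  exact m.H_congr (fun _ _ e => nm_rt_iff.1 e) (fun _ _ e => nm_rt_iff.2 e)

lemma Mean.shearer_nm (m : Mean X) (h1 : m.μ univ = 1) {β : Type*} {P : X → β} (hP : FR P)
    (F Φ I : Finset G) (h : ∀ f ∈ F, ∀ a ∈ Φ, f⁻¹ * a ∈ I) :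
    F.card * m.H (nm P Φ) ≤ ∑ g ∈ I, m.H (nm P (rt F g)) :=
  m.shearer h1 (fun g => hP.precomp (fun x => g • x)) I (rt F) F.card Φ (cover_count F Φ I h)

lemma Mean.Inv.rate {m : Mean X} (hm : m.Inv G) (h1 : m.μ univ = 1) {β : Type*} {P : X → β}
    (hP : FR P) : ∃ h : ℝ, 0 ≤ h ∧ (∀ F : Finset G, h * F.card ≤ m.H (nm P F)) ∧
      ∀ δ > 0, ∃ K : Finset G, ∀ Φ : Finset G, m.H (nm P Φ) ≤ (h + δ) * (K * Φ).card := by
  refine exists_rate _ (fun F => m.H_nonneg h1 (FR_nm hP F)) (fun F Φ => ?_)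
  refine (m.shearer_nm h1 hP F Φ (F⁻¹ * Φ)
    (fun f hf a ha => Finset.mul_mem_mul (Finset.inv_mem_inv hf) ha)).trans (le_of_eq ?_)
  simp [hm.H_rt hP]

lemma cnt_rate [Nonempty X] {β : Type*} {P : X → β} (hP : FR P) :
    ∃ h : ℝ, 0 ≤ h ∧ (∀ F : Finset G, h * F.card ≤ log (cnt (nm P F) univ)) ∧
      ∀ δ > 0, ∃ K : Finset G, ∀ Φ : Finset G,
        log (cnt (nm P Φ) univ) ≤ (h + δ) * (K * Φ).card := by
  have pos : ∀ F : Finset G, (1 : ℝ) ≤ cnt (nm P F) univ := fun F => by
    exact_mod_cast cnt_pos (FR_nm hP F) univ_nonempty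
  refine exists_rate _ (fun F => log_nonneg (pos F)) (fun F Φ => ?_)
  obtain ⟨ν, h1, hν⟩ := exists_unif (FR_nm hP Φ)
  rw [← hν]
  refine (ν.shearer_nm h1 hP F Φ (F⁻¹ * Φ)
    (fun f hf a ha => Finset.mul_mem_mul (Finset.inv_mem_inv hf) ha)).trans ?_
  rw [← nsmul_eq_mul]
  refine Finset.sum_le_card_nsmul _ _ _ (fun g _ => ?_)
  refine ν.H_le_log h1 (FR_nm hP _) (by linarith [pos F]) ?_
  exact_mod_cast cnt_nm_rt hP F g (fun _ _ => mem_univ _)

end group

end Pool.Agent.P.MP_4cf0b2_an
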