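import Mathlib
import Pool.Agent.P.MP_4cf0b2_an.Defs
import Pool.Agent.P.MP_4cf0b2_an.Names

set_option autoImplicit false
set_option linter.unusedSectionVars false

namespace Pool.Agent.P.MP_4cf0b2_an

open Set Filter Real
open scoped Topology Pointwise symmDiff

variable {G : Type*} [Group G] [DecidableEq G] {F : ℕ → Finset G}

lemma Admissible.card_pos (hF : Admissible F) (n : ℕ) : (0 : ℝ) < (F n).card := by
  exact_mod_cast (hF.1 n).card_pos

lemma Admissible.one_le (hF : Admissible F) (n : ℕ) : (1 : ℝ) ≤ (F n).card := by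
  exact_mod_cast (hF.1 n).card_pos

lemma Admissible.bdy_le (hF : Admissible F) (K : Finset G) {δ : ℝ} (hδ : 0 < δ) :
    ∀ᶠ n in atTop, ((bdy K (F n)).card : ℝ) ≤ δ * (F n).card := by
  have h1 : Tendsto (fun n => ∑ k ∈ K, (((F n) ∆ (k⁻¹ • F n)).card : ℝ) / (F n).card) atTop
      (𝓝 0) := by
    simpa using tendsto_finsetSum K (fun k _ => hF.2.1 k⁻¹)
  filter_upwards [h1.eventually (gt_mem_nhds hδ)] with n hn
  rw [← Finset.sum_div, div_lt_iff₀ (hF.card_pos n)] at hn
  refine le_trans ?_ hn.le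
  exact_mod_cast Finset.card_biUnion_le

lemma Admissible.mul_le (hF : Admissible F) (K : Finset G) {δ : ℝ} (hδ : 0 < δ) :
    ∀ᶠ n in atTop, ((K * F n).card : ℝ) ≤ (1 + δ) * (F n).card := by
  filter_upwards [hF.bdy_le K (δ := δ / (K.card + 1)) (by positivity)] with n hn
  have h1 : ((K * F n).card : ℝ) ≤ (F n).card + K.card * ((F n ∩ bdy K (F n)).card : ℝ) := by
    exact_mod_cast card_mul_le_bdy K (F n)
  have h2 : ((F n ∩ bdy K (F n)).card : ℝ) ≤ (bdy K (F n)).card := by
    exact_mod_cast Finset.card_le_card Finset.inter_subset_right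
  have h3 : (K.card : ℝ) * (δ / (K.card + 1)) ≤ δ := by
    rw [mul_div_assoc', div_le_iff₀ (by positivity)]; nlinarith
  have h4 := hF.card_pos n
  have h5 : (0 : ℝ) ≤ K.card := Nat.cast_nonneg _
  nlinarith [mul_le_mul_of_nonneg_left (h2.trans hn) h5]

lemma Admissible.log_le (hF : Admissible F) (R : ℝ) :
    ∀ᶠ n : ℕ in atTop, R * log n ≤ (F n).card := by
  filter_upwards [hF.2.2.2.eventually_ge_atTop R, eventually_ge_atTop 2] with n hn h2
  have : 0 < log (n : ℝ) := log_pos (by exact_mod_cast h2)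
  rwa [le_div_iff₀ this] at hn

lemma Admissible.tendsto_card (hF : Admissible F) :
    Tendsto (fun n => ((F n).card : ℝ)) atTop atTop := by
  refine tendsto_atTop_mono' _ (hF.log_le 1) ?_
  simp only [one_mul]
  exact tendsto_log_atTop.comp tendsto_natCast_atTop_atTop

lemma Admissible.summable (hF : Admissible F) {θ : ℝ} (hθ : 0 < θ) :
    Summable (fun n => exp (-θ * (F n).card)) := by
  refine Summable.of_norm_bounded_eventually_nat (g := fun n : ℕ => 1 / (n : ℝ) ^ 2)
    (summable_one_div_nat_pow.2 one_lt_two) ?_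
  filter_upwards [hF.log_le (2 / θ), eventually_ge_atTop 1] with n hn h1
  have n0 : (0 : ℝ) < n := by exact_mod_cast h1
  rw [Real.norm_of_nonneg (exp_pos _).le, ← exp_log (x := 1 / (n : ℝ) ^ 2) (by positivity)]
  apply exp_le_exp.2
  rw [one_div, log_inv, log_pow]
  have := mul_le_mul_of_nonneg_left hn hθ.le
  rw [← mul_assoc, mul_div_cancel₀ _ hθ.ne'] at this
  push_cast
  linarith

lemma Admissible.sum_bound (hF : Admissible F) {θ : ℝ} (hθ : 0 < θ) :
    ∃ S : ℝ, 0 < S ∧ ∀ J : Finset ℕ, ∑ n ∈ J, exp (-θ * (F n).card) ≤ S :=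
  ⟨∑' n, exp (-θ * (F n).card), (hF.summable hθ).tsum_pos (fun _ => (exp_pos _).le) 0 (exp_pos _),
    fun J => (hF.summable hθ).sum_le_tsum J (fun _ _ => (exp_pos _).le)⟩

lemma Admissible.tail_size (hF : Admissible F) {θ ρ : ℝ} (hθ : 0 < θ) (hρ : 0 < ρ) :
    ∀ᶠ R : ℝ in atTop, ∀ J : Finset ℕ, (∀ n ∈ J, R ≤ (F n).card) →
      ∑ n ∈ J, exp (-θ * (F n).card) ≤ ρ := by
  obtain ⟨S, hS0, hS⟩ := hF.sum_bound (half_pos hθ)
  have h1 : Tendsto (fun R : ℝ => exp (-(θ / 2) * R) * S) atTop (𝓝 0) := by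
    have := (tendsto_exp_atBot.comp (tendsto_id.const_mul_atTop_of_neg
      (neg_lt_zero.2 (half_pos hθ)))).mul_const S
    simpa using this
  filter_upwards [h1.eventually (gt_mem_nhds hρ)] with R hR J hJ
  refine le_trans ?_ hR.le
  refine le_trans ?_ (mul_le_mul_of_nonneg_left (hS J) (exp_pos _).le)
  rw [Finset.mul_sum]
  refine Finset.sum_le_sum (fun n hn => ?_)
  rw [← exp_add]
  apply exp_le_exp.2
  nlinarith [hJ n hn]

lemma Admissible.tail (hF : Admissible F) {θ ρ : ℝ} (hθ : 0 < θ) (hρ : 0 < ρ) :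
    ∀ᶠ N in atTop, ∀ J : Finset ℕ, (∀ n ∈ J, N ≤ n) →
      ∑ n ∈ J, exp (-θ * (F n).card) ≤ ρ := by
  obtain ⟨R, hR⟩ := (hF.tail_size hθ hρ).exists
  obtain ⟨N0, hN0⟩ := eventually_atTop.1 (hF.tendsto_card.eventually_ge_atTop R)
  filter_upwards [eventually_ge_atTop N0] with N hN J hJ
  exact hR J (fun n hn => hN0 n (hN.trans (hJ n hn)))

lemma exists_record (F : ℕ → Finset G) (M0 : ℕ) :
    ∃ M, M0 ≤ M ∧ ∀ n, M ≤ n → (F M).card ≤ (F n).card := by
  obtain ⟨M, hM, h⟩ := (measure (fun n => (F n).card)).wf.has_min {n | M0 ≤ n} ⟨M0, le_refl M0⟩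
  exact ⟨M, hM, fun n hn => not_lt.1 (h n (le_trans hM hn))⟩

/-- the temperedness constant -/
def Tempered (F : ℕ → Finset G) (C : ℝ) : Prop :=
  0 < C ∧ ∀ n, 1 < n →
    (((Finset.range n).biUnion fun k => (F k)⁻¹ * F n).card : ℝ) ≤ C * (F n).card

lemma Admissible.mul_union_le (hF : Admissible F) {C : ℝ} (hC : Tempered F C) (K : Finset G) :
    ∀ᶠ M in atTop, ((K * (Finset.range M).biUnion F).card : ℝ) ≤ C * (F M).card := by
  filter_upwards [hF.bdy_le K⁻¹ (δ := 1 / 2) (by norm_num), eventually_gt_atTop 1] with M hM h1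
  have h2 : ∃ g ∈ F M, g ∉ bdy K⁻¹ (F M) := by
    by_contra h
    push Not at h
    have : ((F M).card : ℝ) ≤ (bdy K⁻¹ (F M)).card := by exact_mod_cast Finset.card_le_card h
    linarith [hF.card_pos M]
  obtain ⟨g, hg, hg'⟩ := h2
  refine le_trans ?_ (hC.2 M h1)
  exact_mod_cast Finset.card_le_card_of_injOn (fun a => a⁻¹ * g) (by
    intro a ha
    obtain ⟨k, hk, u, hu, rfl⟩ := Finset.mem_mul.1 ha
    obtain ⟨n, hn, hu⟩ := Finset.mem_biUnion.1 hu
    simp only [Finset.coe_biUnion, mem_iUnion]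
    refine ⟨n, hn, ?_⟩
    rw [mul_inv_rev, mul_assoc]
    exact Finset.mul_mem_mul (Finset.inv_mem_inv hu)
      ((notMem_bdy.1 hg' k⁻¹ (Finset.inv_mem_inv hk)).1 hg)) (by
    intro a _ b _ e
    simpa using e)

lemma Admissible.inv_hull (hF : Admissible F) {C : ℝ} (hC : Tempered F C) (K : Finset G) {ρ : ℝ}
    (hρ : 0 < ρ) : ∀ᶠ M in atTop, ∃ W : Finset G, (∀ n ≤ M, F n ⊆ W) ∧
      (W.card : ℝ) ≤ (C + 1) * (F M).card ∧ ((bdy K W).card : ℝ) ≤ ρ * (F M).card := by
  obtain ⟨L, hL⟩ := exists_nat_gt (2 * C / ρ)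
  have L0 : (0 : ℝ) < L := lt_trans (by have := hC.1; positivity) hL
  set K' : Finset G := insert 1 (K ∪ K⁻¹) with hK'
  filter_upwards [hF.mul_union_le hC (K' ^ (2 * L)), hF.bdy_le K (half_pos hρ)] with M h1 h2
  set U : ℕ → Finset G := fun i => K' ^ i * (Finset.range M).biUnion F with hU
  have step : ∀ i, U (i + 1) = K' * U i := fun i => by simp only [hU, pow_succ', mul_assoc]
  have mono1 : ∀ i, U i ⊆ U (i + 1) := fun i => by
    rw [step]; exact Finset.subset_mul_right _ (by simp [hK'])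
  have mono : Monotone U := monotone_nat_of_le_succ mono1
  have hb : ∀ i, bdy K (U (i + 1)) ⊆ U (i + 2) \ U i := by
    intro i g hg
    obtain ⟨k, hk, h⟩ := mem_bdy.1 hg
    rw [Finset.mem_sdiff]
    constructor
    · by_cases hg1 : g ∈ U (i + 1)
      · exact mono1 _ hg1
      · have : k * g ∈ U (i + 1) := by tauto
        rw [step (i + 1)]
        exact Finset.mem_mul.2 ⟨k⁻¹, by simp [hK', hk], _, this, by simp⟩
    · intro hg0
      apply h
      refine ⟨fun _ => ?_, fun _ => mono1 _ hg0⟩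
      rw [step i]
      exact Finset.mul_mem_mul (by simp [hK', hk]) hg0
  have hex : ∃ i < L, ((U (2 * (i + 1))).card : ℝ) - (U (2 * i)).card ≤ ρ / 2 * (F M).card := by
    by_contra h
    push Not at h
    have h3 := Finset.sum_range_sub (fun i => ((U (2 * i)).card : ℝ)) L
    have h4 : ∑ i ∈ Finset.range L, ρ / 2 * ((F M).card : ℝ) ≤
        ∑ i ∈ Finset.range L, (((U (2 * (i + 1))).card : ℝ) - (U (2 * i)).card) :=
      Finset.sum_le_sum (fun i hi => (h i (Finset.mem_range.1 hi)).le)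
    rw [h3, Finset.sum_const, Finset.card_range, nsmul_eq_mul] at h4
    rw [div_lt_iff₀ hρ] at hL
    have h5 : ((U (2 * L)).card : ℝ) ≤ C * (F M).card := h1
    have h6 : (0 : ℝ) ≤ (U (2 * 0)).card := Nat.cast_nonneg _
    nlinarith [hF.card_pos M]
  obtain ⟨i, hi, h3⟩ := hex
  refine ⟨U (2 * i + 1) ∪ F M, fun n hn => ?_, ?_, ?_⟩
  · rcases hn.lt_or_eq with hn | rfl
    · refine Finset.Subset.trans ?_ Finset.subset_union_left
      refine Finset.Subset.trans ?_ (mono (Nat.zero_le _))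
      simp only [hU, pow_zero, one_mul]
      exact Finset.subset_biUnion_of_mem F (Finset.mem_range.2 hn)
    · exact Finset.subset_union_right
  · have h4 : ((U (2 * i + 1) ∪ F M).card : ℝ) ≤ (U (2 * L)).card + (F M).card := by
      exact_mod_cast (Finset.card_union_le _ _).trans
        (Nat.add_le_add_right (Finset.card_le_card (mono (by omega))) _)
    have h5 : ((U (2 * L)).card : ℝ) ≤ C * (F M).card := h1
    linarith
  · have h4 : ((bdy K (U (2 * i + 1) ∪ F M)).card : ℝ) ≤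
        (U (2 * i + 2) \ U (2 * i)).card + (bdy K (F M)).card := by
      exact_mod_cast (Finset.card_le_card (bdy_union _ _ _)).trans ((Finset.card_union_le _ _).trans
        (Nat.add_le_add_right (Finset.card_le_card (hb _)) _))
    rw [Finset.card_sdiff_of_subset (mono (by omega)), Nat.cast_sub
      (Finset.card_le_card (mono (by omega)))] at h4
    rw [mul_add, mul_one] at h3
    linarith

lemma double_count (T B D : Finset G) :
    ∑ g ∈ D, (rt T g ∩ B).card ≤ T.card * B.card := by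
  have h1 : ∀ g, (rt T g ∩ B).card = ∑ t ∈ T, if t * g ∈ B then 1 else 0 := by
    intro g
    rw [← Finset.card_filter]
    symm
    refine Finset.card_bij (fun t _ => t * g) ?_ ?_ ?_
    · intro t ht
      rw [Finset.mem_filter] at ht
      exact Finset.mem_inter.2 ⟨mul_mem_rt ht.1, ht.2⟩
    · intro a _ b _ e
      simpa using e
    · intro b hb
      rw [Finset.mem_inter] at hb
      exact ⟨b * g⁻¹, by simp [mem_rt.1 hb.1, hb.2], by simp⟩
  simp only [h1]
  rw [Finset.sum_comm, ← smul_eq_mul]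
  refine Finset.sum_le_card_nsmul _ _ _ (fun t _ => ?_)
  rw [← Finset.card_filter]
  refine Finset.card_le_card_of_injOn (fun g => t * g) ?_ ?_
  · intro g hg
    exact (Finset.mem_filter.1 hg).2
  · intro a _ b _ e
    simpa using e

lemma card_le_of_overlap {T B D : Finset G} (hT : T.Nonempty) {ε : ℝ}
    (h : ∀ g ∈ D, ε * T.card ≤ (rt T g ∩ B).card) : ε * D.card ≤ B.card := by
  have h1 : ∑ g ∈ D, ((rt T g ∩ B).card : ℝ) ≤ T.card * B.card := by
    exact_mod_cast double_count T B D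
  have h2 := Finset.card_nsmul_le_sum D _ _ h
  rw [nsmul_eq_mul] at h2
  have t0 : (0 : ℝ) < T.card := by exact_mod_cast hT.card_pos
  refine le_of_mul_le_mul_left ?_ t0
  linarith

/-- one round of a Vitali type selection -/
lemma vitali (T : ℕ → Finset G) {ε : ℝ} (h1 : ε ≤ 1) (lv : G → ℕ) (D : Finset G) :
    ∃ D' ⊆ D, (1 - ε) * ∑ c ∈ D', ((T (lv c)).card : ℝ) ≤
        (D'.biUnion (fun c => rt (T (lv c)) c)).card ∧
      ∀ g ∈ D, ε * (T (lv g)).card ≤ (rt (T (lv g)) g ∩
        (D'.filter (fun c => lv g ≤ lv c)).biUnion (fun c => rt (T (lv c)) c)).card := by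
  induction D using Finset.induction_on_min_value lv with
  | empty => exact ⟨∅, by simp⟩
  | insert a D ha hmin ih =>
    obtain ⟨D', hD', h2, h3⟩ := ih
    by_cases h : ε * (T (lv a)).card ≤
        (rt (T (lv a)) a ∩ D'.biUnion (fun c => rt (T (lv c)) c)).card
    · refine ⟨D', hD'.trans (Finset.subset_insert _ _), h2, fun g hg => ?_⟩
      rcases Finset.mem_insert.1 hg with rfl | hg
      · rwa [Finset.filter_true_of_mem (fun c hc => hmin c (hD' hc))]
      · exact h3 g hg
    · have ha' : a ∉ D' := fun h => ha (hD' h)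
      refine ⟨insert a D', Finset.insert_subset_insert _ hD', ?_, fun g hg => ?_⟩
      · rw [Finset.sum_insert ha', Finset.biUnion_insert]
        have := Finset.card_union_add_card_inter (rt (T (lv a)) a)
          (D'.biUnion (fun c => rt (T (lv c)) c))
        rw [card_rt] at this
        have : ((rt (T (lv a)) a ∪ D'.biUnion (fun c => rt (T (lv c)) c)).card : ℝ) +
          (rt (T (lv a)) a ∩ D'.biUnion (fun c => rt (T (lv c)) c)).card =
          (T (lv a)).card + (D'.biUnion (fun c => rt (T (lv c)) c)).card := by exact_mod_cast this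
        push Not at h
        linarith
      · rcases Finset.mem_insert.1 hg with rfl | hg
        · rw [Finset.inter_eq_left.2 (Finset.subset_biUnion_of_mem
            (fun c => rt (T (lv c)) c) (by simp)), card_rt]
          exact mul_le_of_le_one_left (Nat.cast_nonneg _) h1
        · refine (h3 g hg).trans ?_
          exact_mod_cast Finset.card_le_card (Finset.inter_subset_inter_left
            (Finset.biUnion_subset_biUnion_of_subset_left _
              (Finset.filter_subset_filter _ (Finset.subset_insert _ _))))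

lemma vitali_tempered (hF : Admissible F) {C : ℝ} (hC : Tempered F C) {ε : ℝ} (h0 : 0 < ε)
    (h1 : ε ≤ 1) (lv : G → ℕ) (D : Finset G) (hlv : ∀ g ∈ D, 1 < lv g) :
    ∃ D' ⊆ D, (1 - ε) * ∑ c ∈ D', ((F (lv c)).card : ℝ) ≤
        (D'.biUnion (fun c => rt (F (lv c)) c)).card ∧
      (D.card : ℝ) ≤ (C + 1 / ε) * ∑ c ∈ D', ((F (lv c)).card : ℝ) := by
  obtain ⟨D', hD', h2, h3⟩ := vitali F h1 lv D
  refine ⟨D', hD', h2, ?_⟩
  set D1 := D'.biUnion (fun c => rt ((Finset.range (lv c)).biUnion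
    fun k => (F k)⁻¹ * F (lv c)) c) with hD1
  set B : ℕ → Finset G := fun n => (D'.filter (fun c => lv c = n)).biUnion
    (fun c => rt (F (lv c)) c) with hB
  set D2 : ℕ → Finset G := fun n => D.filter
    (fun g => ε * (F n).card ≤ (rt (F n) g ∩ B n).card) with hD2
  have hsub : D ⊆ D1 ∪ (D'.image lv).biUnion D2 := by
    intro g hg
    rw [Finset.mem_union]
    by_cases hg1 : g ∈ D1
    · exact Or.inl hg1
    right
    have e : rt (F (lv g)) g ∩ (D'.filter (fun c => lv g ≤ lv c)).biUnion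
        (fun c => rt (F (lv c)) c) ⊆ rt (F (lv g)) g ∩ B (lv g) := by
      intro a ha
      rw [Finset.mem_inter] at ha ⊢
      refine ⟨ha.1, ?_⟩
      obtain ⟨c, hc, hac⟩ := Finset.mem_biUnion.1 ha.2
      rw [Finset.mem_filter] at hc
      refine Finset.mem_biUnion.2 ⟨c, Finset.mem_filter.2 ⟨hc.1, ?_⟩, hac⟩
      by_contra hne
      apply hg1
      refine Finset.mem_biUnion.2 ⟨c, hc.1, mem_rt.2 (Finset.mem_biUnion.2
        ⟨lv g, Finset.mem_range.2 (lt_of_le_of_ne hc.2 (Ne.symm hne)), ?_⟩)⟩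
      exact Finset.mem_mul.2 ⟨_, Finset.inv_mem_inv (mem_rt.1 ha.1), _, mem_rt.1 hac, by group⟩
    have h4 : ε * (F (lv g)).card ≤ (rt (F (lv g)) g ∩ B (lv g)).card :=
      (h3 g hg).trans (by exact_mod_cast Finset.card_le_card e)
    refine Finset.mem_biUnion.2 ⟨lv g, ?_, Finset.mem_filter.2 ⟨hg, h4⟩⟩
    have h5 : 0 < (rt (F (lv g)) g ∩ B (lv g)).card := by
      have := mul_pos h0 (hF.card_pos (lv g))
      exact_mod_cast this.trans_le h4
    obtain ⟨a, ha⟩ := Finset.card_pos.1 h5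
    obtain ⟨c, hc, -⟩ := Finset.mem_biUnion.1 (Finset.mem_inter.1 ha).2
    rw [Finset.mem_filter] at hc
    exact Finset.mem_image.2 ⟨c, hc.1, hc.2⟩
  have c1 : (D1.card : ℝ) ≤ C * ∑ c ∈ D', ((F (lv c)).card : ℝ) := by
    have : (D1.card : ℝ) ≤ ∑ c ∈ D', ((rt ((Finset.range (lv c)).biUnion
      fun k => (F k)⁻¹ * F (lv c)) c).card : ℝ) := by exact_mod_cast Finset.card_biUnion_le
    refine this.trans ?_
    rw [Finset.mul_sum]
    refine Finset.sum_le_sum (fun c hc => ?_)
    rw [card_rt]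
    exact hC.2 _ (hlv c (hD' hc))
  have c2 : ∀ n, ((D2 n).card : ℝ) ≤
      1 / ε * ∑ c ∈ D'.filter (fun c => lv c = n), ((F (lv c)).card : ℝ) := by
    intro n
    have h4 : ε * (D2 n).card ≤ (B n).card :=
      card_le_of_overlap (hF.1 n) (fun g hg => (Finset.mem_filter.1 hg).2)
    have h5 : ((B n).card : ℝ) ≤ ∑ c ∈ D'.filter (fun c => lv c = n), ((F (lv c)).card : ℝ) := by
      have : ((B n).card : ℝ) ≤ ∑ c ∈ D'.filter (fun c => lv c = n),
        ((rt (F (lv c)) c).card : ℝ) := by exact_mod_cast Finset.card_biUnion_le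
      simpa [card_rt] using this
    rw [one_div, ← div_eq_inv_mul, le_div_iff₀ h0]
    linarith
  have c3 : (((D'.image lv).biUnion D2).card : ℝ) ≤ 1 / ε * ∑ c ∈ D', ((F (lv c)).card : ℝ) := by
    have : (((D'.image lv).biUnion D2).card : ℝ) ≤ ∑ n ∈ D'.image lv, ((D2 n).card : ℝ) := by
      exact_mod_cast Finset.card_biUnion_le
    refine this.trans ((Finset.sum_le_sum (fun n _ => c2 n)).trans (le_of_eq ?_))
    rw [← Finset.mul_sum, Finset.sum_fiberwise_of_maps_to (fun c hc => Finset.mem_image_of_mem lv hc)]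
  have c4 : (D.card : ℝ) ≤ D1.card + ((D'.image lv).biUnion D2).card := by
    exact_mod_cast (Finset.card_le_card hsub).trans (Finset.card_union_le _ _)
  linarith

lemma vitali_single {T : Finset G} (hT : T.Nonempty) (D : Finset G) :
    ∃ D' ⊆ D, (D'.card : ℝ) * T.card ≤ 2 * (D'.biUnion (fun c => rt T c)).card ∧
      (D.card : ℝ) ≤ 2 * (D'.biUnion (fun c => rt T c)).card := by
  obtain ⟨D', hD', h2, h3⟩ := vitali (fun _ => T) (ε := 1 / 2) (by norm_num) (fun _ => 0) D
  refine ⟨D', hD', ?_, ?_⟩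
  · rw [Finset.sum_const, nsmul_eq_mul] at h2
    linarith
  · have := card_le_of_overlap hT (D := D) (B := D'.biUnion (fun c => rt T c)) (ε := 1 / 2)
      (fun g hg => by simpa using h3 g hg)
    linarith

end Pool.Agent.P.MP_4cf0b2_an
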