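import Mathlib
import Pool.Agent.P.MP_4cf0b2_an.Defs2
import Pool.Agent.P.MP_4cf0b2_an.Folner

set_option autoImplicit false
set_option linter.unusedSectionVars false

namespace Pool.Agent.P.MP_4cf0b2_an

open Set Filter Real
open scoped Topology Pointwise symmDiff

variable {G X : Type*} [Group G] [DecidableEq G] [MulAction G X] {F : ℕ → Finset G}

lemma Mean.tendsto_H {ν : ℕ → Mean X} {m : Mean X} {l : Filter ℕ}
    (h : ∀ φ, FR φ → Tendsto (fun n => (ν n).E φ) l (𝓝 (m.E φ))) {α : Type*} {f : X → α}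
    (hf : FR f) : Tendsto (fun n => (ν n).H f) l (𝓝 (m.H f)) := by
  simp only [Mean.H_eq_sum _ hf]
  exact tendsto_finsetSum _ (fun a _ =>
    (continuous_negMulLog.tendsto _).comp (h _ (FR.ind _)))

variable (G) in
/-- an invariant mean of maximal entropy for the names of `ω` -/
structure MME {β : Type*} (m : Mean X) (ω : X → β) (h0 : ℝ) : Prop where
  total : m.μ univ = 1
  inv : m.Inv G
  nonneg : 0 ≤ h0
  low : ∀ F : Finset G, h0 * F.card ≤ m.H (nm ω F)
  up : ∀ δ > 0, ∃ K : Finset G, ∀ Φ : Finset G,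
    log (cnt (nm ω Φ) univ) ≤ (h0 + δ) * (K * Φ).card

lemma abs_sum_sub_le (A B : Finset G) (a : G → ℝ) (h0 : ∀ g, 0 ≤ a g) (h1 : ∀ g, a g ≤ 1) :
    |∑ g ∈ A, a g - ∑ g ∈ B, a g| ≤ (A ∆ B).card := by
  have e : ∑ g ∈ A, a g - ∑ g ∈ B, a g = ∑ g ∈ A \ B, a g - ∑ g ∈ B \ A, a g :=
    Finset.sum_sdiff_sub_sum_sdiff.symm
  have b1 : ∀ S : Finset G, S ⊆ A ∆ B → 0 ≤ ∑ g ∈ S, a g ∧ ∑ g ∈ S, a g ≤ (A ∆ B).card := by
    intro S hS
    refine ⟨Finset.sum_nonneg (fun g _ => h0 g), ?_⟩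
    have := Finset.sum_le_card_nsmul S a 1 (fun g _ => h1 g)
    rw [nsmul_eq_mul, mul_one] at this
    exact this.trans (by exact_mod_cast Finset.card_le_card hS)
  have c1 := b1 (A \ B) (fun g hg => by simp only [Finset.mem_symmDiff, Finset.mem_sdiff] at *; tauto)
  have c2 := b1 (B \ A) (fun g hg => by simp only [Finset.mem_symmDiff, Finset.mem_sdiff] at *; tauto)
  rw [e, abs_le]
  constructor <;> linarith

theorem exists_MME [Nonempty X] (hF : Admissible F) {β : Type*} {ω : X → β} (hω : FR ω) :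
    ∃ (m : Mean X) (h0 : ℝ), MME G m ω h0 := by
  obtain ⟨h0, h00, hlow, hup⟩ := cnt_rate (G := G) hω
  choose ν hν1 hν using fun n => exists_unif (FR_nm hω (F n))
  set mn : ℕ → Mean X := fun n => Mean.wsum (F n) (fun _ => ((F n).card : ℝ)⁻¹)
    (fun _ => by positivity) (fun g => (ν n).push (fun x => g • x)) with hmn
  have hμ : ∀ n s, (mn n).μ s = ((F n).card : ℝ)⁻¹ * ∑ g ∈ F n, (ν n).μ {x | g • x ∈ s} := by
    intro n s
    simp only [hmn, Mean.wsum_μ, Finset.mul_sum]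
    rfl
  have h1 : ∀ n, (mn n).μ univ = 1 := by
    intro n
    rw [hμ]
    simp [hν1, (hF.card_pos n).ne']
  obtain ⟨m, hm⟩ := Mean.exists_lim mn (fun n => (h1 n).le)
  have hle : (hyperfilter ℕ : Filter ℕ) ≤ atTop := Nat.hyperfilter_le_atTop
  have m1 : m.μ univ = 1 := by
    have := hm _ (FR.ind univ)
    change Tendsto (fun n => (mn n).μ univ) _ _ at this
    simp only [h1] at this
    exact tendsto_nhds_unique this tendsto_const_nhds
  refine ⟨m, h0, m1, ?_, h00, ?_, hup⟩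
  · intro s B
    have t1 : Tendsto (fun n => (mn n).μ {x | s • x ∈ B} - (mn n).μ B) (hyperfilter ℕ)
        (𝓝 (m.μ {x | s • x ∈ B} - m.μ B)) := (hm _ (FR.ind _)).sub (hm _ (FR.ind _))
    have t2 : Tendsto (fun n => (mn n).μ {x | s • x ∈ B} - (mn n).μ B) atTop (𝓝 0) := by
      refine squeeze_zero_norm (fun n => ?_) (hF.2.1 s)
      rw [hμ, hμ, ← mul_sub, norm_mul, Real.norm_of_nonneg (by positivity), mul_comm,
        ← div_eq_mul_inv]
      refine div_le_div_of_nonneg_right ?_ (hF.card_pos n).le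
      have e : ∑ g ∈ F n, (ν n).μ {x | g • x ∈ {x | s • x ∈ B}} =
          ∑ g ∈ s • F n, (ν n).μ {x | g • x ∈ B} := by
        rw [Finset.smul_finset_def, Finset.sum_image (fun a _ b _ e => by simpa using e)]
        simp [mul_smul]
      rw [e, symmDiff_comm]
      exact abs_sum_sub_le _ _ _ (fun g => Mean.μ_nonneg _ _)
        (fun g => ((ν n).μ_mono (subset_univ _)).trans (hν1 n).le)
    exact sub_eq_zero.1 (tendsto_nhds_unique t1 (t2.mono_left hle))
  · intro T
    set a : ℝ := log (cnt ω univ) with ha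
    have c1 : (1 : ℝ) ≤ cnt ω univ := by exact_mod_cast cnt_pos hω univ_nonempty
    have a0 : 0 ≤ a := log_nonneg c1
    refine le_of_forall_pos_le_add (fun ε hε => ?_)
    refine le_trans ?_ (add_le_add_left (ge_of_tendsto (Mean.tendsto_H hm (FR_nm hω T))
      (b := h0 * T.card - ε) ?_) ε)
    · linarith
    refine Filter.Eventually.filter_mono hle ?_
    filter_upwards [hF.bdy_le T⁻¹ (δ := ε / (T.card * a + 1)) (by positivity)] with n hn
    have n0 := hF.card_pos n
    have s1 := Mean.concave (F n) (fun _ => ((F n).card : ℝ)⁻¹) (fun _ => by positivity)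
      (by simp [n0.ne']) (fun g => (ν n).push (fun x => g • x)) (fun g => hν1 n) (FR_nm hω T)
    have s2 := (ν n).shearer_nm (hν1 n) hω T (F n \ bdy T⁻¹ (F n)) (F n) (fun f hf b hb => by
      rw [Finset.mem_sdiff, notMem_bdy] at hb
      exact (hb.2 _ (Finset.inv_mem_inv hf)).1 hb.1)
    have s3 : ∀ g, ((ν n).push (fun x => g • x)).H (nm ω T) = (ν n).H (nm ω (rt T g)) := fun g => by
      rw [Mean.push_H]
      exact (ν n).H_congr (fun _ _ e => nm_rt_iff.2 e) (fun _ _ e => nm_rt_iff.1 e)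
    have s4 : (ν n).H (nm ω (F n)) ≤ (ν n).H (nm ω (F n \ bdy T⁻¹ (F n))) +
        (bdy T⁻¹ (F n)).card * a := by
      refine ((ν n).H_mono (FR.prod (FR_nm hω (F n \ bdy T⁻¹ (F n))) (FR_nm hω (bdy T⁻¹ (F n))))
        ?_).trans (((ν n).H_pair_le (hν1 n) (FR_nm hω _) (FR_nm hω _)).trans ?_)
      · intro x y e
        simp only [Prod.mk.injEq, nm_eq_iff, Finset.mem_sdiff] at e ⊢
        intro g hg
        by_cases h : g ∈ bdy T⁻¹ (F n)
        · exact e.2 g h
        · exact e.1 g ⟨hg, h⟩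
      · have := (ν n).H_le_log (hν1 n) (FR_nm hω (bdy T⁻¹ (F n)))
          (c := (cnt ω univ : ℝ) ^ (bdy T⁻¹ (F n)).card) (by positivity)
          (by exact_mod_cast cnt_nm_le hω _ _)
        rw [log_pow] at this
        linarith
    have s5 := hlow (F n)
    rw [← hν n] at s5
    simp only [s3] at s1
    rw [← Finset.mul_sum] at s1
    refine le_trans ?_ s1
    rw [← div_eq_inv_mul, le_div_iff₀ n0]
    refine le_trans ?_ s2
    have t0 : (0 : ℝ) ≤ T.card := Nat.cast_nonneg _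
    have s6 : (T.card * a) * (ε / (T.card * a + 1)) ≤ ε := by
      rw [mul_div_assoc', div_le_iff₀ (by positivity)]; nlinarith [mul_nonneg t0 a0]
    have s7 := mul_le_mul_of_nonneg_left hn (mul_nonneg t0 a0)
    nlinarith

lemma MME.cnt_le {β : Type*} {m : Mean X} {ω : X → β} {h0 : ℝ} (h : MME G m ω h0) (hω : FR ω)
    {δ : ℝ} (hδ : 0 < δ) : ∃ K : Finset G, ∀ Φ : Finset G,
      (cnt (nm ω Φ) univ : ℝ) ≤ exp ((h0 + δ) * (K * Φ).card) := by
  obtain ⟨K, hK⟩ := h.up δ hδ
  refine ⟨K, fun Φ => ?_⟩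
  rcases Nat.eq_zero_or_pos (cnt (nm ω Φ) univ) with e | e
  · rw [e]; simpa using (exp_pos _).le
  · rw [← exp_log (x := (cnt (nm ω Φ) univ : ℝ)) (by exact_mod_cast e)]
    exact exp_le_exp.2 (hK Φ)

/-- the fine names keep their relative entropy whatever coarse names are given -/
lemma MME.cond_low (hF : Admissible F) {β γ : Type*} {m : Mean X} {ω : X → β} {h0 : ℝ}
    (h : MME G m ω h0) (hω : FR ω) {P : X → γ} (hP : FR P) {hp : ℝ}
    (hlow : ∀ T : Finset G, hp * T.card ≤ m.H (nm P T)) (T E : Finset G) :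
    (hp - h0) * T.card ≤ m.H (fun x => (nm P T x, nm ω E x)) - m.H (nm ω E) := by
  set c := m.H (fun x => (nm P T x, nm ω E x)) - m.H (nm ω E) with hc
  have c0 : 0 ≤ c := sub_nonneg.2 (m.H_mono (FR.prod (FR_nm hP T) (FR_nm hω E))
    (fun x y e => by simp only [Prod.mk.injEq] at e; exact e.2))
  have t0 : (0 : ℝ) ≤ T.card := Nat.cast_nonneg _
  have key : ∀ δ : ℝ, 0 < δ → (hp - (h0 + δ) * (1 + δ)) * T.card ≤ (1 + δ) * c := by
    intro δ hδ
    obtain ⟨K, hK⟩ := h.cnt_le hω hδ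
    obtain ⟨n, h1, h2⟩ := ((hF.mul_le T⁻¹ hδ).and (hF.mul_le (K * E * T⁻¹) hδ)).exists
    set E' := E * (T⁻¹ * F n) with hE'
    have s1 := m.shearer_cond h.total (fun g => hP.precomp (fun x => g • x)) (FR_nm hω E')
      (T⁻¹ * F n) (rt T) T.card (F n) (cover_count T (F n) _
        (fun f hf a ha => Finset.mul_mem_mul (Finset.inv_mem_inv hf) ha))
    have s2 : ∀ g ∈ T⁻¹ * F n, m.H (fun x => (nm P (rt T g) x, nm ω E' x)) - m.H (nm ω E') ≤ c := by
      intro g hg
      have := m.cond_mono h.total (FR_nm hP (rt T g)) (FR_nm hω E') (h := nm ω (rt E g))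
        (nm_det (det_refl ω) (fun a ha => by
          exact Finset.mem_mul.2 ⟨_, mem_rt.1 ha, g, hg, by simp⟩))
      refine this.trans (le_of_eq ?_)
      rw [hc, h.inv.H_rt hω, ← h.inv.H (FR.prod (FR_nm hP T) (FR_nm hω E)) g]
      congr 1
      exact m.H_congr (fun x y e => by simpa only [Prod.mk.injEq, nm_rt_iff] using e)
        (fun x y e => by simpa only [Prod.mk.injEq, nm_rt_iff] using e)
    have s3 := s1.trans (Finset.sum_le_card_nsmul _ _ _ s2)
    rw [nsmul_eq_mul] at s3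
    have s4 : m.H (nm P (F n)) ≤ m.H (fun x => (nm P (F n) x, nm ω E' x)) :=
      m.H_mono (FR.prod (FR_nm hP _) (FR_nm hω _))
        (fun x y e => by simp only [Prod.mk.injEq] at e; exact e.1)
    have s5 := m.H_le_log h.total (FR_nm hω E') (exp_pos _) (hK E')
    rw [log_exp, hE', ← mul_assoc, ← mul_assoc, ← mul_assoc K] at s5
    have s6 := hlow (F n)
    have n0 := hF.card_pos n
    have s7 := mul_le_mul_of_nonneg_left h2 (add_nonneg h.nonneg hδ.le)
    have s8 := mul_le_mul_of_nonneg_right h1 c0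
    have s9 : (hp - (h0 + δ) * (1 + δ)) * (F n).card ≤
      m.H (fun x => (nm P (F n) x, nm ω E' x)) - m.H (nm ω E') := by
      simp only [hE', ← mul_assoc]
      simp only [hE', ← mul_assoc] at s4 s5 s7
      nlinarith
    have s10 := mul_le_mul_of_nonneg_left s9 t0
    refine le_of_mul_le_mul_right ?_ n0
    change (T.card : ℝ) * (m.H (fun x => (nm P (F n) x, nm ω E' x)) - m.H (nm ω E')) ≤ _ at s3
    nlinarith
  have t1 : Tendsto (fun δ : ℝ => (hp - (h0 + δ) * (1 + δ)) * T.card) (𝓝[>] 0)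
      (𝓝 ((hp - (h0 + 0) * (1 + 0)) * T.card)) :=
    (Continuous.tendsto (by fun_prop) 0).mono_left nhdsWithin_le_nhds
  have t2 : Tendsto (fun δ : ℝ => (1 + δ) * c) (𝓝[>] 0) (𝓝 ((1 + 0) * c)) :=
    (Continuous.tendsto (by fun_prop) 0).mono_left nhdsWithin_le_nhds
  simpa using le_of_tendsto_of_tendsto t1 t2
    (eventually_nhdsWithin_of_forall (fun δ hδ => key δ hδ))

end Pool.Agent.P.MP_4cf0b2_an
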