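import Mathlib
import Pool.Agent.P.MP_4cf0b2_an.MME

set_option autoImplicit false
set_option linter.unusedSectionVars false

namespace Pool.Agent.P.MP_4cf0b2_an

open Set Filter Real
open scoped Topology Pointwise ENNReal

variable {G X : Type*} [Group G] [DecidableEq G] [MulAction G X] [MetricSpace X]
  {F : ℕ → Finset G}

lemma exists_centers [CompactSpace X] {ρ : ℝ} (hρ : 0 < ρ) :
    ∃ (r : ℕ) (a : Fin r → X), ∀ x, ∃ i, dist x (a i) < ρ := by
  obtain ⟨t, -, ht, h⟩ := finite_cover_balls_of_compact (isCompact_univ (X := X)) hρ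
  obtain ⟨r, a, -, ha⟩ := ht.fin_param
  refine ⟨r, a, fun x => ?_⟩
  have := h (mem_univ x)
  rw [← ha] at this
  simpa using this

lemma exists_fine [CompactSpace X] {ρ : ℝ} (hρ : 0 < ρ) :
    ∃ (r : ℕ) (P : X → Fin r), ∀ x y, P x = P y → dist x y ≤ ρ := by
  obtain ⟨r, a, h⟩ := exists_centers (X := X) (half_pos hρ)
  choose P hP using h
  refine ⟨r, P, fun x y e => ?_⟩
  have h1 := hP x
  have h2 := hP y
  rw [e] at h1
  linarith [dist_triangle_right x y (a (P y))]

lemma nonempty_of_hTop (h : hTop X F = ⊤) : Nonempty X := by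
  by_contra hX
  rw [not_nonempty_iff] at hX
  have : hTop X F ≤ 0 := by
    unfold hTop
    refine iSup_le (fun U => iSup_le (fun _ => iSup_le (fun _ => ?_)))
    have : ∀ n, coverNum U (F n) = 0 := fun n =>
      Nat.eq_zero_of_le_zero (Nat.sInf_le ⟨∅, by simp⟩)
    simp [this]
  rw [h] at this
  simp at this

lemma coverNum_le {κ β : Type*} (U : Finset (Set X)) (T : Finset G) (J : Finset κ)
    (ι : κ → X → β) (hι : ∀ l, FR (ι l)) (V : β → Set X) (hV : ∀ b, V b ∈ U)
    (hx : ∀ l ∈ J, ∀ x, x ∈ V (ι l x)) (Y : κ → Set X) (hY : ∀ x, ∃ l ∈ J, x ∈ Y l) :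
    coverNum U T ≤ ∑ l ∈ J, cnt (nm (ι l) T) (Y l) := by
  classical
  set W : (G → Option β) → G → Set X := fun v g => (v g).elim univ V with hW
  set S := J.biUnion (fun l => ((FR_nm (hι l) T).img (Y l)).toFinset.image W) with hS
  have key : ∀ l x, ∀ g ∈ T, W (nm (ι l) T x) g = V (ι l (g • x)) := by
    intro l x g hg
    simp [hW, nm, tup, hg]
  unfold coverNum
  refine le_trans (b := S.card) (Nat.sInf_le ⟨S, rfl, ?_, ?_⟩) ?_
  · intro u hu g hg
    obtain ⟨l, -, hu⟩ := Finset.mem_biUnion.1 hu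
    obtain ⟨v, hv, rfl⟩ := Finset.mem_image.1 hu
    obtain ⟨x, -, rfl⟩ := (Set.Finite.mem_toFinset _).1 hv
    rw [key l x g hg]
    exact hV _
  · intro x
    obtain ⟨l, hl, hxl⟩ := hY x
    refine ⟨W (nm (ι l) T x), Finset.mem_biUnion.2 ⟨l, hl, Finset.mem_image_of_mem _
      ((Set.Finite.mem_toFinset _).2 ⟨x, hxl, rfl⟩)⟩, fun g hg => ?_⟩
    rw [key l x g hg]
    exact hx l hl _
  · refine Finset.card_biUnion_le.trans (Finset.sum_le_sum (fun l _ => ?_))
    unfold cnt
    rw [Set.ncard_eq_toFinset_card _ ((FR_nm (hι l) T).img (Y l))]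
    exact Finset.card_image_le

theorem exists_coarse [CompactSpace X] (hF : Admissible F) (h : hTop X F = ⊤) (H0 : ℝ) :
    ∃ (r : ℕ) (ω : X → Option (Fin r)) (ι : X → Fin r) (ε : ℝ) (m : Mean X) (h0 : ℝ),
      0 < ε ∧ (∀ x y, dist x y < 2 * ε → ω y = none ∨ ω y = some (ι x)) ∧
      MME G m ω h0 ∧ H0 ≤ h0 := by
  classical
  have hX := nonempty_of_hTop h
  have h1 : ENNReal.ofReal (2 * |H0| + 4) < hTop X F := by rw [h]; exact ENNReal.ofReal_lt_top
  unfold hTop at h1
  simp only [lt_iSup_iff] at h1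
  obtain ⟨U, hUo, hUc, h1⟩ := h1
  obtain ⟨lam, hlam, hleb⟩ := lebesgue_number_lemma_of_metric_sUnion (isCompact_univ (X := X))
    (c := (U : Set (Set X))) hUo (fun x _ => by simpa using hUc x)
  obtain ⟨r, a, ha⟩ := exists_centers (X := X) (half_pos hlam)
  have r0 : 0 < r := by
    obtain ⟨i, -⟩ := ha hX.some
    exact i.pos
  have : Nonempty (Fin r) := ⟨⟨0, r0⟩⟩
  have r1 : (1 : ℝ) ≤ r := by exact_mod_cast r0
  choose V hVU hV using fun i => hleb (a i) (mem_univ _)
  set γ : ℝ := lam / (4 * r ^ 2) with hγ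
  have γ0 : 0 < γ := by positivity
  set ι : ℕ → X → Fin r := fun l x =>
    Classical.epsilon (fun i => dist x (a i) < lam / 2 + 2 * l * γ + γ) with hι
  set st : ℕ → X → Prop := fun l y =>
    ∀ i, dist y (a i) < lam / 2 + 2 * l * γ ∨ lam / 2 + 2 * l * γ + 2 * γ ≤ dist y (a i) with hst
  set ω : ℕ → X → Option (Fin r) := fun l y => if st l y then some (ι l y) else none with hω
  have hιV : ∀ l ∈ Finset.range (r ^ 2), ∀ x, x ∈ V (ι l x) := by
    intro l hl x
    have l0 : (0 : ℝ) ≤ l := Nat.cast_nonneg _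
    have l1 : (l : ℝ) + 1 ≤ r ^ 2 := by exact_mod_cast Finset.mem_range.1 hl
    have h2 : dist x (a (ι l x)) < lam / 2 + 2 * l * γ + γ := by
      refine Classical.epsilon_spec (p := fun i => dist x (a i) < lam / 2 + 2 * l * γ + γ) ?_
      obtain ⟨i, hi⟩ := ha x
      exact ⟨i, by nlinarith⟩
    have h3 : 4 * r ^ 2 * γ = lam := by rw [hγ]; field_simp
    apply hV
    rw [Metric.mem_ball]
    nlinarith
  have hsep : ∀ l x y, dist x y < 2 * (γ / 2) → ω l y = none ∨ ω l y = some (ι l x) := by
    intro l x y hxy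
    by_cases hy : st l y
    · right
      simp only [hω, hy, if_true, hι]
      congr 2
      funext i
      have t1 := dist_triangle x y (a i)
      have t2 := dist_triangle y x (a i)
      rw [dist_comm y x] at t2
      rcases hy i with h2 | h2
      · exact propext ⟨fun _ => by linarith, fun _ => by linarith⟩
      · exact propext ⟨fun _ => by linarith, fun _ => by linarith⟩
    · left; simp [hω, hy]
  have hun : ∀ y, ((Finset.range (r ^ 2)).filter (fun l => ¬ st l y)).card ≤ r := by
    intro y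
    have : (Finset.range (r ^ 2)).filter (fun l => ¬ st l y) ⊆
        Finset.univ.image (fun i => ⌊(dist y (a i) - lam / 2) / (2 * γ)⌋₊) := by
      intro l hl
      have h2 := (Finset.mem_filter.1 hl).2
      simp only [hst, not_forall, not_or, not_lt, not_le] at h2
      obtain ⟨i, h2, h3⟩ := h2
      refine Finset.mem_image.2 ⟨i, Finset.mem_univ _, ?_⟩
      have l0 : (0 : ℝ) ≤ l := Nat.cast_nonneg _
      rw [Nat.floor_eq_iff (div_nonneg (by nlinarith) (by positivity)),
        le_div_iff₀ (by positivity), div_lt_iff₀ (by positivity)]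
      constructor <;> linarith
    simpa using (Finset.card_le_card this).trans Finset.card_image_le
  have hlev : ∀ (T : Finset G) (x : X), ∃ l ∈ Finset.range (r ^ 2),
      (T.filter (fun g => ¬ st l (g • x))).card * r ≤ T.card := by
    intro T x
    refine Finset.exists_le_of_sum_le ⟨0, by simp [r0]⟩ ?_
    rw [← Finset.sum_mul, Finset.sum_const, Finset.card_range, smul_eq_mul]
    have : ∑ l ∈ Finset.range (r ^ 2), (T.filter (fun g => ¬ st l (g • x))).card ≤ T.card * r := by
      simp only [Finset.card_filter]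
      rw [Finset.sum_comm]
      refine (Finset.sum_le_card_nsmul _ _ r (fun g _ => ?_)).trans (le_of_eq (smul_eq_mul _ _))
      rw [← Finset.card_filter]
      exact hun _
    nlinarith
  have hcov : ∀ T : Finset G, (coverNum U T : ℝ) ≤
      ∑ l ∈ Finset.range (r ^ 2), (cnt (nm (ω l) T) univ : ℝ) * exp T.card := by
    intro T
    have h2 := coverNum_le U T (Finset.range (r ^ 2)) ι (fun l => FR.of_finite _) V hVU hιV
      (fun l => {x | (T.filter (fun g => ¬ st l (g • x))).card * r ≤ T.card}) (hlev T)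
    have h3 : (coverNum U T : ℝ) ≤ ∑ l ∈ Finset.range (r ^ 2), (cnt (nm (ι l) T)
      {x | (T.filter (fun g => ¬ st l (g • x))).card * r ≤ T.card} : ℝ) := by exact_mod_cast h2
    refine h3.trans (Finset.sum_le_sum (fun l _ => ?_))
    refine (cnt_fiber (FR_nm (FR.of_finite (ι l)) T) (FR_nm (FR.of_finite (ω l)) T) _
      (c := exp T.card) ?_).trans (mul_le_mul_of_nonneg_right
        (by exact_mod_cast cnt_mono (FR_nm (FR.of_finite (ω l)) T) (subset_univ _)) (exp_pos _).le)
    intro x hx
    set T' := T.filter (fun g => ¬ st l (g • x)) with hT'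
    have h4 := cnt_det (g := nm (ι l) T) (FR_nm (FR.of_finite (ι l)) T')
      (Y := {x | (T.filter (fun g => ¬ st l (g • x))).card * r ≤ T.card} ∩
        {y | nm (ω l) T y = nm (ω l) T x}) (by
        rintro y ⟨-, hy⟩ z ⟨-, hz⟩ e
        rw [mem_ofPred_eq, nm_eq_iff] at hy hz
        rw [nm_eq_iff] at e ⊢
        intro g hg
        by_cases hs : st l (g • x)
        · have e1 := hy g hg
          have e2 := hz g hg
          simp only [hω, hs, if_true] at e1 e2
          split_ifs at e1 e2
          rw [Option.some.inj e1, Option.some.inj e2]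
        · exact e g (Finset.mem_filter.2 ⟨hg, hs⟩))
    have h5 := h4.trans ((cnt_nm_le (FR.of_finite (ι l)) T' _).trans
      (Nat.pow_le_pow_left (cnt_le_card _ _) _))
    rw [Fintype.card_fin] at h5
    have h6 : (T'.card : ℝ) * r ≤ T.card := by exact_mod_cast hx
    refine le_trans (by exact_mod_cast h5) (b := (r : ℝ) ^ T'.card) ?_
    refine le_trans (pow_le_pow_left₀ (by positivity) (b := exp r)
      (by linarith [add_one_le_exp (r : ℝ)]) _) ?_
    rw [← exp_nat_mul]
    exact exp_le_exp.2 h6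
  by_contra hcon
  push Not at hcon
  choose m h0 hm using fun l => exists_MME hF (FR.of_finite (ω l))
  have hlt : ∀ l, h0 l < H0 := fun l => hcon r (ω l) (ι l) (γ / 2) (m l) (h0 l) (half_pos γ0)
    (hsep l) (hm l)
  have hev : ∀ l, ∀ᶠ n in atTop, (cnt (nm (ω l) (F n)) univ : ℝ) ≤
      exp ((2 * |H0| + 2) * (F n).card) := by
    intro l
    obtain ⟨K, hK⟩ := (hm l).cnt_le (FR.of_finite _) one_pos
    filter_upwards [hF.mul_le K one_pos] with n hn
    refine (hK _).trans (exp_le_exp.2 ?_)
    have := (hlt l).le.trans (le_abs_self H0)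
    have := (hm l).nonneg
    have := hF.card_pos n
    have : (0 : ℝ) ≤ (K * F n).card := Nat.cast_nonneg _
    nlinarith
  refine absurd h1 (not_lt.2 (limsup_le_of_le (by isBoundedDefault) ?_))
  filter_upwards [(eventually_all_finset (Finset.range (r ^ 2))).2 (fun l _ => hev l),
    hF.tendsto_card.eventually_ge_atTop ((r : ℝ) ^ 2)] with n hn hn'
  refine ENNReal.ofReal_le_ofReal ?_
  have n0 := hF.card_pos n
  rw [div_le_iff₀ n0]
  have h2 : (coverNum U (F n) : ℝ) ≤ exp ((2 * |H0| + 4) * (F n).card) := by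
    refine (hcov _).trans ((Finset.sum_le_card_nsmul _ _ _ (fun l hl =>
      mul_le_mul_of_nonneg_right (hn l hl) (exp_pos _).le)).trans ?_)
    rw [Finset.card_range, nsmul_eq_mul, ← exp_add]
    have : ((r ^ 2 : ℕ) : ℝ) ≤ exp (F n).card := by
      push_cast; linarith [add_one_le_exp ((F n).card : ℝ)]
    refine (mul_le_mul_of_nonneg_right this (exp_pos _).le).trans (le_of_eq ?_)
    rw [← exp_add]; congr 1; ring
  rcases Nat.eq_zero_or_pos (coverNum U (F n)) with e | e
  · rw [e]; simp only [Nat.cast_zero, log_zero]; positivity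
  · rwa [log_le_iff_le_exp (by exact_mod_cast e)]

end Pool.Agent.P.MP_4cf0b2_an
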