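import Mathlib
import Pool.Agent.P.MP_4cf0b2_an.Folner

set_option autoImplicit false
set_option linter.unusedSectionVars false

namespace Pool.Agent.P.MP_4cf0b2_an

open Set Filter Real
open scoped Topology Pointwise

variable {G : Type*} [Group G] [DecidableEq G] {F : ℕ → Finset G}

lemma vitali_single' {T : Finset G} (hT : T.Nonempty) {ε : ℝ} (h1 : ε ≤ 1) (D : Finset G) :
    ∃ D' ⊆ D, (1 - ε) * (D'.card * T.card) ≤ (D'.biUnion (fun c => rt T c)).card ∧
      ε * D.card ≤ (D'.biUnion (fun c => rt T c)).card := by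
  obtain ⟨D', hD', h2, h3⟩ := vitali (fun _ => T) h1 (fun _ => 0) D
  refine ⟨D', hD', ?_, card_le_of_overlap hT (fun g hg => by simpa using h3 g hg)⟩
  rwa [Finset.sum_const, nsmul_eq_mul] at h2

/-- quasi tilings -/
theorem quasi_tile (hF : Admissible F) {ε σ : ℝ} (h0 : 0 < ε) (h1 : ε < 1) (hσ : 0 < σ) (N : ℕ) :
    ∃ (K : Finset G) (L : ℝ) (N' : ℕ), 0 ≤ L ∧ ∀ Φ : Finset G, ∃ J : Finset (ℕ × G),
      (∀ p ∈ J, N ≤ p.1 ∧ p.1 ≤ N' ∧ rt (F p.1) p.2 ⊆ Φ) ∧
      (1 - ε) * ∑ p ∈ J, ((F p.1).card : ℝ) ≤ (J.biUnion (fun p => rt (F p.1) p.2)).card ∧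
      ((Φ \ J.biUnion (fun p => rt (F p.1) p.2)).card : ℝ) ≤ σ * Φ.card + L * (bdy K Φ).card := by
  obtain ⟨k, hk⟩ := exists_pow_lt_of_lt_one hσ (y := 1 - ε / 2) (by linarith)
  suffices h : ∃ (K : Finset G) (L : ℝ) (N' : ℕ), 0 ≤ L ∧ ∀ Φ : Finset G, ∃ J : Finset (ℕ × G),
      (∀ p ∈ J, N ≤ p.1 ∧ p.1 ≤ N' ∧ rt (F p.1) p.2 ⊆ Φ) ∧
      (1 - ε) * ∑ p ∈ J, ((F p.1).card : ℝ) ≤ (J.biUnion (fun p => rt (F p.1) p.2)).card ∧
      ((Φ \ J.biUnion (fun p => rt (F p.1) p.2)).card : ℝ) ≤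
        (1 - ε / 2) ^ k * Φ.card + L * (bdy K Φ).card by
    obtain ⟨K, L, N', L0, h⟩ := h
    refine ⟨K, L, N', L0, fun Φ => ?_⟩
    obtain ⟨J, a1, a2, a3⟩ := h Φ
    exact ⟨J, a1, a2, a3.trans (by gcongr)⟩
  clear hk
  induction k with
  | zero => exact ⟨∅, 0, 0, le_rfl, fun Φ => ⟨∅, by simp, by simp, by simp⟩⟩
  | succ k ih =>
    obtain ⟨K, L, N', L0, ih⟩ := ih
    set s : ℝ := (1 - ε / 2) ^ k with hs
    have s0 : 0 < s := pow_pos (by linarith) _
    obtain ⟨n, n1, n2⟩ := ((hF.bdy_le K (δ := s / 2 * (1 - ε) / (L + 1))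
      (div_pos (mul_pos (half_pos s0) (by linarith)) (by linarith))).and
      (eventually_ge_atTop N)).exists
    refine ⟨K ∪ F n, L + s / 2 * ε, max N' n, by positivity, fun Φ => ?_⟩
    obtain ⟨D', hD', v1, v2⟩ := vitali_single' (hF.1 n) h1.le (Φ \ bdy (F n) Φ)
    set Cov := D'.biUnion (fun c => rt (F n) c) with hCov
    have t1 : ∀ c ∈ D', rt (F n) c ⊆ Φ := by
      intro c hc g hg
      have h2 := hD' hc
      rw [Finset.mem_sdiff, notMem_bdy] at h2
      simpa using (h2.2 _ (mem_rt.1 hg)).1 h2.1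
    have t2 : Cov ⊆ Φ := Finset.biUnion_subset.2 t1
    obtain ⟨J, a1, a2, a3⟩ := ih (Φ \ Cov)
    set Cov' := J.biUnion (fun p => rt (F p.1) p.2) with hCov'
    have t3 : Cov' ⊆ Φ \ Cov := Finset.biUnion_subset.2 (fun p hp => (a1 p hp).2.2)
    have e1 : (D'.image (fun c => (n, c)) ∪ J).biUnion (fun p => rt (F p.1) p.2) = Cov ∪ Cov' := by
      rw [Finset.union_biUnion, Finset.image_biUnion]
    refine ⟨D'.image (fun c => (n, c)) ∪ J, fun p hp => ?_, ?_, ?_⟩
    · rcases Finset.mem_union.1 hp with hp | hp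
      · obtain ⟨c, hc, rfl⟩ := Finset.mem_image.1 hp
        exact ⟨n2, le_max_right _ _, t1 c hc⟩
      · exact ⟨(a1 p hp).1, (a1 p hp).2.1.trans (le_max_left _ _),
          (a1 p hp).2.2.trans Finset.sdiff_subset⟩
    · rw [e1, Finset.card_union_of_disjoint (Finset.disjoint_left.2
        (fun g hg hg' => (Finset.mem_sdiff.1 (t3 hg')).2 hg))]
      have b1 := Finset.sum_union_inter (s₁ := D'.image (fun c => (n, c))) (s₂ := J)
        (f := fun p => ((F p.1).card : ℝ))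
      rw [Finset.sum_image (fun a _ b _ e => (Prod.mk.inj e).2)] at b1
      simp only [Finset.sum_const, nsmul_eq_mul] at b1
      have b2 : 0 ≤ ∑ p ∈ D'.image (fun c => (n, c)) ∩ J, ((F p.1).card : ℝ) :=
        Finset.sum_nonneg (fun _ _ => Nat.cast_nonneg _)
      push_cast
      nlinarith
    · rw [e1]
      have b1 : ((bdy K (Φ \ Cov)).card : ℝ) ≤ (bdy K Φ).card + D'.card * (bdy K (F n)).card := by
        have := (Finset.card_le_card ((bdy_sdiff K Φ Cov).trans (Finset.union_subset_union_right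
          (bdy_biUnion _ _ _)))).trans ((Finset.card_union_le _ _).trans (Nat.add_le_add_left
            Finset.card_biUnion_le _))
        simp only [bdy_rt, card_rt, Finset.sum_const, smul_eq_mul] at this
        exact_mod_cast this
      have b2 : ((Φ \ Cov).card : ℝ) = Φ.card - Cov.card := by
        rw [Finset.card_sdiff_of_subset t2, Nat.cast_sub (Finset.card_le_card t2)]
      have b3 : (Φ.card : ℝ) ≤ (Φ \ bdy (F n) Φ).card + (bdy (F n) Φ).card := by
        exact_mod_cast Finset.card_le_card_sdiff_add_card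
      have b4 : ((bdy K Φ).card : ℝ) ≤ (bdy (K ∪ F n) Φ).card := by
        exact_mod_cast Finset.card_le_card (bdy_mono Finset.subset_union_left _)
      have b5 : ((bdy (F n) Φ).card : ℝ) ≤ (bdy (K ∪ F n) Φ).card := by
        exact_mod_cast Finset.card_le_card (bdy_mono Finset.subset_union_right _)
      have b6 : L * (D'.card * (bdy K (F n)).card) ≤ s / 2 * Cov.card := by
        have c1 : L * (s / 2 * (1 - ε) / (L + 1)) ≤ s / 2 * (1 - ε) := by
          rw [mul_div_assoc', div_le_iff₀ (by positivity)]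
          nlinarith [mul_pos (half_pos s0) (sub_pos.2 h1)]
        have c2 : (0 : ℝ) ≤ D'.card := Nat.cast_nonneg _
        calc _ ≤ L * (D'.card * (s / 2 * (1 - ε) / (L + 1) * (F n).card)) := by gcongr
          _ = L * (s / 2 * (1 - ε) / (L + 1)) * (D'.card * (F n).card) := by ring
          _ ≤ s / 2 * (1 - ε) * (D'.card * (F n).card) := by gcongr
          _ = s / 2 * ((1 - ε) * (D'.card * (F n).card)) := by ring
          _ ≤ _ := by gcongr
      rw [b2] at a3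
      have b7 := mul_le_mul_of_nonneg_left b1 L0
      have b8 := mul_le_mul_of_nonneg_left b4 L0
      have b9 := mul_le_mul_of_nonneg_left v2 (half_pos s0).le
      have b10 := mul_le_mul_of_nonneg_left (b3.trans (add_le_add_right b5 _))
        (mul_pos (half_pos s0) h0).le
      rw [pow_succ, ← hs]
      refine le_trans (le_of_eq ?_) (a3.trans ?_)
      · congr 2
        ext g; simp only [Finset.mem_sdiff, Finset.mem_union]; tauto
      · linarith

/-- Ornstein-Weiss type upper bound for subadditive functions -/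
theorem subadd_bound (hF : Admissible F) (φ : Finset G → ℝ) {a H : ℝ} (ha : 0 ≤ a) (hH : 0 ≤ H)
    (h1 : ∀ A B, φ (A ∪ B) ≤ φ A + φ B) (h2 : ∀ A, φ A ≤ a * A.card)
    (h3 : ∀ A c, φ (rt A c) ≤ φ A) (h4 : ∀ δ > 0, ∀ᶠ n in atTop, φ (F n) ≤ (H + δ) * (F n).card)
    {δ : ℝ} (hδ : 0 < δ) : ∃ (K : Finset G) (L : ℝ), 0 ≤ L ∧ ∀ Φ : Finset G,
      φ Φ ≤ (H + δ) * Φ.card + L * (bdy K Φ).card := by
  obtain ⟨N, hN⟩ := eventually_atTop.1 (h4 (δ / 3) (by positivity))
  have e0 : 0 < δ / 3 / (H + δ) := by positivity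
  have e1 : δ / 3 / (H + δ) < 1 := by rw [div_lt_one (by positivity)]; linarith
  obtain ⟨K, L, N', L0, h⟩ := quasi_tile hF e0 e1 (σ := δ / 3 / (a + 1)) (by positivity) N
  refine ⟨K, a * L, by positivity, fun Φ => ?_⟩
  obtain ⟨J, a1, a2, a3⟩ := h Φ
  have b1 : ∀ J' : Finset (ℕ × G), φ (J'.biUnion (fun p => rt (F p.1) p.2)) ≤
      ∑ p ∈ J', φ (rt (F p.1) p.2) := by
    intro J'
    induction J' using Finset.induction_on with
    | empty => simpa using h2 ∅
    | insert p J' hp ih =>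
      rw [Finset.biUnion_insert, Finset.sum_insert hp]
      linarith [h1 (rt (F p.1) p.2) (J'.biUnion (fun p => rt (F p.1) p.2))]
  set Cov := J.biUnion (fun p => rt (F p.1) p.2) with hCov
  have t2 : Cov ⊆ Φ := Finset.biUnion_subset.2 (fun p hp => (a1 p hp).2.2)
  have b2 := h1 Cov (Φ \ Cov)
  rw [Finset.union_sdiff_of_subset t2] at b2
  have b3 : ∑ p ∈ J, φ (rt (F p.1) p.2) ≤ (H + δ / 3) * ∑ p ∈ J, ((F p.1).card : ℝ) := by
    rw [Finset.mul_sum]
    exact Finset.sum_le_sum (fun p hp => (h3 _ _).trans (hN _ (a1 p hp).1))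
  have b4 : (Cov.card : ℝ) ≤ Φ.card := by exact_mod_cast Finset.card_le_card t2
  have b5 : H + δ / 3 ≤ (H + 2 * δ / 3) * (1 - δ / 3 / (H + δ)) := by
    have : (H + δ) * (δ / 3 / (H + δ)) = δ / 3 := by field_simp
    nlinarith
  have b6 : 0 ≤ ∑ p ∈ J, ((F p.1).card : ℝ) := Finset.sum_nonneg (fun _ _ => Nat.cast_nonneg _)
  have b7 := mul_le_mul_of_nonneg_right b5 b6
  have b8 := mul_le_mul_of_nonneg_left (a2.trans b4) (by positivity : 0 ≤ H + 2 * δ / 3)
  have b9 := mul_le_mul_of_nonneg_left a3 ha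
  have b10 : a * (δ / 3 / (a + 1)) ≤ δ / 3 := by
    rw [mul_div_assoc', div_le_iff₀ (by positivity)]; nlinarith
  have b11 := mul_le_mul_of_nonneg_right b10 (Nat.cast_nonneg (α := ℝ) Φ.card)
  linarith [b1 J, h2 (Φ \ Cov)]

end Pool.Agent.P.MP_4cf0b2_an
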