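import Mathlib
import Pool.Agent.P.MP_4cf0b2_an.Names

set_option autoImplicit false
set_option linter.unusedSectionVars false

namespace Pool.Agent.P.MP_4cf0b2_an

open Set Filter Real

variable {X : Type*}

lemma rank_inj {α κ : Type*} [LinearOrder κ] (s : Finset α) (key : α → κ)
    (hk : InjOn key s) {a b : α} (ha : a ∈ s) (hb : b ∈ s)
    (e : (s.filter (fun v => key v ≤ key a)).card = (s.filter (fun v => key v ≤ key b)).card) :
    a = b := by
  have key2 : ∀ a b : α, a ∈ s → b ∈ s → key a < key b →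
      (s.filter (fun v => key v ≤ key a)).card < (s.filter (fun v => key v ≤ key b)).card := by
    intro a b _ hb h
    refine Finset.card_lt_card ⟨fun v hv => ?_, fun hs => ?_⟩
    · rw [Finset.mem_filter] at hv ⊢
      exact ⟨hv.1, hv.2.trans h.le⟩
    · have := hs (Finset.mem_filter.2 ⟨hb, le_rfl⟩)
      exact absurd (Finset.mem_filter.1 this).2 (not_le.2 h)
  rcases lt_trichotomy (key a) (key b) with h | h | h
  · exact absurd e (key2 a b ha hb h).ne
  · exact hk ha hb h
  · exact absurd e (key2 b a hb ha h).ne'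

/-- the rank of the fine value inside its coarse class -/
lemma Mean.exists_rank (m : Mean X) (h1 : m.μ univ = 1) {α β : Type*} {f : X → α} {g : X → β}
    (hf : FR f) (hd : Det f g) : ∃ ψ : X → ℕ, FR ψ ∧ (∀ x y, g x = g y → ψ x = ψ y → f x = f y) ∧
      m.H ψ ≤ m.H f - m.H g + log (1 + log (cnt f univ)) := by
  classical
  have hg : FR g := hf.of_det hd
  obtain ⟨e, he⟩ := Set.countable_iff_exists_injOn.1 hf.countable
  set key : α → ℝ ×ₗ ℕ := fun v => toLex (- m.μ {y | f y = v}, e v) with hkey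
  set cls : β → Finset α := fun b => (hf.img {y | g y = b}).toFinset with hcls
  set rk : β → α → ℕ := fun b a => ((cls b).filter (fun v => key v ≤ key a)).card with hrk
  have hmem : ∀ x, f x ∈ cls (g x) := fun x => (Set.Finite.mem_toFinset _).2 ⟨x, rfl, rfl⟩
  have hsub : ∀ b, cls b ⊆ hf.toFinset := fun b v hv => by
    obtain ⟨x, -, rfl⟩ := (Set.Finite.mem_toFinset _).1 hv
    simp
  have hFR : FR (fun x => rk (g x) (f x)) := hg.comp₂ hf rk
  set R := cnt f univ with hR
  have r1 : ∀ x, 1 ≤ rk (g x) (f x) := fun x =>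
    Finset.card_pos.2 ⟨f x, Finset.mem_filter.2 ⟨hmem x, le_rfl⟩⟩
  have r2 : ∀ x, rk (g x) (f x) ≤ R := fun x => by
    rw [hR, cnt_univ hf]
    exact Finset.card_le_card ((Finset.filter_subset _ _).trans (hsub _))
  have r3 : ∀ x, rk (g x) (f x) * m.pr f x ≤ m.pr g x := by
    intro x
    have a1 : rk (g x) (f x) * m.pr f x ≤
        ∑ v ∈ (cls (g x)).filter (fun v => key v ≤ key (f x)), m.μ {y | f y = v} := by
      rw [← nsmul_eq_mul]
      refine Finset.card_nsmul_le_sum _ _ _ (fun v hv => ?_)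
      have := (Finset.mem_filter.1 hv).2
      simp only [hkey, Prod.Lex.toLex_le_toLex] at this
      unfold Mean.pr
      rcases this with h | h
      · linarith
      · linarith [h.1]
    refine a1.trans ?_
    unfold Mean.pr
    rw [← m.sum_cells hf {y | g y = g x}]
    refine le_trans (Finset.sum_le_sum (fun v hv => m.μ_mono ?_))
      (Finset.sum_le_sum_of_subset_of_nonneg ((Finset.filter_subset _ _).trans (hsub _))
        (fun _ _ _ => m.μ_nonneg _))
    obtain ⟨z, hz, rfl⟩ := (Set.Finite.mem_toFinset _).1 (Finset.mem_filter.1 hv).1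
    intro y hy
    exact ⟨(hd y z hy).trans hz, hy⟩
  refine ⟨fun x => rk (g x) (f x), hFR, fun x y exy er => ?_, ?_⟩
  · refine rank_inj (cls (g x)) key (fun a ha b hb hab => ?_) (hmem x) (exy ▸ hmem y) ?_
    · have := congrArg (fun p => (ofLex p).2) hab
      exact he ((Set.Finite.mem_toFinset _).1 (hsub _ ha)) ((Set.Finite.mem_toFinset _).1 (hsub _ hb))
        this
    · simpa only [hrk, exy] using er
  · set c : ℝ := 1 + log R with hc
    have c0 : 0 < c := by have := log_natCast_nonneg R; positivity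
    have s1 := m.gibbs h1 hFR (fun k => (k : ℝ)⁻¹ / c) (fun k => by positivity)
      (fun x _ => by have : (0 : ℝ) < rk (g x) (f x) := by exact_mod_cast r1 x
                     positivity) (by
        rw [← Finset.sum_div, div_le_one c0]
        refine le_trans ?_ (harmonic_le_one_add_log R)
        rw [harmonic_eq_sum_Icc]
        push_cast
        refine Finset.sum_le_sum_of_subset_of_nonneg ?_ (fun _ _ _ => by positivity)
        intro k hk
        obtain ⟨x, rfl⟩ := (Set.Finite.mem_toFinset _).1 hk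
        exact Finset.mem_Icc.2 ⟨r1 x, r2 x⟩)
    refine s1.trans ?_
    have s2 := m.mono_ae (φ := fun x => - log (((rk (g x) (f x) : ℕ) : ℝ)⁻¹ / c))
      (ψ := fun x => (- log (m.pr f x) - - log (m.pr g x)) + log c)
      (hFR.comp (fun k : ℕ => - log ((k : ℝ)⁻¹ / c)))
      (((m.FR_log hf).sub (m.FR_log hg)).comp (· + log c)) (m.null_pr hf) (fun x hx => by
        have p0 := m.pr_pos hx
        have k0 : (0 : ℝ) < rk (g x) (f x) := by exact_mod_cast r1 x
        have := log_le_log (by positivity) (r3 x)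
        rw [log_mul k0.ne' p0.ne'] at this
        rw [log_div (by positivity) c0.ne', log_inv]
        linarith)
    rw [m.E_add, m.E_sub, m.E_const, h1, mul_one] at s2
    exact s2

lemma greedy {κ : Type*} [DecidableEq κ] (c : ℕ → Finset κ → ℝ) (θ : ℕ → ℝ) (I : Set ℕ)
    (h0 : ∀ n ∈ I, c n ∅ < θ n) (V : Finset κ)
    (hc : ∀ n ∈ I, ∀ v V', c n (insert v V') ≤ c n V' + 1) (hV : ∃ n ∈ I, θ n ≤ c n V) :
    ∃ V' ⊆ V, (∃ n ∈ I, θ n ≤ c n V') ∧ ∀ n ∈ I, c n V' ≤ θ n + 1 := by
  induction V using Finset.induction_on with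
  | empty =>
    obtain ⟨n, hn, h⟩ := hV
    exact absurd h (not_le.2 (h0 n hn))
  | insert v V _ ih =>
    by_cases h : ∃ n ∈ I, θ n ≤ c n V
    · obtain ⟨V', h1, h2⟩ := ih h
      exact ⟨V', h1.trans (Finset.subset_insert _ _), h2⟩
    · push Not at h
      exact ⟨insert v V, Finset.Subset.refl _, hV, fun n hn => by linarith [h n hn, hc n hn v V]⟩

lemma Mean.pick (m : Mean X) {α : Type*} {t : X → α} (ht : FR t) (Y : Set X) (w : α → ℝ)
    (h : ∑ a ∈ ht.toFinset, w a < m.μ Y) : ∃ x, w (t x) < m.μ (Y ∩ {y | t y = t x}) := by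
  rw [← m.sum_cells ht Y] at h
  obtain ⟨a, ha, h⟩ := Finset.exists_lt_of_sum_lt h
  obtain ⟨x, rfl⟩ := (Set.Finite.mem_toFinset _).1 ha
  exact ⟨x, h⟩

lemma Mean.nonempty_of_pos (m : Mean X) {Y : Set X} (h : 0 < m.μ Y) : Y.Nonempty := by
  rcases Y.eq_empty_or_nonempty with rfl | h'
  · simp [m.μ_empty] at h
  · exact h'

/-- the values with positive mass inside `R` -/
lemma Mean.pos_values (m : Mean X) {α : Type*} {f : X → α} (hf : FR f) (R : Set X) {b : ℝ}
    (hb : ∀ x ∈ R, m.μ (R ∩ {y | f y = f x}) ≤ b) :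
    ∃ V : Finset α, (∀ v ∈ V, 0 < m.μ (R ∩ {y | f y = v})) ∧ m.μ R ≤ V.card * b := by
  classical
  refine ⟨hf.toFinset.filter (fun v => 0 < m.μ (R ∩ {y | f y = v})),
    fun v hv => (Finset.mem_filter.1 hv).2, ?_⟩
  rw [← m.sum_cells hf R, ← nsmul_eq_mul, ← Finset.sum_filter_of_ne (p := fun v =>
    0 < m.μ (R ∩ {y | f y = v})) (fun v _ h => lt_of_le_of_ne (m.μ_nonneg _) h.symm)]
  refine Finset.sum_le_card_nsmul _ _ _ (fun v hv => ?_)
  obtain ⟨x, hx, rfl⟩ := m.nonempty_of_pos (Finset.mem_filter.1 hv).2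
  exact hb x hx

end Pool.Agent.P.MP_4cf0b2_an
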