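import Mathlib
import Pool.Agent.P.MP_4cf0b2_an.MME
import Pool.Agent.P.MP_4cf0b2_an.Rank

set_option autoImplicit false
set_option linter.unusedSectionVars false

namespace Pool.Agent.P.MP_4cf0b2_an

open Set Filter Real
open scoped Topology Pointwise

variable {G X : Type*} [Group G] [DecidableEq G] [MulAction G X] {F : ℕ → Finset G}

lemma log_small {b κ : ℝ} (hb : 0 ≤ b) (hκ : 0 < κ) :
    ∀ᶠ t : ℝ in atTop, log (1 + t * b) ≤ κ * t := by
  have h1 := (isLittleO_log_id_atTop.def (c := κ / (1 + b)) (by positivity))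
  have h2 : Tendsto (fun t : ℝ => t * (1 + b)) atTop atTop :=
    tendsto_id.atTop_mul_const (by positivity)
  filter_upwards [h2.eventually h1, eventually_ge_atTop 1] with t ht h3
  have h4 : log (1 + t * b) ≤ log (t * (1 + b)) := log_le_log (by positivity) (by nlinarith)
  have h5 : ‖id (t * (1 + b))‖ = t * (1 + b) := Real.norm_of_nonneg (by simp; positivity)
  rw [h5] at ht
  have h6 : κ / (1 + b) * (t * (1 + b)) = κ * t := by field_simp
  linarith [le_abs_self (log (t * (1 + b))), Real.norm_eq_abs (log (t * (1 + b)))]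

lemma mul_card_le_bdy {K1 K : Finset G} (hK : K1 ⊆ K) {a L : ℝ} (ha : 0 ≤ a)
    (hL : a * K.card ≤ L) (Φ B : Finset G) (hB : Φ ∩ bdy K Φ ⊆ B) :
    a * (K1 * Φ).card ≤ a * Φ.card + L * B.card := by
  have h1 : ((K1 * Φ).card : ℝ) ≤ Φ.card + K.card * B.card := by
    exact_mod_cast (Finset.card_le_card (Finset.mul_subset_mul_right hK)).trans
      ((card_mul_le_bdy K Φ).trans (Nat.add_le_add_left (Nat.mul_le_mul_left _
        (Finset.card_le_card hB)) _))
  have h2 : (0 : ℝ) ≤ B.card := Nat.cast_nonneg _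
  nlinarith [mul_le_mul_of_nonneg_left h1 ha]

lemma log_cnt_nm_le [Nonempty X] {γ : Type*} {P : X → γ} (hP : FR P) (S : Finset G) {k : ℕ}
    (hk : S.card ≤ k) : log (cnt (nm P S) univ) ≤ k * log (cnt P univ) := by
  have a1 : 1 ≤ cnt P univ := cnt_pos hP univ_nonempty
  rw [← log_pow]
  refine log_le_log (by exact_mod_cast cnt_pos (FR_nm hP S) univ_nonempty) ?_
  exact_mod_cast (cnt_nm_le hP S univ).trans (Nat.pow_le_pow_right a1 hk)

theorem tile (hF : Admissible F) {β γ : Type*} {m : Mean X} {ω : X → β} {h0 : ℝ}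
    (hm : MME G m ω h0) (hω : FR ω) {P : X → γ} (hP : FR P) (hd : Det P ω) {α : ℝ} (hα : 0 < α) :
    ∃ T : Finset G, ∀ N : ℕ, ∀ᶠ M in atTop, ∃ (Cov : Finset G)
      (t : X → (G → Option γ) × (G → Option ℕ)) (c : ℝ), FR t ∧ Cov ⊆ F M ∧
      ((F M).card : ℝ) ≤ 4 * Cov.card ∧ h0 * Cov.card ≤ c ∧
      m.μ {x | exp ((F M).card + 1 - c) * m.pr t x ≤ m.pr (fun y => (t y, nm ω Cov y)) x} ≤ α ∧
      (∀ x y, t x = t y → ∀ n ≤ M, ∀ g ∈ F n, g ∉ Cov → P (g • x) = P (g • y)) ∧
      (∀ n < N, ∀ g ∈ F n, g ∉ Cov) ∧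
      (∀ x y, t x = t y → ∀ S : Finset G, (∀ g ∈ S, ω (g • x) = ω (g • y)) →
        ∀ g ∈ S, g ∈ Cov → g ∉ bdy T S → P (g • x) = P (g • y)) := by
  classical
  have hX : Nonempty X := by
    obtain ⟨x, -⟩ := m.nonempty_of_pos (Y := univ) (by rw [hm.total]; exact one_pos)
    exact ⟨x⟩
  obtain ⟨C, hC⟩ : ∃ C, Tempered F C := hF.2.2.1
  have C0 := hC.1
  have h00 := hm.nonneg
  obtain ⟨hp, hp0, hlow, hup⟩ := hm.inv.rate hm.total hP
  set δ : ℝ := α / (4 * (C + 2)) with hδ
  have δ0 : 0 < δ := by positivity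
  obtain ⟨K1, hK1⟩ := hup δ δ0
  obtain ⟨K2, hK2⟩ := hm.cnt_le hω δ0
  set K := K1 ∪ K2 with hK
  set L : ℝ := (hp + h0 + δ) * K.card with hL
  have k0 : (0 : ℝ) ≤ K.card := Nat.cast_nonneg _
  have L0 : 0 ≤ L := by positivity
  have L1 : (hp + δ) * K.card ≤ L := by nlinarith
  have L2 : (h0 + δ) * K.card ≤ L := by nlinarith
  have a0 : 0 ≤ log (cnt P univ) := log_natCast_nonneg _
  obtain ⟨k, hk1, hk2⟩ := ((hF.bdy_le K (δ := α / (24 * (L + 1))) (by positivity)).and
    (hF.tendsto_card.eventually (log_small a0 (κ := α / 8) (by positivity)))).exists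
  set T := F k with hT
  have T0 : (0 : ℝ) < T.card := hF.card_pos k
  refine ⟨T * T⁻¹, fun N => ?_⟩
  filter_upwards [hF.inv_hull hC K (ρ := α / (4 * (L + 1))) (by positivity),
    hF.bdy_le T (δ := 1 / 4) (by norm_num), hF.tendsto_card.eventually_ge_atTop
      (4 * ((T⁻¹ * (Finset.range N).biUnion F).card : ℝ))] with M hW hb hN
  obtain ⟨W, hW1, hW2, hW3⟩ := hW
  have f0 := hF.card_pos M
  set D := (F M \ bdy T (F M)) \ (T⁻¹ * (Finset.range N).biUnion F) with hD
  have hDc : ((F M).card : ℝ) ≤ 2 * D.card := by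
    have h1 : F M ⊆ D ∪ (bdy T (F M) ∪ T⁻¹ * (Finset.range N).biUnion F) := by
      intro g hg
      simp only [hD, Finset.mem_union, Finset.mem_sdiff]
      tauto
    have h2 : ((F M).card : ℝ) ≤ D.card + ((bdy T (F M)).card +
        (T⁻¹ * (Finset.range N).biUnion F).card) := by
      exact_mod_cast (Finset.card_le_card h1).trans ((Finset.card_union_le _ _).trans
        (Nat.add_le_add_left (Finset.card_union_le _ _) _))
    linarith
  obtain ⟨D', hD', v1, v2⟩ := vitali_single (hF.1 k) D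
  rw [← hT] at v1 v2
  set Cov := D'.biUnion (fun c => rt T c) with hCov
  have hCF : Cov ⊆ F M := by
    intro g hg
    obtain ⟨c, hc, hg⟩ := Finset.mem_biUnion.1 hg
    have h1 := hD' hc
    simp only [hD, Finset.mem_sdiff, notMem_bdy] at h1
    simpa using (h1.1.2 _ (mem_rt.1 hg)).1 h1.1.1
  have hCN : ∀ n < N, ∀ g ∈ F n, g ∉ Cov := by
    intro n hn g hg hg'
    obtain ⟨c, hc, hg'⟩ := Finset.mem_biUnion.1 hg'
    have h1 := hD' hc
    simp only [hD, Finset.mem_sdiff] at h1
    exact h1.2 (Finset.mem_mul.2 ⟨_, Finset.inv_mem_inv (mem_rt.1 hg'), g,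
      Finset.mem_biUnion.2 ⟨n, Finset.mem_range.2 hn, hg⟩, by group⟩)
  have hCW : Cov ⊆ W := hCF.trans (hW1 M le_rfl)
  have cf : (Cov.card : ℝ) ≤ (F M).card := by exact_mod_cast Finset.card_le_card hCF
  set o : G → G := fun g => Classical.epsilon (fun c => c ∈ D' ∧ g ∈ rt T c) with ho
  have ho1 : ∀ g ∈ Cov, o g ∈ D' ∧ g ∈ rt T (o g) := fun g hg =>
    Classical.epsilon_spec (p := fun c => c ∈ D' ∧ g ∈ rt T c) (Finset.mem_biUnion.1 hg)
  set S : G → Finset G := fun c => Cov.filter (fun g => o g = c) with hS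
  set B := D'.biUnion (fun c => bdy K (rt T c)) with hB
  have hSB : ∀ c, bdy K (S c) ⊆ B := by
    intro c g hg
    by_contra h
    simp only [hB, Finset.mem_biUnion, not_exists, not_and, notMem_bdy] at h
    obtain ⟨s, hs, h'⟩ := mem_bdy.1 hg
    apply h'
    have e1 : o g = o (s * g) := by
      simp only [ho]
      congr 1
      funext c'
      exact propext (and_congr_right (fun hc' => h c' hc' s hs))
    have e2 : g ∈ Cov ↔ s * g ∈ Cov := by
      simp only [hCov, Finset.mem_biUnion]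
      exact exists_congr (fun c' => and_congr_right (fun hc' => h c' hc' s hs))
    simp only [hS, Finset.mem_filter, e1, e2]
  have hBc : (B.card : ℝ) ≤ α / (12 * (L + 1)) * (F M).card := by
    have h1 : (B.card : ℝ) ≤ ∑ c ∈ D', ((bdy K (rt T c)).card : ℝ) := by
      exact_mod_cast Finset.card_biUnion_le
    simp only [bdy_rt, card_rt, Finset.sum_const, nsmul_eq_mul] at h1
    have h2 : (0 : ℝ) ≤ D'.card := Nat.cast_nonneg _
    have h3 : α / (12 * (L + 1)) = 2 * (α / (24 * (L + 1))) := by field_simp; ring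
    have h4 : 0 < α / (24 * (L + 1)) := by positivity
    rw [h3]
    nlinarith [mul_le_mul_of_nonneg_left hk1 h2]
  have hS1 : ∑ c ∈ D', ((S c).card : ℝ) = Cov.card := by
    exact_mod_cast (Finset.card_eq_sum_card_fiberwise (fun g hg => (ho1 g hg).1)).symm
  have hS2 : ∑ c ∈ D', ((S c ∩ B).card : ℝ) ≤ B.card := by
    have h1 := Finset.card_eq_sum_card_fiberwise (s := Cov ∩ B) (t := D') (f := o)
      (fun g hg => (ho1 g (Finset.mem_inter.1 hg).1).1)
    have h2 : ∀ c, S c ∩ B = (Cov ∩ B).filter (fun g => o g = c) := fun c => by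
      ext g; simp only [hS, Finset.mem_inter, Finset.mem_filter]; tauto
    simp only [h2]
    exact_mod_cast h1.symm.le.trans (Finset.card_le_card Finset.inter_subset_right)
  have hST : ∀ c, S c ⊆ rt T c := fun c g hg => by
    obtain ⟨h1, h2⟩ := Finset.mem_filter.1 hg
    exact h2 ▸ (ho1 g h1).2
  choose ψ hψ1 hψ2 hψ3 using fun c => m.exists_rank hm.total (FR_nm hP (S c))
    (nm_det hd (Finset.Subset.refl (S c)))
  set t : X → (G → Option γ) × (G → Option ℕ) := fun x => (nm P (W \ Cov) x, tup ψ D' x) with ht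
  have Ft : FR t := FR.prod (FR_nm hP _) (FR_tup (fun c _ => hψ1 c))
  have det1 : ∀ x y, t x = t y → ∀ g ∈ Cov, (∀ g' ∈ S (o g), ω (g' • x) = ω (g' • y)) →
      P (g • x) = P (g • y) := by
    intro x y e g hg h
    simp only [ht, Prod.mk.injEq, tup_eq_iff] at e
    exact nm_eq_iff.1 (hψ2 (o g) x y (nm_eq_iff.2 h) (e.2 _ (ho1 g hg).1)) g
      (Finset.mem_filter.2 ⟨hg, rfl⟩)
  have det2 : ∀ x y, t x = t y → ∀ g ∈ W, g ∉ Cov → P (g • x) = P (g • y) := by
    intro x y e g hg hg'
    simp only [ht, Prod.mk.injEq, nm_eq_iff] at e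
    exact e.1 g (Finset.mem_sdiff.2 ⟨hg, hg'⟩)
  have b0 : (0 : ℝ) ≤ B.card := Nat.cast_nonneg _
  have cv0 : (0 : ℝ) ≤ Cov.card := Nat.cast_nonneg _
  refine ⟨Cov, t, (h0 + δ) * Cov.card + L * B.card, Ft, hCF, by linarith, by nlinarith, ?_,
    fun x y e n hn g hg hg' => det2 x y e g (hW1 n hn hg) hg', hCN, ?_⟩
  · have e1 := m.near_unif hm.total Ft (FR_nm hω Cov) (c := (h0 + δ) * Cov.card + L * B.card)
      (fun x => le_trans (by exact_mod_cast cnt_mono (FR_nm hω Cov) (subset_univ _))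
        ((hK2 Cov).trans (exp_le_exp.2 (mul_card_le_bdy Finset.subset_union_right (by positivity) L2
          Cov B (Finset.inter_subset_right.trans (bdy_biUnion _ _ _)))))) (F M).card
    have e2 : m.H (nm P W) ≤ m.H (fun y => (t y, nm ω Cov y)) := by
      refine m.H_mono (FR.prod Ft (FR_nm hω _)) (fun x y e => ?_)
      simp only [Prod.mk.injEq, nm_eq_iff] at e ⊢
      intro g hg
      by_cases hg' : g ∈ Cov
      · exact det1 x y e.1 g hg' (fun g' h' => e.2 g' (Finset.mem_filter.1 h').1)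
      · exact det2 x y e.1 g hg hg'
    have e3 := hlow W
    have e4 : m.H t ≤ m.H (nm P (W \ Cov)) + ∑ c ∈ D', m.H (ψ c) :=
      (m.H_pair_le hm.total (FR_nm hP _) (FR_tup (fun c _ => hψ1 c))).trans
        (add_le_add_right (m.H_tup_le hm.total (fun c _ => hψ1 c)) _)
    have e5 : m.H (nm P (W \ Cov)) ≤ (hp + δ) * (W \ Cov).card + L * (bdy K W ∪ B).card :=
      (hK1 _).trans (mul_card_le_bdy Finset.subset_union_left (by positivity) L1 _ _
        (Finset.inter_subset_right.trans ((bdy_sdiff _ _ _).trans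
          (Finset.union_subset_union_right (bdy_biUnion _ _ _)))))
    have e6 : ((bdy K W ∪ B).card : ℝ) ≤ (bdy K W).card + B.card := by
      exact_mod_cast Finset.card_union_le _ _
    have e7 : ((W \ Cov).card : ℝ) = W.card - Cov.card := by
      rw [Finset.card_sdiff_of_subset hCW, Nat.cast_sub (Finset.card_le_card hCW)]
    have e8 : ∑ c ∈ D', m.H (ψ c) ≤ ∑ c ∈ D',
        ((hp + δ - h0) * (S c).card + L * (S c ∩ B).card + α / 8 * T.card) := by
      refine Finset.sum_le_sum (fun c _ => (hψ3 c).trans ?_)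
      have g1 := (hK1 (S c)).trans (mul_card_le_bdy Finset.subset_union_left (by positivity) L1 _
        (S c ∩ B) (Finset.inter_subset_inter_left (hSB c)))
      have g2 := hm.low (S c)
      have g3 := log_cnt_nm_le hP (S c) (k := T.card)
        ((Finset.card_le_card (hST c)).trans (card_rt _ _).le)
      have g4 : log (1 + log (cnt (nm P (S c)) univ)) ≤ log (1 + T.card * log (cnt P univ)) :=
        log_le_log (by have := log_natCast_nonneg (cnt (nm P (S c)) univ); positivity)
          (by linarith)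
      linarith
    rw [Finset.sum_add_distrib, Finset.sum_add_distrib, ← Finset.mul_sum, ← Finset.mul_sum, hS1,
      Finset.sum_const, nsmul_eq_mul] at e8
    have e9 := mul_le_mul_of_nonneg_left hS2 L0
    have e10 := mul_le_mul_of_nonneg_left e6 L0
    have e11 : L * B.card ≤ α / 12 * (F M).card := by
      refine (mul_le_mul_of_nonneg_left hBc L0).trans ?_
      rw [← mul_assoc]
      refine mul_le_mul_of_nonneg_right ?_ f0.le
      rw [mul_div_assoc', div_le_div_iff₀ (by positivity) (by norm_num)]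
      linarith
    have e12 : L * (bdy K W).card ≤ α / 4 * (F M).card := by
      refine (mul_le_mul_of_nonneg_left hW3 L0).trans ?_
      rw [← mul_assoc]
      refine mul_le_mul_of_nonneg_right ?_ f0.le
      rw [mul_div_assoc', div_le_div_iff₀ (by positivity) (by norm_num)]
      linarith
    have e13 : δ * (Cov.card + W.card) ≤ α / 4 * (F M).card := by
      have : δ * (C + 2) = α / 4 := by rw [hδ]; field_simp
      rw [← this, mul_assoc]
      exact mul_le_mul_of_nonneg_left (by linarith) δ0.le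
    have e14 : (D'.card : ℝ) * (α / 8 * T.card) ≤ α / 4 * (F M).card := by
      have := mul_le_mul_of_nonneg_left (v1.trans (mul_le_mul_of_nonneg_left cf (by norm_num))) hα.le
      linarith
    rw [e7] at e5
    refine le_of_mul_le_mul_left (e1.trans ?_) f0
    linarith
  · intro x y e S' hS' g hg hgC hgb
    refine det1 x y e g hgC (fun g' hg' => hS' g' ?_)
    have h1 := mem_rt.1 (hST _ hg')
    have h2 := mem_rt.1 (ho1 g hgC).2
    have := (notMem_bdy.1 hgb _ (Finset.mul_mem_mul h1 (Finset.inv_mem_inv h2))).1 hg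
    simpa [mul_assoc] using this

end Pool.Agent.P.MP_4cf0b2_an
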