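import Mathlib
import Pool.Agent.P.MP_4cf0b2_an.Tile

set_option autoImplicit false
set_option linter.unusedSectionVars false

namespace Pool.Agent.P.MP_4cf0b2_an

open Set Filter Real
open scoped Topology Pointwise

variable {G X : Type*} [Group G] [DecidableEq G] [MulAction G X] {F : ℕ → Finset G}

lemma FR_sum {ι : Type*} (J : Finset ι) {φ : ι → X → ℝ} (h : ∀ i ∈ J, FR (φ i)) :
    FR (fun x => ∑ i ∈ J, φ i x) := by
  classical
  induction J using Finset.induction_on with
  | empty => simpa using FR.const (0 : ℝ)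
  | insert a J ha ih =>
    simp only [Finset.sum_insert ha]
    exact FR.add (h a (by simp)) (ih (fun i hi => h i (by simp [hi])))

/-- points whose name at time `n` is too likely -/
def heavy {β : Type*} (m : Mean X) (ω : X → β) (T : Finset G) (s : ℝ) : Set X :=
  {x | exp (-s * T.card) ≤ m.pr (nm ω T) x}

lemma cnt_heavy_le {β : Type*} {m : Mean X} (h1 : m.μ univ = 1) {ω : X → β} (hω : FR ω)
    (T : Finset G) (s : ℝ) : (cnt (nm ω T) (heavy m ω T s) : ℝ) ≤ exp (s * T.card) := by
  have := m.cnt_heavy (FR_nm hω T) (heavy m ω T s) (fun x hx => hx)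
  rw [h1, neg_mul, exp_neg, ← div_eq_mul_inv, div_le_one (exp_pos _)] at this
  exact this

lemma cnt_tiles {β : Type*} {ω : X → β} (hω : FR ω) (Φ D : Finset G) (T : G → Finset G)
    (Y : Set X) (b : G → ℝ) (hb : ∀ c ∈ D, (cnt (nm ω (T c)) Y : ℝ) ≤ exp (b c)) :
    (cnt (nm ω Φ) Y : ℝ) ≤ exp (∑ c ∈ D, b c) * cnt (nm ω (Φ \ D.biUnion T)) univ := by
  have F1 : FR (tup (fun c => nm ω (T c)) D) := FR_tup (fun c _ => FR_nm hω _)
  have h1 := (cnt_det (Y := Y) (g := nm ω Φ) (FR.prod F1 (FR_nm hω (Φ \ D.biUnion T)))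
    (fun x _ y _ e => by
      simp only [Prod.mk.injEq, tup_eq_iff, nm_eq_iff] at e ⊢
      intro g hg
      by_cases h : g ∈ D.biUnion T
      · obtain ⟨c, hc, h⟩ := Finset.mem_biUnion.1 h
        exact e.1 c hc g h
      · exact e.2 g (Finset.mem_sdiff.2 ⟨hg, h⟩))).trans ((cnt_pair_le F1 (FR_nm hω _) Y).trans
    (Nat.mul_le_mul (cnt_tup_le (fun c _ => FR_nm hω _) Y) (cnt_mono (FR_nm hω _) (subset_univ _))))
  refine le_trans (by exact_mod_cast h1) (b := (∏ c ∈ D, (cnt (nm ω (T c)) Y : ℝ)) *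
    cnt (nm ω (Φ \ D.biUnion T)) univ) (mul_le_mul_of_nonneg_right ?_ (Nat.cast_nonneg _))
  rw [exp_sum]
  exact Finset.prod_le_prod (fun _ _ => Nat.cast_nonneg _) hb

theorem smb (hF : Admissible F) {C : ℝ} (hC : Tempered F C) {β : Type*} {m : Mean X} {ω : X → β}
    {h0 : ℝ} (hm : MME G m ω h0) (hω : FR ω) {ε : ℝ} (hε : 0 < ε) (hε1 : ε ≤ 1)
    (hbig : 12 * (C + 1 / ε) + 2 ≤ ε * h0) : ∀ᶠ N in atTop, ∀ N',
      m.μ (⋃ n ∈ Finset.Icc N N', heavy m ω (F n) ((1 - 2 * ε) * h0)) ≤ 1 / 2 := by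
  classical
  have C0 := hC.1
  have h00 := hm.nonneg
  obtain ⟨K, hK⟩ := hm.cnt_le hω (δ := 1 / 20) (by norm_num)
  set L : ℝ := (h0 + 1 / 20) * K.card with hL
  have L0 : 0 ≤ L := by positivity
  have LL : L * (1 / (L + 1)) ≤ 1 := by
    rw [mul_one_div, div_le_one (by positivity)]; linarith
  filter_upwards [hF.tail one_pos one_pos, eventually_gt_atTop 1,
    eventually_forall_ge_atTop.2 (hF.bdy_le K (δ := 1 / (L + 1)) (by positivity))]
    with N hN1 hN2 hN3 N'
  set s0 := (1 - 2 * ε) * h0 with hs0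
  set Bad := ⋃ n ∈ Finset.Icc N N', heavy m ω (F n) s0 with hBad
  by_contra hcon
  push Not at hcon
  set U := (Finset.range (N' + 1)).biUnion F with hU
  obtain ⟨k, k1, k2, k3⟩ := ((hF.bdy_le U (δ := 1 / 10) (by norm_num)).and
    ((hF.bdy_le K (δ := 1 / 20 * (1 / (L + 1))) (by positivity)).and
      (hF.tendsto_card.eventually_ge_atTop 10))).exists
  set Φ := F k with hΦ
  have k4 : L * (bdy K Φ).card ≤ 1 / 20 * Φ.card := by
    have := mul_le_mul_of_nonneg_left k2 L0
    nlinarith
  set D : X → Finset G := fun x => (Φ \ bdy U Φ).filter (fun g => g • x ∈ Bad) with hD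
  have hlv : ∀ (x : X) (g : G), ∃ n, g • x ∈ Bad →
      n ∈ Finset.Icc N N' ∧ g • x ∈ heavy m ω (F n) s0 := by
    intro x g
    by_cases h : g • x ∈ Bad
    · obtain ⟨n, h1, h2⟩ := mem_iUnion₂.1 h
      exact ⟨n, fun _ => ⟨h1, h2⟩⟩
    · exact ⟨0, fun h' => absurd h' h⟩
  choose lv hlv using hlv
  have hlv1 : ∀ x, ∀ g ∈ D x, lv x g ∈ Finset.Icc N N' ∧ g • x ∈ heavy m ω (F (lv x g)) s0 :=
    fun x g hg => hlv x g (Finset.mem_filter.1 hg).2
  choose D' hD' v1 v2 using fun x => vitali_tempered hF hC hε hε1 (lv x) (D x)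
    (fun g hg => hN2.trans_le (Finset.mem_Icc.1 (hlv1 x g hg).1).1)
  set Y := {x | (Φ.card : ℝ) / 4 ≤ (D x).card} with hY
  have hmY : 1 / 5 ≤ m.μ Y := by
    have e1 : m.E (fun x => ∑ g ∈ Φ \ bdy U Φ, ind {x | g • x ∈ Bad} x) =
        (Φ \ bdy U Φ).card * m.μ Bad := by
      rw [m.E_sum, ← nsmul_eq_mul, ← Finset.sum_const]
      exact Finset.sum_congr rfl (fun g _ => hm.inv g Bad)
    have e2 := m.mono (FR_sum (Φ \ bdy U Φ) (φ := fun g => ind {x | g • x ∈ Bad})
      (fun g _ => FR.ind _)) ((FR.ind Y).comp (fun t => (Φ.card : ℝ) * t + Φ.card / 4))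
      (fun x => by
        have : ∑ g ∈ Φ \ bdy U Φ, ind {x | g • x ∈ Bad} x = (D x).card := by
          simp only [hD, Finset.card_filter, Nat.cast_sum]
          refine Finset.sum_congr rfl (fun g _ => ?_)
          by_cases h : g • x ∈ Bad <;> simp [ind, h]
        rw [this]
        by_cases hx : x ∈ Y
        · have : ((D x).card : ℝ) ≤ Φ.card := by
            exact_mod_cast Finset.card_le_card ((Finset.filter_subset _ _).trans Finset.sdiff_subset)
          rw [ind_of_mem hx]; linarith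
        · rw [ind_of_notMem hx]
          have : ¬ (Φ.card : ℝ) / 4 ≤ (D x).card := hx
          linarith)
    rw [e1, m.E_add, m.E_mul, m.E_const, hm.total] at e2
    have e3 : (Φ.card : ℝ) ≤ (Φ \ bdy U Φ).card + (bdy U Φ).card := by
      exact_mod_cast Finset.card_le_card_sdiff_add_card
    change _ ≤ Φ.card * m.μ Y + _ at e2
    have e4 : (0 : ℝ) ≤ (Φ \ bdy U Φ).card := Nat.cast_nonneg _
    nlinarith
  have hDΦ : ∀ x, D' x ⊆ Φ := fun x =>
    (hD' x).trans ((Finset.filter_subset _ _).trans Finset.sdiff_subset)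
  set p : X → Φ → Option ℕ := fun x g => if g.1 ∈ D' x then some (lv x g) else none with hp
  set θ : Option ℕ → ℝ := fun o => o.elim 1 (fun n => exp (-1 * (F n).card)) with hθ
  have θ0 : ∀ o, 0 < θ o := fun o => by cases o <;> simp [hθ, exp_pos]
  have hcY : (cnt (nm ω Φ) Y : ℝ) ≤ exp ((h0 - 1) * Φ.card) := by
    have a1 := cnt_le_sum_fiber (FR_nm hω Φ) p Y
      (Fintype.piFinset (fun _ => Finset.insertNone (Finset.Icc N N'))) (fun x _ => by
        rw [Fintype.mem_piFinset]
        intro g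
        simp only [hp]
        split_ifs with h
        · exact Finset.some_mem_insertNone.2 (hlv1 x g (hD' x h)).1
        · exact Finset.none_mem_insertNone)
    have a2 : ∀ a : Φ → Option ℕ, (cnt (nm ω Φ) (Y ∩ {x | p x = a}) : ℝ) ≤
        exp ((h0 - 2) * Φ.card) * ∏ g, θ (a g) := by
      intro a
      rcases (Y ∩ {x | p x = a}).eq_empty_or_nonempty with e | ⟨x, hx, rfl⟩
      · rw [e, cnt_empty, Nat.cast_zero]
        exact mul_nonneg (exp_pos _).le (Finset.prod_nonneg (fun g _ => (θ0 _).le))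
      set Sg := ∑ c ∈ D' x, ((F (lv x c)).card : ℝ) with hSg
      set Cov := (D' x).biUnion (fun c => rt (F (lv x c)) c) with hCov
      have b1 : ∏ g, θ (p x g) = exp (-Sg) := by
        have : ∀ g : Φ, θ (p x g) = exp (if g.1 ∈ D' x then -((F (lv x g)).card : ℝ) else 0) := by
          intro g
          by_cases h : g.1 ∈ D' x <;> simp [hp, hθ, h]
        simp only [this]
        rw [← exp_sum, Finset.sum_coe_sort Φ
          (fun g => if g ∈ D' x then -((F (lv x g)).card : ℝ) else 0), ← Finset.sum_filter,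
          Finset.filter_mem_eq_inter, Finset.inter_eq_right.2 (hDΦ x), Finset.sum_neg_distrib]
      have b2 := cnt_tiles hω Φ (D' x) (fun c => rt (F (lv x c)) c) (Y ∩ {y | p y = p x})
        (fun c => s0 * (F (lv x c)).card) (fun c hc => by
          refine le_trans ?_ (cnt_heavy_le hm.total hω _ s0)
          refine Nat.cast_le.2 (cnt_nm_rt hω _ c (fun y hy => ?_))
          have e := congrFun hy.2 ⟨c, hDΦ x hc⟩
          simp only [hp, hc, if_true] at e
          split_ifs at e with h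
          rw [← Option.some.inj e]
          exact (hlv1 y c (hD' y h)).2)
      have b3 : Cov ⊆ Φ := by
        intro g hg
        obtain ⟨c, hc, hg⟩ := Finset.mem_biUnion.1 hg
        have h1 := (Finset.mem_filter.1 (hD' x hc)).1
        rw [Finset.mem_sdiff, notMem_bdy] at h1
        have h2 := (h1.2 _ (Finset.mem_biUnion.2 ⟨lv x c, Finset.mem_range.2 (Nat.lt_succ_of_le
          (Finset.mem_Icc.1 (hlv1 x c (hD' x hc)).1).2), mem_rt.1 hg⟩)).1 h1.1
        simpa using h2
      set B := (D' x).biUnion (fun c => bdy K (rt (F (lv x c)) c)) with hB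
      have b4 := (hK (Φ \ Cov)).trans (exp_le_exp.2 (mul_card_le_bdy (Finset.Subset.refl K)
        (by positivity) hL.symm.le (Φ \ Cov) (bdy K Φ ∪ B)
        (Finset.inter_subset_right.trans ((bdy_sdiff _ _ _).trans
          (Finset.union_subset_union_right (bdy_biUnion _ _ _))))))
      have b5 : ((bdy K Φ ∪ B).card : ℝ) ≤ (bdy K Φ).card + B.card := by
        exact_mod_cast Finset.card_union_le _ _
      have b6 : (B.card : ℝ) ≤ 1 / (L + 1) * Sg := by
        have : (B.card : ℝ) ≤ ∑ c ∈ D' x, ((bdy K (rt (F (lv x c)) c)).card : ℝ) := by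
          exact_mod_cast Finset.card_biUnion_le
        refine this.trans ?_
        rw [hSg, Finset.mul_sum]
        refine Finset.sum_le_sum (fun c hc => ?_)
        rw [bdy_rt, card_rt]
        exact hN3 _ (Finset.mem_Icc.1 (hlv1 x c (hD' x hc)).1).1
      have b7 : ((Φ \ Cov).card : ℝ) = Φ.card - Cov.card := by
        rw [Finset.card_sdiff_of_subset b3, Nat.cast_sub (Finset.card_le_card b3)]
      have Sg0 : 0 ≤ Sg := Finset.sum_nonneg (fun _ _ => Nat.cast_nonneg _)
      have b8 : L * B.card ≤ Sg := by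
        have := mul_le_mul_of_nonneg_left b6 L0
        nlinarith
      have b9 : (Φ.card : ℝ) / 4 ≤ (C + 1 / ε) * Sg := le_trans hx (v2 x)
      have b10 : (1 - ε) * Sg ≤ Cov.card := v1 x
      have b11 := mul_le_mul_of_nonneg_left b5 L0
      have b12 := mul_le_mul_of_nonneg_left b10 h00
      have b13 := mul_le_mul_of_nonneg_right hbig Sg0
      have cv0 : (0 : ℝ) ≤ Cov.card := Nat.cast_nonneg _
      refine b2.trans ((mul_le_mul_of_nonneg_left b4 (exp_pos _).le).trans ?_)
      rw [b1, ← exp_add, ← exp_add, ← Finset.mul_sum, b7]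
      apply exp_le_exp.2
      rw [← hSg, hs0]
      linarith
    have a3 : ∑ a ∈ Fintype.piFinset (fun _ : Φ => Finset.insertNone (Finset.Icc N N')),
        ∏ g, θ (a g) ≤ exp Φ.card := by
      rw [← Finset.prod_univ_sum]
      have : ∑ o ∈ Finset.insertNone (Finset.Icc N N'), θ o ≤ exp 1 := by
        rw [Finset.sum_insertNone]
        have := hN1 (Finset.Icc N N') (fun n hn => (Finset.mem_Icc.1 hn).1)
        simp only [hθ, Option.elim]
        linarith [add_one_le_exp (1 : ℝ)]
      refine (Finset.prod_le_prod (g := fun _ => exp 1) (fun _ _ => Finset.sum_nonneg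
        (fun o _ => (θ0 o).le)) (fun _ _ => this)).trans (le_of_eq ?_)
      simp [← exp_nat_mul]
    refine le_trans (by exact_mod_cast a1) (b := ∑ a ∈ Fintype.piFinset
      (fun _ : Φ => Finset.insertNone (Finset.Icc N N')),
        (cnt (nm ω Φ) (Y ∩ {x | p x = a}) : ℝ)) ((Finset.sum_le_sum (fun a _ => a2 a)).trans ?_)
    rw [← Finset.mul_sum]
    refine (mul_le_mul_of_nonneg_left a3 (exp_pos _).le).trans (le_of_eq ?_)
    rw [← exp_add]; congr 1; ring
  have hcU : (cnt (nm ω Φ) univ : ℝ) ≤ exp ((h0 + 1 / 10) * Φ.card) := by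
    refine (hK Φ).trans (exp_le_exp.2 ((mul_card_le_bdy (Finset.Subset.refl K)
      (by positivity) hL.symm.le Φ (bdy K Φ) Finset.inter_subset_right).trans ?_))
    linarith
  have e1 := m.H_le_code hm.total (t := fun x => x ∈ Y) (FR.of_finite _) (FR_nm hω Φ)
    (fun _ => 1 / 2) (fun q => if q then exp ((h0 - 1) * Φ.card) else exp ((h0 + 1 / 10) * Φ.card))
    (fun _ => by norm_num) (fun q => by split_ifs <;> exact exp_pos _) (fun x => by
      by_cases hx : x ∈ Y
      · simp only [hx, if_true]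
        refine le_trans ?_ hcY
        exact_mod_cast cnt_mono (FR_nm hω Φ) (fun y hy => by simpa using hy)
      · simp only [hx, if_false]
        refine le_trans ?_ hcU
        exact_mod_cast cnt_mono (FR_nm hω Φ) (subset_univ _)) (by
      rw [Finset.sum_const, nsmul_eq_mul]
      have : (((FR.of_finite (fun x => x ∈ Y)).toFinset.card : ℕ) : ℝ) ≤ 2 := by
        exact_mod_cast (Finset.card_le_univ _).trans Fintype.card_prop.le
      linarith)
  have e2 : (fun x => log (if x ∈ Y then exp ((h0 - 1) * Φ.card) else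
      exp ((h0 + 1 / 10) * Φ.card)) - log (1 / 2)) =
      fun x => -(11 / 10 * (Φ.card : ℝ)) * ind Y x + ((h0 + 1 / 10) * Φ.card + log 2) := by
    funext x
    rw [one_div (2 : ℝ), log_inv]
    by_cases hx : x ∈ Y
    · rw [if_pos hx, ind_of_mem hx, log_exp]; ring
    · rw [if_neg hx, ind_of_notMem hx, log_exp]; ring
  rw [e2, m.E_add, m.E_mul, m.E_const, hm.total] at e1
  change _ ≤ _ * m.μ Y + _ at e1
  have e3 := hm.low Φ
  have e4 : log 2 < 1 := by linarith [log_two_lt_d9]
  nlinarith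

end Pool.Agent.P.MP_4cf0b2_an
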