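import Mathlib
import Pool.Agent.P.MP_4cf0b2_an.Coarse
import Pool.Agent.P.MP_4cf0b2_an.QT
import Pool.Agent.P.MP_4cf0b2_an.SMB

set_option autoImplicit false
set_option linter.unusedSectionVars false

namespace Pool.Agent.P.MP_4cf0b2_an

open Set Filter Real
open scoped Topology Pointwise ENNReal symmDiff

section

variable {G X : Type*} [Group G] [DecidableEq G] [MulAction G X]

theorem exists_inv_mean (F : ℕ → Finset G) (hne : ∀ n, (0 : ℝ) < (F n).card)
    (hs : ∀ s : G, Tendsto (fun n => (((F n) ∆ (s • F n)).card : ℝ) / (F n).card) atTop (𝓝 0))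
    (hb : ∀ (K : Finset G) (δ : ℝ), 0 < δ → ∀ᶠ n in atTop, ((bdy K (F n)).card : ℝ) ≤ δ * (F n).card)
    (ν : ℕ → Mean X) (hν1 : ∀ n, (ν n).μ univ = 1) :
    ∃ m : Mean X, m.μ univ = 1 ∧ m.Inv G ∧ ∀ (r : ℕ) (ω : X → Fin r) (h0 : ℝ),
      (∀ n, h0 * (F n).card ≤ (ν n).H (nm ω (F n))) → ∀ T : Finset G, h0 * T.card ≤ m.H (nm ω T) := by
  set mn : ℕ → Mean X := fun n => Mean.wsum (F n) (fun _ => ((F n).card : ℝ)⁻¹)
    (fun _ => by positivity) (fun g => (ν n).push (fun x => g • x)) with hmn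
  have hμ : ∀ n s, (mn n).μ s = ((F n).card : ℝ)⁻¹ * ∑ g ∈ F n, (ν n).μ {x | g • x ∈ s} := by
    intro n s
    simp only [hmn, Mean.wsum_μ, Finset.mul_sum]
    rfl
  have h1 : ∀ n, (mn n).μ univ = 1 := by
    intro n
    rw [hμ]
    simp [hν1, (hne n).ne']
  obtain ⟨m, hm⟩ := Mean.exists_lim mn (fun n => (h1 n).le)
  have hle : (hyperfilter ℕ : Filter ℕ) ≤ atTop := Nat.hyperfilter_le_atTop
  have m1 : m.μ univ = 1 := by
    have := hm _ (FR.ind univ)
    change Tendsto (fun n => (mn n).μ univ) _ _ at this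
    simp only [h1] at this
    exact tendsto_nhds_unique this tendsto_const_nhds
  refine ⟨m, m1, ?_, ?_⟩
  · intro s B
    have t1 : Tendsto (fun n => (mn n).μ {x | s • x ∈ B} - (mn n).μ B) (hyperfilter ℕ)
        (𝓝 (m.μ {x | s • x ∈ B} - m.μ B)) := (hm _ (FR.ind _)).sub (hm _ (FR.ind _))
    have t2 : Tendsto (fun n => (mn n).μ {x | s • x ∈ B} - (mn n).μ B) atTop (𝓝 0) := by
      refine squeeze_zero_norm (fun n => ?_) (hs s)
      rw [hμ, hμ, ← mul_sub, norm_mul, Real.norm_of_nonneg (by positivity), mul_comm,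
        ← div_eq_mul_inv]
      refine div_le_div_of_nonneg_right ?_ (hne n).le
      have e : ∑ g ∈ F n, (ν n).μ {x | g • x ∈ {x | s • x ∈ B}} =
          ∑ g ∈ s • F n, (ν n).μ {x | g • x ∈ B} := by
        rw [Finset.smul_finset_def, Finset.sum_image (fun a _ b _ e => by simpa using e)]
        simp [mul_smul]
      rw [e, symmDiff_comm]
      exact abs_sum_sub_le _ _ _ (fun g => Mean.μ_nonneg _ _)
        (fun g => ((ν n).μ_mono (subset_univ _)).trans (hν1 n).le)
    exact sub_eq_zero.1 (tendsto_nhds_unique t1 (t2.mono_left hle))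
  · intro r ω h0 hlow T
    have hω : FR ω := FR.of_finite _
    have hX : Nonempty X := by
      obtain ⟨x, -⟩ := m.nonempty_of_pos (Y := univ) (by rw [m1]; exact one_pos)
      exact ⟨x⟩
    set a : ℝ := log (cnt ω univ) with ha
    have c1 : (1 : ℝ) ≤ cnt ω univ := by exact_mod_cast cnt_pos hω univ_nonempty
    have a0 : 0 ≤ a := log_nonneg c1
    refine le_of_forall_pos_le_add (fun ε hε => ?_)
    refine le_trans ?_ (add_le_add_left (ge_of_tendsto (Mean.tendsto_H hm (FR_nm hω T))
      (b := h0 * T.card - ε) ?_) ε)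
    · linarith
    refine Filter.Eventually.filter_mono hle ?_
    filter_upwards [hb T⁻¹ (ε / (T.card * a + 1)) (by positivity)] with n hn
    have n0 := hne n
    have s1 := Mean.concave (F n) (fun _ => ((F n).card : ℝ)⁻¹) (fun _ => by positivity)
      (by simp [n0.ne']) (fun g => (ν n).push (fun x => g • x)) (fun g => hν1 n) (FR_nm hω T)
    have s2 := (ν n).shearer_nm (hν1 n) hω T (F n \ bdy T⁻¹ (F n)) (F n) (fun f hf b hb => by
      rw [Finset.mem_sdiff, notMem_bdy] at hb
      exact (hb.2 _ (Finset.inv_mem_inv hf)).1 hb.1)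
    have s3 : ∀ g, ((ν n).push (fun x => g • x)).H (nm ω T) = (ν n).H (nm ω (rt T g)) := fun g => by
      rw [Mean.push_H]
      exact (ν n).H_congr (fun _ _ e => nm_rt_iff.2 e) (fun _ _ e => nm_rt_iff.1 e)
    have s4 : (ν n).H (nm ω (F n)) ≤ (ν n).H (nm ω (F n \ bdy T⁻¹ (F n))) +
        (bdy T⁻¹ (F n)).card * a := by
      refine ((ν n).H_mono (FR.prod (FR_nm hω (F n \ bdy T⁻¹ (F n))) (FR_nm hω (bdy T⁻¹ (F n))))
        ?_).trans (((ν n).H_pair_le (hν1 n) (FR_nm hω _) (FR_nm hω _)).trans ?_)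
      · intro x y e
        simp only [Prod.mk.injEq, nm_eq_iff, Finset.mem_sdiff] at e ⊢
        intro g hg
        by_cases h : g ∈ bdy T⁻¹ (F n)
        · exact e.2 g h
        · exact e.1 g ⟨hg, h⟩
      · have := (ν n).H_le_log (hν1 n) (FR_nm hω (bdy T⁻¹ (F n)))
          (c := (cnt ω univ : ℝ) ^ (bdy T⁻¹ (F n)).card) (by positivity)
          (by exact_mod_cast cnt_nm_le hω _ _)
        rw [log_pow] at this
        linarith
    have s5 := hlow n
    simp only [s3] at s1
    rw [← Finset.mul_sum] at s1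
    refine le_trans ?_ s1
    rw [← div_eq_inv_mul, le_div_iff₀ n0]
    refine le_trans ?_ s2
    have t0 : (0 : ℝ) ≤ T.card := Nat.cast_nonneg _
    have s6 : (T.card * a) * (ε / (T.card * a + 1)) ≤ ε := by
      rw [mul_div_assoc', div_le_iff₀ (by positivity)]; nlinarith [mul_nonneg t0 a0]
    have s7 := mul_le_mul_of_nonneg_left hn (mul_nonneg t0 a0)
    nlinarith

lemma exists_unif_on (E : Finset X) (hE : E.Nonempty) : ∃ ν : Mean X, ν.μ univ = 1 ∧
    ∀ {α : Type*} (f : X → α), FR f → InjOn f E → log E.card ≤ ν.H f := by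
  classical
  have c0 : (0 : ℝ) < E.card := by exact_mod_cast hE.card_pos
  set ν := Mean.wsum E (fun _ => (E.card : ℝ)⁻¹) (fun _ => by positivity) Mean.dirac with hν
  have hE' : ∀ φ, ν.E φ = ∑ a ∈ E, (E.card : ℝ)⁻¹ * φ a := fun φ => by
    rw [hν, Mean.wsum_E]; rfl
  refine ⟨ν, ?_, fun f _ hf => le_of_eq ?_⟩
  · unfold Mean.μ
    rw [hE']; simp [ind, c0.ne']
  · have h2 : ∀ x ∈ E, ν.pr f x = (E.card : ℝ)⁻¹ := by
      intro x hx
      unfold Mean.pr Mean.μ
      rw [hE', Finset.sum_eq_single x]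
      · rw [ind_of_mem (by simp), mul_one]
      · intro b hb hne
        rw [ind_of_notMem (s := {y | f y = f x}) (fun e => hne (hf hb hx e)), mul_zero]
      · intro h; exact absurd hx h
    unfold Mean.H
    rw [hE', Finset.sum_congr rfl (fun x hx => by rw [h2 x hx])]
    simp [c0.ne']

/-- the zero pattern -/
def zr {A : Type*} (ω : X → Option A) (x : X) : Prop := ω x = none

variable (G) in
/-- an invariant mean of nearly maximal entropy -/
structure App {A : Type*} (m : Mean X) (ω : X → Option A) (H δ b : ℝ) : Prop where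
  total : m.μ univ = 1
  inv : m.Inv G
  low : ∀ T : Finset G, (H - δ) * T.card ≤ m.H (nm ω T)
  zero : m.μ {x | ω x = none} ≤ b
  up : ∀ δ' > 0, ∃ (K : Finset G) (L : ℝ), 0 ≤ L ∧ ∀ (Φ : Finset G) (x : X),
    (cnt (nm ω Φ) {y | nm (zr ω) Φ y = nm (zr ω) Φ x} : ℝ) ≤
      exp ((H + δ') * Φ.card + L * (bdy K Φ).card)

lemma class_bound {F : ℕ → Finset G} (hF : Admissible F) [Nonempty X] {A : Type*} [Finite A]
    (ω : X → Option A) {H : ℝ} (hH : 0 ≤ H) (h : ∀ δ > 0, ∀ᶠ n in atTop, ∀ x,
      (cnt (nm ω (F n)) {y | nm (zr ω) (F n) y = nm (zr ω) (F n) x} : ℝ) ≤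
        exp ((H + δ) * (F n).card)) :
    ∀ δ' > 0, ∃ (K : Finset G) (L : ℝ), 0 ≤ L ∧ ∀ (Φ : Finset G) (x : X),
      (cnt (nm ω Φ) {y | nm (zr ω) Φ y = nm (zr ω) Φ x} : ℝ) ≤
        exp ((H + δ') * Φ.card + L * (bdy K Φ).card) := by
  intro δ hδ
  have hω : FR ω := FR.of_finite _
  set W : Finset G → X → ℕ := fun Φ x => cnt (nm ω Φ) {y | nm (zr ω) Φ y = nm (zr ω) Φ x} with hW
  have W0 : ∀ Φ x, (0 : ℝ) < W Φ x := fun Φ x => by
    exact_mod_cast cnt_pos (FR_nm hω Φ) (Y := {y | nm (zr ω) Φ y = nm (zr ω) Φ x}) ⟨x, rfl⟩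
  have W1 : ∀ Φ x, log (W Φ x) ≤ log (cnt ω univ) * Φ.card := fun Φ x => by
    rw [mul_comm]
    refine le_trans (log_le_log (W0 Φ x) ?_) (log_cnt_nm_le hω Φ le_rfl)
    exact_mod_cast cnt_mono (FR_nm hω Φ) (subset_univ _)
  have W2 : ∀ Φ x, log (W Φ x) ≤ ⨆ x, log (W Φ x) := fun Φ x =>
    le_ciSup (f := fun x => log (W Φ x)) ⟨_, by rintro _ ⟨x, rfl⟩; exact W1 Φ x⟩ x
  obtain ⟨K, L, L0, hK⟩ := subadd_bound hF (fun Φ => ⨆ x, log (W Φ x)) (log_natCast_nonneg _) hH
    (fun S T => ciSup_le (fun x => by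
      refine le_trans ?_ (add_le_add (W2 S x) (W2 T x))
      rw [← log_mul (W0 _ _).ne' (W0 _ _).ne']
      refine log_le_log (W0 _ _) ?_
      have := (cnt_det (Y := {y | nm (zr ω) (S ∪ T) y = nm (zr ω) (S ∪ T) x}) (g := nm ω (S ∪ T))
        (FR.prod (FR_nm hω S) (FR_nm hω T)) (fun y _ z _ e => by
          simp only [Prod.mk.injEq, nm_eq_iff, Finset.mem_union] at e ⊢
          exact fun g hg => hg.elim (e.1 g) (e.2 g))).trans
        ((cnt_pair_le (FR_nm hω S) (FR_nm hω T) _).trans (Nat.mul_le_mul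
          (cnt_mono (Y' := {y | nm (zr ω) S y = nm (zr ω) S x}) (FR_nm hω S)
            (fun y hy => nm_det (det_refl _) Finset.subset_union_left _ _ hy))
          (cnt_mono (Y' := {y | nm (zr ω) T y = nm (zr ω) T x}) (FR_nm hω T)
            (fun y hy => nm_det (det_refl _) Finset.subset_union_right _ _ hy))))
      exact_mod_cast this)) (fun S => ciSup_le (W1 S)) (fun S c => ciSup_le (fun x => by
      refine le_trans (log_le_log (W0 _ _) ?_) (W2 S (c • x))
      exact Nat.cast_le.2 (cnt_nm_rt hω S c (Y' := {y | nm (zr ω) S y = nm (zr ω) S (c • x)})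
        (Y := {y | nm (zr ω) (rt S c) y = nm (zr ω) (rt S c) x}) (fun y hy => nm_rt_iff.1 hy))))
    (fun δ hδ => by
      filter_upwards [h δ hδ] with n hn
      exact ciSup_le (fun x => (log_le_iff_le_exp (W0 _ _)).2 (hn x))) hδ
  exact ⟨K, L, L0, fun Φ x => (log_le_iff_le_exp (W0 _ _)).1 ((W2 Φ x).trans (hK Φ))⟩

lemma H_drop {m : Mean X} (h1 : m.μ univ = 1) (hi : m.Inv G) {r : ℕ} {ω : X → Option (Fin r)}
    {ι : X → Fin r} (hω : ∀ x, ω x = none ∨ ω x = some (ι x)) {p : ℝ} (p0 : 0 < p) (p1 : p < 1)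
    (r0 : 0 < r) (T : Finset G) : m.H (nm ι T) ≤ m.H (nm ω T) +
      T.card * (- log (1 - p) + m.μ {x | ω x = none} * (log r - log p)) := by
  classical
  set ζ : X → Option (Fin r) := fun x => if ω x = none then some (ι x) else none with hζ
  have r1 : (1 : ℝ) ≤ r := by exact_mod_cast r0
  have a1 : m.H ζ ≤ - log (1 - p) + m.μ {x | ω x = none} * (log r - log p) := by
    have e1 := m.H_le_code h1 (t := fun x => ω x = none) (FR.of_finite _) (FR.of_finite ζ)
      (fun q => if q then p else 1 - p) (fun q => if q then r else 1)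
      (fun q => by split_ifs <;> linarith) (fun q => by split_ifs <;> linarith) (fun x => by
        by_cases hx : ω x = none
        · simp only [hx, if_true]
          have := (cnt_det (Y := {y | (ω y = none) = True}) (g := ζ) (FR.of_finite ι)
            (fun y hy z hz e => by simp only [mem_ofPred_eq, eq_iff_iff, iff_true] at hy hz
                                   simp [hζ, hy, hz, e])).trans (cnt_le_card _ _)
          rw [Fintype.card_fin] at this
          exact_mod_cast this
        · simp only [hx, if_false]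
          exact_mod_cast cnt_le_one (fun y hy z hz => by
            simp only [mem_ofPred_eq, eq_iff_iff, iff_false] at hy hz
            simp [hζ, hy, hz])) (by
        refine (Finset.sum_le_sum_of_subset_of_nonneg (Finset.subset_univ _)
          (fun q _ _ => by split_ifs <;> linarith)).trans ?_
        simp)
    refine e1.trans ?_
    have e2 := m.mono (φ := fun x => log (if ω x = none then (r : ℝ) else 1) -
      log (if ω x = none then p else 1 - p)) (ψ := fun x => (log r - log p) *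
        ind {x | ω x = none} x + - log (1 - p))
      ((FR.of_finite ω).comp (fun o => log (if o = none then (r : ℝ) else 1) -
        log (if o = none then p else 1 - p)))
      ((FR.ind _).comp (fun t => (log r - log p) * t + - log (1 - p))) (fun x => by
        by_cases hx : ω x = none
        · rw [ind_of_mem (s := {x | ω x = none}) hx]
          simp only [hx, if_true]
          linarith [log_nonpos (by linarith) (by linarith : 1 - p ≤ 1)]
        · rw [ind_of_notMem (s := {x | ω x = none}) hx]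
          simp [hx])
    rw [m.E_add, m.E_mul, m.E_const, h1] at e2
    refine le_trans (le_of_eq ?_) (e2.trans (le_of_eq ?_))
    · congr 1
      funext x
      by_cases hx : ω x = none <;> simp [hx]
    · unfold Mean.μ; ring
  have a2 : m.H (nm ζ T) ≤ T.card * m.H ζ := by
    refine (m.H_tup_le h1 (fun g _ => (FR.of_finite ζ).precomp (fun x => g • x))).trans
      (le_of_eq ?_)
    simp [hi.H (FR.of_finite ζ)]
  have a3 : m.H (nm ι T) ≤ m.H (fun x => (nm ω T x, nm ζ T x)) :=
    m.H_mono (FR.prod (FR_nm (FR.of_finite _) _) (FR_nm (FR.of_finite _) _)) (fun x y e => by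
      simp only [Prod.mk.injEq, nm_eq_iff] at e ⊢
      intro g hg
      have e1 := e.1 g hg
      have e2 := e.2 g hg
      simp only [hζ] at e2
      rcases hω (g • x) with b1 | b1
      · rw [if_pos b1, if_pos (e1 ▸ b1)] at e2
        exact Option.some.inj e2
      · rcases hω (g • y) with b2 | b2
        · rw [e1, b2] at b1; cases b1
        · exact Option.some.inj (b1.symm.trans (e1.trans b2)))
  have a4 := m.H_pair_le h1 (FR_nm (FR.of_finite ω) T) (FR_nm (FR.of_finite ζ) T)
  have a5 := mul_le_mul_of_nonneg_left a1 (Nat.cast_nonneg (α := ℝ) T.card)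
  linarith

end

variable {G X : Type*} [Group G] [DecidableEq G] [MulAction G X] [MetricSpace X]
  {F : ℕ → Finset G}

lemma exists_levels {lam : ℝ} (hlam : 0 < lam) {r : ℕ} [Nonempty (Fin r)] (a : Fin r → X)
    (ha : ∀ x, ∃ i, dist x (a i) < lam / 2) {L : ℕ} (hL : 0 < L) :
    ∃ (ε : ℝ) (ι : ℕ → X → Fin r) (ω : ℕ → X → Option (Fin r)), 0 < ε ∧
      (∀ l < L, ∀ x, dist x (a (ι l x)) < lam) ∧
      (∀ l x y, dist x y < 2 * ε → ω l y = none ∨ ω l y = some (ι l x)) ∧
      ∀ y, ∑ l ∈ Finset.range L, ind {x | ω l x = none} y ≤ r := by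
  classical
  have L1 : (1 : ℝ) ≤ L := by exact_mod_cast hL
  set γ : ℝ := lam / (4 * L) with hγ
  have γ0 : 0 < γ := by positivity
  set ι : ℕ → X → Fin r := fun l x =>
    Classical.epsilon (fun i => dist x (a i) < lam / 2 + 2 * l * γ + γ) with hι
  set st : ℕ → X → Prop := fun l y =>
    ∀ i, dist y (a i) < lam / 2 + 2 * l * γ ∨ lam / 2 + 2 * l * γ + 2 * γ ≤ dist y (a i) with hst
  set ω : ℕ → X → Option (Fin r) := fun l y => if st l y then some (ι l y) else none with hω
  refine ⟨γ / 2, ι, ω, half_pos γ0, ?_, ?_, ?_⟩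
  · intro l hl x
    have l0 : (0 : ℝ) ≤ l := Nat.cast_nonneg _
    have l1 : (l : ℝ) + 1 ≤ L := by exact_mod_cast hl
    have h2 : dist x (a (ι l x)) < lam / 2 + 2 * l * γ + γ := by
      refine Classical.epsilon_spec (p := fun i => dist x (a i) < lam / 2 + 2 * l * γ + γ) ?_
      obtain ⟨i, hi⟩ := ha x
      exact ⟨i, by nlinarith⟩
    have h3 : 4 * L * γ = lam := by rw [hγ]; field_simp
    nlinarith
  · intro l x y hxy
    by_cases hy : st l y
    · right
      simp only [hω, hy, if_true, hι]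
      congr 2
      funext i
      have t1 := dist_triangle x y (a i)
      have t2 := dist_triangle y x (a i)
      rw [dist_comm y x] at t2
      rcases hy i with h2 | h2
      · exact propext ⟨fun _ => by linarith, fun _ => by linarith⟩
      · exact propext ⟨fun _ => by linarith, fun _ => by linarith⟩
    · left; simp [hω, hy]
  · intro y
    have : (Finset.range L).filter (fun l => ¬ st l y) ⊆
        Finset.univ.image (fun i => ⌊(dist y (a i) - lam / 2) / (2 * γ)⌋₊) := by
      intro l hl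
      have h2 := (Finset.mem_filter.1 hl).2
      simp only [hst, not_forall, not_or, not_lt, not_le] at h2
      obtain ⟨i, h2, h3⟩ := h2
      refine Finset.mem_image.2 ⟨i, Finset.mem_univ _, ?_⟩
      have l0 : (0 : ℝ) ≤ l := Nat.cast_nonneg _
      rw [Nat.floor_eq_iff (div_nonneg (by nlinarith) (by positivity)),
        le_div_iff₀ (by positivity), div_lt_iff₀ (by positivity)]
      constructor <;> linarith
    have h2 := (Finset.card_le_card this).trans Finset.card_image_le
    rw [Finset.card_univ, Fintype.card_fin, Finset.card_filter] at h2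
    refine le_trans (le_of_eq ?_) (Nat.cast_le.2 h2)
    push_cast
    refine Finset.sum_congr rfl (fun l _ => ?_)
    by_cases h : st l y <;> simp [ind, hω, h]

lemma exists_separated [CompactSpace X] (T : Finset G) {lam : ℝ} (hlam : 0 < lam) :
    ∃ E : Finset X, (∀ x ∈ E, ∀ y ∈ E, (∀ g ∈ T, dist (g • x) (g • y) < lam) → x = y) ∧
      ∀ x, ∃ y ∈ E, ∀ g ∈ T, dist (g • x) (g • y) < lam := by
  classical
  obtain ⟨k, Q, hQ⟩ := exists_fine (X := X) (half_pos hlam)
  have hb : BddAbove {c | ∃ E : Finset X, (∀ x ∈ E, ∀ y ∈ E,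
      (∀ g ∈ T, dist (g • x) (g • y) < lam) → x = y) ∧ E.card = c} := by
    refine ⟨(FR_nm (FR.of_finite Q) T).toFinset.card, ?_⟩
    rintro _ ⟨E, hE, rfl⟩
    exact Finset.card_le_card_of_injOn (nm Q T) (fun x _ => by simp) (fun x hx y hy e =>
      hE x hx y hy (fun g hg => by linarith [hQ _ _ (nm_eq_iff.1 e g hg)]))
  obtain ⟨E, hE, hc⟩ := Nat.sSup_mem (by exact ⟨0, ∅, by simp, rfl⟩) hb
  refine ⟨E, hE, fun x => ?_⟩
  by_contra hcon
  have hx : x ∉ E := fun hx => hcon ⟨x, hx, fun g _ => by simpa using hlam⟩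
  have := le_csSup hb ⟨insert x E, (fun y hy z hz h => by
    rcases Finset.mem_insert.1 hy with rfl | hy' <;> rcases Finset.mem_insert.1 hz with rfl | hz'
    · rfl
    · exact absurd ⟨z, hz', h⟩ hcon
    · exact absurd ⟨y, hy', fun g hg => by rw [dist_comm]; exact h g hg⟩ hcon
    · exact hE y hy' z hz' h), rfl⟩
  rw [Finset.card_insert_of_notMem hx, ← hc] at this
  omega

lemma coverNum_spec (U : Finset (Set X)) (hU : ∀ x, ∃ V ∈ U, x ∈ V) (T : Finset G) :
    ∃ S : Finset (G → Set X), S.card = coverNum U T ∧ (∀ u ∈ S, ∀ g ∈ T, u g ∈ U) ∧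
      ∀ x : X, ∃ u ∈ S, ∀ g ∈ T, g • x ∈ u g := by
  classical
  choose v hv1 hv2 using hU
  have Fv : FR v := U.finite_toSet.subset (by rintro _ ⟨x, rfl⟩; exact hv1 x)
  refine Nat.sInf_mem (s := {k | ∃ S : Finset (G → Set X), S.card = k ∧
    (∀ u ∈ S, ∀ g ∈ T, u g ∈ U) ∧ ∀ x : X, ∃ u ∈ S, ∀ g ∈ T, g • x ∈ u g})
    ⟨_, (FR_nm Fv T).toFinset.image (fun w g => (w g).getD univ), rfl, ?_, ?_⟩
  · intro u hu g hg
    obtain ⟨w, hw, rfl⟩ := Finset.mem_image.1 hu
    obtain ⟨x, rfl⟩ := (Set.Finite.mem_toFinset _).1 hw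
    simp [nm, tup, hg, hv1]
  · intro x
    exact ⟨_, Finset.mem_image_of_mem _ ((Set.Finite.mem_toFinset _).2 ⟨x, rfl⟩),
      fun g hg => by simp [nm, tup, hg, hv2]⟩

theorem exists_app [CompactSpace X] (hF : Admissible F) {H δ : ℝ}
    (htop : hTop X F = ENNReal.ofReal H) (hδ : 0 < δ) (hH : δ < H) :
    ∃ r : ℕ, ∀ b > 0, ∃ (ω : X → Option (Fin r)) (ι : X → Fin r) (ε : ℝ) (m : Mean X),
      0 < ε ∧ (∀ x y, dist x y < 2 * ε → ω y = none ∨ ω y = some (ι x)) ∧ App G m ω H δ b := by
  classical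
  have h1 : ENNReal.ofReal (H - δ / 2) < hTop X F := by
    rw [htop]; exact (ENNReal.ofReal_lt_ofReal_iff (by linarith)).2 (by linarith)
  unfold hTop at h1
  simp only [lt_iSup_iff] at h1
  obtain ⟨U, hUo, hUc, h1⟩ := h1
  obtain ⟨φ, hφ, h2⟩ := extraction_of_frequently_atTop (frequently_lt_of_lt_limsup
    (by isBoundedDefault) h1)
  have h3 : ∀ k, (H - δ / 2) * (F (φ k)).card < log (coverNum U (F (φ k))) := fun k => by
    have := (ENNReal.ofReal_lt_ofReal_iff_of_nonneg (by linarith)).1 (h2 k)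
    rwa [lt_div_iff₀ (hF.card_pos _)] at this
  have h4 : ∀ k, (0 : ℝ) < coverNum U (F (φ k)) := fun k => by
    rcases Nat.eq_zero_or_pos (coverNum U (F (φ k))) with e | e
    · have := h3 k
      rw [e] at this
      simp only [Nat.cast_zero, log_zero] at this
      nlinarith [hF.card_pos (φ k)]
    · exact_mod_cast e
  obtain ⟨lam, hlam, hleb⟩ := lebesgue_number_lemma_of_metric_sUnion (isCompact_univ (X := X))
    (c := (U : Set (Set X))) hUo (fun x _ => by simpa using hUc x)
  choose E hE1 hE2 using fun k => exists_separated (X := X) (F (φ k)) hlam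
  choose V hVU hV using fun x => hleb x (mem_univ _)
  have h5 : ∀ k, coverNum U (F (φ k)) ≤ (E k).card := fun k => by
    unfold coverNum
    refine le_trans (b := ((E k).image (fun y (g : G) => V (g • y))).card)
      (Nat.sInf_le ⟨_, rfl, ?_, ?_⟩) Finset.card_image_le
    · intro u hu g _
      obtain ⟨y, -, rfl⟩ := Finset.mem_image.1 hu
      exact hVU _
    · intro x
      obtain ⟨y, hy, h⟩ := hE2 k x
      exact ⟨_, Finset.mem_image_of_mem _ hy, fun g hg => hV _ (h g hg)⟩
  have h6 : ∀ k, (E k).Nonempty := fun k => Finset.card_pos.1 (by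
    have : 0 < coverNum U (F (φ k)) := by exact_mod_cast h4 k
    exact this.trans_le (h5 k))
  have hX : Nonempty X := ⟨(h6 0).choose⟩
  choose ν hν1 hν using fun k => exists_unif_on (E k) (h6 k)
  obtain ⟨m, m1, m2, m3⟩ := exists_inv_mean (fun k => F (φ k)) (fun k => hF.card_pos _)
    (fun s => (hF.2.1 s).comp hφ.tendsto_atTop)
    (fun K δ hδ => hφ.tendsto_atTop.eventually (hF.bdy_le K hδ)) ν hν1
  obtain ⟨r, a, ha⟩ := exists_centers (X := X) (half_pos (half_pos hlam))
  have r0 : 0 < r := by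
    obtain ⟨i, -⟩ := ha hX.some
    exact i.pos
  have : Nonempty (Fin r) := ⟨⟨0, r0⟩⟩
  refine ⟨r, fun b hb => ?_⟩
  set p : ℝ := 1 - exp (-(δ / 4)) with hp
  have p0 : 0 < p := by have := exp_lt_one_iff.2 (by linarith : -(δ / 4) < 0); linarith
  have p1 : p < 1 := by linarith [exp_pos (-(δ / 4))]
  have q0 : 0 ≤ log r - log p := by
    linarith [log_natCast_nonneg r, log_nonpos p0.le p1.le]
  set b' := min b (δ / 4 / (log r - log p + 1)) with hb'
  have b0 : 0 < b' := lt_min hb (by positivity)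
  obtain ⟨L, hL⟩ := exists_nat_gt (r / b')
  have L0 : (0 : ℝ) < L := lt_of_le_of_lt (by positivity) hL
  obtain ⟨ε, ι, ω, hε, l1, l2, l3⟩ := exists_levels (half_pos hlam) a ha (L := L)
    (by exact_mod_cast L0)
  obtain ⟨l, hl, hz⟩ : ∃ l ∈ Finset.range L, m.μ {x | ω l x = none} ≤ b' := by
    refine Finset.exists_le_of_sum_le ⟨0, by simpa using L0⟩ ?_
    have := m.mono (FR_sum (Finset.range L) (fun l _ => FR.ind {x | ω l x = none}))
      (FR.const (r : ℝ)) l3
    rw [m.E_sum, m.E_const, m1] at this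
    rw [Finset.sum_const, Finset.card_range, nsmul_eq_mul]
    rw [div_lt_iff₀ b0] at hL
    exact this.trans (by linarith)
  refine ⟨ω l, ι l, ε, m, hε, l2 l, m1, m2, fun T => ?_, hz.trans (min_le_left _ _),
    class_bound hF (ω l) (by linarith) (fun δ' hδ' => ?_)⟩
  · have a1 := m3 r (ι l) (H - δ / 2) (fun k => ((h3 k).le.trans (log_le_log (h4 k)
      (by exact_mod_cast h5 k))).trans (hν k _ (FR_nm (FR.of_finite _) _) (fun x hx y hy e =>
        hE1 k x hx y hy (fun g hg => by
          have e1 := l1 l (Finset.mem_range.1 hl) (g • x)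
          have e2 := l1 l (Finset.mem_range.1 hl) (g • y)
          rw [nm_eq_iff.1 e g hg] at e1
          linarith [dist_triangle_right (g • x) (g • y) (a (ι l (g • y)))])))) T
    have a2 := H_drop m1 m2 (ω := ω l) (ι := ι l) (fun x => l2 l x x (by simpa using hε))
      p0 p1 r0 T
    have a3 : - log (1 - p) = δ / 4 := by rw [hp]; simp
    have a4 : m.μ {x | ω l x = none} * (log r - log p) ≤ δ / 4 := by
      refine (mul_le_mul_of_nonneg_right (hz.trans (min_le_right _ _)) q0).trans ?_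
      rw [div_mul_eq_mul_div, div_le_iff₀ (by positivity)]
      nlinarith
    rw [a3] at a2
    have t0 : (0 : ℝ) ≤ T.card := Nat.cast_nonneg _
    nlinarith
  · obtain ⟨k, c, hc⟩ := exists_centers (X := X) hε
    set U' : Finset (Set X) := Finset.univ.image (fun i => Metric.ball (c i) ε) with hU'
    have u1 : ∀ x, ∃ V ∈ U', x ∈ V := fun x => by
      obtain ⟨i, hi⟩ := hc x
      exact ⟨_, Finset.mem_image_of_mem _ (Finset.mem_univ i), hi⟩
    have u2 : limsup (fun n => ENNReal.ofReal (log (coverNum U' (F n)) / (F n).card)) atTop <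
        ENNReal.ofReal (H + δ') := by
      refine lt_of_le_of_lt ?_ ((ENNReal.ofReal_lt_ofReal_iff (by linarith)).2
        (by linarith : H < H + δ'))
      rw [← htop]
      unfold hTop
      refine le_iSup_of_le U' (le_iSup_of_le (fun V hV => ?_) (le_iSup_of_le u1 le_rfl))
      obtain ⟨i, -, rfl⟩ := Finset.mem_image.1 hV
      exact Metric.isOpen_ball
    filter_upwards [eventually_lt_of_limsup_lt u2] with n hn x
    rw [ENNReal.ofReal_lt_ofReal_iff (by linarith), div_lt_iff₀ (hF.card_pos n)] at hn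
    obtain ⟨S, s1, s2, s3⟩ := coverNum_spec U' u1 (F n)
    have a1 : cnt (nm (ω l) (F n)) {y | nm (zr (ω l)) (F n) y = nm (zr (ω l)) (F n) x} ≤
        coverNum U' (F n) := by
      rw [← s1, Finset.card_eq_sum_ones]
      refine le_trans (cnt_mono (FR_nm (FR.of_finite _) _) (Y' := ⋃ u ∈ S,
        {y | nm (zr (ω l)) (F n) y = nm (zr (ω l)) (F n) x ∧ ∀ g ∈ F n, g • y ∈ u g})
        (fun y hy => ?_)) ((cnt_biUnion_le _ _ _).trans (Finset.sum_le_sum (fun u hu =>
          cnt_le_one (fun y hy z hz => nm_eq_iff.2 (fun g hg => ?_)))))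
      · obtain ⟨u, hu, h⟩ := s3 y
        exact mem_iUnion₂.2 ⟨u, hu, hy, h⟩
      · obtain ⟨i, -, hi⟩ := Finset.mem_image.1 (s2 u hu g hg)
        have e1 := hy.2 g hg
        have e2 := hz.2 g hg
        rw [← hi, Metric.mem_ball] at e1 e2
        have e3 : (ω l (g • y) = none) = (ω l (g • z) = none) :=
          nm_eq_iff.1 (hy.1.trans hz.1.symm) g hg
        have e4 := l2 l (g • y) (g • z) (by linarith [dist_triangle_right (g • y) (g • z) (c i)])
        have e5 := l2 l (g • y) (g • y) (by simpa using hε)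
        rcases e4 with e4 | e4
        · rw [e4, (e3.symm ▸ e4 : ω l (g • y) = none)]
        · rcases e5 with e5 | e5
          · rw [e5, (e3 ▸ e5 : ω l (g • z) = none)]
          · rw [e4, e5]
    rcases Nat.eq_zero_or_pos (coverNum U' (F n)) with e | e
    · rw [e] at a1
      exact le_trans (by exact_mod_cast a1) (exp_pos _).le
    · exact le_trans (by exact_mod_cast a1)
        ((log_le_iff_le_exp (by exact_mod_cast e)).1 hn.le)

end Pool.Agent.P.MP_4cf0b2_an
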