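import Pool.Agent.P.MP_4cf0b2_an.Defs

namespace Pool.Agent.P.MP_4cf0b2_an

open scoped ENNReal NNReal Pointwise symmDiff
open Filter MeasureTheory Multiplicative

/-- The space. -/
def Sp : Type := ℤ × ℕ × ℕ → Bool

instance : TopologicalSpace Sp := inferInstanceAs (TopologicalSpace (ℤ × ℕ × ℕ → Bool))
instance : CompactSpace Sp := inferInstanceAs (CompactSpace (ℤ × ℕ × ℕ → Bool))
instance : TopologicalSpace.MetrizableSpace Sp :=
  inferInstanceAs (TopologicalSpace.MetrizableSpace (ℤ × ℕ × ℕ → Bool))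
noncomputable instance : MetricSpace Sp := TopologicalSpace.metrizableSpaceMetric Sp

instance : MulAction (Multiplicative ℤ) Sp where
  smul g x := fun p => x (p.1 + toAdd g, p.2)
  one_smul x := by
    funext p
    change x (p.1 + toAdd (1 : Multiplicative ℤ), p.2) = x p
    simp
  mul_smul g h x := by
    funext p
    change x (p.1 + toAdd (g * h), p.2) = x (p.1 + toAdd g + toAdd h, p.2)
    rw [toAdd_mul, add_assoc]

lemma smul_apply (g : Multiplicative ℤ) (x : Sp) (p : ℤ × ℕ × ℕ) :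
    (g • x) p = x (p.1 + toAdd g, p.2) := rfl

lemma continuous_coord (p : ℤ × ℕ × ℕ) : Continuous fun x : Sp => x p :=
  continuous_apply (A := fun _ : ℤ × ℕ × ℕ => Bool) p

instance : ContinuousConstSMul (Multiplicative ℤ) Sp where
  continuous_const_smul g :=
    continuous_pi (A := fun _ : ℤ × ℕ × ℕ => Bool) fun p => continuous_coord (p.1 + toAdd g, p.2)

lemma exists_window {ε : ℝ} (hε : 0 < ε) : ∃ W : Finset (ℤ × ℕ × ℕ), ∀ x y : Sp,
    (∀ p ∈ W, x p = y p) → dist x y < ε := by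
  have hc : IsCompact {q : Sp × Sp | ε ≤ dist q.1 q.2} :=
    (isClosed_le continuous_const continuous_dist).isCompact
  obtain ⟨W, hW⟩ := hc.elim_finite_subcover (fun p : ℤ × ℕ × ℕ => {q : Sp × Sp | q.1 p ≠ q.2 p})
    (fun p => isOpen_ne_fun ((continuous_coord p).comp continuous_fst)
      ((continuous_coord p).comp continuous_snd)) (by
      intro q hq
      by_contra h
      simp only [Set.mem_iUnion, Set.mem_ofPred_eq, not_exists, not_not] at h
      have : q.1 = q.2 := funext h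
      simp only [Set.mem_ofPred_eq, this, dist_self] at hq
      linarith)
  refine ⟨W, fun x y h => ?_⟩
  by_contra hc
  have := hW (show (x, y) ∈ {q : Sp × Sp | ε ≤ dist q.1 q.2} from not_lt.1 hc)
  simp only [Set.mem_iUnion, Set.mem_ofPred_eq] at this
  obtain ⟨p, hp, hne⟩ := this
  exact hne (h p hp)

lemma exists_scale_one (p : ℤ × ℕ × ℕ) : ∃ ε > 0, ∀ x y : Sp, dist x y < ε → x p = y p := by
  have hc : Continuous fun x : Sp => (if x p then (1 : ℝ) else 0) :=
    (continuous_of_discreteTopology (f := fun b : Bool => if b then (1 : ℝ) else 0)).comp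
      (continuous_coord p)
  obtain ⟨δ, hδ, h⟩ := Metric.uniformContinuous_iff.1
    (CompactSpace.uniformContinuous_of_continuous hc) 1 one_pos
  refine ⟨δ, hδ, fun x y hxy => ?_⟩
  have := h hxy
  cases hx : x p <;> cases hy : y p <;> simp_all [Real.dist_eq]

lemma exists_scale (W : Finset (ℤ × ℕ × ℕ)) :
    ∃ ε > 0, ∀ x y : Sp, dist x y < ε → ∀ p ∈ W, x p = y p := by
  classical
  induction W using Finset.induction_on with
  | empty => exact ⟨1, one_pos, by simp⟩
  | insert p W _ ih =>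
    obtain ⟨ε, hε, h⟩ := ih
    obtain ⟨δ, hδ, h'⟩ := exists_scale_one p
    refine ⟨min ε δ, lt_min hε hδ, fun x y hxy q hq => ?_⟩
    rcases Finset.mem_insert.1 hq with rfl | hq
    · exact h' x y (hxy.trans_le (min_le_right _ _))
    · exact h x y (hxy.trans_le (min_le_left _ _)) q hq

/-- The standard Følner sequence `{0, …, n}`. -/
noncomputable def FF (n : ℕ) : Finset (Multiplicative ℤ) := (Finset.Icc (0 : ℤ) n).map ofAdd.toEmbedding

lemma mem_FF {n : ℕ} {g : Multiplicative ℤ} : g ∈ FF n ↔ 0 ≤ toAdd g ∧ toAdd g ≤ n := by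
  simp [FF, Finset.mem_map_equiv]

lemma card_FF (n : ℕ) : (FF n).card = n + 1 := by
  simp [FF]

lemma admissible_FF : Admissible FF := by
  refine ⟨fun n => ⟨1, by simp [mem_FF]⟩, fun s => ?_, ⟨2, two_pos, fun n _ => ?_⟩, ?_⟩
  · have hb : ∀ n, ((FF n) ∆ (s • FF n)).card ≤ 4 * (toAdd s).natAbs + 2 := by
      intro n
      have hsub : (FF n) ∆ (s • FF n) ⊆
          (Finset.Icc (-((toAdd s).natAbs : ℤ)) (toAdd s).natAbs).map ofAdd.toEmbedding ∪
          (Finset.Icc (n - ((toAdd s).natAbs : ℤ)) (n + (toAdd s).natAbs)).map ofAdd.toEmbedding := by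
        intro g hg
        rw [Finset.mem_symmDiff, ← Finset.inv_smul_mem_iff] at hg
        simp only [mem_FF, smul_eq_mul, toAdd_mul, toAdd_inv] at hg
        simp only [Finset.mem_union, Finset.mem_map_equiv, ofAdd_symm_eq, Finset.mem_Icc]
        omega
      refine (Finset.card_le_card hsub).trans ((Finset.card_union_le _ _).trans ?_)
      simp only [Finset.card_map, Int.card_Icc]
      omega
    have h0 : Tendsto (fun n : ℕ => ((4 * (toAdd s).natAbs + 2 : ℕ) : ℝ) / ((n : ℝ) + 1)) atTop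
        (nhds 0) :=
      tendsto_const_nhds.div_atTop (tendsto_atTop_add_const_right _ _ tendsto_natCast_atTop_atTop)
    refine squeeze_zero (fun n => by positivity) (fun n => ?_) h0
    rw [card_FF]
    push_cast
    gcongr
    exact_mod_cast hb n
  · have hsub : ((Finset.range n).biUnion fun k => (FF k)⁻¹ * FF n) ⊆
        (Finset.Icc (-(n : ℤ)) n).map ofAdd.toEmbedding := by
      intro g hg
      simp only [Finset.mem_biUnion, Finset.mem_range, Finset.mem_mul, Finset.mem_inv'] at hg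
      obtain ⟨k, hk, a, ha, b, hb, rfl⟩ := hg
      simp only [mem_FF, toAdd_inv] at ha hb
      simp only [Finset.mem_map_equiv, ofAdd_symm_eq, Finset.mem_Icc, toAdd_mul]
      omega
    have h1 := Finset.card_le_card hsub
    simp only [Finset.card_map, Int.card_Icc] at h1
    rw [card_FF]
    have h2 : ((Finset.range n).biUnion fun k => (FF k)⁻¹ * FF n).card ≤ 2 * (n + 1) := by omega
    exact_mod_cast h2
  · have h1 : Tendsto (fun x : ℝ => x / Real.log x) atTop atTop := by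
      have h2 := (Real.isLittleO_log_id_atTop.tendsto_div_nhds_zero)
      have h3 : Tendsto (fun x : ℝ => Real.log x / x) atTop (nhdsWithin 0 (Set.Ioi 0)) := by
        refine tendsto_nhdsWithin_iff.2 ⟨h2, ?_⟩
        filter_upwards [eventually_gt_atTop 1] with x hx
        exact div_pos (Real.log_pos hx) (by linarith)
      have h4 := h3.inv_tendsto_nhdsGT_zero
      refine h4.congr fun x => ?_
      simp
    refine tendsto_atTop_mono' atTop ?_ (h1.comp tendsto_natCast_atTop_atTop)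
    filter_upwards [eventually_gt_atTop 1] with n hn
    have : 0 < Real.log n := Real.log_pos (by exact_mod_cast hn)
    simp only [Function.comp, card_FF]
    gcongr
    exact Nat.le_succ n

/-- The parametrisation of the compact set. -/
def Φ (ω : ℕ → Bool) : Sp := fun p => ω (p.2.1 * p.1.toNat + p.2.2)

lemma continuous_Φ : Continuous Φ :=
  continuous_pi (A := fun _ : ℤ × ℕ × ℕ => Bool) fun _ => continuous_apply _

lemma coarse {ε : ℝ} (hε : 0 < ε) : ∃ m : ℕ, ∀ (n : ℕ) (ω ω' : ℕ → Bool),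
    (∀ j ≤ m * (m + n) + m, ω j = ω' j) → Φ ω' ∈ bowenBall (FF n) (Φ ω) ε := by
  obtain ⟨W, hW⟩ := exists_window hε
  obtain ⟨m, hm⟩ := (W.image fun p => p.1.toNat + p.2.1 + p.2.2).exists_le
  refine ⟨m, fun n ω ω' h g hg => hW _ _ fun p hp => ?_⟩
  have h1 := hm _ (Finset.mem_image_of_mem _ hp)
  rw [mem_FF] at hg
  simp only [smul_apply, Φ]
  apply h
  have h2 : (p.1 + toAdd g).toNat ≤ m + n := by omega
  have h3 : p.2.1 * (p.1 + toAdd g).toNat ≤ m * (m + n) := Nat.mul_le_mul (by omega) h2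
  omega

lemma fine (k : ℕ) : ∃ ε > 0, ∀ (n : ℕ) (x : Sp) (ω ω' : ℕ → Bool),
    Φ ω ∈ bowenBall (FF n) x ε → Φ ω' ∈ bowenBall (FF n) x ε → ∀ j < k * (n + 1), ω j = ω' j := by
  obtain ⟨ε, hε, h⟩ := exists_scale ((Finset.range k).image fun r => ((0 : ℤ), k, r))
  refine ⟨ε, hε, fun n x ω ω' h1 h2 j hj => ?_⟩
  have hk : 0 < k := Nat.pos_of_ne_zero (by rintro rfl; simp at hj)
  have hg : ofAdd ((j / k : ℕ) : ℤ) ∈ FF n := by
    rw [mem_FF, toAdd_ofAdd]
    have : j / k < n + 1 := Nat.div_lt_of_lt_mul hj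
    generalize j / k = q at this ⊢
    omega
  have hp : ((0 : ℤ), k, j % k) ∈ (Finset.range k).image fun r => ((0 : ℤ), k, r) :=
    Finset.mem_image_of_mem _ (Finset.mem_range.2 (Nat.mod_lt j hk))
  have e1 := h _ _ (h1 _ hg) _ hp
  have e2 := h _ _ (h2 _ hg) _ hp
  rw [e1] at e2
  simpa only [smul_apply, Φ, toAdd_ofAdd, zero_add, Int.toNat_natCast, Nat.div_add_mod] using e2

lemma bowenM_le {ε : ℝ} (hε : 0 < ε) (t : ℕ) : ∃ ε' > 0, ∀ Z ⊆ Set.range Φ, ∀ (N : ℕ) (s : ℝ≥0),
    bowenM FF Z N ε (s / (t + 1)) ≤ bowenM FF Z N ε' s := by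
  obtain ⟨m, hm⟩ := coarse hε
  obtain ⟨ε', hε', h⟩ := fine (m * m + m * (t + 1) + 1)
  refine ⟨ε', hε', fun Z hZ N s => ?_⟩
  simp only [bowenM]
  refine le_iInf fun I => le_iInf fun x => le_iInf fun n => le_iInf fun hn => le_iInf fun hcov => ?_
  have hz : ∀ i : I, ∃ z : Sp, ∀ y ∈ Z, y ∈ bowenBall (FF (n i)) (x i) ε' →
      y ∈ bowenBall (FF (t * (n i + 1) + n i)) z ε := by
    intro i
    by_cases hne : ∃ y ∈ Z, y ∈ bowenBall (FF (n i)) (x i) ε'
    · obtain ⟨y, hyZ, hy⟩ := hne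
      obtain ⟨ω, rfl⟩ := hZ hyZ
      refine ⟨Φ ω, fun y' hy'Z hy' => ?_⟩
      obtain ⟨ω', rfl⟩ := hZ hy'Z
      apply hm
      intro j hj
      apply h (n i) (x i) ω ω' hy hy'
      nlinarith [Nat.zero_le (m * m * n i), Nat.zero_le (n i)]
    · exact ⟨x i, fun y hyZ hy => absurd ⟨y, hyZ, hy⟩ hne⟩
  choose z hz using hz
  refine iInf_le_of_le I (iInf_le_of_le z (iInf_le_of_le (fun i => t * (n i + 1) + n i)
    (iInf_le_of_le (fun i => (hn i).trans (Nat.le_add_left _ _)) (iInf_le_of_le ?_ (le_of_eq ?_)))))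
  · intro y hy
    obtain ⟨i, hi⟩ := Set.mem_iUnion.1 (hcov hy)
    exact Set.mem_iUnion.2 ⟨i, hz i y hy hi⟩
  · refine tsum_congr fun i => ?_
    congr 2
    rw [card_FF, card_FF]
    push_cast
    field_simp
    ring

lemma bowenTop_zero_or_top {Z : Set Sp} (hZ : Z ⊆ Set.range Φ) (h : bowenTop FF Z ≠ ⊤) :
    bowenTop FF Z = 0 := by
  have key : ∀ ε > 0, ∀ t : ℕ, bowenEnt FF Z ε ≤ (bowenTop FF Z + 1) / (t + 1) := by
    intro ε hε t
    obtain ⟨ε', hε', hle⟩ := bowenM_le hε t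
    have h1 : bowenEnt FF Z ε' < bowenTop FF Z + 1 :=
      lt_of_le_of_lt (le_iSup₂_of_le (f := fun (ε : ℝ) (_ : 0 < ε) => bowenEnt FF Z ε) ε' hε' le_rfl)
        (ENNReal.lt_add_right h one_ne_zero)
    simp only [bowenEnt, iInf_lt_iff] at h1
    obtain ⟨s, hs, hlt⟩ := h1
    have h2 : (⨆ N, bowenM FF Z N ε (s / (t + 1))) = 0 :=
      le_antisymm ((iSup_mono fun N => hle Z hZ N s).trans hs.le) bot_le
    refine (iInf₂_le (f := fun (s : ℝ≥0) (_ : (⨆ N, bowenM FF Z N ε s) = 0) => (s : ℝ≥0∞))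
      _ h2).trans ?_
    rw [ENNReal.coe_div (by positivity)]
    push_cast
    exact ENNReal.div_le_div_right hlt.le _
  refine le_antisymm (iSup₂_le fun ε hε => ?_) bot_le
  have hfin : bowenTop FF Z + 1 ≠ ⊤ := ENNReal.add_ne_top.2 ⟨h, ENNReal.one_ne_top⟩
  have h0 : Tendsto (fun t : ℕ => (bowenTop FF Z + 1) / ((t : ℝ≥0∞) + 1)) atTop (nhds 0) := by
    have h1 : Tendsto (fun t : ℕ => ((t : ℝ≥0∞) + 1)⁻¹) atTop (nhds 0) := by
      have := ENNReal.tendsto_inv_nat_nhds_zero.comp (tendsto_add_atTop_nat 1)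
      refine this.congr fun t => ?_
      simp
    have := ENNReal.Tendsto.const_mul h1 (Or.inr hfin)
    simpa [div_eq_mul_inv] using this
  exact ge_of_tendsto' h0 fun t => key ε hε t

lemma half_le_bowenTop : (1 / 2 : ℝ≥0∞) ≤ bowenTop FF (Set.range Φ) := by
  obtain ⟨ε, hε, h⟩ := fine 1
  refine le_iSup₂_of_le ε hε (le_iInf₂ fun s hs => ?_)
  by_contra hlt
  have hs2 : (s : ℝ) ≤ 1 / 2 := by
    have h1 : (s : ℝ≥0∞) < ((1 / 2 : ℝ≥0) : ℝ≥0∞) := by
      rw [ENNReal.coe_div two_ne_zero]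
      exact not_le.1 hlt
    have h2 : s < 1 / 2 := ENNReal.coe_lt_coe.1 h1
    exact_mod_cast h2.le
  let ν : Measure Bool := (PMF.uniformOfFintype Bool).toMeasure
  let μ : Measure (ℕ → Bool) := Measure.infinitePi fun _ => ν
  have hν : ∀ b, ν {b} = 2⁻¹ := by
    intro b
    simp [ν, PMF.toMeasure_apply_singleton _ _ (measurableSet_singleton b)]
  have hcyl : ∀ (L : ℕ) (ω : ℕ → Bool), μ (Set.pi (Finset.range L) fun j => {ω j}) = 2⁻¹ ^ L := by
    intro L ω
    rw [Measure.infinitePi_pi _ fun j _ => measurableSet_singleton _]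
    simp [hν]
  have h1 : 1 ≤ bowenM FF (Set.range Φ) 0 ε s := by
    simp only [bowenM]
    refine le_iInf fun I => le_iInf fun x => le_iInf fun n => le_iInf fun _ =>
      le_iInf fun hcov => ?_
    have hsub : (Set.univ : Set (ℕ → Bool)) ⊆ ⋃ i, Φ ⁻¹' bowenBall (FF (n i)) (x i) ε := by
      intro ω _
      obtain ⟨i, hi⟩ := Set.mem_iUnion.1 (hcov ⟨ω, rfl⟩)
      exact Set.mem_iUnion.2 ⟨i, hi⟩
    calc (1 : ℝ≥0∞) = μ Set.univ := measure_univ.symm
      _ ≤ μ (⋃ i, Φ ⁻¹' bowenBall (FF (n i)) (x i) ε) := measure_mono hsub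
      _ ≤ ∑' i, μ (Φ ⁻¹' bowenBall (FF (n i)) (x i) ε) := measure_iUnion_le _
      _ ≤ _ := by
        refine ENNReal.tsum_le_tsum fun i => ?_
        rcases (Φ ⁻¹' bowenBall (FF (n i)) (x i) ε).eq_empty_or_nonempty with he | ⟨ω, hω⟩
        · simp [he]
        · have : Φ ⁻¹' bowenBall (FF (n i)) (x i) ε ⊆
              Set.pi (Finset.range (n i + 1)) fun j => {ω j} := by
            intro ω' hω' j hj
            simp only [Finset.coe_range, Set.mem_Iio] at hj
            exact (h (n i) (x i) ω ω' hω hω' j (by omega)).symm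
          refine (measure_mono this).trans ?_
          rw [hcyl, card_FF, mul_comm, Real.exp_nat_mul, ENNReal.ofReal_pow (Real.exp_pos _).le]
          gcongr
          have h2 : (2⁻¹ : ℝ≥0∞) = ENNReal.ofReal (1 / 2) := by
            rw [ENNReal.ofReal_div_of_pos two_pos]; simp
          rw [h2]
          apply ENNReal.ofReal_le_ofReal
          have := Real.add_one_le_exp (-(s : ℝ))
          linarith
  have h2 : bowenM FF (Set.range Φ) 0 ε s ≤ 0 :=
    (le_iSup (fun N => bowenM FF (Set.range Φ) N ε s) 0).trans hs.le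
  exact absurd (h1.trans h2) (by simp)

theorem not_hereditary : ¬ DHereditarilyLowerable Sp FF := by
  intro h
  obtain ⟨Z, hZ, hh⟩ := h (Set.range Φ) (Set.range_nonempty _)
    (isCompact_range continuous_Φ).isClosed.analyticSet _ half_le_bowenTop
  have := bowenTop_zero_or_top hZ (by rw [hh]; simp)
  rw [hh] at this
  simp at this

theorem main : ∃ (X : Type) (_ : MetricSpace X) (_ : CompactSpace X)
    (_ : MulAction (Multiplicative ℤ) X) (_ : ContinuousConstSMul (Multiplicative ℤ) X)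
    (F : ℕ → Finset (Multiplicative ℤ)), Admissible F ∧ ¬ DHereditarilyLowerable X F :=
  ⟨Sp, inferInstance, inferInstance, inferInstance, inferInstance, FF, admissible_FF,
    not_hereditary⟩

end Pool.Agent.P.MP_4cf0b2_an
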