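import Mathlib
import Pool.Agent.P.MP_4cf0b2_an.SMB

set_option autoImplicit false
set_option linter.unusedSectionVars false

namespace Pool.Agent.P.MP_4cf0b2_an

open Set Filter Real
open scoped Topology Pointwise

variable {X : Type*}

/-- domination -/
def Dom (ν' : Mean X) (c : ℝ) (ν : Mean X) : Prop := ∀ B, ν'.μ B ≤ c * ν.μ B

lemma Dom.E {ν' ν : Mean X} {c : ℝ} (h : Dom ν' c ν) {φ : X → ℝ} (hφ : FR φ)
    (h0 : ∀ x, 0 ≤ φ x) : ν'.E φ ≤ c * ν.E φ := by
  have e1 := ν'.expand hφ id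
  have e2 := ν.expand hφ id
  simp only [id] at e1 e2
  rw [e1, e2, Finset.mul_sum]
  refine Finset.sum_le_sum (fun a ha => ?_)
  obtain ⟨x, rfl⟩ := (Set.Finite.mem_toFinset _).1 ha
  rw [← mul_assoc]
  exact mul_le_mul_of_nonneg_right (h _) (h0 x)

lemma Dom.null {ν' ν : Mean X} {c : ℝ} (h : Dom ν' c ν) {B : Set X} (hB : ν.μ B = 0) :
    ν'.μ B = 0 := le_antisymm (by simpa [hB] using h B) (ν'.μ_nonneg _)

lemma Dom.trans {ν'' ν' ν : Mean X} {c c' : ℝ} (h' : Dom ν'' c' ν') (h : Dom ν' c ν)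
    (hc : 0 ≤ c') : Dom ν'' (c' * c) ν := fun B => by
  rw [mul_assoc]; exact (h' B).trans (mul_le_mul_of_nonneg_left (h B) hc)

/-- scaling -/
noncomputable def Mean.scale (m : Mean X) (a : ℝ) : Mean X where
  E := |a| • m.E
  pos := fun φ hφ h0 => mul_nonneg (abs_nonneg a) (m.pos φ hφ h0)

lemma Mean.scale_μ (m : Mean X) {a : ℝ} (ha : 0 ≤ a) (s : Set X) :
    (m.scale a).μ s = a * m.μ s := by
  show |a| * _ = _
  rw [abs_of_nonneg ha]; rfl

lemma Mean.μ_le_add_null (m : Mean X) {s t u : Set X} (hu : m.μ u = 0) (h : s ⊆ t ∪ u) :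
    m.μ s ≤ m.μ t := by
  linarith [m.μ_mono h, m.μ_union_le t u]

lemma Mean.μ_compl (m : Mean X) (s : Set X) : m.μ sᶜ = m.μ univ - m.μ s := by
  have := m.μ_inter_add_diff univ s
  rw [univ_inter, ← compl_eq_univ_sdiff] at this
  linarith

lemma Mean.lr_markov (m : Mean X) (h1 : m.μ univ = 1) {α β γ : Type*} {f : X → α} {g : X → β}
    {h : X → γ} (hf : FR f) (hg : FR g) (hd : Det g h) (t : ℝ) :
    m.μ {x | exp t * (m.pr h x * m.pr (fun y => (f y, g y)) x) <
      m.pr (fun y => (f y, h y)) x * m.pr g x} ≤ exp (-t) := by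
  have hh := hg.of_det hd
  have e := m.lr h1 hf hg hh
  rw [m.pr_congr (f := fun y => (g y, h y)) (g := g) (fun a b e => (Prod.mk.inj e).1)
      (fun a b e => Prod.ext e (hd a b e)),
    m.pr_congr (f := fun y => (f y, g y, h y)) (g := fun y => (f y, g y))
      (fun a b e => by simp only [Prod.mk.injEq] at e ⊢; tauto)
      (fun a b e => by simp only [Prod.mk.injEq] at e ⊢; exact ⟨e.1, e.2, hd a b e.2⟩)] at e
  have := m.markov (φ := fun x => m.pr (fun y => (f y, h y)) x * m.pr g x / m.pr h x /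
      m.pr (fun y => (f y, g y)) x)
    ((((m.FR_pr (FR.prod hf hh)).comp₂ (m.FR_pr hg) (· * ·)).comp₂ (m.FR_pr hh)
      (· / ·)).comp₂ (m.FR_pr (FR.prod hf hg)) (· / ·)) (m.null_pr (FR.prod hf hg))
    (fun x _ => div_nonneg (div_nonneg (mul_nonneg (m.pr_nonneg _ _) (m.pr_nonneg _ _))
      (m.pr_nonneg _ _)) (m.pr_nonneg _ _)) (t := exp t)
    (B := {x | exp t * (m.pr h x * m.pr (fun y => (f y, g y)) x) <
      m.pr (fun y => (f y, h y)) x * m.pr g x}) (fun x hx hx' => by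
      have p0 := m.pr_pos hx'
      have p1 : 0 < m.pr h x := p0.trans_le (m.pr_mono (fun a b e => hd a b (Prod.mk.inj e).2) x)
      rw [div_div, le_div_iff₀ (by positivity)]
      exact le_of_lt hx)
  rw [exp_neg, ← one_div, le_div_iff₀ (exp_pos _)]
  linarith

lemma Mean.cmi_markov (m : Mean X) (h1 : m.μ univ = 1) {α β γ : Type*} {f : X → α} {g : X → β}
    {h : X → γ} (hf : FR f) (hg : FR g) (hd : Det g h) (hd' : Det f h) (t : ℝ) :
    t * m.μ {x | exp (t + 1) * (m.pr f x * m.pr g x) ≤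
      m.pr (fun y => (f y, g y)) x * m.pr h x} ≤
      m.H f + m.H g - (m.H (fun y => (f y, g y)) + m.H h) := by
  have hh := hg.of_det hd
  have F2 := FR.prod hf hg
  have e := m.lr h1 hf hg hh
  rw [m.pr_congr (f := fun y => (g y, h y)) (g := g) (fun a b e => (Prod.mk.inj e).1)
      (fun a b e => Prod.ext e (hd a b e)),
    m.pr_congr (f := fun y => (f y, h y)) (g := f) (fun a b e => (Prod.mk.inj e).1)
      (fun a b e => Prod.ext e (hd' a b e)),
    m.pr_congr (f := fun y => (f y, g y, h y)) (g := fun y => (f y, g y))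
      (fun a b e => by simp only [Prod.mk.injEq] at e ⊢; tauto)
      (fun a b e => by simp only [Prod.mk.injEq] at e ⊢; exact ⟨e.1, e.2, hd a b e.2⟩)] at e
  have := m.logratio_markov h1
    (L := fun x => (- log (m.pr f x) + - log (m.pr g x)) -
      (- log (m.pr (fun y => (f y, g y)) x) + - log (m.pr h x)))
    (FR.sub (FR.add (m.FR_log hf) (m.FR_log hg)) (FR.add (m.FR_log F2) (m.FR_log hh)))
    ((((m.FR_pr hf).comp₂ (m.FR_pr hg) (· * ·)).comp₂ (m.FR_pr hh)
      (· / ·)).comp₂ (m.FR_pr F2) (· / ·)) (m.null_pr F2) (fun x hx => by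
      have p0 := m.pr_pos hx
      have p1 : 0 < m.pr f x := p0.trans_le (m.pr_mono (fun a b e => (Prod.mk.inj e).1) x)
      have p2 : 0 < m.pr g x := p0.trans_le (m.pr_mono (fun a b e => (Prod.mk.inj e).2) x)
      have p3 : 0 < m.pr h x := p2.trans_le (m.pr_mono hd x)
      apply le_of_eq
      rw [← exp_log (x := _ / _ / _) (by positivity)]
      congr 1
      rw [log_div (by positivity) p0.ne', log_div (by positivity) p3.ne', log_mul p1.ne' p2.ne']
      ring) e t (B := {x | exp (t + 1) * (m.pr f x * m.pr g x) ≤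
      m.pr (fun y => (f y, g y)) x * m.pr h x}) (fun x hx hx' => by
      have p0 := m.pr_pos hx'
      have p1 : 0 < m.pr f x := p0.trans_le (m.pr_mono (fun a b e => (Prod.mk.inj e).1) x)
      have p2 : 0 < m.pr g x := p0.trans_le (m.pr_mono (fun a b e => (Prod.mk.inj e).2) x)
      have p3 : 0 < m.pr h x := p2.trans_le (m.pr_mono hd x)
      have := log_le_log (by positivity) hx
      rw [log_mul (exp_pos _).ne' (by positivity), log_exp, log_mul p1.ne' p2.ne',
        log_mul p0.ne' p3.ne'] at this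
      linarith)
  rw [m.E_sub, m.E_add, m.E_add] at this
  exact this

/-- derandomized sampling -/
lemma sampling {ι : Type*} (J : Finset ι) (p : ι → ℝ) (hp : ∀ i ∈ J, 0 ≤ p i)
    (h1 : ∑ i ∈ J, p i = 1) (a : ι → ι → ℝ) (M : ℕ) (c : ι → ℝ) :
    ∃ b : Fin M → ι, (∀ k, b k ∈ J) ∧ ∑ k, ∑ l, a (b k) (b l) + ∑ k, c (b k) ≤
      M * (M - 1) * ∑ i ∈ J, ∑ j ∈ J, p i * p j * a i j + M * ∑ i ∈ J, p i * a i i +
        M * ∑ i ∈ J, p i * c i := by
  induction M generalizing c with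
  | zero => exact ⟨Fin.elim0, fun k => k.elim0, by simp⟩
  | succ M ih =>
    obtain ⟨b, hb, h2⟩ := ih (fun i => c i + ∑ j ∈ J, p j * (a i j + a j i))
    have hJ : J.Nonempty := by
      rcases J.eq_empty_or_nonempty with rfl | h
      · simp at h1
      · exact h
    obtain ⟨i, hi, hmin⟩ := J.exists_min_image
      (fun i => a i i + c i + ∑ k, (a (b k) i + a i (b k))) hJ
    have h3 : a i i + c i + ∑ k, (a (b k) i + a i (b k)) ≤
        ∑ j ∈ J, p j * (a j j + c j + ∑ k, (a (b k) j + a j (b k))) := by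
      refine le_trans (le_of_eq ?_) (Finset.sum_le_sum
        (fun j hj => mul_le_mul_of_nonneg_left (hmin j hj) (hp j hj)))
      rw [← Finset.sum_mul, h1, one_mul]
    refine ⟨Fin.cons i b, fun k => Fin.cases hi hb k, ?_⟩
    have h4 : ∑ j ∈ J, p j * ∑ k, (a (b k) j + a j (b k)) =
        ∑ k, ∑ j ∈ J, p j * (a (b k) j + a j (b k)) := by
      simp only [Finset.mul_sum]; rw [Finset.sum_comm]
    have h5 : ∑ i ∈ J, p i * ∑ j ∈ J, p j * (a i j + a j i) =
        2 * ∑ i ∈ J, ∑ j ∈ J, p i * p j * a i j := by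
      simp only [Finset.mul_sum, mul_add, Finset.sum_add_distrib]
      rw [Finset.sum_comm (f := fun x y => p x * (p y * a y x)), ← Finset.sum_add_distrib]
      refine Finset.sum_congr rfl (fun x _ => ?_)
      rw [← Finset.sum_add_distrib]
      exact Finset.sum_congr rfl (fun y _ => by ring)
    simp only [mul_add (p _) (_ + _), mul_add (p _) (a _ _) (c _), mul_add (p _) (c _),
      Finset.sum_add_distrib, h5] at h2 h3 h4
    simp only [Fin.sum_univ_succ, Fin.cons_zero, Fin.cons_succ, Finset.sum_add_distrib]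
    push_cast
    linarith

variable {G : Type*} [Group G] [DecidableEq G] [MulAction G X] {A : Type*}

/-- the coarse neighbourhood of `x` along `T` -/
def nb (ω : X → Option A) (ι : X → A) (T : Finset G) (x : X) : Set X :=
  {y | ∀ g ∈ T, ω (g • y) = none ∨ ω (g • y) = some (ι (g • x))}

lemma FR_nb [Finite A] (ω : X → Option A) (ι : X → A) (T : Finset G) : FR (nb ω ι T) :=
  (FR_nm (FR.of_finite ι) T).of_det (fun x y e => by
    ext z
    exact forall₂_congr (fun g hg => by rw [nm_eq_iff.1 e g hg]))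

lemma two_pow_le_exp (k : ℕ) : (2 : ℝ) ^ k ≤ exp k := by
  have := pow_le_pow_left₀ (by norm_num : (0 : ℝ) ≤ 2) (b := exp 1)
    (by linarith [add_one_le_exp (1 : ℝ)]) k
  rwa [← exp_nat_mul, mul_one] at this

lemma Mean.μ_nb_le [Finite A] (ν : Mean X) (ω : X → Option A) (ι : X → A) (T : Finset G) {b : ℝ}
    (hb : ∀ y, ν.pr (nm ω T) y ≤ b) (x : X) : ν.μ (nb ω ι T x) ≤ exp T.card * b := by
  have b0 : 0 ≤ b := (ν.pr_nonneg _ _).trans (hb x)
  refine (ν.μ_le_cnt (FR_nm (FR.of_finite ω) T) _ (b := b)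
    (fun y _ => (ν.μ_mono inter_subset_right).trans (hb y))).trans
    (mul_le_mul_of_nonneg_right (le_trans ?_ (two_pow_le_exp _)) b0)
  have := (cnt_det (g := nm ω T) (Y := nb ω ι T x)
    (FR_nm (FR.of_finite (fun x => ω x = none)) T) (fun y hy z hz e => by
      rw [nm_eq_iff] at e ⊢
      intro g hg
      have e1 : (ω (g • y) = none) = (ω (g • z) = none) := e g hg
      rcases hy g hg with h1 | h1 <;> rcases hz g hg with h2 | h2 <;> simp_all)).trans
    ((cnt_nm_le (FR.of_finite _) T _).trans (Nat.pow_le_pow_left (cnt_le_card _ _) _))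
  rw [Fintype.card_prop] at this
  exact_mod_cast this

/-- the energy at one time -/
noncomputable def en (ω : X → Option A) (ι : X → A) (T : Finset G) (ν ν' : Mean X) : ℝ :=
  ν.E (fun x => ν'.μ (nb ω ι T x))

variable [Finite A] {ω : X → Option A} {ι : X → A}

lemma en_nonneg (T : Finset G) (ν ν' : Mean X) : 0 ≤ en ω ι T ν ν' :=
  ν.pos _ ((FR_nb ω ι T).comp ν'.μ) (fun _ => ν'.μ_nonneg _)

lemma en_le (T : Finset G) {ν ν' : Mean X} (h1 : ν.μ univ = 1) {b : ℝ}
    (hb : ∀ x, ν'.μ (nb ω ι T x) ≤ b) : en ω ι T ν ν' ≤ b := by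
  have := ν.mono ((FR_nb ω ι T).comp ν'.μ) (FR.const b) hb
  rwa [ν.E_const, h1, mul_one] at this

lemma en_dom (T : Finset G) {ν ν' : Mean X} {c : ℝ} (hc : 0 ≤ c) (h : Dom ν' c ν) :
    en ω ι T ν' ν' ≤ c ^ 2 * en ω ι T ν ν := by
  refine (h.E ((FR_nb ω ι T).comp ν'.μ) (fun _ => ν'.μ_nonneg _)).trans ?_
  rw [sq, mul_assoc]
  refine mul_le_mul_of_nonneg_left ?_ hc
  unfold en
  rw [← ν.E_mul]
  exact ν.mono ((FR_nb ω ι T).comp ν'.μ) ((FR_nb ω ι T).comp (fun s => c * ν.μ s)) (fun x => h _)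

lemma en_wsum {κ : Type*} (T : Finset G) (J : Finset κ) (w : κ → ℝ) (hw : ∀ i, 0 ≤ w i)
    (ν : κ → Mean X) : en ω ι T (Mean.wsum J w hw ν) (Mean.wsum J w hw ν) =
      ∑ i ∈ J, ∑ j ∈ J, w i * w j * en ω ι T (ν i) (ν j) := by
  unfold en
  rw [Mean.wsum_E]
  refine Finset.sum_congr rfl (fun i _ => ?_)
  simp only [Mean.wsum_μ]
  rw [Mean.E_sum, Finset.mul_sum]
  refine Finset.sum_congr rfl (fun j _ => ?_)
  rw [Mean.E_mul, mul_assoc]

lemma tendsto_en (T : Finset G) {ν : ℕ → Mean X} {m : Mean X} {l : Filter ℕ}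
    (h : ∀ φ, FR φ → Tendsto (fun n => (ν n).E φ) l (𝓝 (m.E φ))) :
    Tendsto (fun n => en ω ι T (ν n) (ν n)) l (𝓝 (en ω ι T m m)) := by
  unfold en
  simp only [Mean.expand _ (FR_nb ω ι T)]
  exact tendsto_finsetSum _ (fun a _ => (h _ (FR.ind _)).mul (h _ (FR.ind _)))

end Pool.Agent.P.MP_4cf0b2_an
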