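import Mathlib
import Pool.Agent.P.MP_4cf0b2_an.Defs2
import Pool.Agent.P.MP_4cf0b2_an.Folner

set_option autoImplicit false
set_option linter.unusedSectionVars false

namespace Pool.Agent.P.MP_4cf0b2_an

open Set Filter Real
open scoped Topology Pointwise ENNReal NNReal

lemma exists_seq {σ : Type*} (Good : ℕ → σ → Prop) (Rel : ℕ → σ → σ → Prop) (s0 : σ)
    (h0 : Good 0 s0) (hs : ∀ j s, Good j s → ∃ s', Good (j + 1) s' ∧ Rel j s s') :
    ∃ u : ℕ → σ, u 0 = s0 ∧ ∀ j, Good j (u j) ∧ Rel j (u j) (u (j + 1)) := by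
  choose! nx h1 h2 using hs
  let u : ℕ → σ := fun j => Nat.rec s0 nx j
  have hg : ∀ j, Good j (u j) := fun j => by
    induction j with
    | zero => exact h0
    | succ j ih => exact h1 j _ ih
  exact ⟨u, rfl, fun j => ⟨hg j, h2 j _ (hg j)⟩⟩

variable {G X : Type*} [Group G] [DecidableEq G] [MulAction G X] [MetricSpace X]
  {F : ℕ → Finset G}

lemma isClosed_closedBowenBall [ContinuousConstSMul G X] (T : Finset G) (x : X) (ρ : ℝ) :
    IsClosed (closedBowenBall T x ρ) := by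
  have : closedBowenBall T x ρ = ⋂ g ∈ T, {y | dist (g • x) (g • y) ≤ ρ} := by
    ext y; simp [closedBowenBall]
  rw [this]
  exact isClosed_biInter (fun g _ => isClosed_le (by fun_prop) continuous_const)

lemma isOpen_bowenBall [ContinuousConstSMul G X] (T : Finset G) (x : X) (ρ : ℝ) :
    IsOpen (bowenBall T x ρ) := by
  have : bowenBall T x ρ = ⋂ g ∈ T, {y | dist (g • x) (g • y) < ρ} := by
    ext y; simp [bowenBall]
  rw [this]
  exact isOpen_biInter_finset (fun g _ => isOpen_lt (by fun_prop) continuous_const)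

lemma cover_closure [ContinuousConstSMul G X] {γ : Type*} {P : X → γ} (hP : FR P) {ρ : ℝ}
    (hρ : ∀ x y, P x = P y → dist x y ≤ ρ) (T : Finset G) (Y : Set X) :
    ∃ S : Finset X, S.card ≤ cnt (nm P T) Y ∧ closure Y ⊆ ⋃ x ∈ S, closedBowenBall T x ρ := by
  classical
  have h1 : ∀ w : ((FR_nm hP T).img Y).toFinset, ∃ x, nm P T x = w := fun w => by
    obtain ⟨x, -, hx⟩ := (Set.Finite.mem_toFinset ((FR_nm hP T).img Y)).1 w.2
    exact ⟨x, hx⟩
  choose p hp using h1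
  refine ⟨Finset.univ.image p, ?_, closure_minimal ?_
    (isClosed_biUnion_finset (fun x _ => isClosed_closedBowenBall T x ρ))⟩
  · refine Finset.card_image_le.trans (le_of_eq ?_)
    unfold cnt
    rw [Set.ncard_eq_toFinset_card _ ((FR_nm hP T).img Y)]
    simp
  · intro y hy
    simp only [mem_iUnion]
    refine ⟨p ⟨nm P T y, (Set.Finite.mem_toFinset _).2 ⟨y, hy, rfl⟩⟩,
      Finset.mem_image_of_mem _ (Finset.mem_univ _), fun g hg => hρ _ _ ?_⟩
    exact nm_eq_iff.1 (hp _) g hg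

/-! packing entropy -/

lemma le_packP {ι : Type*} [Countable ι] (Z : Set X) (N : ℕ) (ε : ℝ) (s : ℝ≥0) (x : ι → X)
    (n : ι → ℕ) (h1 : ∀ i, N ≤ n i) (h2 : ∀ i, x i ∈ Z) (h3 : ∀ i j, i ≠ j →
      Disjoint (closedBowenBall (F (n i)) (x i) ε) (closedBowenBall (F (n j)) (x j) ε)) :
    ∑' i, ENNReal.ofReal (exp (-(s : ℝ) * (F (n i)).card)) ≤ packP F Z N ε s := by
  obtain ⟨e, he⟩ := exists_injective_nat ι
  let q := (Equiv.ofInjective e he).symm
  unfold packP
  refine le_iSup_of_le (range e) (le_iSup_of_le (x ∘ q) (le_iSup_of_le (n ∘ q)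
    (le_iSup_of_le (fun i => h1 _) (le_iSup_of_le (fun i => h2 _)
      (le_iSup_of_le (fun i j h => h3 _ _ (q.injective.ne h)) (le_of_eq ?_))))))
  exact (q.tsum_eq (fun i => ENNReal.ofReal (exp (-(s : ℝ) * (F (n i)).card)))).symm

lemma one_le_packP {Z : Set X} {N n : ℕ} (hn : N ≤ n) {ε : ℝ} {s : ℝ≥0} {κ : Type*}
    (S : Finset κ) (x : κ → X) (hx : ∀ i ∈ S, x i ∈ Z) (hc : exp (s * (F n).card) ≤ S.card)
    (hs : ∀ i ∈ S, ∀ j ∈ S, i ≠ j → ∃ g ∈ F n, 2 * ε < dist (g • x i) (g • x j)) :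
    1 ≤ packP F Z N ε s := by
  refine le_trans ?_ (le_packP Z N ε s (fun i : S => x i) (fun _ => n) (fun _ => hn)
    (fun i => hx i i.2) (fun i j h => ?_))
  · rw [tsum_fintype, Finset.sum_const, Finset.card_univ, Fintype.card_coe, nsmul_eq_mul,
      ← ENNReal.ofReal_natCast, ← ENNReal.ofReal_mul (Nat.cast_nonneg _), ← ENNReal.ofReal_one]
    refine ENNReal.ofReal_le_ofReal ?_
    rw [neg_mul, exp_neg, ← div_eq_mul_inv, one_le_div (exp_pos _)]
    exact hc
  · obtain ⟨g, hg, h⟩ := hs i i.2 j j.2 (fun e => h (Subtype.ext e))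
    rw [Set.disjoint_left]
    intro z h1 h2
    linarith [h1 g hg, h2 g hg, dist_triangle_right (g • x i) (g • x j) (g • z)]

/-- covering bound at all large times -/
def PThin (F : ℕ → Finset G) (Z : Set X) (h : ℝ) : Prop :=
  ∀ ε > 0, ∀ η > 0, ∀ᶠ n in atTop, ∃ S : Finset X, (S.card : ℝ) ≤ exp ((h + η) * (F n).card) ∧
    Z ⊆ ⋃ x ∈ S, closedBowenBall (F n) x ε

lemma packP_zero (hF : Admissible F) {Z : Set X} {h : ℝ} (hZ : PThin F Z h) {ε : ℝ} (hε : 0 < ε)
    {s : ℝ≥0} (hs : h < s) : ⨅ N, packP F Z N ε s = 0 := by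
  classical
  refine le_antisymm (ENNReal.le_of_forall_pos_le_add (fun γ hγ _ => ?_)) zero_le
  rw [zero_add]
  have η0 : 0 < (s - h) / 2 := by linarith
  obtain ⟨N0, hN0⟩ := eventually_atTop.1 (hZ ε hε _ η0)
  obtain ⟨N, hN, hN'⟩ := ((hF.tail η0 (ρ := γ) hγ).and (eventually_ge_atTop N0)).exists
  refine iInf_le_of_le N ?_
  unfold packP
  refine iSup_le (fun I => iSup_le (fun x => iSup_le (fun n => iSup_le (fun h1 => iSup_le
    (fun h2 => iSup_le (fun h3 => ?_))))))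
  rw [ENNReal.tsum_eq_iSup_sum]
  refine iSup_le (fun J => ?_)
  rw [← ENNReal.ofReal_sum_of_nonneg (fun _ _ => (exp_pos _).le), ← ENNReal.ofReal_coe_nnreal]
  refine ENNReal.ofReal_le_ofReal ?_
  rw [← Finset.sum_fiberwise_of_maps_to (fun i hi => Finset.mem_image_of_mem n hi)]
  refine le_trans (Finset.sum_le_sum (fun k hk => ?_)) (hN (J.image n) (fun k hk => by
    obtain ⟨i, -, rfl⟩ := Finset.mem_image.1 hk
    exact h1 i))
  obtain ⟨i0, -, hi0⟩ := Finset.mem_image.1 hk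
  obtain ⟨S, hS1, hS2⟩ := hN0 k (hN'.trans (hi0 ▸ h1 i0))
  have hc : ∀ i : I, ∃ z ∈ S, x i ∈ closedBowenBall (F k) z ε := fun i => by
    simpa using hS2 (h2 i)
  choose z hz1 hz2 using hc
  have hcard : (J.filter (fun i => n i = k)).card ≤ S.card := by
    refine Finset.card_le_card_of_injOn z (fun i _ => hz1 i) (fun i hi j hj e => ?_)
    by_contra hne
    have ei := (Finset.mem_filter.1 hi).2
    have ej := (Finset.mem_filter.1 hj).2
    have := h3 i j hne
    rw [ei, ej, Set.disjoint_left] at this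
    refine this (a := z i) (fun g hg => ?_) (fun g hg => ?_)
    · rw [dist_comm]; exact hz2 i g hg
    · rw [dist_comm, e]; exact hz2 j g hg
  rw [Finset.sum_congr rfl (g := fun _ => exp (-(s : ℝ) * (F k).card))
    (fun i hi => by rw [(Finset.mem_filter.1 hi).2]), Finset.sum_const, nsmul_eq_mul]
  refine (mul_le_mul_of_nonneg_right (le_trans (by exact_mod_cast hcard) hS1)
    (exp_pos _).le).trans (le_of_eq ?_)
  rw [← exp_add]; congr 1; ring

lemma packTop_le (hF : Admissible F) {Z : Set X} {h : ℝ≥0} (hZ : PThin F Z h) :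
    packTop F Z ≤ h := by
  unfold packTop
  refine iSup_le (fun ε => iSup_le (fun hε => ENNReal.le_of_forall_nnreal_lt (fun r hr => ?_)))
  by_contra hlt
  rw [ENNReal.coe_le_coe, not_le] at hlt
  refine absurd hr (not_lt.2 ?_)
  unfold packEnt
  refine iInf_le_of_le r (iInf_le_of_le ?_ le_rfl)
  refine le_antisymm ?_ zero_le
  unfold packM
  refine iInf_le_of_le (fun _ => Z) (iInf_le_of_le (subset_iUnion (fun _ : ℕ => Z) 0) ?_)
  simp [packP_zero hF hZ hε (s := r) (by exact_mod_cast hlt)]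

lemma le_packTop {Z : Set X} {h : ℝ≥0∞} {ε : ℝ} (hε : 0 < ε)
    (hZ : ∀ s : ℝ≥0, (s : ℝ≥0∞) < h → ∀ Y : ℕ → Set X, Z ⊆ ⋃ i, Y i →
      ∃ i, ∀ N, 1 ≤ packP F (Y i) N ε s) : h ≤ packTop F Z := by
  unfold packTop
  refine le_iSup_of_le ε (le_iSup_of_le hε ?_)
  unfold packEnt
  refine le_iInf (fun s => le_iInf (fun hs => ?_))
  by_contra hlt
  have : 1 ≤ packM F Z ε s := by
    unfold packM
    refine le_iInf (fun Y => le_iInf (fun hY => ?_))
    obtain ⟨i, hi⟩ := hZ s (not_le.1 hlt) Y hY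
    exact (le_iInf hi).trans (ENNReal.le_tsum (f := fun i => ⨅ N, packP F (Y i) N ε s) i)
  rw [hs] at this
  simp at this

lemma packTop_mono {Z Z' : Set X} (h : Z ⊆ Z') : packTop F Z ≤ packTop F Z' := by
  unfold packTop
  refine iSup_mono (fun ε => iSup_mono (fun _ => ?_))
  unfold packEnt
  refine le_iInf (fun s => le_iInf (fun hs => iInf_le_of_le s (iInf_le_of_le ?_ le_rfl)))
  refine le_antisymm (le_trans ?_ hs.le) zero_le
  unfold packM
  exact le_iInf (fun Y => le_iInf (fun hY => iInf_le_of_le Y (iInf_le_of_le (h.trans hY) le_rfl)))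

/-! Bowen entropy -/

lemma bowenM_le_tsum {ι : Type*} [Countable ι] (Z : Set X) (N : ℕ) (ε : ℝ) (s : ℝ≥0) (x : ι → X)
    (n : ι → ℕ) (h1 : ∀ i, N ≤ n i) (h2 : Z ⊆ ⋃ i, bowenBall (F (n i)) (x i) ε) :
    bowenM F Z N ε s ≤ ∑' i, ENNReal.ofReal (exp (-(s : ℝ) * (F (n i)).card)) := by
  obtain ⟨e, he⟩ := exists_injective_nat ι
  let q := (Equiv.ofInjective e he).symm
  unfold bowenM
  refine iInf_le_of_le (range e) (iInf_le_of_le (x ∘ q) (iInf_le_of_le (n ∘ q)
    (iInf_le_of_le (fun i => h1 _) (iInf_le_of_le ?_ (le_of_eq ?_)))))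
  · intro z hz
    obtain ⟨i, hi⟩ := mem_iUnion.1 (h2 hz)
    exact mem_iUnion.2 ⟨q.symm i, by simpa using hi⟩
  · exact q.tsum_eq (fun i => ENNReal.ofReal (exp (-(s : ℝ) * (F (n i)).card)))

/-- covering bound along a sequence of times -/
def Thin (F : ℕ → Finset G) (Z : Set X) (h : ℝ) : Prop :=
  ∀ ε > 0, ∀ N, ∃ n, N ≤ n ∧ ∃ S : Finset X, (S.card : ℝ) ≤ exp (h * (F n).card) ∧
    Z ⊆ ⋃ x ∈ S, bowenBall (F n) x ε

lemma bowenTop_le (hF : Admissible F) {Z : ℕ → Set X} {h : ℝ≥0} (hZ : ∀ k, Thin F (Z k) h) :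
    bowenTop F (⋃ k, Z k) ≤ h := by
  unfold bowenTop
  refine iSup_le (fun ε => iSup_le (fun hε => ENNReal.le_of_forall_nnreal_lt (fun r hr => ?_)))
  by_contra hlt
  rw [ENNReal.coe_le_coe, not_le] at hlt
  refine absurd hr (not_lt.2 ?_)
  unfold bowenEnt
  refine iInf_le_of_le r (iInf_le_of_le ?_ le_rfl)
  rw [ENNReal.iSup_eq_zero]
  intro N
  refine le_antisymm (ENNReal.le_of_forall_pos_le_add (fun γ hγ _ => ?_)) zero_le
  rw [zero_add]
  obtain ⟨δ, hδ, hsum⟩ := ENNReal.exists_pos_sum_of_countable (ε := γ) (by simpa using hγ.ne') ℕ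
  have η0 : 0 < (r : ℝ) - h := by have : (h : ℝ) < r := hlt; linarith
  have key : ∀ k, ∃ n, N ≤ n ∧ ∃ S : Finset X, (S.card : ℝ) * exp (-(r : ℝ) * (F n).card) ≤ δ k ∧
      Z k ⊆ ⋃ x ∈ S, bowenBall (F n) x ε := by
    intro k
    obtain ⟨N1, hN1, hN2⟩ := ((hF.tail η0 (ρ := δ k) (hδ k)).and (eventually_ge_atTop N)).exists
    obtain ⟨n, hn, S, hS1, hS2⟩ := hZ k ε hε N1
    refine ⟨n, hN2.trans hn, S, ?_, hS2⟩
    have := hN1 {n} (by simpa using hn)
    rw [Finset.sum_singleton] at this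
    refine (mul_le_mul_of_nonneg_right hS1 (exp_pos _).le).trans (le_trans (le_of_eq ?_) this)
    rw [← exp_add]; congr 1; ring
  choose n hn S hS1 hS2 using key
  refine (bowenM_le_tsum (ι := Σ k, S k) _ N ε r (fun p => p.2) (fun p => n p.1) (fun p => hn _)
    ?_).trans (le_trans ?_ hsum.le)
  · intro z hz
    obtain ⟨k, hk⟩ := mem_iUnion.1 hz
    obtain ⟨x, hx, hz⟩ := mem_iUnion₂.1 (hS2 k hk)
    exact mem_iUnion.2 ⟨⟨k, x, hx⟩, hz⟩
  · rw [ENNReal.tsum_sigma']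
    refine ENNReal.tsum_le_tsum (fun k => ?_)
    simp only
    rw [tsum_fintype, Finset.sum_const, Finset.card_univ, Fintype.card_coe, nsmul_eq_mul,
      ← ENNReal.ofReal_natCast, ← ENNReal.ofReal_mul (Nat.cast_nonneg _),
      ← ENNReal.ofReal_coe_nnreal]
    exact ENNReal.ofReal_le_ofReal (hS1 k)

lemma bowenTop_mono {Z Z' : Set X} (h : Z ⊆ Z') : bowenTop F Z ≤ bowenTop F Z' := by
  unfold bowenTop
  refine iSup_mono (fun ε => iSup_mono (fun _ => ?_))
  unfold bowenEnt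
  refine le_iInf (fun s => le_iInf (fun hs => iInf_le_of_le s (iInf_le_of_le ?_ le_rfl)))
  refine le_antisymm (le_trans (iSup_mono (fun N => ?_)) hs.le) zero_le
  unfold bowenM
  exact iInf_mono (fun I => iInf_mono (fun x => iInf_mono (fun n => iInf_mono (fun _ =>
    le_iInf (fun hY => iInf_le_of_le (h.trans hY) le_rfl)))))

lemma le_bowenTop [ContinuousConstSMul G X] {Z : Set X} (hZ : IsCompact Z) {s : ℝ≥0} {ε c : ℝ}
    (hε : 0 < ε) (hc : 0 < c) {N : ℕ}
    (h : ∀ (J : Finset ℕ) (x : ℕ → X) (n : ℕ → ℕ), (∀ i ∈ J, N ≤ n i) →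
      Z ⊆ ⋃ i ∈ J, bowenBall (F (n i)) (x i) ε → c ≤ ∑ i ∈ J, exp (-(s : ℝ) * (F (n i)).card))
    (hne : Z.Nonempty) : (s : ℝ≥0∞) ≤ bowenTop F Z := by
  classical
  unfold bowenTop
  refine le_iSup_of_le ε (le_iSup_of_le hε ?_)
  unfold bowenEnt
  refine le_iInf (fun r => le_iInf (fun hr => ?_))
  by_contra hlt
  rw [ENNReal.coe_le_coe, not_le] at hlt
  have : ENNReal.ofReal c ≤ bowenM F Z N ε r := by
    unfold bowenM
    refine le_iInf (fun I => le_iInf (fun x => le_iInf (fun n => le_iInf (fun h1 =>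
      le_iInf (fun h2 => ?_)))))
    obtain ⟨J, hJ⟩ := hZ.elim_finite_subcover _ (fun i => isOpen_bowenBall (F (n i)) (x i) ε) h2
    have h3 := h (J.image Subtype.val) (fun i => if hi : i ∈ I then x ⟨i, hi⟩ else hne.some)
      (fun i => if hi : i ∈ I then n ⟨i, hi⟩ else N) (fun i _ => by
        split_ifs with hi
        · exact h1 _
        · exact le_rfl) (fun z hz => by
        obtain ⟨i, hi, hz⟩ := mem_iUnion₂.1 (hJ hz)
        exact mem_iUnion₂.2 ⟨i, Finset.mem_image_of_mem _ hi, by simpa [i.2] using hz⟩)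
    rw [Finset.sum_image (fun a _ b _ e => Subtype.ext e)] at h3
    refine le_trans ?_ (ENNReal.sum_le_tsum J)
    rw [← ENNReal.ofReal_sum_of_nonneg (fun _ _ => (exp_pos _).le)]
    refine ENNReal.ofReal_le_ofReal (h3.trans (Finset.sum_le_sum (fun i _ => ?_)))
    simp only [i.2, dif_pos]
    apply exp_le_exp.2
    have h4 : (r : ℝ) < s := hlt
    have h5 : (0 : ℝ) ≤ (F (n i)).card := Nat.cast_nonneg _
    nlinarith
  have h6 := this.trans ((le_iSup (fun N => bowenM F Z N ε r) N).trans hr.le)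
  simp at h6
  linarith

end Pool.Agent.P.MP_4cf0b2_an
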