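import Pool.Agent.P.MP_4cf0b2_an.Energy

/-! Energies of means with respect to a sequence of kernels, and the thinning step. -/

namespace Pool.Agent.P.MP_4cf0b2_an.HL

open Set Filter Real
open scoped Topology

variable {X : Type*}

/-- pair mass -/
noncomputable def pm (D : X → Set X) (ν ν' : Mean X) : ℝ := ν.E fun x => ν'.μ (D x)

section pm
variable {D : X → Set X}

lemma pm_nonneg (hD : FR D) (ν ν' : Mean X) : 0 ≤ pm D ν ν' :=
  ν.pos _ (hD.comp ν'.μ) fun _ => ν'.μ_nonneg _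

lemma pm_le (hD : FR D) (ν ν' : Mean X) : pm D ν ν' ≤ ν'.μ univ * ν.μ univ := by
  have := ν.mono (hD.comp ν'.μ) (FR.const _) fun x => ν'.μ_mono (subset_univ (D x))
  rwa [ν.E_const] at this

lemma pm_dom (hD : FR D) {ν ν' μ μ' : Mean X} {c c' : ℝ} (hc : 0 ≤ c) (h : Dom ν c μ)
    (h' : Dom ν' c' μ') : pm D ν ν' ≤ c * c' * pm D μ μ' := by
  refine (h.E (hD.comp ν'.μ) fun _ => ν'.μ_nonneg _).trans ?_
  rw [mul_assoc]
  refine mul_le_mul_of_nonneg_left ?_ hc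
  unfold pm
  rw [← μ.E_mul]
  exact μ.mono (hD.comp ν'.μ) (hD.comp fun s => c' * μ'.μ s) fun x => h' _

lemma pm_left {κ : Type*} (J : Finset κ) (w : κ → ℝ) (hw : ∀ i, 0 ≤ w i) (ν : κ → Mean X)
    (ν' : Mean X) : pm D (Mean.wsum J w hw ν) ν' = ∑ i ∈ J, w i * pm D (ν i) ν' :=
  Mean.wsum_E _ _ _ _ _

lemma pm_right {κ : Type*} (J : Finset κ) (w : κ → ℝ) (hw : ∀ i, 0 ≤ w i) (ν : κ → Mean X)
    (ν' : Mean X) : pm D ν' (Mean.wsum J w hw ν) = ∑ i ∈ J, w i * pm D ν' (ν i) := by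
  unfold pm
  simp only [Mean.wsum_μ]
  rw [Mean.E_sum]
  exact Finset.sum_congr rfl fun j _ => Mean.E_mul _ _ _

lemma tendsto_pm (hD : FR D) {ν : ℕ → Mean X} {m : Mean X} {l : Filter ℕ}
    (h : ∀ φ, FR φ → Tendsto (fun n => (ν n).E φ) l (𝓝 (m.E φ))) :
    Tendsto (fun n => pm D (ν n) (ν n)) l (𝓝 (pm D m m)) := by
  unfold pm
  simp only [Mean.expand _ hD]
  exact tendsto_finsetSum _ fun a _ => (h _ (FR.ind _)).mul (h _ (FR.ind _))

end pm

lemma dom_refl (ν : Mean X) : Dom ν 1 ν := fun _ => (one_mul _).ge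

lemma dom_restr (ν : Mean X) (Q : Set X) : Dom (ν.restr Q) 1 ν := fun B => by
  rw [Mean.restr_μ, one_mul]
  exact ν.μ_mono inter_subset_right

/-- derandomised independent selection -/
lemma bern {ι : Type*} (J : Finset ι) (p : ι → ℝ) (hp : ∀ i, 0 < p i) (hp1 : ∀ i, p i ≤ 1)
    (a : ι → ι → ℝ) (c : ι → ℝ) : ∃ T ⊆ J,
      ∑ i ∈ T, ∑ j ∈ T, (p i)⁻¹ * (p j)⁻¹ * a i j + ∑ i ∈ T, (p i)⁻¹ * c i ≤
      ∑ i ∈ J, ∑ j ∈ J, a i j + ∑ i ∈ J, c i + ∑ i ∈ J, ((p i)⁻¹ - 1) * a i i := by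
  classical
  induction J using Finset.induction_on generalizing c with
  | empty => exact ⟨∅, subset_rfl, by simp⟩
  | insert k J hk ih =>
    obtain ⟨T, hT, h⟩ := ih fun j => c j + (a k j + a j k)
    have hkT : k ∉ T := fun h => hk (hT h)
    simp only [Finset.sum_insert hk, Finset.sum_add_distrib, mul_add (_⁻¹)] at h ⊢
    set u := (p k)⁻¹ * a k k + c k + ∑ j ∈ T, (p j)⁻¹ * a k j + ∑ j ∈ T, (p j)⁻¹ * a j k with hu
    rcases le_total 0 u with h0 | h0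
    · exact ⟨T, hT.trans (Finset.subset_insert _ _), by linarith⟩
    · refine ⟨insert k T, Finset.insert_subset_insert _ hT, ?_⟩
      have h1 : (p k)⁻¹ * u ≤ 1 * u :=
        mul_le_mul_of_nonpos_right ((one_le_inv₀ (hp k)).2 (hp1 k)) h0
      have e1 : ∑ j ∈ T, (p k)⁻¹ * (p j)⁻¹ * a k j = (p k)⁻¹ * ∑ j ∈ T, (p j)⁻¹ * a k j := by
        rw [Finset.mul_sum]; exact Finset.sum_congr rfl fun _ _ => by ring
      have e2 : ∑ j ∈ T, (p j)⁻¹ * (p k)⁻¹ * a j k = (p k)⁻¹ * ∑ j ∈ T, (p j)⁻¹ * a j k := by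
        rw [Finset.mul_sum]; exact Finset.sum_congr rfl fun _ _ => by ring
      simp only [Finset.sum_insert hkT, Finset.sum_add_distrib, e1, e2]
      rw [hu] at h1
      linarith

variable {D : ℕ → X → Set X} {b : ℕ → ℝ}

/-- the energy -/
noncomputable def En (D : ℕ → X → Set X) (b : ℕ → ℝ) (s : ℝ) (ν ν' : Mean X) : ℝ :=
  ∑' n, exp (s * b n) * pm (D n) ν ν'

/-- finite energy -/
def Fin_ (D : ℕ → X → Set X) (b : ℕ → ℝ) (s : ℝ) (ν ν' : Mean X) : Prop :=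
  Summable fun n => exp (s * b n) * pm (D n) ν ν'

lemma Fin_.dom (hD : ∀ n, FR (D n)) (hb : ∀ n, 0 ≤ b n) {ν ν' μ μ' : Mean X} {c c' s t : ℝ}
    (hs : Fin_ D b s μ μ') (hc : 0 ≤ c) (h : Dom ν c μ) (h' : Dom ν' c' μ') (ht : t ≤ s) :
    Fin_ D b t ν ν' := by
  refine Summable.of_nonneg_of_le (fun n => mul_nonneg (exp_pos _).le (pm_nonneg (hD n) _ _))
    (fun n => ?_) (hs.mul_left (c * c'))
  rw [mul_left_comm]
  exact mul_le_mul (exp_le_exp.2 (mul_le_mul_of_nonneg_right ht (hb n))) (pm_dom (hD n) hc h h')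
    (pm_nonneg (hD n) _ _) (exp_pos _).le

lemma En_nonneg (hD : ∀ n, FR (D n)) (s : ℝ) (ν ν' : Mean X) : 0 ≤ En D b s ν ν' :=
  tsum_nonneg fun n => mul_nonneg (exp_pos _).le (pm_nonneg (hD n) _ _)

lemma En_le (hD : ∀ n, FR (D n)) (hb : ∀ n, 0 ≤ b n) {ν ν' μ μ' : Mean X} {s : ℝ}
    (hs : Fin_ D b s μ μ') (h : Dom ν 1 μ) (h' : Dom ν' 1 μ') : En D b s ν ν' ≤ En D b s μ μ' :=
  (hs.dom hD hb zero_le_one h h' le_rfl).tsum_le_tsum (fun n => mul_le_mul_of_nonneg_left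
    (by simpa using pm_dom (hD n) zero_le_one h h') (exp_pos _).le) hs

lemma En_left {κ : Type*} (J : Finset κ) (w : κ → ℝ) (hw : ∀ i, 0 ≤ w i) {ν : κ → Mean X}
    {ν' : Mean X} {s : ℝ} (h : ∀ i, Fin_ D b s (ν i) ν') :
    En D b s (Mean.wsum J w hw ν) ν' = ∑ i ∈ J, w i * En D b s (ν i) ν' := by
  refine HasSum.tsum_eq ?_
  have := hasSum_sum (s := J) fun i _ => (h i).hasSum.mul_left (w i)
  simp only [pm_left, Finset.mul_sum, mul_left_comm (exp _)]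
  exact this

lemma En_wsum {κ : Type*} (J : Finset κ) (w : κ → ℝ) (hw : ∀ i, 0 ≤ w i) {ν : κ → Mean X}
    {s : ℝ} (h : ∀ i j, Fin_ D b s (ν i) (ν j)) :
    En D b s (Mean.wsum J w hw ν) (Mean.wsum J w hw ν) =
      ∑ i ∈ J, ∑ j ∈ J, w i * w j * En D b s (ν i) (ν j) := by
  refine HasSum.tsum_eq ?_
  have := hasSum_sum (s := J) fun i _ => hasSum_sum (s := J) fun j _ =>
    (h i j).hasSum.mul_left (w i * w j)
  have e : ∀ n, pm (D n) (Mean.wsum J w hw ν) (Mean.wsum J w hw ν) =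
      ∑ i ∈ J, ∑ j ∈ J, w i * w j * pm (D n) (ν i) (ν j) := fun n => by
    rw [pm_left]
    simp only [pm_right, Finset.mul_sum, mul_assoc]
  simp only [e, Finset.mul_sum, mul_left_comm (exp _)]
  exact this

lemma diag (hD : ∀ n, FR (D n)) (hb : ∀ n, 0 ≤ b n) {ν : Mean X} {s t γ H k a A : ℝ}
    (hs : Fin_ D b s ν ν) (hγ : Summable fun n => exp (-γ * b n)) (γ0 : 0 ≤ γ) (t0 : 0 ≤ t)
    (h1 : t + 2 * γ ≤ k) (h2 : k ≤ H) (h3 : t + H - k + γ ≤ s) (A0 : 0 ≤ A) (ha : A ≤ a)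
    (Q : Set X) (hQ : exp (-H * a) ≤ ν.μ Q) :
    exp (-k * a) / ν.μ Q * En D b t (ν.restr Q) (ν.restr Q) ≤
      exp (-γ * A) * (ν.μ Q * ∑' n, exp (-γ * b n) + En D b s (ν.restr Q) ν) := by
  have m0 : 0 < ν.μ Q := (exp_pos _).trans_le hQ
  have f1 := hs.dom hD hb zero_le_one (dom_restr ν Q) (dom_restr ν Q) (t := t) (by linarith)
  have f2 := hs.dom hD hb zero_le_one (dom_restr ν Q) (dom_refl ν) le_rfl
  refine hasSum_le (fun n => ?_) (f1.hasSum.mul_left _)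
    (((hγ.hasSum.mul_left _).add f2.hasSum).mul_left _)
  have p0 := pm_nonneg (hD n) (ν.restr Q) ν
  have b0 := hb n
  rw [mul_add]
  rcases le_total (b n) a with h | h
  · refine le_add_of_le_of_nonneg ?_ (by positivity)
    have p1 := pm_le (hD n) (ν.restr Q) (ν.restr Q)
    rw [Mean.restr_μ, inter_univ] at p1
    have e : exp (-k * a) * exp (t * b n) ≤ exp (-γ * A) * exp (-γ * b n) := by
      rw [← exp_add, ← exp_add, exp_le_exp]
      nlinarith [mul_le_mul_of_nonneg_left h (add_nonneg t0 γ0), mul_le_mul_of_nonneg_left ha γ0,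
        mul_le_mul_of_nonneg_right h1 (A0.trans ha)]
    calc _ ≤ exp (-k * a) / ν.μ Q * (exp (t * b n) * (ν.μ Q * ν.μ Q)) := by gcongr
      _ = exp (-k * a) * exp (t * b n) * ν.μ Q := by field_simp
      _ ≤ exp (-γ * A) * exp (-γ * b n) * ν.μ Q := by gcongr
      _ = _ := by ring
  · refine le_add_of_nonneg_of_le (by positivity) ?_
    have p1 : pm (D n) (ν.restr Q) (ν.restr Q) ≤ pm (D n) (ν.restr Q) ν := by
      simpa using pm_dom (hD n) zero_le_one (dom_refl _) (dom_restr ν Q)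
    have p2 := pm_nonneg (hD n) (ν.restr Q) (ν.restr Q)
    have e : exp (-k * a) / exp (-H * a) * exp (t * b n) ≤ exp (-γ * A) * exp (s * b n) := by
      rw [← exp_sub, ← exp_add, ← exp_add, exp_le_exp]
      nlinarith [mul_le_mul_of_nonneg_left h (sub_nonneg.2 h2),
        mul_le_mul_of_nonneg_left (ha.trans h) γ0, mul_le_mul_of_nonneg_right h3 b0]
    calc _ ≤ exp (-k * a) / exp (-H * a) * (exp (t * b n) * pm (D n) (ν.restr Q) ν) := by gcongr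
      _ = exp (-k * a) / exp (-H * a) * exp (t * b n) * pm (D n) (ν.restr Q) ν := by ring
      _ ≤ exp (-γ * A) * exp (s * b n) * pm (D n) (ν.restr Q) ν := by gcongr
      _ = _ := by ring

lemma step (hD : ∀ n, FR (D n)) (hb : ∀ n, 0 ≤ b n) {ν : Mean X} {s t γ H k h A η L L' : ℝ}
    (hs : Fin_ D b s ν ν) (hγ : Summable fun n => exp (-γ * b n)) (γ0 : 0 ≤ γ) (t0 : 0 ≤ t)
    (h1 : t + 2 * γ ≤ k) (h2 : k ≤ H) (h3 : t + H - k + γ ≤ s) (h4 : k + γ ≤ h) (A0 : 0 ≤ A)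
    (L0 : 0 ≤ L) (L1 : 0 ≤ L') {ι : Type*} {q : X → ι} (hq : FR q) {a : ι → ℝ} (ha : ∀ i, A ≤ a i)
    (hη : ∑ i ∈ hq.toFinset, exp (-H * a i) ≤ η) :
    ∃ (T : Finset ι) (ν' : Mean X) (c : ℝ), 0 ≤ c ∧ Dom ν' c ν ∧ ν'.μ {x | q x ∉ T} = 0 ∧
      En D b t ν' ν' + L * (ν'.μ univ - 1) ^ 2 + L' * ∑ i ∈ T, exp (-h * a i) ≤
        En D b t ν ν + L * (ν.μ univ - 1) ^ 2 + 2 * L * η + exp (-γ * A) *
          (ν.μ univ * (∑' n, exp (-γ * b n) + L + L') + En D b s ν ν) := by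
  classical
  obtain ⟨Q, hQ⟩ : ∃ Q : ι → Set X, ∀ i, Q i = {x | q x = i} := ⟨_, fun _ => rfl⟩
  obtain ⟨m, hm⟩ : ∃ m : ι → ℝ, ∀ i, m i = ν.μ (Q i) := ⟨_, fun _ => rfl⟩
  obtain ⟨J, hJ⟩ : ∃ J, J = hq.toFinset.filter fun i => exp (-H * a i) ≤ m i := ⟨_, rfl⟩
  obtain ⟨p, hp⟩ : ∃ p : ι → ℝ, ∀ i, p i = min 1 (max (exp (-H * a i)) (m i) * exp (k * a i)) :=
    ⟨_, fun _ => rfl⟩
  have m0 : ∀ i, 0 ≤ m i := fun i => hm i ▸ ν.μ_nonneg _
  have p0 : ∀ i, 0 < p i := fun i => hp i ▸ lt_min one_pos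
    (mul_pos (lt_max_of_lt_left (exp_pos _)) (exp_pos _))
  have p1 : ∀ i, p i ≤ 1 := fun i => hp i ▸ min_le_left _ _
  have j1 : ∀ i ∈ J, exp (-H * a i) ≤ m i := fun i hi => by
    rw [hJ] at hi; exact (Finset.mem_filter.1 hi).2
  have j0 : J ⊆ hq.toFinset := hJ ▸ Finset.filter_subset _ _
  have p2 : ∀ i ∈ J, p i ≤ m i * exp (k * a i) := fun i hi => by
    rw [hp, max_eq_right (j1 i hi)]; exact min_le_right _ _
  have p3 : ∀ i ∈ J, (p i)⁻¹ - 1 ≤ exp (-k * a i) / m i := fun i hi => by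
    have := (exp_pos _).trans_le (j1 i hi)
    rw [hp, max_eq_right (j1 i hi)]
    rcases min_choice 1 (m i * exp (k * a i)) with e | e <;> rw [e]
    · rw [inv_one, sub_self]; positivity
    · rw [mul_inv, neg_mul, exp_neg, div_eq_mul_inv, mul_comm]; linarith
  have dm : ∀ (T : Finset ι) (w : ι → ℝ) (hw : ∀ i, 0 ≤ w i) (c : ℝ), T ⊆ hq.toFinset → 0 ≤ c →
      (∀ i ∈ T, w i ≤ c) → Dom (Mean.wsum T w hw fun i => ν.restr (Q i)) c ν :=
    fun T w hw c hT c0 hc B => by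
      rw [Mean.wsum_μ, ← ν.sum_cells hq B, Finset.mul_sum]
      refine (Finset.sum_le_sum fun i hi => ?_).trans (Finset.sum_le_sum_of_subset_of_nonneg hT
        fun _ _ _ => mul_nonneg c0 (ν.μ_nonneg _))
      rw [Mean.restr_μ, inter_comm, hQ]
      exact mul_le_mul_of_nonneg_right (hc i hi) (ν.μ_nonneg _)
  have ts : t ≤ s := by linarith
  have ff : ∀ i j, Fin_ D b t (ν.restr (Q i)) (ν.restr (Q j)) := fun i j =>
    hs.dom hD hb zero_le_one (dom_restr _ _) (dom_restr _ _) ts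
  obtain ⟨T, hT, key⟩ := bern J p p0 p1
    (fun i j => En D b t (ν.restr (Q i)) (ν.restr (Q j)) + L * (m i * m j))
    fun i => L' * (p i * exp (-h * a i)) - 2 * L * m i
  have w0 : ∀ i, 0 ≤ (p i)⁻¹ := fun i => (inv_pos.2 (p0 i)).le
  have ms : ∀ (T : Finset ι) (w : ι → ℝ) (hw : ∀ i, 0 ≤ w i),
      (Mean.wsum T w hw fun i => ν.restr (Q i)).μ univ = ∑ i ∈ T, w i * m i := fun T w hw => by
    simp only [Mean.wsum_μ, Mean.restr_μ, inter_univ, hm]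
  refine ⟨T, Mean.wsum T _ w0 fun i => ν.restr (Q i), ∑ i ∈ T, (p i)⁻¹,
    Finset.sum_nonneg fun i _ => w0 i, dm _ _ _ _ (hT.trans j0) (Finset.sum_nonneg fun i _ => w0 i)
      fun i hi => Finset.single_le_sum (fun i _ => w0 i) hi, ?_, ?_⟩
  · rw [Mean.wsum_μ]
    refine Finset.sum_eq_zero fun i hi => ?_
    rw [Mean.restr_μ, eq_empty_of_forall_notMem (s := Q i ∩ {x | q x ∉ T}) fun x hx =>
      hx.2 (by rw [hQ] at hx; exact (show q x = i from hx.1) ▸ hi), ν.μ_empty, mul_zero]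
  rw [En_wsum T _ w0 ff, ms]
  have d1 := dm J (fun _ => 1) (fun _ => zero_le_one) 1 j0 zero_le_one fun _ _ => le_rfl
  have e1 := En_le hD hb (hs.dom hD hb zero_le_one (dom_refl _) (dom_refl _) ts) d1 d1
  have e2 := En_le hD hb hs d1 (dom_refl _)
  rw [En_wsum J _ _ ff] at e1
  rw [En_left J _ _ fun i => hs.dom hD hb zero_le_one (dom_restr _ _) (dom_refl _) le_rfl] at e2
  have e3 := d1 univ
  rw [ms] at e3
  simp only [one_mul] at e1 e2 e3
  have e4 : ν.μ univ ≤ ∑ i ∈ J, m i + η := by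
    rw [← ν.sum_cells' hq, ← Finset.sum_filter_add_sum_filter_not hq.toFinset
      fun i => exp (-H * a i) ≤ m i, ← hJ]
    simp only [← hQ, ← hm]
    exact add_le_add le_rfl (((Finset.sum_le_sum fun i hi =>
      (not_le.1 (Finset.mem_filter.1 hi).2).le).trans (Finset.sum_le_sum_of_subset_of_nonneg
        (Finset.filter_subset _ _) fun _ _ _ => (exp_pos _).le)).trans hη)
  have u0 := exp_pos (-γ * A)
  have M0 : 0 ≤ ∑ i ∈ J, m i := Finset.sum_nonneg fun i _ => m0 i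
  have S0 : 0 ≤ ∑' n, exp (-γ * b n) := tsum_nonneg fun _ => (exp_pos _).le
  have e5 : ∑ i ∈ J, p i * exp (-h * a i) ≤ exp (-γ * A) * ∑ i ∈ J, m i := by
    rw [Finset.mul_sum]
    refine Finset.sum_le_sum fun i hi =>
      (mul_le_mul_of_nonneg_right (p2 i hi) (exp_pos _).le).trans ?_
    rw [mul_assoc, ← exp_add, mul_comm]
    refine mul_le_mul_of_nonneg_right (exp_le_exp.2 ?_) (m0 i)
    nlinarith [mul_le_mul_of_nonneg_left (ha i) γ0, mul_le_mul_of_nonneg_right h4 (A0.trans (ha i))]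
  have e6 : ∑ i ∈ J, ((p i)⁻¹ - 1) * (En D b t (ν.restr (Q i)) (ν.restr (Q i)) + L * (m i * m i)) ≤
      exp (-γ * A) * ((∑ i ∈ J, m i) * (∑' n, exp (-γ * b n) + L) +
        ∑ i ∈ J, En D b s (ν.restr (Q i)) ν) := by
    rw [Finset.sum_mul, ← Finset.sum_add_distrib, Finset.mul_sum]
    refine Finset.sum_le_sum fun i hi => (mul_le_mul_of_nonneg_right (p3 i hi)
      (add_nonneg (En_nonneg hD _ _ _) (mul_nonneg L0 (mul_self_nonneg _)))).trans ?_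
    have g1 := diag hD hb hs hγ γ0 t0 h1 h2 h3 A0 (ha i) (Q i) (hm i ▸ j1 i hi)
    have g0 := (exp_pos _).trans_le (j1 i hi)
    have g2 : exp (-k * a i) ≤ exp (-γ * A) := exp_le_exp.2 (by
      nlinarith [mul_le_mul_of_nonneg_left (ha i) γ0, mul_le_mul_of_nonneg_right
        (show γ ≤ k by linarith) (A0.trans (ha i))])
    have g3 : exp (-k * a i) / m i * (L * (m i * m i)) = exp (-k * a i) * (L * m i) := by
      field_simp
    have g4 := mul_le_mul_of_nonneg_right g2 (mul_nonneg L0 (m0 i))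
    rw [← hm] at g1
    linarith
  have k1 : ∑ i ∈ T, ∑ j ∈ T, (p i)⁻¹ * (p j)⁻¹ * (L * (m i * m j)) =
      L * (∑ i ∈ T, (p i)⁻¹ * m i) ^ 2 := by
    rw [sq, Finset.sum_mul_sum, Finset.mul_sum]
    refine Finset.sum_congr rfl fun i _ => ?_
    rw [Finset.mul_sum]
    exact Finset.sum_congr rfl fun j _ => by ring
  have k2 : ∑ i ∈ J, ∑ j ∈ J, L * (m i * m j) = L * (∑ i ∈ J, m i) ^ 2 := by
    rw [sq, Finset.sum_mul_sum, Finset.mul_sum]
    exact Finset.sum_congr rfl fun i _ => (Finset.mul_sum _ _ _).symm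
  have k3 : ∑ i ∈ T, (p i)⁻¹ * (L' * (p i * exp (-h * a i)) - 2 * L * m i) =
      L' * ∑ i ∈ T, exp (-h * a i) - 2 * L * ∑ i ∈ T, (p i)⁻¹ * m i := by
    rw [Finset.mul_sum, Finset.mul_sum, ← Finset.sum_sub_distrib]
    refine Finset.sum_congr rfl fun i _ => ?_
    have := (p0 i).ne'
    field_simp
  rw [k3, Finset.sum_sub_distrib, ← Finset.mul_sum, ← Finset.mul_sum] at key
  simp only [mul_add ((p _)⁻¹ * _), Finset.sum_add_distrib, k1, k2] at key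
  have k4 := mul_le_mul_of_nonneg_left e5 L1
  have k5 : (∑ i ∈ J, m i - 1) ^ 2 ≤ (ν.μ univ - 1) ^ 2 + 2 * η := by nlinarith
  have k6 := mul_le_mul_of_nonneg_left k5 L0
  have k7 := mul_le_mul_of_nonneg_left (add_le_add (mul_le_mul_of_nonneg_right e3
    (show 0 ≤ ∑' n, exp (-γ * b n) + L + L' by positivity)) e2) u0.le
  linarith

end Pool.Agent.P.MP_4cf0b2_an.HL
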