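import Pool.Agent.P.MP_4cf0b2_an.HLa

/-! Means of finite energy from a lower bound on covers, and conversely. -/

namespace Pool.Agent.P.MP_4cf0b2_an.HL

open Set Filter Real
open scoped Topology

variable {X : Type*}

lemma sum_le_μ (ν : Mean X) {ι : Type*} (B : ι → Set X) (T : Finset ι)
    (h : (T : Set ι).Pairwise fun i j => Disjoint (B i) (B j)) :
    ∑ i ∈ T, ν.μ (B i) ≤ ν.μ (⋃ i ∈ T, B i) := by
  classical
  induction T using Finset.induction_on with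
  | empty => simpa using ν.μ_nonneg _
  | insert k T hk ih =>
    rw [Finset.sum_insert hk, ← ν.μ_inter_add_diff (⋃ i ∈ insert k T, B i) (B k)]
    refine add_le_add (ν.μ_mono fun x hx => mem_inter (mem_iUnion₂.2 ⟨k, by simp, hx⟩) hx)
      ((ih (h.mono (by simp))).trans (ν.μ_mono fun x hx => ?_))
    obtain ⟨i, hi, hx⟩ := mem_iUnion₂.1 hx
    exact ⟨mem_iUnion₂.2 ⟨i, by simp [hi], hx⟩, disjoint_left.1
      (h (by simp [hi]) (by simp) fun e : i = k => hk (e ▸ hi)) hx⟩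

lemma vit (ν : Mean X) (h1 : ν.μ univ = 1) (B B' : X → Set X) {c : ℝ} (hc : 0 < c)
    (h : ∀ x y z, z ∈ B x → z ∈ B y → x ∈ B' y) :
    ∃ T : Finset X, T.card * c ≤ 1 ∧ ∀ x, c ≤ ν.μ (B x) → ∃ y ∈ T, x ∈ B' y := by
  classical
  let P : ℕ → Prop := fun k => ∃ T : Finset X, T.card = k ∧ (∀ x ∈ T, c ≤ ν.μ (B x)) ∧
    (T : Set X).Pairwise fun i j => Disjoint (B i) (B j)
  have bd : ∀ k, P k → k * c ≤ 1 := by
    rintro _ ⟨T, rfl, h2, h3⟩
    have := (Finset.card_nsmul_le_sum T _ c h2).trans ((sum_le_μ ν B T h3).trans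
      (ν.μ_mono (subset_univ _)))
    rwa [nsmul_eq_mul, h1] at this
  obtain ⟨M, hM⟩ := exists_nat_gt (1 / c)
  obtain ⟨k, h2, h3⟩ := Nat.exists_not_and_succ_of_not_zero_of_exists (p := fun k => ¬ P k)
    (not_not.2 ⟨∅, rfl, by simp, by simp⟩) ⟨M, fun h => by
      have := bd M h
      rw [div_lt_iff₀ hc] at hM
      linarith⟩
  obtain ⟨T, rfl, h4, h5⟩ := not_not.1 h2
  refine ⟨T, bd _ ⟨T, rfl, h4, h5⟩, fun x hx => ?_⟩
  by_contra hn
  have dj : ∀ y ∈ T, Disjoint (B x) (B y) := fun y hy =>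
    disjoint_left.2 fun z z1 z2 => hn ⟨y, hy, h x y z z1 z2⟩
  have hxT : x ∉ T := fun hxT => by
    rw [disjoint_self.1 (dj x hxT), bot_eq_empty, ν.μ_empty] at hx
    linarith
  refine h3 ⟨insert x T, Finset.card_insert_of_notMem hxT, by simpa [hx] using h4, ?_⟩
  rw [Finset.coe_insert]
  exact h5.insert fun y hy _ => ⟨dj y hy, (dj y hy).symm⟩

variable {D B B' : ℕ → X → Set X} {b : ℕ → ℝ} {K : Set X}

lemma near_min (hD : ∀ n, FR (D n)) (hB : ∀ n x y, y ∈ D n x → y ∈ B n x ∧ x ∈ B n y)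
    (hK : K.Nonempty) (I : Finset ℕ) {w : ℕ → ℝ} (hw : ∀ n, 0 ≤ w n) {L : ℝ}
    (h : ∀ ν : Mean X, ν.μ univ = 1 → ν.μ Kᶜ = 0 → L ≤ ∑ n ∈ I, w n * pm (D n) ν ν) :
    ∃ ν : Mean X, ν.μ univ = 1 ∧ ∀ x ∈ K, L < 2 * ∑ n ∈ I, w n * ν.μ (B n x) + 1 := by
  have d1 : ∀ x : X, (Mean.dirac x).μ univ = 1 := fun x => ind_of_mem (mem_univ x)
  have d2 : ∀ x ∈ K, (Mean.dirac x).μ Kᶜ = 0 := fun x hx => ind_of_notMem (not_not.2 hx)
  let S : Set ℝ := {r | ∃ ν : Mean X, ν.μ univ = 1 ∧ ν.μ Kᶜ = 0 ∧ ∑ n ∈ I, w n * pm (D n) ν ν = r}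
  have bd : BddBelow S := ⟨L, by rintro _ ⟨ν, a1, a2, rfl⟩; exact h ν a1 a2⟩
  obtain ⟨κ, hκ⟩ : ∃ κ, κ = ∑ n ∈ I, w n := ⟨_, rfl⟩
  have κ0 : 0 ≤ κ := hκ ▸ Finset.sum_nonneg fun n _ => hw n
  obtain ⟨t, ht⟩ : ∃ t, t = 1 / (κ + 1) := ⟨_, rfl⟩
  have t0 : 0 < t := by rw [ht]; positivity
  have t1 : t * (κ + 1) = 1 := by rw [ht]; field_simp
  have t2 : t ≤ 1 := by nlinarith
  obtain ⟨_, ⟨ν, a1, a2, rfl⟩, a3⟩ := exists_lt_of_csInf_lt (s := S)
    ⟨_, Mean.dirac hK.some, d1 _, d2 _ hK.some_mem, rfl⟩ (lt_add_of_pos_right _ (mul_pos t0 t0))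
  refine ⟨ν, a1, fun x hx => ?_⟩
  have w0 : ∀ β : Bool, 0 ≤ cond β t (1 - t) := fun β => by cases β <;> simp <;> linarith
  have a4 := csInf_le bd ⟨Mean.wsum Finset.univ _ w0 fun β => cond β (Mean.dirac x) ν,
    by simp [Mean.wsum_μ, d1, a1], by simp [Mean.wsum_μ, d2 x hx, a2], rfl⟩
  have a5 : ∑ n ∈ I, w n * pm (D n) (Mean.wsum Finset.univ _ w0 fun β => cond β (Mean.dirac x) ν)
      (Mean.wsum Finset.univ _ w0 fun β => cond β (Mean.dirac x) ν) ≤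
      t * t * κ + 2 * t * ∑ n ∈ I, w n * ν.μ (B n x) +
        (1 - t) ^ 2 * ∑ n ∈ I, w n * pm (D n) ν ν := by
    rw [hκ, Finset.mul_sum, Finset.mul_sum, Finset.mul_sum, ← Finset.sum_add_distrib,
      ← Finset.sum_add_distrib]
    refine Finset.sum_le_sum fun n _ => ?_
    have b1 := pm_le (hD n) (Mean.dirac x) (Mean.dirac x)
    have b2 : pm (D n) (Mean.dirac x) ν ≤ ν.μ (B n x) := ν.μ_mono fun y hy => (hB n x y hy).1
    have b3 : pm (D n) ν (Mean.dirac x) ≤ ν.μ (B n x) :=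
      ν.mono ((hD n).comp _) (FR.ind _) fun y => by
        change ind (D n y) x ≤ _
        by_cases hy : x ∈ D n y
        · rw [ind_of_mem hy, ind_of_mem (hB n y x hy).2]
        · rw [ind_of_notMem hy]; exact ind_nonneg _ _
    have b4 := ν.μ_nonneg (B n x)
    rw [d1, mul_one] at b1
    rw [pm_left]
    simp only [pm_right, Fintype.sum_bool, cond_true, cond_false]
    have b5 := mul_le_mul_of_nonneg_left b1 (mul_pos t0 t0).le
    have b6 := mul_le_mul_of_nonneg_left (add_le_add b2 b3) (mul_nonneg t0.le (sub_nonneg.2 t2))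
    have b7 := mul_nonneg (mul_pos t0 t0).le b4
    have b8 : t * (t * pm (D n) (Mean.dirac x) (Mean.dirac x) + (1 - t) * pm (D n) (Mean.dirac x) ν)
        + (1 - t) * (t * pm (D n) ν (Mean.dirac x) + (1 - t) * pm (D n) ν ν) ≤
        t * t + 2 * t * ν.μ (B n x) + (1 - t) ^ 2 * pm (D n) ν ν := by linarith
    linarith [mul_le_mul_of_nonneg_left b8 (hw n)]
  have a6 := h ν a1 a2
  have a7 : 0 ≤ ∑ n ∈ I, w n * pm (D n) ν ν :=
    Finset.sum_nonneg fun n _ => mul_nonneg (hw n) (pm_nonneg (hD n) _ _)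
  refine a6.trans_lt (lt_of_mul_lt_mul_left ?_ t0.le)
  have a8 := mul_nonneg (mul_nonneg t0.le (sub_nonneg.2 t2)) a7
  have a9 : t * t * κ + t * t = t := by linear_combination t * t1
  linarith

lemma frost (hD : ∀ n, FR (D n)) (hB : ∀ n x y, y ∈ D n x → y ∈ B n x ∧ x ∈ B n y)
    (hB' : ∀ n x y z, z ∈ B n x → z ∈ B n y → x ∈ B' n y) (hK : K.Nonempty) {s δ c : ℝ}
    (hδ : Summable fun n => exp (-δ * b n)) (hc : 0 < c)
    (h : ∀ J : Finset (ℕ × X), K ⊆ ⋃ p ∈ J, B' p.1 p.2 → c ≤ ∑ p ∈ J, exp (-(s + 2 * δ) * b p.1)) :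
    ∃ μ : Mean X, μ.μ univ = 1 ∧ μ.μ Kᶜ = 0 ∧ Fin_ D b s μ μ := by
  obtain ⟨S, hS⟩ : ∃ S, S = ∑' n, exp (-δ * b n) := ⟨_, rfl⟩
  have S0 : 0 < S := hS ▸ hδ.tsum_pos (fun _ => (exp_pos _).le) 0 (exp_pos _)
  have S1 : ∀ I : Finset ℕ, ∑ n ∈ I, exp (-δ * b n) ≤ S := fun I =>
    hS ▸ hδ.sum_le_tsum I fun _ _ => (exp_pos _).le
  have key : ∀ N, ∃ ν : Mean X, ν.μ univ = 1 ∧ ν.μ Kᶜ = 0 ∧
      ∑ n ∈ Finset.range N, exp (s * b n) * pm (D n) ν ν < 4 * S * (S / c) + 1 := fun N => by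
    by_contra hn
    push Not at hn
    obtain ⟨ν, a1, a2⟩ := near_min hD hB hK _ (fun n => (exp_pos _).le) hn
    choose T t1 t2 using fun n => vit ν a1 (B n) (B' n)
      (c := 2 * (S / c) * exp (-(s + δ) * b n)) (by positivity) (hB' n)
    have a3 := h (((Finset.range N).sigma T).map (Equiv.sigmaEquivProd ℕ X).toEmbedding)
      fun x hx => by
        by_contra hx'
        have : ∑ n ∈ Finset.range N, exp (s * b n) * ν.μ (B n x) ≤
            2 * (S / c) * ∑ n ∈ Finset.range N, exp (-δ * b n) := by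
          rw [Finset.mul_sum]
          refine Finset.sum_le_sum fun n hn => ?_
          have : ν.μ (B n x) < 2 * (S / c) * exp (-(s + δ) * b n) := not_le.1 fun hc => by
            obtain ⟨y, y1, y2⟩ := t2 n x hc
            exact hx' (mem_iUnion₂.2 ⟨(n, y), Finset.mem_map.2
              ⟨⟨n, y⟩, Finset.mem_sigma.2 ⟨hn, y1⟩, rfl⟩, y2⟩)
          refine (mul_le_mul_of_nonneg_left this.le (exp_pos _).le).trans (le_of_eq ?_)
          rw [mul_left_comm, ← exp_add]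
          congr 2
          ring
        have := this.trans (mul_le_mul_of_nonneg_left (S1 _) (by positivity))
        linarith [a2 x hx]
    rw [Finset.sum_map, Finset.sum_sigma] at a3
    have a4 := mul_le_mul_of_nonneg_left a3 (show 0 ≤ 2 * (S / c) by positivity)
    have a5 : 2 * (S / c) * c = 2 * S := by field_simp
    rw [a5, Finset.mul_sum] at a4
    have a6 := a4.trans ((Finset.sum_le_sum fun n _ => ?_).trans (S1 (Finset.range N)))
    · linarith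
    · refine le_trans (le_of_eq ?_) (mul_le_of_le_one_left (exp_pos _).le (t1 n))
      change 2 * (S / c) * ∑ _y ∈ T n, exp (-(s + 2 * δ) * b n) = _
      rw [Finset.sum_const, nsmul_eq_mul, mul_assoc (_ : ℝ) _ (exp _), mul_assoc _ (exp _),
        ← exp_add, mul_left_comm]
      congr 3
      ring
  choose ν a1 a2 a3 using key
  obtain ⟨μ, hμ⟩ := Mean.exists_lim ν fun n => (a1 n).le
  refine ⟨μ, tendsto_nhds_unique (hμ _ (FR.ind _)) (tendsto_const_nhds.congr fun n => (a1 n).symm),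
    tendsto_nhds_unique (hμ _ (FR.ind _)) (tendsto_const_nhds.congr fun n => (a2 n).symm),
    summable_of_sum_range_le (c := 4 * S * (S / c) + 1)
      (fun n => mul_nonneg (exp_pos _).le (pm_nonneg (hD n) _ _)) fun N => ?_⟩
  refine le_of_tendsto (tendsto_finsetSum _ fun n _ => (tendsto_pm (hD n) hμ).const_mul _) ?_
  filter_upwards [(eventually_ge_atTop N).filter_mono Nat.hyperfilter_le_atTop] with k hk
  exact (Finset.sum_le_sum_of_subset_of_nonneg (Finset.range_subset_range.2 hk)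
    fun n _ _ => mul_nonneg (exp_pos _).le (pm_nonneg (hD n) _ _)).trans (a3 k).le

lemma cover_le (hD : ∀ n, FR (D n)) {ν : Mean X} {t W : ℝ} (hs : Fin_ D b t ν ν)
    (h1 : 1 / 2 ≤ ν.μ univ) (hW : 0 < W) (h2 : En D b t ν ν ≤ W) {ι : Type*} (J : Finset ι)
    (n : ι → ℕ) (U : ι → Set X) (hU : ∀ i ∈ J, ∀ y ∈ U i, U i ⊆ D (n i) y)
    (hO : ν.μ (⋃ i ∈ J, U i)ᶜ = 0) : 1 / (16 * W) ≤ ∑ i ∈ J, exp (-t * b (n i)) := by
  set T := ⋃ k ∈ J.image n, {y | 4 * W * exp (-t * b k) ≤ ν.μ (D k y)} with hT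
  have a1 : 4 * W * ν.μ T ≤ W := by
    refine le_trans ?_ ((hs.sum_le_tsum (J.image n)
      fun k _ => mul_nonneg (exp_pos _).le (pm_nonneg (hD k) _ _)).trans h2)
    refine (mul_le_mul_of_nonneg_left (ν.μ_biUnion_le _ _) (by positivity)).trans ?_
    rw [Finset.mul_sum]
    refine Finset.sum_le_sum fun k _ => ?_
    have := ν.markov ((hD k).comp ν.μ) ν.μ_empty (fun _ _ => ν.μ_nonneg _)
      (t := 4 * W * exp (-t * b k)) (B := {y | 4 * W * exp (-t * b k) ≤ ν.μ (D k y)})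
      fun y hy _ => hy
    refine le_trans (le_of_eq ?_) (mul_le_mul_of_nonneg_left this (exp_pos _).le)
    have e : exp (t * b k) * exp (-t * b k) = 1 := by rw [← exp_add]; simp
    linear_combination (-(4 * W * ν.μ {y | 4 * W * exp (-t * b k) ≤ ν.μ (D k y)})) * e
  have a2 : ν.μ univ ≤ ν.μ (T ∪ ⋃ i ∈ J, U i \ T) :=
    ν.μ_le_add_null hO fun y _ => by
      by_cases h1 : y ∈ T
      · exact Or.inl (Or.inl h1)
      by_cases h2 : y ∈ ⋃ i ∈ J, U i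
      · obtain ⟨i, hi, h2⟩ := mem_iUnion₂.1 h2
        exact Or.inl (Or.inr (mem_iUnion₂.2 ⟨i, hi, h2, h1⟩))
      · exact Or.inr h2
  have a3 : ν.μ (⋃ i ∈ J, U i \ T) ≤ 4 * W * ∑ i ∈ J, exp (-t * b (n i)) := by
    rw [Finset.mul_sum]
    refine (ν.μ_biUnion_le _ _).trans (Finset.sum_le_sum fun i hi => ?_)
    rcases (U i \ T).eq_empty_or_nonempty with e | ⟨y, hy1, hy2⟩
    · rw [e, ν.μ_empty]; positivity
    · exact (ν.μ_mono fun z hz => hU i hi y hy1 hz.1).trans (not_le.1 fun h =>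
        hy2 (mem_iUnion₂.2 ⟨n i, Finset.mem_image_of_mem _ hi, h⟩)).le
  rw [div_le_iff₀ (by positivity)]
  have a4 := ν.μ_union_le T (⋃ i ∈ J, U i \ T)
  have a5 : ν.μ T ≤ 1 / 4 := by
    by_contra hcon
    nlinarith
  linarith

end Pool.Agent.P.MP_4cf0b2_an.HL
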