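import Pool.Agent.P.MP_4cf0b2_an.Ent

/-! Bowen entropy: hulls, unions, and compact subsets of analytic sets. -/

set_option linter.unusedSectionVars false

namespace Pool.Agent.P.MP_4cf0b2_an.HL

open Set Filter Real
open scoped Topology ENNReal NNReal

variable {G X : Type*} [Group G] [DecidableEq G] [MulAction G X] [MetricSpace X]
  {F : ℕ → Finset G}

lemma tri {T : Finset G} {x y z : X} {a b : ℝ} (h : y ∈ bowenBall T x a)
    (h' : z ∈ bowenBall T y b) : z ∈ bowenBall T x (a + b) := fun g hg =>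
  (dist_triangle _ _ _).trans_lt (add_lt_add (h g hg) (h' g hg))

lemma sym {T : Finset G} {x y : X} {a : ℝ} (h : y ∈ bowenBall T x a) : x ∈ bowenBall T y a :=
  fun g hg => dist_comm (g • x) _ ▸ h g hg

lemma bb_mono {T : Finset G} {x : X} {a b : ℝ} (h : a ≤ b) : bowenBall T x a ⊆ bowenBall T x b :=
  fun _ hy g hg => (hy g hg).trans_le h

lemma exists_net [CompactSpace X] [ContinuousConstSMul G X] (T : Finset G) {ε : ℝ} (hε : 0 < ε) :
    ∃ r : X → X, FR r ∧ ∀ x, x ∈ bowenBall T (r x) ε := by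
  obtain ⟨t, ht⟩ := isCompact_univ.elim_finite_subcover _ (fun x : X => isOpen_bowenBall T x ε)
    fun x _ => mem_iUnion.2 ⟨x, fun g _ => by simpa using hε⟩
  choose r h1 h2 using fun x => mem_iUnion₂.1 (ht (mem_univ x))
  exact ⟨r, t.finite_toSet.subset (by rintro _ ⟨x, rfl⟩; exact h1 x), h2⟩

lemma bowenM_mono {Z Z' : Set X} {N N' : ℕ} {ρ ρ' : ℝ} {s s' : ℝ≥0} (h1 : Z ⊆ Z') (h2 : N ≤ N')
    (h3 : ρ' ≤ ρ) (h4 : s' ≤ s) : bowenM F Z N ρ s ≤ bowenM F Z' N' ρ' s' := by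
  unfold bowenM
  refine iInf_mono fun I => iInf_mono fun x => iInf_mono fun n => le_iInf fun a => le_iInf fun b =>
    iInf_le_of_le (fun i => h2.trans (a i)) (iInf_le_of_le
      (h1.trans (b.trans (iUnion_mono fun i => bb_mono h3))) (ENNReal.tsum_le_tsum fun i =>
        ENNReal.ofReal_le_ofReal (exp_le_exp.2 ?_)))
  exact mul_le_mul_of_nonneg_right (neg_le_neg h4) (Nat.cast_nonneg _)

lemma zero_of_lt {Z : Set X} {s : ℝ≥0} (h : bowenTop F Z < s) {ρ : ℝ} (hρ : 0 < ρ) (N : ℕ) :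
    bowenM F Z N ρ s = 0 := by
  have h1 : bowenEnt F Z ρ < s :=
    lt_of_le_of_lt (le_iSup₂ (f := fun ε (_ : 0 < ε) => bowenEnt F Z ε) ρ hρ) h
  unfold bowenEnt at h1
  simp only [iInf_lt_iff] at h1
  obtain ⟨r, h2, h3⟩ := h1
  exact le_antisymm ((bowenM_mono subset_rfl le_rfl le_rfl (ENNReal.coe_lt_coe.1 h3).le).trans
    (ENNReal.iSup_eq_zero.1 h2 N).le) zero_le

lemma top_le {Z : Set X} {h : ℝ≥0}
    (hz : ∀ ρ > 0, ∀ N, ∀ s : ℝ≥0, h < s → ∀ γ : ℝ≥0, 0 < γ → bowenM F Z N ρ s ≤ γ) :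
    bowenTop F Z ≤ h := by
  refine iSup_le fun ρ => iSup_le fun hρ => ENNReal.le_of_forall_nnreal_lt fun r hr => ?_
  by_contra hlt
  rw [ENNReal.coe_le_coe, not_le] at hlt
  refine absurd hr (not_lt.2 (iInf_le_of_le r (iInf_le_of_le ?_ le_rfl)))
  exact ENNReal.iSup_eq_zero.2 fun N => le_antisymm (ENNReal.le_of_forall_pos_le_add
    fun γ hγ _ => by simpa using hz ρ hρ N r hlt γ hγ) zero_le

lemma exists_cover {Z : Set X} {N : ℕ} {ρ : ℝ} {s : ℝ≥0} {c : ℝ≥0∞} (h : bowenM F Z N ρ s < c) :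
    ∃ (I : Set ℕ) (x : I → X) (n : I → ℕ), (∀ i, N ≤ n i) ∧ Z ⊆ ⋃ i, bowenBall (F (n i)) (x i) ρ ∧
      ∑' i, ENNReal.ofReal (exp (-(s : ℝ) * (F (n i)).card)) < c := by
  unfold bowenM at h
  simpa only [iInf_lt_iff, exists_prop] using h

lemma top_iUnion_le {Z : ℕ → Set X} {h : ℝ≥0} (hZ : ∀ k, bowenTop F (Z k) ≤ h) :
    bowenTop F (⋃ k, Z k) ≤ h := by
  refine top_le fun ρ hρ N s hs γ hγ => ?_
  obtain ⟨δ, hδ, hsum⟩ := ENNReal.exists_pos_sum_of_countable (ε := γ) (by simpa using hγ.ne') ℕ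
  choose I x n h1 h2 h3 using fun k => exists_cover (c := δ k)
    ((zero_of_lt ((hZ k).trans_lt (ENNReal.coe_lt_coe.2 hs)) hρ N).trans_lt
      (ENNReal.coe_pos.2 (hδ k)))
  refine (bowenM_le_tsum (ι := Σ k, I k) _ N ρ s (fun p => x p.1 p.2) (fun p => n p.1 p.2)
    (fun p => h1 _ _) fun z hz => ?_).trans (le_trans ?_ hsum.le)
  · obtain ⟨k, hk⟩ := mem_iUnion.1 hz
    obtain ⟨i, hi⟩ := mem_iUnion.1 (h2 k hk)
    exact mem_iUnion.2 ⟨⟨k, i⟩, hi⟩
  · rw [ENNReal.tsum_sigma']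
    exact ENNReal.tsum_le_tsum fun k => (h3 k).le

/-- a null sequence -/
noncomputable def uu (j : ℕ) : ℝ≥0 := 1 / ((j : ℝ≥0) + 1)

lemma uu_pos (j : ℕ) : 0 < uu j := by unfold uu; positivity

lemma uu_coe (j : ℕ) : (uu j : ℝ) = 1 / ((j : ℝ) + 1) := by simp [uu]

lemma top_iInter_le {Y : ℕ → Set X} {h : ℝ≥0}
    (hY : ∀ j, bowenM F (Y j) j (uu j) (h + uu j) ≤ uu j) : bowenTop F (⋂ j, Y j) ≤ h := by
  refine top_le fun ρ hρ N s hs γ hγ => ?_
  have hu : Tendsto (fun j => (uu j : ℝ)) atTop (𝓝 0) := by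
    simpa only [uu_coe] using tendsto_one_div_add_atTop_nhds_zero_nat
  obtain ⟨j, ⟨h1, h2⟩, h3, h4⟩ := (((hu.eventually_le_const hρ).and (eventually_ge_atTop N)).and
    ((hu.eventually_le_const (sub_pos.2 (NNReal.coe_lt_coe.2 hs))).and
      (hu.eventually_le_const (NNReal.coe_pos.2 hγ)))).exists
  refine (bowenM_mono (iInter_subset _ j) h2 h1 ?_).trans ((hY j).trans (ENNReal.coe_le_coe.2 h4))
  rw [← NNReal.coe_le_coe, NNReal.coe_add]
  linarith

lemma exists_hull [ContinuousConstSMul G X] {Y : Set X} {h : ℝ≥0} (hY : bowenTop F Y ≤ h) :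
    ∃ U : ℕ → Set X, (∀ j, IsOpen (U j)) ∧ Y ⊆ ⋂ j, U j ∧ bowenTop F (⋂ j, U j) ≤ h := by
  choose I x n h1 h2 h3 using fun j => exists_cover (c := uu j)
    ((zero_of_lt (s := h + uu j) (hY.trans_lt (ENNReal.coe_lt_coe.2
      (lt_add_of_pos_right _ (uu_pos j)))) (uu_pos j) j).trans_lt (ENNReal.coe_pos.2 (uu_pos j)))
  exact ⟨_, fun j => isOpen_iUnion fun i => isOpen_bowenBall _ _ _, subset_iInter h2,
    top_iInter_le fun j => (bowenM_le_tsum _ _ _ _ _ _ (h1 j) subset_rfl).trans (h3 j).le⟩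

/-- the cost of a family of balls -/
noncomputable def cost (F : ℕ → Finset G) (s : ℝ) (C : Set (ℕ × X)) : ℝ≥0∞ :=
  ∑' p, C.indicator (fun p => ENNReal.ofReal (exp (-s * (F p.1).card))) p

/-- a cheap cover with centres in the nets -/
def Cheap (F : ℕ → Finset G) (r : ℕ → X → X) (N : ℕ) (ρ s : ℝ) (L : ℝ≥0) (A : Set X) : Prop :=
  ∃ C : Set (ℕ × X), (∀ p ∈ C, N ≤ p.1 ∧ p.2 ∈ range (r p.1)) ∧
    A ⊆ ⋃ p ∈ C, bowenBall (F p.1) p.2 ρ ∧ cost F s C < L

variable {r : ℕ → X → X} {N : ℕ} {ρ : ℝ}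

lemma cheap_iUnion (hF : Admissible F) (hr : ∀ n, FR (r n)) {A : ℕ → Set X} (hA : Monotone A)
    {s s' : ℝ} (hs : s < s') {L L' : ℝ≥0} (hL : L < L') (h : ∀ k, Cheap F r N ρ s L (A k)) :
    Cheap F r N ρ s' L' (⋃ k, A k) := by
  choose C c1 c2 c3 using h
  have L0 : 0 < L := ENNReal.coe_pos.1 (zero_le.trans_lt (c3 0))
  obtain ⟨E, hE⟩ : ∃ E : Set (ℕ × X), ∀ p, p ∈ E ↔ ∀ᶠ k in hyperfilter ℕ, p ∈ C k :=
    ⟨{p | ∀ᶠ k in hyperfilter ℕ, p ∈ C k}, fun _ => Iff.rfl⟩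
  have e1 : cost F s E ≤ L := by
    rw [cost, ENNReal.tsum_eq_iSup_sum]
    refine iSup_le fun J => ?_
    obtain ⟨k, hk⟩ := ((eventually_all_finset J).2 fun p _ =>
      show ∀ᶠ k in hyperfilter ℕ, p ∈ E → p ∈ C k from
        eventually_imp_distrib_left.2 (hE p).1).exists
    refine le_trans (Finset.sum_le_sum fun p hp => ?_) ((ENNReal.sum_le_tsum J).trans (c3 k).le)
    by_cases h : p ∈ E
    · rw [indicator_of_mem h, indicator_of_mem (hk p hp h)]
    · rw [indicator_of_notMem h]; exact zero_le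
  have e2 : ∀ m, ∃ k, m ≤ k ∧ ∀ p ∈ C k, p.1 < m → p ∈ E := fun m => by
    have f : (⋃ n ∈ Iio m, Prod.mk n '' range (r n)).Finite :=
      (finite_Iio m).biUnion fun n _ => (hr n).image _
    obtain ⟨k, h1, h2⟩ := (((eventually_ge_atTop m).filter_mono Nat.hyperfilter_le_atTop).and
      ((eventually_all_finite f).2 fun p _ => show ∀ᶠ k in hyperfilter ℕ, p ∈ C k → p ∈ E from by
        by_cases h : p ∈ E
        · exact Eventually.of_forall fun _ _ => h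
        · exact (Ultrafilter.eventually_not.2 (mt (hE p).2 h)).mono fun k a b => absurd b a)).exists
    exact ⟨k, h1, fun p hp hm => h2 p (mem_iUnion₂.2 ⟨p.1, hm, p.2, (c1 k p hp).2, rfl⟩) hp⟩
  choose k k1 k2 using e2
  obtain ⟨δ, hδ, hsum⟩ := ENNReal.exists_pos_sum_of_countable (ε := (L' - L : ℝ≥0))
    (ENNReal.coe_pos.2 (tsub_pos_of_lt hL)).ne' ℕ
  have e3 : ∀ j, ∃ m, j ≤ m ∧ ∀ n, m ≤ n → exp (-(s' - s) * (F n).card) ≤ (δ j / L : ℝ≥0) :=
    fun j => by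
      obtain ⟨m, h1, h2⟩ := ((eventually_ge_atTop j).and (hF.tail (sub_pos.2 hs)
        (NNReal.coe_pos.2 (div_pos (hδ j) L0)))).exists
      exact ⟨m, h1, fun n hn => by simpa using h2 {n} (by simpa using hn)⟩
  choose m m1 m2 using e3
  refine ⟨E ∪ ⋃ j, C (k (m j)) ∩ {p | m j ≤ p.1}, ?_, fun x hx => ?_, ?_⟩
  · rintro p (hp | hp)
    · obtain ⟨k, hk⟩ := ((hE p).1 hp).exists
      exact c1 k p hk
    · obtain ⟨j, hj⟩ := mem_iUnion.1 hp
      exact c1 _ p hj.1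
  · obtain ⟨j, hj⟩ := mem_iUnion.1 hx
    obtain ⟨p, h1, h2⟩ := mem_iUnion₂.1 (c2 _ (hA ((m1 j).trans (k1 _)) hj))
    refine mem_iUnion₂.2 ⟨p, ?_, h2⟩
    rcases lt_or_ge p.1 (m j) with h | h
    · exact Or.inl (k2 _ p h1 h)
    · exact Or.inr (mem_iUnion.2 ⟨j, h1, h⟩)
  · have e4 : cost F s' (E ∪ ⋃ j, C (k (m j)) ∩ {p | m j ≤ p.1}) ≤
        cost F s E + ∑' j, (δ j / L : ℝ≥0) * cost F s (C (k (m j))) := by
      simp only [cost, ← ENNReal.tsum_mul_left]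
      rw [ENNReal.tsum_comm, ← ENNReal.tsum_add]
      refine ENNReal.tsum_le_tsum fun p => ?_
      refine indicator_apply_le' (fun hp => ?_) fun _ => zero_le
      rcases hp with hp | hp
      · refine le_add_right ?_
        rw [indicator_of_mem hp]
        exact ENNReal.ofReal_le_ofReal (exp_le_exp.2
          (mul_le_mul_of_nonneg_right (neg_le_neg hs.le) (Nat.cast_nonneg _)))
      · obtain ⟨j, h1, h2⟩ := mem_iUnion.1 hp
        refine le_add_left (le_trans ?_ (ENNReal.le_tsum j))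
        rw [indicator_of_mem h1, ← ENNReal.ofReal_coe_nnreal,
          ← ENNReal.ofReal_mul (NNReal.coe_nonneg _)]
        refine ENNReal.ofReal_le_ofReal (le_trans (le_of_eq ?_)
          (mul_le_mul_of_nonneg_right (m2 j _ h2) (exp_pos _).le))
        rw [← exp_add]
        congr 1
        ring
    refine e4.trans_lt (lt_of_le_of_lt (add_le_add e1 (ENNReal.tsum_le_tsum fun j => ?_))
      ((ENNReal.add_lt_add_left ENNReal.coe_ne_top hsum).trans_eq ?_))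
    · refine (mul_le_mul_right (c3 _).le _).trans_eq ?_
      rw [← ENNReal.coe_mul, div_mul_cancel₀ _ L0.ne']
    · rw [← ENNReal.coe_add, add_tsub_cancel_of_le hL.le]

lemma exists_compact [CompactSpace X] [ContinuousConstSMul G X] (hF : Admissible F) {K : Set X}
    (hK : MeasureTheory.AnalyticSet K) {s : ℝ≥0} (hs : (s : ℝ≥0∞) < bowenTop F K) :
    ∃ K' ⊆ K, IsCompact K' ∧ ∃ ε > 0, ∃ N, ∃ c > 0, ∀ J : Finset (ℕ × X), (∀ p ∈ J, N ≤ p.1) →
      K' ⊆ ⋃ p ∈ J, bowenBall (F p.1) p.2 ε → c ≤ ∑ p ∈ J, exp (-(s : ℝ) * (F p.1).card) := by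
  classical
  obtain ⟨s0, h1, h2⟩ := ENNReal.lt_iff_exists_nnreal_btwn.1 hs
  unfold bowenTop at h2
  simp only [lt_iSup_iff] at h2
  obtain ⟨ε, hε, h2⟩ := h2
  have h3 : ¬ ∀ N, bowenM F K N ε s0 = 0 := fun h =>
    absurd h2 (not_lt.2 (iInf_le_of_le s0 (iInf_le_of_le (ENNReal.iSup_eq_zero.2 h) le_rfl)))
  obtain ⟨N, h3⟩ := not_forall.1 h3
  obtain ⟨L, L0, hL⟩ := ENNReal.lt_iff_exists_nnreal_btwn.1 (pos_iff_ne_zero.2 h3)
  rw [ENNReal.coe_pos] at L0
  choose r r1 r2 using fun n => exists_net (X := X) (F n) (half_pos hε)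
  have h4 : ¬ Cheap F r N ε s0 L K := by
    rintro ⟨C, c1, c2, c3⟩
    have : C.Countable := (countable_iUnion fun n => ((r1 n).image (Prod.mk n)).countable).mono
      fun p hp => mem_iUnion.2 ⟨p.1, mem_image_of_mem _ (c1 p hp).2⟩
    have := this.to_subtype
    refine absurd (hL.trans_le ((bowenM_le_tsum (ι := C) _ N ε s0 (fun p => p.1.2) (fun p => p.1.1)
      (fun p => (c1 _ p.2).1) (by rwa [biUnion_eq_iUnion] at c2)).trans_eq ?_)) (not_lt.2 c3.le)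
    exact tsum_subtype C fun p => ENNReal.ofReal (exp (-(s0 : ℝ) * (F p.1).card))
  rw [MeasureTheory.AnalyticSet] at hK
  rcases hK with rfl | ⟨f, hf, rfl⟩
  · exact (h4 ⟨∅, by simp, by simp, by simpa [cost] using L0⟩).elim
  have d0 : (0 : ℝ) < s0 - s := sub_pos.2 (by exact_mod_cast h1)
  have ua : ∀ j, uu (j + 1) < uu j := fun j => by
    rw [← NNReal.coe_lt_coe, uu_coe, uu_coe]
    exact one_div_lt_one_div_of_lt (by positivity) (by push_cast; linarith)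
  obtain ⟨u, -, hu⟩ := exists_seq (σ := ℕ → ℕ)
    (fun j m => ¬ Cheap F r N ε (s + (s0 - s) * uu j) (L / 2 + L / 2 * uu j)
      (f '' {σ | ∀ i < j, σ i ≤ m i}))
    (fun j m m' => ∀ i < j, m' i = m i) 0 (by simpa [uu] using h4) fun j m hm => by
      by_contra hn
      have hn' : ∀ k, Cheap F r N ε (s + (s0 - s) * uu (j + 1)) (L / 2 + L / 2 * uu (j + 1))
          (f '' {σ | ∀ i < j + 1, σ i ≤ Function.update m j k i}) := fun k => by
        by_contra h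
        exact hn ⟨_, h, fun i hi => Function.update_of_ne hi.ne _ _⟩
      obtain ⟨C, c1, c2, c3⟩ := cheap_iUnion hF r1 (fun k l hkl => image_mono fun σ hσ i hi =>
        (hσ i hi).trans (update_le_update_iff'.2 hkl i))
        (add_lt_add_right (mul_lt_mul_of_pos_left (NNReal.coe_lt_coe.2 (ua j)) d0) _)
        (add_lt_add_right (mul_lt_mul_of_pos_left (ua j) (half_pos L0)) _) hn'
      refine hm ⟨C, c1, subset_trans ?_ c2, c3⟩
      rintro _ ⟨σ, hσ, rfl⟩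
      refine mem_iUnion.2 ⟨σ j, σ, fun i hi => ?_, rfl⟩
      rcases Nat.lt_succ_iff_lt_or_eq.1 hi with h | rfl
      · rw [Function.update_of_ne h.ne]; exact hσ i h
      · rw [Function.update_self]
  have st : ∀ i j, i < j → u j i = u (i + 1) i := fun i j h => by
    induction j, h using Nat.le_induction with
    | base => rfl
    | succ j h ih => rw [(hu j).2 i h, ih]
  refine ⟨f '' univ.pi fun i => Iic (u (i + 1) i), image_subset_range _ _,
    (isCompact_univ_pi fun i => (finite_Iic _).isCompact).image hf, ε / 2, half_pos hε, N,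
    (L / 2 : ℝ≥0), NNReal.coe_pos.2 (half_pos L0), fun J j1 j2 => ?_⟩
  by_contra hn
  have h5 : ∃ j, f '' {σ | ∀ i < j, σ i ≤ u j i} ⊆ ⋃ p ∈ J, bowenBall (F p.1) p.2 (ε / 2) := by
    by_contra h
    simp only [not_exists, not_subset, exists_mem_image] at h
    choose σ a1 a2 using h
    have a3 : ∀ i, ∃ a ≤ u (i + 1) i, ∀ᶠ j in hyperfilter ℕ, σ j i = a := fun i =>
      (Ultrafilter.finite_biUnion_mem_iff (f := hyperfilter ℕ) (s := fun a => {j | σ j i = a})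
        (finite_Iic _)).1 (mem_of_superset
          ((eventually_gt_atTop i).filter_mono Nat.hyperfilter_le_atTop)
          fun j hj => mem_iUnion₂.2 ⟨σ j i, st i j hj ▸ a1 j i hj, rfl⟩)
    choose τ b1 b2 using a3
    have b3 : Tendsto σ (hyperfilter ℕ) (𝓝 τ) :=
      tendsto_pi_nhds.2 fun i => tendsto_const_nhds.congr' (EventuallyEq.symm (b2 i))
    obtain ⟨j, hj⟩ := (((hf.tendsto τ).comp b3).eventually_mem ((isOpen_biUnion fun p _ =>
      isOpen_bowenBall _ _ _).mem_nhds (j2 ⟨τ, fun i _ => b1 i, rfl⟩))).exists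
    exact a2 j hj
  obtain ⟨j, hj⟩ := h5
  refine (hu j).1 ⟨J.image fun p => (p.1, r p.1 p.2), fun p hp => ?_, fun x hx => ?_, ?_⟩
  · obtain ⟨q, hq, rfl⟩ := Finset.mem_image.1 hp
    exact ⟨j1 q hq, _, rfl⟩
  · obtain ⟨p, p1, p2⟩ := mem_iUnion₂.1 (hj hx)
    exact mem_iUnion₂.2 ⟨_, Finset.mem_image_of_mem _ p1, add_halves ε ▸ tri (r2 _ _) p2⟩
  · rw [cost, ← sum_eq_tsum_indicator]
    refine (Finset.sum_image_le_of_nonneg fun _ _ => zero_le).trans_lt
      (lt_of_lt_of_le ?_ (ENNReal.coe_le_coe.2 le_self_add))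
    rw [← ENNReal.ofReal_sum_of_nonneg fun _ _ => (exp_pos _).le, ← ENNReal.ofReal_coe_nnreal,
      ENNReal.ofReal_lt_ofReal_iff (NNReal.coe_pos.2 (half_pos L0))]
    refine lt_of_le_of_lt (Finset.sum_le_sum fun p _ => exp_le_exp.2
      (mul_le_mul_of_nonneg_right (neg_le_neg ?_) (Nat.cast_nonneg _))) (not_le.1 hn)
    exact le_add_of_nonneg_right (by positivity)

end Pool.Agent.P.MP_4cf0b2_an.HL
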