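import Pool.Agent.P.MP_4cf0b2_an.HLb
import Pool.Agent.P.MP_4cf0b2_an.HLc

/-! Analytic sets of finite Bowen entropy are lowerable. -/

set_option linter.unusedSectionVars false

namespace Pool.Agent.P.MP_4cf0b2_an.HL

open Set Filter Real
open scoped Topology ENNReal NNReal

variable {G X : Type*} [Group G] [DecidableEq G] [MulAction G X] [MetricSpace X]
  [CompactSpace X] [ContinuousConstSMul G X] {F : ℕ → Finset G}

theorem approx (hF : Admissible F) {K : Set X} (hK : MeasureTheory.AnalyticSet K) {H t h : ℝ≥0}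
    (hH : bowenTop F K = H) (hth : t < h) (hh : h ≤ H) :
    ∃ Z ⊆ K, IsCompact Z ∧ Z.Nonempty ∧ (t : ℝ≥0∞) ≤ bowenTop F Z ∧ bowenTop F Z ≤ h := by
  classical
  obtain ⟨γ, hγ⟩ : ∃ γ : ℝ, γ = (h - t) / 5 := ⟨_, rfl⟩
  have g1 : (t : ℝ) < h := hth
  have g2 : (h : ℝ) ≤ H := hh
  have t0 : (0 : ℝ) ≤ t := t.2
  have γ0 : 0 < γ := by linarith
  obtain ⟨s1, hs1⟩ : ∃ s : ℝ≥0, (s : ℝ) = H - γ := ⟨⟨H - γ, by linarith⟩, rfl⟩
  obtain ⟨s2, hs2⟩ : ∃ s : ℝ≥0, (s : ℝ) = H + γ := ⟨⟨H + γ, by linarith⟩, rfl⟩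
  obtain ⟨K', k1, k2, ε0, e0, N, c, c0, hc⟩ := exists_compact hF hK (s := s1)
    (by rw [hH, ENNReal.coe_lt_coe, ← NNReal.coe_lt_coe]; linarith)
  obtain ⟨ε, rfl⟩ : ∃ ε, ε0 = ε + (ε + ε + ε) + (ε + (ε + ε + ε)) := ⟨ε0 / 8, by ring⟩
  have hε : 0 < ε := by linarith
  have k3 : K'.Nonempty := nonempty_iff_ne_empty.2 fun e =>
    absurd (hc ∅ (by simp) (by simp [e])) (by simpa using c0)
  choose r r1 r2 using fun n => exists_net (X := X) (F n) hε
  obtain ⟨D, hD⟩ : ∃ D : ℕ → X → Set X,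
    D = fun n x => {y | N ≤ n ∧ y ∈ bowenBall (F n) (r n x) (ε + ε + ε)} := ⟨_, rfl⟩
  have d1 : ∀ n, FR (D n) := fun n =>
    hD ▸ (r1 n).comp fun a => {y | N ≤ n ∧ y ∈ bowenBall (F n) a (ε + ε + ε)}
  have b0 : ∀ n, (0 : ℝ) ≤ (F n).card := fun n => Nat.cast_nonneg _
  obtain ⟨μ, m1, m2, m3⟩ := frost (b := fun n => (F n).card)
    (B := fun n x => {y | N ≤ n ∧ y ∈ bowenBall (F n) x (ε + (ε + ε + ε))})
    (B' := fun n x => {y | N ≤ n ∧ y ∈ bowenBall (F n) x (ε + (ε + ε + ε) + (ε + (ε + ε + ε)))}) d1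
    (fun n x y hy => by
      rw [hD] at hy
      exact ⟨⟨hy.1, tri (sym (r2 n x)) hy.2⟩, hy.1, sym (tri (sym (r2 n x)) hy.2)⟩)
    (fun n x y z h1 h2 => ⟨h1.1, tri h2.2 (sym h1.2)⟩) k3 (s := H - 2 * γ)
    (hF.summable (half_pos γ0)) c0 fun J hJ => by
      refine (hc (J.filter fun p => N ≤ p.1) (fun p hp => (Finset.mem_filter.1 hp).2)
        fun x hx => ?_).trans (le_trans (Finset.sum_le_sum_of_subset_of_nonneg
          (Finset.filter_subset _ _) fun _ _ _ => (exp_pos _).le) (le_of_eq ?_))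
      · obtain ⟨p, h1, h2⟩ := mem_iUnion₂.1 (hJ hx)
        exact mem_iUnion₂.2 ⟨p, Finset.mem_filter.2 ⟨h1, h2.1⟩, h2.2⟩
      · refine Finset.sum_congr rfl fun p _ => ?_
        rw [hs1]
        congr 2
        ring
  obtain ⟨W, hW⟩ : ∃ W, W = En D (fun n => (F n).card) t μ μ + 1 := ⟨_, rfl⟩
  have W0 : 0 < W := hW ▸ add_pos_of_nonneg_of_pos (En_nonneg d1 _ _ _) one_pos
  obtain ⟨u, -, hu⟩ := exists_seq (σ := Mean X)
    (fun j ν => (∃ c, 0 ≤ c ∧ Dom ν c μ) ∧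
      En D (fun n => (F n).card) t ν ν + 4 * W * (ν.μ univ - 1) ^ 2 ≤ W - uu j)
    (fun j ν ν' => (∃ c, Dom ν' c ν) ∧ ∃ Y : Set X, IsClosed Y ∧ Y ⊆ K' ∧ ν'.μ Yᶜ = 0 ∧
      bowenM F Y j (uu j) (h + uu j) ≤ uu j)
    μ ⟨⟨1, zero_le_one, dom_refl μ⟩, by simp [hW, m1, uu]⟩ fun j ν hν => by
      obtain ⟨⟨c1, a1, a2⟩, a3⟩ := hν
      have u0 : (0 : ℝ) < uu j := uu_pos j
      have u1 : (uu (j + 1) : ℝ) < uu j := by
        rw [uu_coe, uu_coe]
        exact one_div_lt_one_div_of_lt (by positivity) (by push_cast; linarith)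
      obtain ⟨η, hη⟩ : ∃ η : ℝ, η = (uu j - uu (j + 1)) / (16 * W) := ⟨_, rfl⟩
      have η0 : 0 < η := hη ▸ div_pos (sub_pos.2 u1) (by positivity)
      have η1 : η * (16 * W) = uu j - uu (j + 1) := hη ▸ div_mul_cancel₀ _ (by positivity)
      have l1 := (tendsto_exp_atBot.comp (tendsto_id.const_mul_atTop_of_neg
        (neg_lt_zero.2 γ0))).mul_const (ν.μ univ * (∑' n, exp (-γ * (F n).card) + 4 * W +
          W / uu j) + En D (fun n => (F n).card) (H - 2 * γ) ν ν)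
      rw [zero_mul] at l1
      obtain ⟨A, A1, A0⟩ := ((l1.eventually_le_const (show 0 < η * (8 * W) by positivity)).and
        (eventually_ge_atTop 0)).exists
      obtain ⟨N1, n1⟩ := eventually_atTop.1 ((hF.tendsto_card.eventually_ge_atTop A).and
        (eventually_ge_atTop j))
      obtain ⟨I, x, n, i1, i2, i3⟩ := exists_cover (c := ENNReal.ofReal η)
        ((zero_of_lt (s := s2) (((bowenTop_mono k1).trans hH.le).trans_lt (by
          rw [ENNReal.coe_lt_coe, ← NNReal.coe_lt_coe]; linarith))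
            (uu_pos (j + 1)) N1).trans_lt (ENNReal.ofReal_pos.2 η0))
      obtain ⟨J, hJ⟩ := k2.elim_finite_subcover _ (fun i => isOpen_bowenBall _ _ _) i2
      have : ∀ y, ∃ i ∈ J, y ∈ K' → y ∈ bowenBall (F (n i)) (x i) (uu (j + 1)) := fun y => by
        by_cases hy : y ∈ K'
        · obtain ⟨i, h1, h2⟩ := mem_iUnion₂.1 (hJ hy)
          exact ⟨i, h1, fun _ => h2⟩
        · obtain ⟨i, h1, -⟩ := mem_iUnion₂.1 (hJ k3.some_mem)
          exact ⟨i, h1, fun h => absurd h hy⟩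
      choose q q1 q2 using this
      have hq : FR q := J.finite_toSet.subset (by rintro _ ⟨y, rfl⟩; exact q1 y)
      obtain ⟨T, ν', c2, f1, f2, f3, f4⟩ := step d1 b0 (m3.dom d1 b0 a1 a2 a2 le_rfl)
        (hF.summable γ0) γ0.le t0 (k := t + 4 * γ) (H := H + γ) (h := h) (by linarith)
        (by linarith) (by linarith) (by linarith) A0 (L := 4 * W) (L' := W / uu j) (η := η)
        (by positivity) (by positivity) hq (a := fun i => (F (n i)).card)
        (fun i => (n1 _ (i1 i)).1) (by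
          have := (ENNReal.sum_le_tsum hq.toFinset).trans i3.le
          rwa [← ENNReal.ofReal_sum_of_nonneg fun _ _ => (exp_pos _).le,
            ENNReal.ofReal_le_ofReal_iff η0.le, hs2] at this)
      have f5 := f2.trans a2 f1
      have f6 : 0 ≤ ∑ i ∈ T, exp (-(h : ℝ) * (F (n i)).card) :=
        Finset.sum_nonneg fun _ _ => (exp_pos _).le
      have f7 := En_nonneg (b := fun n => (F n).card) d1 t ν' ν'
      have f8 : 0 ≤ 4 * W * (ν'.μ univ - 1) ^ 2 := by positivity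
      have f9 := mul_nonneg (div_pos W0 u0).le f6
      simp only [Function.comp, id] at A1
      refine ⟨ν', ⟨⟨_, mul_nonneg f1 a1, f5⟩, by linarith⟩, ⟨_, f2⟩,
        K' ∩ ⋃ i ∈ T, closedBowenBall (F (n i)) (x i) (uu (j + 1)), k2.isClosed.inter
          (isClosed_biUnion_finset fun i _ => isClosed_closedBowenBall _ _ _), inter_subset_left,
        le_antisymm ((ν'.μ_le_add_null (f5.null m2) fun y hy => ?_).trans f3.le) (ν'.μ_nonneg _),
        (bowenM_mono subset_rfl le_rfl le_rfl le_self_add).trans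
          ((bowenM_le_tsum (ι := T) _ j _ h (fun i => x i) (fun i => n i)
            (fun i => (n1 _ (i1 i)).2) fun y hy => ?_).trans ?_)⟩
      · by_cases h1 : y ∈ K'
        · exact Or.inl fun h2 => hy ⟨h1, mem_iUnion₂.2 ⟨_, h2, fun g hg => (q2 y h1 g hg).le⟩⟩
        · exact Or.inr h1
      · obtain ⟨i, h1, h2⟩ := mem_iUnion₂.1 hy.2
        exact mem_iUnion.2 ⟨⟨i, h1⟩, fun g hg => (h2 g hg).trans_lt u1⟩
      · rw [Finset.tsum_subtype T fun i => ENNReal.ofReal (exp (-(h : ℝ) * (F (n i)).card)),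
          ← ENNReal.ofReal_sum_of_nonneg fun _ _ => (exp_pos _).le, ← ENNReal.ofReal_coe_nnreal]
        refine ENNReal.ofReal_le_ofReal (le_of_mul_le_mul_left ?_ (div_pos W0 u0))
        rw [div_mul_cancel₀ _ u0.ne']
        linarith [(uu (j + 1)).coe_nonneg]
  choose Y y1 y2 y3 y4 using fun j => (hu j).2.2
  have null : ∀ j B, (u j).μ B = 0 → ∀ j', j ≤ j' → (u j').μ B = 0 := by
    intro j B hB j' hj'
    induction j', hj' using Nat.le_induction with
    | base => exact hB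
    | succ j' _ ih =>
      obtain ⟨c, hc⟩ := (hu j').2.1
      exact hc.null ih
  have key : ∀ (J : Finset ℕ) (x : ℕ → X) (n : ℕ → ℕ), (∀ i ∈ J, N ≤ n i) →
      (⋂ j, Y j) ⊆ ⋃ i ∈ J, bowenBall (F (n i)) (x i) ε →
      1 / (16 * W) ≤ ∑ i ∈ J, exp (-(t : ℝ) * (F (n i)).card) := by
    intro J x n hn hcov
    obtain ⟨S, hS⟩ := (isOpen_biUnion fun i (_ : i ∈ J) => isOpen_bowenBall (F (n i)) (x i) ε
      ).isClosed_compl.isCompact.elim_finite_subfamily_closed Y y1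
      (eq_empty_of_forall_notMem fun z hz => hz.1 (hcov hz.2))
    obtain ⟨⟨c1, a1, a2⟩, a3⟩ := (hu (S.sup id + 1)).1
    have a4 := En_nonneg (b := fun n => (F n).card) d1 t (u (S.sup id + 1)) (u (S.sup id + 1))
    have a5 := (uu (S.sup id + 1)).coe_nonneg
    have a6 : ((u (S.sup id + 1)).μ univ - 1) ^ 2 ≤ 1 / 4 :=
      le_of_mul_le_mul_left (by linarith) (show 0 < 4 * W by positivity)
    refine cover_le (b := fun n => (F n).card) d1 (m3.dom d1 b0 a1 a2 a2 (by linarith))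
      (by nlinarith) W0 (by linarith [mul_nonneg W0.le (sq_nonneg ((u (S.sup id + 1)).μ univ - 1))])
      J n (fun i => bowenBall (F (n i)) (x i) ε) (fun i hi y hy z hz => ?_)
      (le_antisymm ?_ (Mean.μ_nonneg _ _))
    · rw [hD]
      exact ⟨hn i hi, tri (tri (r2 _ y) (sym hy)) hz⟩
    refine (Mean.μ_mono _ (t := ⋃ j ∈ S, (Y j)ᶜ) fun z hz => ?_).trans
      ((Mean.μ_biUnion_le _ _ _).trans (Finset.sum_eq_zero fun j hj => null (j + 1) _ (y3 j) _
        (Nat.succ_le_succ (Finset.le_sup (f := id) hj))).le)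
    by_contra hcon
    simp only [mem_iUnion, mem_compl_iff, not_exists, not_not] at hcon
    exact (eq_empty_iff_forall_notMem.1 hS z) ⟨hz, mem_iInter₂.2 hcon⟩
  have hne : (⋂ j, Y j).Nonempty := nonempty_iff_ne_empty.2 fun e => by
    have := key ∅ (fun _ => k3.some) (fun _ => 0) (by simp) (by simp [e])
    rw [Finset.sum_empty] at this
    exact absurd this (not_le.2 (by positivity))
  exact ⟨_, ((iInter_subset _ 0).trans (y2 0)).trans k1, (isClosed_iInter y1).isCompact, hne,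
    le_bowenTop (isClosed_iInter y1).isCompact hε (by positivity) key hne, top_iInter_le y4⟩

theorem lower (hF : Admissible F) {K Y : Set X} (hK : MeasureTheory.AnalyticSet K)
    (hne : K.Nonempty) (hY : Y ⊆ K) (hf : bowenTop F Y ≠ ⊤) {h : ℝ≥0∞} (hh : h ≤ bowenTop F Y) :
    ∃ Z ⊆ K, Z.Nonempty ∧ IsSigmaCompact Z ∧ bowenTop F Z = h := by
  lift h to ℝ≥0 using ne_top_of_le_ne_top hf hh
  obtain ⟨H, hH⟩ : ∃ H : ℝ≥0, bowenTop F Y = H := ⟨_, (ENNReal.coe_toNNReal hf).symm⟩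
  rcases eq_or_lt_of_le (zero_le (a := h)) with rfl | hpos
  · obtain ⟨x, hx⟩ := hne
    exact ⟨⋃ _ : ℕ, {x}, by simpa using hx, by simp,
      isSigmaCompact_iUnion_of_isCompact _ fun _ => isCompact_singleton,
      le_antisymm (bowenTop_le hF fun _ ε hε N =>
        ⟨N, le_rfl, {x}, by simp, by simp [bowenBall, hε]⟩) (by simp)⟩
  obtain ⟨U, u1, u2, u3⟩ := exists_hull hH.le
  have hK' : MeasureTheory.AnalyticSet (⋂ β : Bool, cond β K (⋂ j, U j)) := by
    borelize X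
    refine MeasureTheory.AnalyticSet.iInter fun β => ?_
    cases β
    exacts [(MeasurableSet.iInter fun j => (u1 j).measurableSet).analyticSet, hK]
  obtain ⟨u, -, hu1, hu2⟩ := exists_seq_strictMono_tendsto' hpos
  choose Z h1 h2 h3 h4 h5 using fun k => approx hF hK' (H := H) (le_antisymm
    ((bowenTop_mono (iInter_subset _ false)).trans u3)
    (hH ▸ bowenTop_mono (subset_iInter fun β => by cases β; exacts [u2, hY]))) (hu1 k).2
    (ENNReal.coe_le_coe.1 (hh.trans hH.le))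
  exact ⟨⋃ k, Z k, iUnion_subset fun k => (h1 k).trans (iInter_subset _ true),
    (h3 0).mono (subset_iUnion Z 0), isSigmaCompact_iUnion_of_isCompact _ h2,
    le_antisymm (top_iUnion_le h5) (le_of_tendsto' (ENNReal.tendsto_coe.2 hu2)
      fun k => (h4 k).trans (bowenTop_mono (subset_iUnion Z k)))⟩

theorem top_ne_top (hF : Admissible F) (h : hTop X F ≠ ⊤) : bowenTop F (univ : Set X) ≠ ⊤ := by
  classical
  obtain ⟨H, hH, -⟩ := ENNReal.lt_iff_exists_nnreal_btwn.1 h.lt_top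
  have H0 : (0 : ℝ) < H := ENNReal.coe_pos.1 (zero_le.trans_lt hH)
  refine ne_top_of_le_ne_top ENNReal.coe_ne_top (le_trans (bowenTop_mono (subset_iUnion
    (fun _ : ℕ => (univ : Set X)) 0)) (bowenTop_le (h := H) hF fun _ ε hε N => ?_))
  obtain ⟨t, -, ht, hc⟩ := finite_cover_balls_of_compact (isCompact_univ (X := X)) (half_pos hε)
  set U : Finset (Set X) := ht.toFinset.image fun a => Metric.ball a (ε / 2) with hU
  have u1 : ∀ x, ∃ V ∈ U, x ∈ V := fun x => by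
    obtain ⟨a, h1, h2⟩ := mem_iUnion₂.1 (hc (mem_univ x))
    exact ⟨_, Finset.mem_image_of_mem _ (ht.mem_toFinset.2 h1), h2⟩
  have u2 : limsup (fun n => ENNReal.ofReal (log (coverNum U (F n)) / (F n).card)) atTop < H := by
    refine lt_of_le_of_lt ?_ hH
    refine le_iSup_of_le U (le_iSup_of_le (fun V hV => ?_) (le_iSup_of_le u1 le_rfl))
    obtain ⟨i, -, rfl⟩ := Finset.mem_image.1 hV
    exact Metric.isOpen_ball
  obtain ⟨n, h1, h2⟩ := ((eventually_lt_of_limsup_lt u2).and (eventually_ge_atTop N)).exists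
  rw [← ENNReal.ofReal_coe_nnreal, ENNReal.ofReal_lt_ofReal_iff H0,
    div_lt_iff₀ (hF.card_pos n)] at h1
  obtain ⟨S, s1, s2, s3⟩ : ∃ S : Finset (G → Set X), S.card = coverNum U (F n) ∧
      (∀ u ∈ S, ∀ g ∈ F n, u g ∈ U) ∧ ∀ x : X, ∃ u ∈ S, ∀ g ∈ F n, g • x ∈ u g := by
    choose v hv1 hv2 using u1
    have Fv : FR v := U.finite_toSet.subset (by rintro _ ⟨x, rfl⟩; exact hv1 x)
    refine Nat.sInf_mem (s := {k | ∃ S : Finset (G → Set X), S.card = k ∧
      (∀ u ∈ S, ∀ g ∈ F n, u g ∈ U) ∧ ∀ x : X, ∃ u ∈ S, ∀ g ∈ F n, g • x ∈ u g})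
      ⟨_, (FR_nm Fv (F n)).toFinset.image fun w g => (w g).getD univ, rfl, ?_, ?_⟩
    · intro u hu g hg
      obtain ⟨w, hw, rfl⟩ := Finset.mem_image.1 hu
      obtain ⟨x, rfl⟩ := (Set.Finite.mem_toFinset _).1 hw
      simp [nm, tup, hg, hv1]
    · intro x
      exact ⟨_, Finset.mem_image_of_mem _ ((Set.Finite.mem_toFinset _).2 ⟨x, rfl⟩),
        fun g hg => by simp [nm, tup, hg, hv2]⟩
  choose w w1 w2 using s3
  obtain ⟨T, t1, t2⟩ := Finset.exists_subset_injOn_image_eq_of_surjOn (f := w) univ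
    (S.filter fun u => u ∈ range w) fun u hu => by
      obtain ⟨x, rfl⟩ := (Finset.mem_filter.1 hu).2
      exact ⟨x, trivial, rfl⟩
  refine ⟨n, h2, T, ?_, fun x _ => ?_⟩
  · have : T.card ≤ coverNum U (F n) := by
      rw [← s1, ← Finset.card_image_of_injOn t2.1, t2.2]
      exact Finset.card_filter_le _ _
    rcases Nat.eq_zero_or_pos (coverNum U (F n)) with e | e
    · rw [e] at this
      exact le_trans (by exact_mod_cast this) (exp_pos _).le
    · exact le_trans (by exact_mod_cast this) ((log_le_iff_le_exp (by exact_mod_cast e)).1 h1.le)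
  · obtain ⟨y, y1, y2⟩ := Finset.mem_image.1
      (t2.2 ▸ Finset.mem_filter.2 ⟨w1 x, x, rfl⟩ : w x ∈ T.image w)
    refine mem_iUnion₂.2 ⟨y, y1, fun g hg => ?_⟩
    obtain ⟨a, -, ha⟩ := Finset.mem_image.1 (s2 _ (w1 x) g hg)
    have e1 := w2 x g hg
    have e2 := w2 y g hg
    rw [y2] at e2
    rw [← ha, Metric.mem_ball] at e1 e2
    linarith [dist_triangle_right (g • y) (g • x) a]

end Pool.Agent.P.MP_4cf0b2_an.HL
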