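import Mathlib
import Pool.Agent.P.MP_4cf0b2_an.Energy

set_option autoImplicit false
set_option linter.unusedSectionVars false

namespace Pool.Agent.P.MP_4cf0b2_an

open Set Filter Real
open scoped Topology Pointwise

variable {G X : Type*} [Group G] [DecidableEq G] [MulAction G X] {F : ℕ → Finset G}

lemma exp_neg_eventually (hF : Admissible F) {θ ρ : ℝ} (hθ : 0 < θ) (hρ : 0 < ρ) :
    ∀ᶠ n in atTop, exp (-θ * (F n).card) ≤ ρ := by
  filter_upwards [hF.tail hθ hρ] with n hn
  simpa using hn {n} (by simp)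

theorem goodA (hF : Admissible F) {β γ : Type*} {m : Mean X} {ω : X → β} {h0 : ℝ}
    (hm : MME G m ω h0) (hω : FR ω) {P : X → γ} (hP : FR P) (hd : Det P ω) (s0 : ℝ) {ρ : ℝ}
    (hρ : 0 < ρ) : ∀ᶠ M in atTop, ∀ N' : ℕ, ∃ Good : Set X, m.μ Goodᶜ ≤ ρ ∧ ∀ y ∈ Good, ∀ n ≤ N',
      (F M).card ≤ (F n).card → y ∉ heavy m ω (F n) s0 →
        m.μ ({z | nm P (F M) z = nm P (F M) y} ∩ {z | nm ω (F n) z = nm ω (F n) y}) ≤
          exp ((1 - s0) * (F n).card + (h0 + 3) * (F M).card + 1) * m.pr (nm P (F M)) y := by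
  classical
  have h00 := hm.nonneg
  obtain ⟨hp, hp0, hlow, hup⟩ := hm.inv.rate hm.total hP
  set δ : ℝ := min 1 (ρ / 3 / (hp + 2)) with hδ
  have δ0 : 0 < δ := lt_min one_pos (by positivity)
  have δ1 : δ ≤ 1 := min_le_left _ _
  have δ2 : δ * (hp + 2) ≤ ρ / 3 := by
    rw [← le_div_iff₀ (by positivity)]; exact min_le_right _ _
  obtain ⟨K1, hK1⟩ := hup δ δ0
  obtain ⟨K2, hK2⟩ := hm.cnt_le hω (δ := 1 / (h0 + 2)) (by positivity)
  filter_upwards [hF.mul_le K1 δ0, hF.mul_le K2 (δ := 1 / (h0 + 2)) (by positivity),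
    hF.tendsto_card.eventually (hF.tail_size one_pos (ρ := ρ / 3) (by positivity)),
    exp_neg_eventually hF one_pos (ρ := ρ / 3) (by positivity)] with M k1 k2 k3 k4 N'
  have f0 := hF.card_pos M
  set E := (Finset.range (N' + 1)).biUnion F ∪ F M with hE
  set f := nm P (F M) with hf
  set gE := nm ω E with hgE
  have Ff : FR f := FR_nm hP _
  have Fg : FR gE := FR_nm hω _
  set J := (Finset.range (N' + 1)).filter (fun n => (F M).card ≤ (F n).card) with hJ
  set B1 : ℕ → Set X := fun n => {x | exp (F n).card * (m.pr (nm ω (F M ∪ F n)) x *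
    m.pr (fun y => (f y, gE y)) x) < m.pr (fun y => (f y, nm ω (F M ∪ F n) y)) x * m.pr gE x}
    with hB1
  set B2 := {x | exp ((F M).card + 1) * (m.pr f x * m.pr gE x) ≤
      m.pr (fun y => (f y, gE y)) x * m.pr (nm ω (F M)) x} with hB2
  set B3 := {x | m.pr (nm ω (F M)) x ≤ exp (-(h0 + 2) * (F M).card)} with hB3
  have m1 : m.μ (⋃ n ∈ J, B1 n) ≤ ρ / 3 := by
    refine (m.μ_biUnion_le _ _).trans (le_trans (Finset.sum_le_sum (fun n hn => ?_))
      (k3 J (fun n hn => by exact_mod_cast (Finset.mem_filter.1 hn).2)))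
    rw [neg_one_mul]
    exact m.lr_markov hm.total Ff Fg (nm_det (det_refl ω) (Finset.union_subset
      Finset.subset_union_right ((Finset.subset_biUnion_of_mem F
        (Finset.mem_filter.1 hn).1).trans Finset.subset_union_left))) _
  have m2 : m.μ B2 ≤ ρ / 3 := by
    have e1 := m.cmi_markov hm.total Ff Fg (nm_det (det_refl ω) Finset.subset_union_right)
      (nm_det hd (Finset.Subset.refl _)) (F M).card
    have e2 := hm.cond_low hF hω hP hlow (F M) E
    have e3 := hm.low (F M)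
    have e4 := hK1 (F M)
    have e5 := mul_le_mul_of_nonneg_left k1 (add_nonneg hp0 δ0.le)
    have e6 := mul_le_mul_of_nonneg_right δ2 f0.le
    have e7 := mul_le_mul_of_nonneg_right (mul_le_mul_of_nonneg_left δ1 δ0.le) f0.le
    refine le_of_mul_le_mul_left (e1.trans ?_) f0
    linarith
  have m3 : m.μ B3 ≤ ρ / 3 := by
    refine (m.μ_le_cnt (FR_nm hω (F M)) B3 (b := exp (-(h0 + 2) * (F M).card))
      (fun x hx => (m.μ_mono inter_subset_right).trans hx)).trans (le_trans ?_ k4)
    have e1 : (cnt (nm ω (F M)) B3 : ℝ) ≤ exp ((h0 + 1) * (F M).card) := by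
      refine le_trans (by exact_mod_cast cnt_mono (FR_nm hω _) (subset_univ _))
        ((hK2 (F M)).trans (exp_le_exp.2 ?_))
      refine (mul_le_mul_of_nonneg_left k2 (by positivity)).trans ?_
      rw [← mul_assoc]
      refine mul_le_mul_of_nonneg_right ?_ f0.le
      have e2 : 1 / (h0 + 2) * (h0 + 2) = 1 := by field_simp
      have e3 : 1 / (h0 + 2) ≤ 1 := by rw [div_le_one (by positivity)]; linarith
      have e4 : 0 < 1 / (h0 + 2) := by positivity
      nlinarith
    refine (mul_le_mul_of_nonneg_right e1 (exp_pos _).le).trans (le_of_eq ?_)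
    rw [← exp_add]; congr 1; ring
  refine ⟨((⋃ n ∈ J, B1 n) ∪ B2 ∪ B3 ∪ {x | m.pr (fun y => (f y, gE y)) x = 0})ᶜ, ?_, ?_⟩
  · rw [compl_compl]
    linarith [m.μ_union_le ((⋃ n ∈ J, B1 n) ∪ B2 ∪ B3) {x | m.pr (fun y => (f y, gE y)) x = 0},
      m.μ_union_le ((⋃ n ∈ J, B1 n) ∪ B2) B3, m.μ_union_le (⋃ n ∈ J, B1 n) B2,
      m.null_pr (FR.prod Ff Fg)]
  · intro y hy n hn hMn hh
    simp only [mem_compl_iff, mem_union, not_or, mem_iUnion, not_exists] at hy
    obtain ⟨⟨⟨y1, y2⟩, y3⟩, y4⟩ := hy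
    have z0 := y1 n (Finset.mem_filter.2 ⟨Finset.mem_range.2 (by omega), hMn⟩)
    simp only [hB1, hB2, hB3, heavy, mem_ofPred_eq] at z0 y2 y3 hh
    have z1 := not_lt.1 z0
    have z2 := (not_le.1 y2).le
    have z3 := (not_le.1 y3).le
    have z4 := m.pr_pos y4
    have z5 : 0 < m.pr gE y := z4.trans_le (m.pr_mono (fun a b e => (Prod.mk.inj e).2) y)
    have z6 : m.pr (nm ω (F M ∪ F n)) y ≤ exp (-s0 * (F n).card) :=
      (m.pr_mono (nm_det (det_refl ω) Finset.subset_union_right) y).trans (not_le.1 hh).le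
    refine le_trans (m.μ_mono (t := {z | (f z, nm ω (F M ∪ F n) z) = (f y, nm ω (F M ∪ F n) y)})
      ?_) ?_
    · rintro z ⟨h1, h2⟩
      refine Prod.ext h1 (nm_eq_iff.2 (fun g hg => ?_))
      rcases Finset.mem_union.1 hg with hg | hg
      · exact hd _ _ (nm_eq_iff.1 h1 g hg)
      · exact nm_eq_iff.1 h2 g hg
    change m.pr (fun y => (f y, nm ω (F M ∪ F n) y)) y ≤ _
    have q0 := m.pr_nonneg (fun y => (f y, nm ω (F M ∪ F n) y)) y
    refine le_of_mul_le_mul_right ?_ (mul_pos z5 (exp_pos (-(h0 + 2) * (F M).card)))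
    calc _ ≤ (m.pr (fun y => (f y, nm ω (F M ∪ F n) y)) y * m.pr gE y) * m.pr (nm ω (F M)) y := by
          rw [mul_assoc]; gcongr
      _ ≤ (exp (F n).card * (exp (-s0 * (F n).card) * m.pr (fun y => (f y, gE y)) y)) *
          m.pr (nm ω (F M)) y := by
          refine mul_le_mul_of_nonneg_right (z1.trans ?_) (m.pr_nonneg _ _)
          gcongr
      _ = exp (F n).card * exp (-s0 * (F n).card) *
          (m.pr (fun y => (f y, gE y)) y * m.pr (nm ω (F M)) y) := by ring
      _ ≤ exp (F n).card * exp (-s0 * (F n).card) *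
          (exp ((F M).card + 1) * (m.pr f y * m.pr gE y)) := by gcongr
      _ = _ := by
          have : exp ((1 - s0) * (F n).card + (h0 + 3) * (F M).card + 1) *
              exp (-(h0 + 2) * (F M).card) =
              exp (F n).card * exp (-s0 * (F n).card) * exp ((F M).card + 1) := by
            simp only [← exp_add]; congr 1; ring
          linear_combination (-(m.pr f y * m.pr gE y)) * this

variable {A : Type*} [Finite A]

/-- the energy up to a horizon -/
noncomputable def enS (ω : X → Option A) (ι : X → A) (F : ℕ → Finset G) (s : ℝ) (N N' : ℕ)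
    (ν ν' : Mean X) : ℝ :=
  ∑ n ∈ Finset.Icc N N', exp (s * (F n).card) * en ω ι (F n) ν ν'

lemma enS_wsum {ω : X → Option A} {ι : X → A} {s : ℝ} {N N' : ℕ} {κ : Type*} (J : Finset κ)
    (w : κ → ℝ) (hw : ∀ i, 0 ≤ w i) (ν : κ → Mean X) :
    enS ω ι F s N N' (Mean.wsum J w hw ν) (Mean.wsum J w hw ν) =
      ∑ i ∈ J, ∑ j ∈ J, w i * w j * enS ω ι F s N N' (ν i) (ν j) := by
  simp only [enS, en_wsum, Finset.mul_sum]
  rw [Finset.sum_comm]
  refine Finset.sum_congr rfl (fun i _ => ?_)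
  rw [Finset.sum_comm]
  exact Finset.sum_congr rfl (fun j _ => Finset.sum_congr rfl (fun n _ => by ring))

lemma enS_dom {ω : X → Option A} {ι : X → A} {s : ℝ} {N N' : ℕ} {ν ν' : Mean X} {c : ℝ}
    (hc : 0 ≤ c) (h : Dom ν' c ν) : enS ω ι F s N N' ν' ν' ≤ c ^ 2 * enS ω ι F s N N' ν ν := by
  simp only [enS, Finset.mul_sum]
  refine Finset.sum_le_sum (fun n _ => ?_)
  rw [mul_left_comm]
  exact mul_le_mul_of_nonneg_left (en_dom _ hc h) (exp_pos _).le

lemma enS_nonneg {ω : X → Option A} {ι : X → A} {s : ℝ} {N N' : ℕ} (ν ν' : Mean X) :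
    0 ≤ enS ω ι F s N N' ν ν' :=
  Finset.sum_nonneg (fun _ _ => mul_nonneg (exp_pos _).le (en_nonneg _ _ _))

theorem sampleA (hF : Admissible F) {γ : Type*} {m : Mean X} {ω : X → Option A} (ι : X → A)
    {h0 : ℝ} (hm : MME G m ω h0) {P : X → γ} (hP : FR P) (hd : Det P ω) {s s0 η θ h : ℝ}
    (hs : 0 ≤ s) (hη : 0 < η) (hθ : 0 < θ) (h1 : (s + θ) * (1 + η) ≤ h - θ)
    (h2 : h0 + 4 ≤ (s0 - s - 3) * (1 + η)) {N : ℕ} {ν : Mean X} (n1 : ν.μ univ = 1) {c : ℝ}
    (hc : 0 < c) (n2 : Dom ν c m) (n3 : ∀ n, N ≤ n → ν.μ (heavy m ω (F n) s0) = 0) {ρ : ℝ}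
    (hρ : 0 < ρ) (hρ1 : ρ < 1) : ∀ᶠ M in atTop, ∃ (c' : ℝ) (k : ℕ), 0 < c' ∧ 0 < k ∧
      (k : ℝ) ≤ exp (h * (F M).card) ∧ ∀ N', ∃ ν' : Mean X, ν'.μ univ = 1 ∧ Dom ν' c' ν ∧
        (∀ v, ν'.μ {x | nm P (F M) x = v} = 0 ∨ 1 / (k : ℝ) ≤ ν'.μ {x | nm P (F M) x = v}) ∧
        enS ω ι F s N N' ν' ν' ≤ (1 / (1 - ρ)) ^ 2 * enS ω ι F s N N' ν ν + ρ := by
  classical
  have hω : FR ω := FR.of_finite _
  have h00 := hm.nonneg
  obtain ⟨S1, S10, hS1⟩ := hF.sum_bound hθ
  obtain ⟨S2, S20, hS2⟩ := hF.sum_bound one_pos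
  have hh : θ < h := by nlinarith
  filter_upwards [goodA hF hm hω hP hd s0 (ρ := ρ / (2 * c)) (by positivity),
    exp_neg_eventually hF one_pos (half_pos hρ),
    exp_neg_eventually hF hθ (ρ := ρ / (2 * (S1 + c * exp 1 * S2))) (by positivity)]
    with M k1 k2 k3
  have f0 := hF.card_pos M
  set f := nm P (F M) with hf
  have Ff : FR f := FR_nm hP _
  obtain ⟨μ0, μ00, hμ0⟩ : ∃ μ0 : ℝ, 0 < μ0 ∧ ∀ v, 0 < m.μ {x | f x = v} → μ0 ≤ m.μ {x | f x = v} := by
    obtain ⟨V, -, hV⟩ := m.pos_values Ff univ (b := 1)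
      (fun x _ => (m.μ_mono (subset_univ _)).trans hm.total.le)
    have hne : (Ff.toFinset.filter (fun v => 0 < m.μ {x | f x = v})).Nonempty := by
      by_contra hcon
      rw [Finset.not_nonempty_iff_eq_empty, Finset.filter_eq_empty_iff] at hcon
      have := m.sum_cells' Ff
      rw [Finset.sum_eq_zero (fun v hv => le_antisymm (not_lt.1 (hcon hv)) (m.μ_nonneg _)),
        hm.total] at this
      exact zero_ne_one this
    obtain ⟨v0, hv0, hmin⟩ := Finset.exists_min_image _ (fun v => m.μ {x | f x = v}) hne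
    refine ⟨_, (Finset.mem_filter.1 hv0).2, fun v hv => hmin v (Finset.mem_filter.2 ⟨?_, hv⟩)⟩
    obtain ⟨x, hx⟩ := m.nonempty_of_pos hv
    exact (Set.Finite.mem_toFinset _).2 ⟨x, hx⟩
  set k := ⌊exp (h * (F M).card)⌋₊ with hk
  have e1 : 1 ≤ exp (h * (F M).card) := one_le_exp (by nlinarith)
  have k0 : 0 < k := Nat.floor_pos.2 e1
  have k0' : (0 : ℝ) < k := by exact_mod_cast k0
  have k4 : exp (h * (F M).card) ≤ 2 * k := by
    have := Nat.lt_floor_add_one (exp (h * (F M).card))
    have : (1 : ℝ) ≤ k := by exact_mod_cast k0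
    linarith
  refine ⟨exp (F M).card / μ0, k, by positivity, k0, Nat.floor_le (exp_pos _).le, fun N' => ?_⟩
  obtain ⟨Good, g1, g2⟩ := k1 N'
  set q : (G → Option γ) → ℝ := fun v => ν.μ (Good ∩ {x | f x = v}) with hq
  set J := Ff.toFinset.filter (fun v => exp (-1 * (F M).card) * m.μ {x | f x = v} < q v) with hJ
  have q0 : ∀ v, 0 ≤ q v := fun v => ν.μ_nonneg _
  have q1 : ∀ v ∈ J, 0 < q v := fun v hv =>
    lt_of_le_of_lt (mul_nonneg (exp_pos _).le (m.μ_nonneg _)) (Finset.mem_filter.1 hv).2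
  have q2 : ∀ v ∈ J, m.μ {x | f x = v} ≤ exp (F M).card * q v := fun v hv => by
    have := (Finset.mem_filter.1 hv).2.le
    rwa [neg_one_mul, exp_neg, ← div_eq_inv_mul, div_le_iff₀ (exp_pos _), mul_comm] at this
  set τ := ∑ v ∈ J, q v with hτ
  have τ1 : 1 - ρ ≤ τ := by
    have a1 := ν.sum_cells Ff Good
    have a2 := Finset.sum_filter_add_sum_filter_not Ff.toFinset
      (fun v => exp (-1 * (F M).card) * m.μ {x | f x = v} < q v) q
    have a3 : ∑ v ∈ Ff.toFinset.filter
        (fun v => ¬ exp (-1 * (F M).card) * m.μ {x | f x = v} < q v), q v ≤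
        exp (-1 * (F M).card) := by
      refine (Finset.sum_le_sum (fun v hv => not_lt.1 (Finset.mem_filter.1 hv).2)).trans
        ((Finset.sum_le_sum_of_subset_of_nonneg (Finset.filter_subset _ _)
          (fun _ _ _ => mul_nonneg (exp_pos _).le (m.μ_nonneg _))).trans (le_of_eq ?_))
      rw [← Finset.mul_sum, m.sum_cells' Ff, hm.total, mul_one]
    have a4 := ν.μ_compl Good
    have a5 := (n2 Goodᶜ).trans (mul_le_mul_of_nonneg_left g1 hc.le)
    have a6 : c * (ρ / (2 * c)) = ρ / 2 := by field_simp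
    change ∑ v ∈ Ff.toFinset, q v = _ at a1
    linarith
  have τ0 : 0 < τ := by linarith
  set νv : (G → Option γ) → Mean X := fun v => (ν.restr (Good ∩ {x | f x = v})).scale (q v)⁻¹
    with hνv
  have hν : ∀ v B, (νv v).μ B = (q v)⁻¹ * ν.μ (Good ∩ {x | f x = v} ∩ B) := fun v B => by
    simp only [hνv]
    rw [Mean.scale_μ _ (inv_nonneg.2 (q0 v)), Mean.restr_μ]
  have hν1 : ∀ v ∈ J, (νv v).μ univ = 1 := fun v hv => by
    rw [hν, inter_univ]; exact inv_mul_cancel₀ (q1 v hv).ne'
  obtain ⟨b, hb, hsam⟩ := sampling J (fun v => q v / τ) (fun v _ => div_nonneg (q0 v) τ0.le)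
    (by rw [← Finset.sum_div, div_self τ0.ne'])
    (fun v v' => enS ω ι F s N N' (νv v) (νv v')) k (fun _ => 0)
  refine ⟨Mean.wsum Finset.univ (fun _ => 1 / (k : ℝ)) (fun _ => by positivity) (fun i => νv (b i)),
    ?_, fun B => ?_, fun v => ?_, ?_⟩
  · rw [Mean.wsum_μ]
    simp [hν1 _ (hb _), k0'.ne']
  · rw [Mean.wsum_μ]
    refine (Finset.sum_le_card_nsmul _ _ (1 / (k : ℝ) * (exp (F M).card / μ0 * ν.μ B))
      (fun i _ => mul_le_mul_of_nonneg_left ?_ (by positivity))).trans (le_of_eq ?_)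
    · rw [hν]
      refine mul_le_mul ?_ (ν.μ_mono inter_subset_right) (ν.μ_nonneg _) (by positivity)
      have a1 := q1 _ (hb i)
      have a2 : 0 < m.μ {x | f x = b i} := by
        have := (ν.μ_mono (inter_subset_right (s := Good))).trans (n2 {x | f x = b i})
        exact (mul_pos_iff_of_pos_left hc).1 (a1.trans_le this)
      rw [← one_div, div_le_div_iff₀ a1 μ00]
      linarith [hμ0 _ a2, q2 _ (hb i)]
    · simp [k0'.ne']
  · rw [Mean.wsum_μ]
    by_cases hv : ∃ i, b i = v
    · obtain ⟨i, rfl⟩ := hv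
      right
      refine le_trans (le_of_eq ?_) (Finset.single_le_sum
        (f := fun j => 1 / (k : ℝ) * (νv (b j)).μ {x | f x = b i})
        (fun j _ => mul_nonneg (by positivity) (Mean.μ_nonneg _ _)) (Finset.mem_univ i))
      rw [hν, inter_assoc, inter_self, inv_mul_cancel₀ (q1 _ (hb i)).ne', mul_one]
    · left
      refine Finset.sum_eq_zero (fun i _ => ?_)
      have : Good ∩ {x | f x = b i} ∩ {x | f x = v} = ∅ :=
        eq_empty_of_forall_notMem (fun x hx => hv ⟨i, hx.1.2.symm.trans hx.2⟩)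
      rw [hν, this, ν.μ_empty]; simp
  · have a1 : ∑ i ∈ J, ∑ j ∈ J, q i / τ * (q j / τ) * enS ω ι F s N N' (νv i) (νv j) ≤
        (1 / (1 - ρ)) ^ 2 * enS ω ι F s N N' ν ν := by
      rw [← enS_wsum J (fun v => q v / τ) (fun v => div_nonneg (q0 v) τ0.le)]
      refine enS_dom (one_div_pos.2 (by linarith)).le (fun B => ?_)
      rw [Mean.wsum_μ]
      refine le_trans ?_ (mul_le_mul_of_nonneg_right
        (one_div_le_one_div_of_le (by linarith) τ1) (ν.μ_nonneg _))
      rw [← ν.sum_cells Ff B, Finset.mul_sum]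
      refine le_trans (Finset.sum_le_sum (fun v hv => ?_)) (Finset.sum_le_sum_of_subset_of_nonneg
        (Finset.filter_subset _ _) (fun _ _ _ => mul_nonneg (by positivity) (ν.μ_nonneg _)))
      rw [hν, ← mul_assoc, div_mul_eq_mul_div, mul_inv_cancel₀ (q1 v hv).ne']
      exact mul_le_mul_of_nonneg_left (ν.μ_mono (fun x hx => ⟨hx.2, hx.1.2⟩)) (by positivity)
    have a2 : ∀ v ∈ J, enS ω ι F s N N' (νv v) (νv v) ≤
        exp ((h - θ) * (F M).card) * (S1 + c * exp 1 * S2) := by
      intro v hv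
      have b1 : ∀ n ∈ Finset.Icc N N', exp (s * (F n).card) * en ω ι (F n) (νv v) (νv v) ≤
          exp ((h - θ) * (F M).card) * exp (-θ * (F n).card) +
            c * exp 1 * exp (-1 * (F n).card) := by
        intro n hn
        rw [Finset.mem_Icc] at hn
        have n0 := hF.card_pos n
        rcases le_total ((F n).card : ℝ) ((1 + η) * (F M).card) with hl | hl
        · have := en_le (ω := ω) (ι := ι) (F n) (hν1 v hv) (ν' := νv v) (b := 1)
            (fun x => ((νv v).μ_mono (subset_univ _)).trans (hν1 v hv).le)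
          have c1 : exp (s * (F n).card) ≤ exp ((h - θ) * (F M).card) * exp (-θ * (F n).card) := by
            rw [← exp_add]
            apply exp_le_exp.2
            nlinarith [mul_le_mul_of_nonneg_left hl (add_nonneg hs hθ.le),
              mul_le_mul_of_nonneg_right h1 f0.le]
          have c2 := mul_le_mul_of_nonneg_left this (exp_pos (s * (F n).card)).le
          have c3 : 0 < c * exp 1 * exp (-1 * (F n).card) := by positivity
          linarith
        · have := en_le (ω := ω) (ι := ι) (F n) (hν1 v hv) (ν' := νv v)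
            ((νv v).μ_nb_le ω ι (F n) (b := c * exp ((1 - s0) * (F n).card +
              (h0 + 4) * (F M).card + 1)) (fun y => by
              unfold Mean.pr
              rw [hν, ← div_eq_inv_mul, div_le_iff₀ (q1 v hv)]
              rcases ((Good ∩ {x | f x = v} ∩ {z | nm ω (F n) z = nm ω (F n) y}) \
                heavy m ω (F n) s0).eq_empty_or_nonempty with e | ⟨z, ⟨⟨z1, z2⟩, z3⟩, z4⟩
              · rw [sdiff_eq_empty] at e
                refine ((ν.μ_mono e).trans (n3 n hn.1).le).trans ?_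
                have := q0 v
                positivity
              have d1 := g2 z z1 n hn.2 (by
                have : ((F M).card : ℝ) ≤ (F n).card := by nlinarith
                exact_mod_cast this) z4
              have d2 : m.pr f z ≤ exp (F M).card * q v := by
                unfold Mean.pr; rw [show f z = v from z2]; exact q2 v hv
              refine (ν.μ_mono (t := {x | f x = f z} ∩ {x | nm ω (F n) x = nm ω (F n) z})
                (fun x hx => ⟨hx.1.2.trans z2.symm, hx.2.trans z3.symm⟩)).trans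
                ((n2 _).trans ?_)
              rw [mul_assoc]
              refine mul_le_mul_of_nonneg_left (d1.trans ((mul_le_mul_of_nonneg_left d2
                (exp_pos _).le).trans (le_of_eq ?_))) hc.le
              rw [← mul_assoc, ← exp_add]
              congr 2; ring))
          refine (mul_le_mul_of_nonneg_left this (exp_pos _).le).trans (le_add_of_nonneg_of_le
            (by positivity) ?_)
          rw [mul_left_comm (exp _) c, mul_left_comm (exp _) c, mul_assoc, ← exp_add, ← exp_add,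
            ← exp_add]
          refine mul_le_mul_of_nonneg_left (exp_le_exp.2 ?_) hc.le
          have c1 : 0 ≤ s0 - s - 3 := by
            by_contra hneg
            nlinarith
          nlinarith [mul_le_mul_of_nonneg_left hl c1, mul_le_mul_of_nonneg_right h2 f0.le]
      refine (Finset.sum_le_sum b1).trans ?_
      rw [Finset.sum_add_distrib, ← Finset.mul_sum, ← Finset.mul_sum, mul_add]
      have b2 : 1 ≤ exp ((h - θ) * (F M).card) := one_le_exp (by nlinarith)
      have b3 : 0 < c * exp 1 := by positivity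
      refine add_le_add (mul_le_mul_of_nonneg_left (hS1 _) (exp_pos _).le)
        ((mul_le_mul_of_nonneg_left (hS2 _) b3.le).trans (le_mul_of_one_le_left (by positivity) b2))
    have a3 : ∑ i ∈ J, q i / τ * enS ω ι F s N N' (νv i) (νv i) ≤ ρ * k := by
      refine (Finset.sum_le_sum (fun v hv => mul_le_mul_of_nonneg_left (a2 v hv)
        (div_nonneg (q0 v) τ0.le))).trans ?_
      rw [← Finset.sum_mul, ← Finset.sum_div, div_self τ0.ne', one_mul]
      rw [le_div_iff₀ (by positivity)] at k3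
      rw [sub_mul, sub_eq_add_neg, exp_add, ← neg_mul]
      have := mul_le_mul k4 k3 (by positivity) (by positivity)
      linarith
    rw [enS_wsum]
    simp only [← Finset.mul_sum]
    simp only [Finset.sum_const_zero, mul_zero, add_zero] at hsam
    have a4 : 0 ≤ (1 / (1 - ρ)) ^ 2 * enS ω ι F s N N' ν ν :=
      mul_nonneg (sq_nonneg _) (enS_nonneg _ _)
    have a5 : (1 : ℝ) ≤ k := by exact_mod_cast k0
    rw [div_mul_div_comm, one_mul, div_mul_eq_mul_div, one_mul, div_le_iff₀ (by positivity)]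
    have a6 := mul_le_mul_of_nonneg_left a1 (mul_nonneg k0'.le (sub_nonneg.2 a5))
    have a7 := mul_le_mul_of_nonneg_left a3 k0'.le
    nlinarith

end Pool.Agent.P.MP_4cf0b2_an
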