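import Mathlib
import Pool.Agent.P.MP_4cf0b2_an.Coarse
import Pool.Agent.P.MP_4cf0b2_an.StageA
import Pool.Agent.P.MP_4cf0b2_an.Ent

set_option autoImplicit false
set_option linter.unusedSectionVars false

namespace Pool.Agent.P.MP_4cf0b2_an

open Set Filter Real
open scoped Topology Pointwise ENNReal NNReal

section

variable {G X : Type*} [Group G] [DecidableEq G] [MulAction G X] {F : ℕ → Finset G}
  {A : Type*} [Finite A]

lemma enS_mono {ω : X → Option A} {ι : X → A} {s : ℝ} {N N1 N2 : ℕ} (h : N1 ≤ N2) (ν : Mean X) :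
    enS ω ι F s N N1 ν ν ≤ enS ω ι F s N N2 ν ν :=
  Finset.sum_le_sum_of_subset_of_nonneg (Finset.Icc_subset_Icc_right h)
    (fun _ _ _ => mul_nonneg (exp_pos _).le (en_nonneg _ _ _))

theorem stepA (hF : Admissible F) {γ : Type*} {m : Mean X} {ω : X → Option A} (ι : X → A)
    {h0 : ℝ} (hm : MME G m ω h0) {P : X → γ} (hP : FR P) (hd : Det P ω) {s s0 η θ h : ℝ}
    (hs : 0 ≤ s) (hη : 0 < η) (hθ : 0 < θ) (h1 : (s + θ) * (1 + η) ≤ h - θ)
    (h2 : h0 + 4 ≤ (s0 - s - 3) * (1 + η)) {N : ℕ} {ν : Mean X} (n1 : ν.μ univ = 1) {c : ℝ}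
    (hc : 0 < c) (n2 : Dom ν c m) (n3 : ∀ n, N ≤ n → ν.μ (heavy m ω (F n) s0) = 0) {W W' : ℝ}
    (hW : W < W') (n4 : ∀ N', enS ω ι F s N N' ν ν ≤ W) (j : ℕ) :
    ∃ (ν' : Mean X) (c' : ℝ), ν'.μ univ = 1 ∧ 0 < c' ∧ Dom ν' c' ν ∧
      (∀ N', enS ω ι F s N N' ν' ν' ≤ W') ∧ ∃ M, j ≤ M ∧ ∃ Y : Set X, ν'.μ Yᶜ = 0 ∧
        (cnt (nm P (F M)) Y : ℝ) ≤ exp (h * (F M).card) := by
  have t1 : Tendsto (fun ρ : ℝ => (1 / (1 - ρ)) ^ 2 * W + ρ) (𝓝[>] 0)
      (𝓝 ((1 / (1 - 0)) ^ 2 * W + 0)) :=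
    (ContinuousAt.tendsto (by fun_prop (disch := norm_num))).mono_left nhdsWithin_le_nhds
  obtain ⟨ρ, r1, r2⟩ := ((t1.eventually (gt_mem_nhds (by simpa using hW))).and
    (Ioo_mem_nhdsGT one_pos)).exists
  obtain ⟨M, ⟨c', k, c0, k0, k1, hν⟩, hM⟩ := ((sampleA hF ι hm hP hd hs hη hθ h1 h2 n1 hc n2 n3
    r2.1 r2.2).and (eventually_ge_atTop j)).exists
  choose νn a1 a2 a3 a4 using hν
  obtain ⟨ν', hl⟩ := Mean.exists_lim νn (fun n => (a1 n).le)
  have hl' : ∀ B, Tendsto (fun n => (νn n).μ B) (hyperfilter ℕ) (𝓝 (ν'.μ B)) :=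
    fun B => hl _ (FR.ind B)
  have b1 : ν'.μ univ = 1 := by
    have := hl' univ
    simp only [a1] at this
    exact tendsto_nhds_unique this tendsto_const_nhds
  have k0' : (0 : ℝ) < k := by exact_mod_cast k0
  refine ⟨ν', c', b1, c0, fun B => le_of_tendsto' (hl' B) (fun n => a2 n B), fun N' => ?_, M, hM,
    {x | ν'.pr (nm P (F M)) x = 0}ᶜ, ?_, ?_⟩
  · have t2 : Tendsto (fun n => enS ω ι F s N N' (νn n) (νn n)) (hyperfilter ℕ)
        (𝓝 (enS ω ι F s N N' ν' ν')) :=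
      tendsto_finsetSum _ (fun n _ => (tendsto_en _ hl).const_mul _)
    refine le_of_tendsto t2 (Filter.Eventually.filter_mono Nat.hyperfilter_le_atTop ?_)
    filter_upwards [eventually_ge_atTop N'] with n hn
    refine (enS_mono hn _).trans ((a4 n).trans (le_trans ?_ r1.le))
    gcongr
    exact n4 n
  · rw [compl_compl]; exact ν'.null_pr (FR_nm hP _)
  · have := ν'.cnt_heavy (FR_nm hP (F M)) {x | ν'.pr (nm P (F M)) x = 0}ᶜ (b := 1 / (k : ℝ))
      (fun x hx => by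
        have hcl : IsClosed {t : ℝ | t = 0 ∨ 1 / (k : ℝ) ≤ t} :=
          (isClosed_eq continuous_id continuous_const).union isClosed_Ici
        exact (hcl.mem_of_tendsto (hl' _) (Eventually.of_forall
          (fun n => a3 n (nm P (F M) x)))).resolve_left hx)
    rw [b1, mul_one_div, div_le_one k0'] at this
    exact this.trans k1

theorem initA (hF : Admissible F) {C : ℝ} (hC : Tempered F C) {m : Mean X} {ω : X → Option A}
    (ι : X → A) {h0 : ℝ} (hm : MME G m ω h0) {ε s : ℝ} (hε : 0 < ε) (hε1 : ε ≤ 1)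
    (hbig : 12 * (C + 1 / ε) + 2 ≤ ε * h0) (hs : s + 2 ≤ (1 - 2 * ε) * h0) :
    ∃ (N : ℕ) (ν : Mean X) (W : ℝ), 0 < W ∧ ν.μ univ = 1 ∧ Dom ν 2 m ∧
      (∀ n, N ≤ n → ν.μ (heavy m ω (F n) ((1 - 2 * ε) * h0)) = 0) ∧
      ∀ N', enS ω ι F s N N' ν ν ≤ W := by
  obtain ⟨N, hN⟩ := (smb hF hC hm (FR.of_finite _) hε hε1 hbig).exists
  obtain ⟨S, S0, hS⟩ := hF.sum_bound one_pos
  set s0 := (1 - 2 * ε) * h0 with hs0
  set Gd : ℕ → Set X := fun N' => (⋃ n ∈ Finset.Icc N N', heavy m ω (F n) s0)ᶜ with hGd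
  have g1 : ∀ n, 1 / 2 ≤ m.μ (Gd n) := fun n => by
    simp only [hGd]
    rw [m.μ_compl, hm.total]; linarith [hN n]
  set νn : ℕ → Mean X := fun n => (m.restr (Gd n)).scale (m.μ (Gd n))⁻¹ with hνn
  have hν : ∀ n B, (νn n).μ B = (m.μ (Gd n))⁻¹ * m.μ (Gd n ∩ B) := fun n B => by
    simp only [hνn]
    rw [Mean.scale_μ _ (inv_nonneg.2 (m.μ_nonneg _)), Mean.restr_μ]
  have a1 : ∀ n, (νn n).μ univ = 1 := fun n => by
    rw [hν, inter_univ]; exact inv_mul_cancel₀ (by linarith [g1 n])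
  obtain ⟨ν, hl⟩ := Mean.exists_lim νn (fun n => (a1 n).le)
  have hl' : ∀ B, Tendsto (fun n => (νn n).μ B) (hyperfilter ℕ) (𝓝 (ν.μ B)) :=
    fun B => hl _ (FR.ind B)
  have b1 : ν.μ univ = 1 := by
    have := hl' univ
    simp only [a1] at this
    exact tendsto_nhds_unique this tendsto_const_nhds
  have b2 : Dom ν 2 m := fun B => le_of_tendsto' (hl' B) (fun n => by
    rw [hν]
    refine mul_le_mul ?_ (m.μ_mono inter_subset_right) (m.μ_nonneg _) (by norm_num)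
    rw [inv_le_comm₀ (by linarith [g1 n]) (by norm_num)]
    linarith [g1 n])
  have b3 : ∀ n, N ≤ n → ν.μ (heavy m ω (F n) s0) = 0 := fun n hn => by
    refine le_antisymm (le_of_tendsto (hl' _)
      (Filter.Eventually.filter_mono Nat.hyperfilter_le_atTop ?_)) (ν.μ_nonneg _)
    filter_upwards [eventually_ge_atTop n] with k hk
    have : Gd k ∩ heavy m ω (F n) s0 = ∅ := eq_empty_of_forall_notMem (fun x hx =>
      hx.1 (mem_iUnion₂.2 ⟨n, Finset.mem_Icc.2 ⟨hn, hk⟩, hx.2⟩))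
    rw [hν, this, m.μ_empty, mul_zero]
  refine ⟨N, ν, 2 * S, by positivity, b1, b2, b3, fun N' => ?_⟩
  refine le_trans (Finset.sum_le_sum (fun n hn => ?_))
    ((Finset.mul_sum _ _ _).symm.le.trans (mul_le_mul_of_nonneg_left (hS (Finset.Icc N N')) zero_le_two))
  have := en_le (ω := ω) (ι := ι) (F n) b1 (ν.μ_nb_le ω ι (F n)
    (b := 2 * exp (-s0 * (F n).card)) (fun y => by
      by_cases hy : y ∈ heavy m ω (F n) s0
      · refine le_trans ((ν.μ_mono (fun z hz => ?_)).trans (b3 n (Finset.mem_Icc.1 hn).1).le)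
          (by positivity)
        have hz' : nm ω (F n) z = nm ω (F n) y := hz
        simpa only [heavy, Mean.pr, mem_ofPred_eq, hz'] using hy
      · exact (b2 _).trans (mul_le_mul_of_nonneg_left (not_le.1 hy).le zero_le_two)))
  refine (mul_le_mul_of_nonneg_left this (exp_pos _).le).trans ?_
  rw [mul_left_comm (exp _) 2, mul_left_comm (exp _) 2, ← exp_add, ← exp_add]
  refine mul_le_mul_of_nonneg_left (exp_le_exp.2 ?_) zero_le_two
  nlinarith [hF.card_pos n]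

end

variable {G X : Type*} [Group G] [DecidableEq G] [MulAction G X] [MetricSpace X]
  {F : ℕ → Finset G}

lemma energy_cover {A : Type*} [Finite A] {ω : X → Option A} {ι : X → A} {ε : ℝ}
    (hsep : ∀ x y, dist x y < 2 * ε → ω y = none ∨ ω y = some (ι x)) {ν : Mean X}
    (n1 : ν.μ univ = 1) {s W : ℝ} (hW : 0 < W) {N : ℕ} (n4 : ∀ N', enS ω ι F s N N' ν ν ≤ W)
    (J : Finset ℕ) (x : ℕ → X) (n : ℕ → ℕ) (hn : ∀ i ∈ J, N ≤ n i)
    (hO : ν.μ (⋃ i ∈ J, bowenBall (F (n i)) (x i) ε)ᶜ = 0) :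
    1 / (4 * W) ≤ ∑ i ∈ J, exp (-s * (F (n i)).card) := by
  set T := ⋃ k ∈ Finset.Icc N (J.sup n),
    {y | 2 * W * exp (-s * (F k).card) ≤ ν.μ (nb ω ι (F k) y)} with hT
  have a1 : 2 * W * ν.μ T ≤ W := by
    refine le_trans ?_ (n4 (J.sup n))
    refine (mul_le_mul_of_nonneg_left (ν.μ_biUnion_le _ _) (by positivity)).trans ?_
    rw [Finset.mul_sum]
    refine Finset.sum_le_sum (fun k _ => ?_)
    have := ν.markov ((FR_nb ω ι (F k)).comp ν.μ) ν.μ_empty (fun _ _ => ν.μ_nonneg _)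
      (t := 2 * W * exp (-s * (F k).card))
      (B := {y | 2 * W * exp (-s * (F k).card) ≤ ν.μ (nb ω ι (F k) y)}) (fun y hy _ => hy)
    refine le_trans (le_of_eq ?_) (mul_le_mul_of_nonneg_left this (exp_pos _).le)
    have e : exp (s * (F k).card) * exp (-s * (F k).card) = 1 := by rw [← exp_add]; simp
    linear_combination (-(2 * W * ν.μ {y | 2 * W * exp (-s * (F k).card) ≤
      ν.μ (nb ω ι (F k) y)})) * e
  have a2 : ν.μ univ ≤ ν.μ (T ∪ ⋃ i ∈ J, bowenBall (F (n i)) (x i) ε \ T) :=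
    ν.μ_le_add_null hO (fun y _ => by
      by_cases h1 : y ∈ T
      · exact Or.inl (Or.inl h1)
      by_cases h2 : y ∈ ⋃ i ∈ J, bowenBall (F (n i)) (x i) ε
      · obtain ⟨i, hi, h2⟩ := mem_iUnion₂.1 h2
        exact Or.inl (Or.inr (mem_iUnion₂.2 ⟨i, hi, h2, h1⟩))
      · exact Or.inr h2)
  have a3 : ν.μ (⋃ i ∈ J, bowenBall (F (n i)) (x i) ε \ T) ≤
      2 * W * ∑ i ∈ J, exp (-s * (F (n i)).card) := by
    rw [Finset.mul_sum]
    refine (ν.μ_biUnion_le _ _).trans (Finset.sum_le_sum (fun i hi => ?_))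
    rcases (bowenBall (F (n i)) (x i) ε \ T).eq_empty_or_nonempty with e | ⟨y, hy1, hy2⟩
    · rw [e, ν.μ_empty]; positivity
    · have b1 : ¬ 2 * W * exp (-s * (F (n i)).card) ≤ ν.μ (nb ω ι (F (n i)) y) := fun h =>
        hy2 (mem_iUnion₂.2 ⟨n i, Finset.mem_Icc.2 ⟨hn i hi, Finset.le_sup hi⟩, h⟩)
      refine (ν.μ_mono (t := nb ω ι (F (n i)) y) (fun z hz g hg => hsep _ _ ?_)).trans
        (not_le.1 b1).le
      linarith [hy1 g hg, hz.1 g hg, dist_triangle_left (g • y) (g • z) (g • x i)]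
  rw [div_le_iff₀ (by positivity)]
  have a4 := ν.μ_union_le T (⋃ i ∈ J, bowenBall (F (n i)) (x i) ε \ T)
  have a5 : ν.μ T ≤ 1 / 2 := by
    by_contra hcon
    nlinarith
  linarith

theorem exists_bowen_approx [CompactSpace X] [ContinuousConstSMul G X] (hF : Admissible F)
    (htop : hTop X F = ⊤) {s h : ℝ≥0} (hsh : s < h) :
    ∃ Z : Set X, Z.Nonempty ∧ Thin F Z h ∧ (s : ℝ≥0∞) ≤ bowenTop F Z := by
  classical
  have hX := nonempty_of_hTop htop
  obtain ⟨C, hC⟩ : ∃ C, Tempered F C := hF.2.2.1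
  have hs : (0 : ℝ) ≤ s := s.2
  have hsh' : (s : ℝ) < h := hsh
  set θ : ℝ := (h - s) / 3 with hθ
  have θ0 : 0 < θ := by linarith
  set η : ℝ := θ / (s + θ) with hη
  have η0 : 0 < η := by positivity
  have h1 : (s + θ) * (1 + η) ≤ h - θ := by
    have : (s + θ) * η = θ := by rw [hη]; field_simp
    linarith
  set e : ℝ := η / (4 * (1 + η)) with he
  have e0 : 0 < e := by positivity
  have e1 : e * (1 + η) = η / 4 := by rw [he]; field_simp
  have e2 : e ≤ 1 := by nlinarith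
  obtain ⟨r, ω, ι, ε, m, h0, hε, hsep, hm, hbig⟩ := exists_coarse hF htop
    (max ((12 * (C + 1 / e) + 2) / e) (2 * (4 + (s + 3) * (1 + η)) / η))
  have b1 : 12 * (C + 1 / e) + 2 ≤ e * h0 := by
    have := (le_max_left _ _).trans hbig
    rwa [div_le_iff₀ e0, mul_comm h0] at this
  have h2 : h0 + 4 ≤ ((1 - 2 * e) * h0 - s - 3) * (1 + η) := by
    have := (le_max_right _ _).trans hbig
    rw [div_le_iff₀ η0] at this
    have e3 : (1 - 2 * e) * h0 * (1 + η) = h0 + h0 * η / 2 := by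
      linear_combination (-2 * h0) * e1
    linarith
  obtain ⟨N, ν0, W, W0, n1, n2, n3, n4⟩ := initA hF hC ι hm (s := s) e0 e2 b1 (by
    have := hm.nonneg
    by_contra hcon
    nlinarith)
  choose k Q hQ using fun j : ℕ => exists_fine (X := X) (ρ := 1 / ((j : ℝ) + 1)) (by positivity)
  obtain ⟨u, -, hu⟩ := exists_seq (σ := Mean X)
    (fun j ν => ν.μ univ = 1 ∧ (∃ c, 0 < c ∧ Dom ν c m) ∧
      (∀ n, N ≤ n → ν.μ (heavy m ω (F n) ((1 - 2 * e) * h0)) = 0) ∧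
      ∀ N', enS ω ι F s N N' ν ν ≤ W + 1 - 1 / ((j : ℝ) + 1))
    (fun j ν ν' => (∃ c, Dom ν' c ν) ∧ ∃ M, j ≤ M ∧ ∃ Y : Set X, ν'.μ Yᶜ = 0 ∧
      (cnt (nm (fun x => (ω x, Q j x)) (F M)) Y : ℝ) ≤ exp (h * (F M).card))
    ν0 ⟨n1, ⟨2, two_pos, n2⟩, n3, fun N' => by simpa using n4 N'⟩ (fun j ν hν => by
      obtain ⟨a1, ⟨c, c0, a2⟩, a3, a4⟩ := hν
      obtain ⟨ν', c', d1, d2, d3, d4, d5⟩ := stepA hF ι hm (P := fun x => (ω x, Q j x))
        (FR.of_finite _) (fun x y e => (Prod.mk.inj e).1) hs η0 θ0 h1 h2 a1 c0 a2 a3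
        (W' := W + 1 - 1 / (((j + 1 : ℕ) : ℝ) + 1)) (by
          have : 1 / (((j + 1 : ℕ) : ℝ) + 1) < 1 / ((j : ℝ) + 1) :=
            one_div_lt_one_div_of_lt (by positivity) (by push_cast; linarith)
          linarith) a4 j
      exact ⟨ν', ⟨d1, ⟨c' * c, mul_pos d2 c0, d3.trans a2 d2.le⟩, fun n hn => d3.null (a3 n hn), d4⟩,
        ⟨c', d3⟩, d5⟩)
  choose M hM Y hY1 hY2 using fun j => (hu j).2.2
  have null : ∀ j B, (u j).μ B = 0 → ∀ j', j ≤ j' → (u j').μ B = 0 := by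
    intro j B hB j' hj'
    induction j', hj' using Nat.le_induction with
    | base => exact hB
    | succ j' _ ih =>
      obtain ⟨c, hc⟩ := (hu j').2.1
      exact hc.null ih
  have key : ∀ (J : Finset ℕ) (x : ℕ → X) (n : ℕ → ℕ), (∀ i ∈ J, N ≤ n i) →
      (⋂ j, closure (Y j)) ⊆ ⋃ i ∈ J, bowenBall (F (n i)) (x i) ε →
      1 / (4 * (W + 1)) ≤ ∑ i ∈ J, exp (-(s : ℝ) * (F (n i)).card) := by
    intro J x n hn hcov
    obtain ⟨t, ht⟩ := (isOpen_biUnion (fun i (_ : i ∈ J) => isOpen_bowenBall (F (n i)) (x i) ε)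
      ).isClosed_compl.isCompact.elim_finite_subfamily_closed (fun j => closure (Y j))
      (fun j => isClosed_closure) (eq_empty_of_forall_notMem (fun z hz => hz.1 (hcov hz.2)))
    refine energy_cover hsep (hu (t.sup id + 1)).1.1 (by positivity) (fun N' =>
      ((hu _).1.2.2.2 N').trans (sub_le_self _ (by positivity))) J x n hn
      (le_antisymm ?_ (Mean.μ_nonneg _ _))
    refine (Mean.μ_mono _ (t := ⋃ j ∈ t, (Y j)ᶜ) (fun z hz => ?_)).trans
      ((Mean.μ_biUnion_le _ _ _).trans (Finset.sum_eq_zero (fun j hj => null (j + 1) _ (hY1 j) _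
        (Nat.succ_le_succ (Finset.le_sup (f := id) hj)))).le)
    by_contra hcon
    simp only [mem_iUnion, mem_compl_iff, not_exists, not_not] at hcon
    exact (eq_empty_iff_forall_notMem.1 ht z)
      ⟨hz, mem_iInter₂.2 (fun j hj => subset_closure (hcon j hj))⟩
  have hne : (⋂ j, closure (Y j)).Nonempty := by
    by_contra hcon
    rw [not_nonempty_iff_eq_empty] at hcon
    have := key ∅ (fun _ => hX.some) (fun _ => 0) (by simp) (by simp [hcon])
    rw [Finset.sum_empty] at this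
    have : 0 < 1 / (4 * (W + 1)) := by positivity
    linarith
  refine ⟨⋂ j, closure (Y j), hne, fun ρ hρ N1 => ?_, le_bowenTop
    (isClosed_iInter (fun j => isClosed_closure)).isCompact hε (by positivity) key hne⟩
  obtain ⟨j0, hj0⟩ := exists_nat_one_div_lt hρ
  obtain ⟨S, hS1, hS2⟩ := cover_closure (G := G) (P := fun x => (ω x, Q (max j0 N1) x))
    (FR.of_finite _) (fun x y e => hQ _ x y (Prod.mk.inj e).2) (F (M (max j0 N1))) (Y (max j0 N1))
  refine ⟨M (max j0 N1), (le_max_right _ _).trans (hM _), S,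
    le_trans (by exact_mod_cast hS1) (hY2 _), (iInter_subset _ (max j0 N1)).trans (hS2.trans
      (iUnion₂_mono (fun z _ y hy g hg => (hy g hg).trans_lt (lt_of_le_of_lt ?_ hj0))))⟩
  exact one_div_le_one_div_of_le (by positivity)
    (by exact_mod_cast Nat.succ_le_succ (le_max_left j0 N1))

theorem exists_bowen [CompactSpace X] [ContinuousConstSMul G X] (hF : Admissible F)
    (htop : hTop X F = ⊤) (h : ℝ≥0) : ∃ Z : Set X, Z.Nonempty ∧ bowenTop F Z = h := by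
  obtain ⟨x⟩ := nonempty_of_hTop htop
  rcases eq_or_lt_of_le (zero_le (a := h)) with rfl | hpos
  · refine ⟨⋃ _ : ℕ, {x}, by simp, le_antisymm (bowenTop_le hF (fun _ ε hε N =>
      ⟨N, le_rfl, {x}, by simp, by simp [bowenBall, hε]⟩)) (by simp)⟩
  obtain ⟨u, -, hu1, hu2⟩ := exists_seq_strictMono_tendsto' hpos
  choose Z h1 h2 h3 using fun k => exists_bowen_approx hF htop (hu1 k).2
  refine ⟨⋃ k, Z k, (h1 0).mono (subset_iUnion Z 0), le_antisymm (bowenTop_le hF h2) ?_⟩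
  exact le_of_tendsto' (ENNReal.tendsto_coe.2 hu2)
    (fun k => (h3 k).trans (bowenTop_mono (subset_iUnion Z k)))

theorem dLowerable [CompactSpace X] [ContinuousConstSMul G X] (hF : Admissible F)
    (htop : hTop X F = ⊤) : DLowerable X F := by
  intro h _
  rcases eq_or_ne h ⊤ with rfl | hne
  · have := nonempty_of_hTop htop
    refine ⟨univ, univ_nonempty, ENNReal.eq_top_of_forall_nnreal_le (fun r => ?_)⟩
    obtain ⟨Z, -, hZ⟩ := exists_bowen hF htop r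
    exact hZ ▸ bowenTop_mono (subset_univ Z)
  · lift h to ℝ≥0 using hne
    exact exists_bowen hF htop h

end Pool.Agent.P.MP_4cf0b2_an
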