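import Mathlib
import Pool.Agent.P.MP_4cf0b2_an.Tile

set_option autoImplicit false
set_option linter.unusedSectionVars false

namespace Pool.Agent.P.MP_4cf0b2_an

open Set Filter Real
open scoped Topology Pointwise

variable {G X : Type*} [Group G] [DecidableEq G] [MulAction G X] {F : ℕ → Finset G}

lemma card_le_cnt {α : Type*} {f : X → α} (hf : FR f) {Y : Set X} {V : Finset α}
    (h : ∀ v ∈ V, ∃ x ∈ Y, f x = v) : V.card ≤ cnt f Y := by
  unfold cnt
  rw [← Set.ncard_coe_finset]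
  exact Set.ncard_le_ncard (fun v hv => h v hv) (hf.img Y)

theorem stageB (hF : Admissible F) {A γ : Type*} [Finite A] {m : Mean X} {ω : X → Option A}
    {h0 h : ℝ} (hm : MME G m ω h0) (hh : 0 ≤ h) (hbig : 4 * h + 9 ≤ h0) {P : X → γ} (hP : FR P)
    (hd : Det P ω) {η α : ℝ} (hη : 0 < η) (hα : 0 < α) :
    ∀ᶠ N in atTop, ∀ᶠ M in atTop, ∀ Y : Set X, α ≤ m.μ Y → ∃ 𝒮 : Finset (Set X),
      (∀ B ∈ 𝒮, B ⊆ Y ∧ 0 < m.μ B) ∧ (∀ n < N, cnt (nm P (F n)) (⋃ B ∈ 𝒮, B) ≤ 1) ∧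
      (∀ n, N ≤ n → n ≤ M → (cnt (nm P (F n)) (⋃ B ∈ 𝒮, B) : ℝ) ≤
        (exp (h * (F n).card) + 1) * exp (η * (F n).card)) ∧
      (𝒮.card : ℝ) ≤ exp (h * (F M).card) + 1 ∧
      ∃ n, N ≤ n ∧ ∃ 𝒯 ⊆ 𝒮, exp (h * (F n).card) ≤ 𝒯.card ∧ ∀ B ∈ 𝒯, ∀ B' ∈ 𝒯, B ≠ B' →
        ∃ g ∈ F n, ∀ x ∈ B, ∀ y ∈ B',
          ω (g • x) ≠ ω (g • y) ∧ ω (g • x) ≠ none ∧ ω (g • y) ≠ none := by
  classical
  have hω : FR ω := FR.of_finite _
  have hX : Nonempty X := by
    obtain ⟨x, -⟩ := m.nonempty_of_pos (Y := univ) (by rw [hm.total]; exact one_pos)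
    exact ⟨x⟩
  obtain ⟨T, hT⟩ := tile hF hm hω hP hd (half_pos hα)
  have a0 : 0 ≤ log (cnt P univ) := log_natCast_nonneg _
  obtain ⟨N0, hN0⟩ := eventually_atTop.1
    (hF.bdy_le T (δ := η / (log (cnt P univ) + 1)) (by positivity))
  filter_upwards [eventually_ge_atTop N0] with N hN
  filter_upwards [hT N, eventually_ge_atTop N,
    hF.tendsto_card.eventually_ge_atTop (1 - log (α / 4))] with M hM hNM hfM Y hY
  obtain ⟨Cov, t, c, Ft, hCF, c1, c2, hbad, D1, D1', D2⟩ := hM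
  set f := nm ω Cov with hf
  have Ff : FR f := FR_nm hω _
  set χ := nm (fun x => ω x = none) Cov with hχ
  have Fχ : FR χ := FR_nm (FR.of_finite _) _
  set Bad := {x | exp ((F M).card + 1 - c) * m.pr t x ≤ m.pr (fun y => (t y, f y)) x} with hBad
  have g1 : α / 2 ≤ m.μ (Y \ Bad) := by
    have := m.μ_inter_add_diff Y Bad
    have := m.μ_mono (inter_subset_right (s := Y) (t := Bad))
    linarith
  obtain ⟨x0, hx0⟩ := m.pick (FR.prod Ft Fχ) (Y \ Bad)
    (fun p => α / 4 * m.μ {y | t y = p.1} / 2 ^ Cov.card) (by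
      refine lt_of_le_of_lt (Mean.sum_pair_le Ft Fχ (fun a => α / 4 * m.μ {y | t y = a})
        (fun _ => 2 ^ Cov.card) (fun a => mul_nonneg (by positivity) (m.μ_nonneg _))
        (fun x => ?_)) ?_
      · have := (cnt_nm_le (FR.of_finite (fun x => ω x = none)) Cov {y | t y = t x}).trans
          (Nat.pow_le_pow_left (cnt_le_card _ _) _)
        rw [Fintype.card_prop] at this
        exact_mod_cast this
      · rw [← Finset.mul_sum, m.sum_cells' Ft, hm.total]
        linarith)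
  set R := (Y \ Bad) ∩ {y | (t y, χ y) = (t x0, χ x0)} with hR
  have R1 : ∀ x ∈ R, t x = t x0 := fun x hx => (Prod.mk.inj hx.2).1
  have R2 : ∀ x ∈ R, χ x = χ x0 := fun x hx => (Prod.mk.inj hx.2).2
  obtain ⟨V, hV1, hV2⟩ := m.pos_values Ff R
    (b := exp ((F M).card + 1 - c) * m.μ {y | t y = t x0}) (fun x hx => by
      have h1 : ¬ exp ((F M).card + 1 - c) * m.pr t x ≤ m.pr (fun y => (t y, f y)) x := hx.1.2
      rw [← R1 x hx]
      refine le_trans (m.μ_mono ?_) (not_le.1 h1).le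
      rintro y ⟨hy1, hy2⟩
      exact Prod.ext ((R1 y hy1).trans (R1 x hx).symm) hy2)
  have hVc : exp (h * (F M).card) ≤ V.card := by
    have p0 : 0 < m.μ {y | t y = t x0} := by
      refine lt_of_lt_of_le (lt_of_le_of_lt ?_ hx0) (m.μ_mono R1)
      have := m.μ_nonneg {y | t y = t x0}
      positivity
    have h1 : α / 4 / 2 ^ Cov.card ≤ V.card * exp ((F M).card + 1 - c) := by
      refine le_of_mul_le_mul_right ?_ p0
      have := hx0.le.trans hV2
      simp only at this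
      rw [mul_assoc]
      refine le_trans (le_of_eq ?_) this
      ring
    have h2 : (2 : ℝ) ^ Cov.card ≤ exp Cov.card := by
      have := pow_le_pow_left₀ (by norm_num : (0 : ℝ) ≤ 2) (b := exp 1)
        (by linarith [add_one_le_exp (1 : ℝ)]) Cov.card
      rwa [← exp_nat_mul, mul_one] at this
    have h3 : exp (log (α / 4) - Cov.card) ≤ α / 4 / 2 ^ Cov.card := by
      rw [exp_sub, exp_log (by positivity)]
      exact div_le_div_of_nonneg_left (by positivity) (by positivity) h2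
    refine le_of_mul_le_mul_right (le_trans ?_ (h3.trans h1)) (exp_pos _)
    rw [← exp_add]
    apply exp_le_exp.2
    have : (0 : ℝ) ≤ Cov.card := Nat.cast_nonneg _
    nlinarith
  set Z : Finset (G → Option (Option A)) → Set X := fun V' => R ∩ {x | f x ∈ V'} with hZ
  have detω : ∀ n ≤ M, ∀ x ∈ R, ∀ y ∈ R, f x = f y → nm ω (F n) x = nm ω (F n) y := by
    intro n hn x hx y hy e
    rw [nm_eq_iff]
    intro g hg
    by_cases hg' : g ∈ Cov
    · exact nm_eq_iff.1 e g hg'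
    · exact hd _ _ (D1 x y ((R1 x hx).trans (R1 y hy).symm) n hn g hg hg')
  have hcardZ : ∀ V' ⊆ V, V'.card ≤ cnt (nm ω (F M)) (Z V') := by
    intro V' hV'
    refine le_trans (card_le_cnt Ff (fun v hv => ?_))
      (cnt_det (FR_nm hω _) (fun x _ y _ e => nm_det (det_refl ω) hCF x y e))
    obtain ⟨x, hx1, hx2⟩ := m.nonempty_of_pos (hV1 v (hV' hv))
    exact ⟨x, ⟨hx1, by rw [mem_ofPred_eq, hx2]; exact hv⟩, hx2⟩
  obtain ⟨V', hV', ⟨n1, hn1, w1⟩, w2⟩ := greedy (fun n V' => (cnt (nm ω (F n)) (Z V') : ℝ))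
    (fun n => exp (h * (F n).card)) (Icc N M) (fun n _ => by simp [hZ, cnt_empty, exp_pos]) V
    (fun n hn v V' => by
      have h1 : Z (insert v V') ⊆ Z V' ∪ (R ∩ {x | f x = v}) := by
        rintro x ⟨hx1, hx2⟩
        rcases Finset.mem_insert.1 hx2 with h | h
        · exact Or.inr ⟨hx1, h⟩
        · exact Or.inl ⟨hx1, h⟩
      have h2 : cnt (nm ω (F n)) (R ∩ {x | f x = v}) ≤ 1 :=
        cnt_le_one (fun x hx y hy => detω n hn.2 x hx.1 y hy.1 (hx.2.trans hy.2.symm))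
      exact_mod_cast (cnt_mono (FR_nm hω _) h1).trans ((cnt_union_le _ _ _).trans
        (Nat.add_le_add_left h2 _)))
    ⟨M, ⟨hNM, le_rfl⟩, hVc.trans (by exact_mod_cast hcardZ V (Finset.Subset.refl _))⟩
  have hU : (⋃ B ∈ V'.image (fun v => R ∩ {x | f x = v}), B) ⊆ Z V' := by
    intro x hx
    simp only [mem_iUnion, Finset.mem_image] at hx
    obtain ⟨_, ⟨v, hv, rfl⟩, hx1, hx2⟩ := hx
    exact ⟨hx1, by rw [mem_ofPred_eq, hx2]; exact hv⟩
  refine ⟨V'.image (fun v => R ∩ {x | f x = v}), ?_, ?_, ?_, ?_, n1, hn1.1, ?_⟩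
  · intro B hB
    obtain ⟨v, hv, rfl⟩ := Finset.mem_image.1 hB
    exact ⟨fun x hx => hx.1.1.1, hV1 v (hV' hv)⟩
  · intro n hn
    refine cnt_le_one (fun x hx y hy => nm_eq_iff.2 (fun g hg => ?_))
    exact D1 x y ((R1 x (hU hx).1).trans (R1 y (hU hy).1).symm) n (hn.le.trans hNM) g hg
      (D1' n hn g hg)
  · intro n hn hn'
    have h1 := (cnt_mono (FR_nm hP (F n)) hU).trans ((cnt_det (Y := Z V') (g := nm P (F n))
      (FR.prod (FR_nm hω (F n)) (FR_nm hP (bdy T (F n)))) (fun x hx y hy e => by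
        simp only [Prod.mk.injEq, nm_eq_iff] at e ⊢
        intro g hg
        have et := (R1 x hx.1).trans (R1 y hy.1).symm
        by_cases hg1 : g ∈ Cov
        · by_cases hg2 : g ∈ bdy T (F n)
          · exact e.2 g hg2
          · exact D2 x y et (F n) e.1 g hg hg1 hg2
        · exact D1 x y et n hn' g hg hg1)).trans (cnt_pair_le (FR_nm hω _) (FR_nm hP _) _))
    have h2 : (cnt (nm P (bdy T (F n))) (Z V') : ℝ) ≤ exp (η * (F n).card) := by
      refine le_trans (by exact_mod_cast cnt_mono (FR_nm hP _) (subset_univ _))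
        (b := (cnt (nm P (bdy T (F n))) univ : ℝ)) ?_
      rw [← log_le_iff_le_exp (by exact_mod_cast cnt_pos (FR_nm hP _) univ_nonempty)]
      refine (log_cnt_nm_le hP _ le_rfl).trans ?_
      refine (mul_le_mul_of_nonneg_right (hN0 n (hN.trans hn)) a0).trans ?_
      rw [mul_right_comm]
      refine mul_le_mul_of_nonneg_right ?_ (hF.card_pos n).le
      rw [div_mul_eq_mul_div, div_le_iff₀ (by positivity)]
      linarith
    refine le_trans (by exact_mod_cast h1) (b := (cnt (nm ω (F n)) (Z V') : ℝ) *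
      cnt (nm P (bdy T (F n))) (Z V')) ?_
    exact mul_le_mul (w2 n ⟨hn, hn'⟩) h2 (Nat.cast_nonneg _) (by positivity)
  · refine le_trans ?_ (w2 M ⟨hNM, le_rfl⟩)
    exact_mod_cast Finset.card_image_le.trans (hcardZ V' hV')
  · set J := ((FR_nm hω (F n1)).img (Z V')).toFinset with hJ
    have hJ1 : ∀ w ∈ J, ∃ x ∈ Z V', nm ω (F n1) x = w := fun w hw =>
      (Set.Finite.mem_toFinset ((FR_nm hω (F n1)).img (Z V'))).1 hw
    choose! p hp1 hp2 using hJ1
    have hp3 : ∀ w ∈ J, ∀ x ∈ R ∩ {x | f x = f (p w)}, nm ω (F n1) x = w := fun w hw x hx =>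
      (detω n1 hn1.2 x hx.1 _ (hp1 w hw).1 hx.2).trans (hp2 w hw)
    refine ⟨J.image (fun w => R ∩ {x | f x = f (p w)}), ?_, ?_, ?_⟩
    · intro B hB
      obtain ⟨w, hw, rfl⟩ := Finset.mem_image.1 hB
      exact Finset.mem_image.2 ⟨_, (hp1 w hw).2, rfl⟩
    · rw [Finset.card_image_of_injOn]
      · refine w1.trans (le_of_eq ?_)
        simp only [cnt, hJ]
        rw [Set.ncard_eq_toFinset_card _ ((FR_nm hω (F n1)).img (Z V'))]
      · intro w hw w' hw' e
        have h1 : p w ∈ R ∩ {x | f x = f (p w)} := ⟨(hp1 w hw).1, rfl⟩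
        have e' : R ∩ {x | f x = f (p w)} = R ∩ {x | f x = f (p w')} := e
        exact (hp3 w hw _ h1).symm.trans (hp3 w' hw' _ (e' ▸ h1))
    · intro B hB B' hB' hne
      obtain ⟨w, hw, rfl⟩ := Finset.mem_image.1 hB
      obtain ⟨w', hw', rfl⟩ := Finset.mem_image.1 hB'
      have h1 : w ≠ w' := fun e => hne (by rw [e])
      rw [← hp2 w hw, ← hp2 w' hw', Ne, nm_eq_iff] at h1
      push Not at h1
      obtain ⟨g, hg, h1⟩ := h1
      refine ⟨g, hg, fun x hx y hy => ?_⟩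
      have e1 := nm_eq_iff.1 ((hp3 w hw x hx).trans (hp2 w hw).symm) g hg
      have e2 := nm_eq_iff.1 ((hp3 w' hw' y hy).trans (hp2 w' hw').symm) g hg
      have h2 : ω (g • x) ≠ ω (g • y) := by rw [e1, e2]; exact h1
      have h3 : g ∈ Cov := by
        by_contra h3
        exact h2 (hd _ _ (D1 x y ((R1 x hx.1).trans (R1 y hy.1).symm) n1 hn1.2 g hg h3))
      have h4 : (ω (g • x) = none) = (ω (g • y) = none) :=
        nm_eq_iff.1 ((R2 x hx.1).trans (R2 y hy.1).symm) g h3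
      refine ⟨h2, fun e => h2 ?_, fun e => h2 ?_⟩
      · rw [e, (h4 ▸ e : ω (g • y) = none)]
      · rw [e, (h4.symm ▸ e : ω (g • x) = none)]

end Pool.Agent.P.MP_4cf0b2_an
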