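import Mathlib
import Pool.Agent.P.MP_4cf0b2_an.CoarseF
import Pool.Agent.P.MP_4cf0b2_an.Energy

set_option autoImplicit false
set_option linter.unusedSectionVars false

namespace Pool.Agent.P.MP_4cf0b2_an

open Set Filter Real
open scoped Topology Pointwise ENNReal

section

variable {G X : Type*} [Group G] [DecidableEq G] [MulAction G X] {F : ℕ → Finset G}
  {A : Type*} [Finite A]

open Classical in
/-- the zero set of the name -/
noncomputable def zs (ω : X → Option A) (T : Finset G) (x : X) : Finset G :=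
  T.filter (fun g => ω (g • x) = none)

lemma mem_zs {ω : X → Option A} {T : Finset G} {x : X} {g : G} :
    g ∈ zs ω T x ↔ g ∈ T ∧ ω (g • x) = none := by
  classical
  simp [zs]

lemma FR_zs (ω : X → Option A) (T : Finset G) : FR (zs ω T) :=
  T.powerset.finite_toSet.subset (by
    rintro _ ⟨x, rfl⟩
    exact Finset.mem_powerset.2 (fun g hg => (mem_zs.1 hg).1))

lemma pat_count (ω : X → Option A) (T : Finset G) {p β : ℝ} (p0 : 0 < p) (p1 : p ≤ 1) (Y : Set X)
    (hY : ∀ x ∈ Y, ((zs ω T x).card : ℝ) ≤ β * T.card) :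
    (cnt (nm (zr ω) T) Y : ℝ) ≤ exp ((p - β * log p) * T.card) := by
  classical
  set 𝒵 := T.powerset.filter (fun Z => (Z.card : ℝ) ≤ β * T.card) with h𝒵
  have a1 : cnt (nm (zr ω) T) Y ≤ 𝒵.card := by
    refine (cnt_det (FR_zs ω T) (fun x _ y _ e => nm_eq_iff.2 (fun g hg => ?_))).trans ?_
    · have : g ∈ zs ω T x ↔ g ∈ zs ω T y := by rw [e]
      simp only [mem_zs, hg, true_and] at this
      exact propext this
    · unfold cnt
      rw [← Set.ncard_coe_finset]
      refine Set.ncard_le_ncard ?_ 𝒵.finite_toSet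
      rintro _ ⟨x, hx, rfl⟩
      exact Finset.mem_filter.2 ⟨Finset.mem_powerset.2 (fun g hg => (mem_zs.1 hg).1), hY x hx⟩
  have a2 : (𝒵.card : ℝ) * exp (β * T.card * log p) ≤ exp (p * T.card) := by
    have b1 := Finset.card_nsmul_le_sum 𝒵 (fun Z => p ^ Z.card) (exp (β * T.card * log p))
      (fun Z hZ => by
        rw [← exp_log (x := p ^ Z.card) (by positivity), log_pow]
        exact exp_le_exp.2 (mul_le_mul_of_nonpos_right (Finset.mem_filter.1 hZ).2
          (log_nonpos p0.le p1)))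
    rw [nsmul_eq_mul] at b1
    refine b1.trans ((Finset.sum_le_sum_of_subset_of_nonneg (Finset.filter_subset _ _)
      (fun _ _ _ => by positivity)).trans ?_)
    have b2 := Finset.sum_pow_mul_eq_add_pow p 1 T
    simp only [one_pow, mul_one] at b2
    rw [b2, mul_comm, exp_nat_mul]
    exact pow_le_pow_left₀ (by positivity) (add_one_le_exp p) _
  refine le_of_mul_le_mul_right ((mul_le_mul_of_nonneg_right (Nat.cast_le.2 a1)
    (exp_pos _).le).trans (a2.trans (le_of_eq ?_))) (exp_pos (β * T.card * log p))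
  rw [← exp_add]; congr 1; ring

lemma E_zs {m : Mean X} (hi : m.Inv G) (ω : X → Option A) (T : Finset G) :
    m.E (fun x => ((zs ω T x).card : ℝ)) = T.card * m.μ {x | ω x = none} := by
  classical
  have : (fun x => ((zs ω T x).card : ℝ)) =
      fun x => ∑ g ∈ T, ind {x | g • x ∈ {x | ω x = none}} x := by
    funext x
    simp only [zs, Finset.card_filter, Nat.cast_sum]
    refine Finset.sum_congr rfl (fun g _ => ?_)
    by_cases h : ω (g • x) = none <;> simp [ind, h]
  rw [this, m.E_sum, ← nsmul_eq_mul, ← Finset.sum_const]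
  exact Finset.sum_congr rfl (fun g _ => hi g _)

lemma vitali_setup (hF : Admissible F) {C : ℝ} (hC : Tempered F C) {m : Mean X}
    (hi : m.Inv G) {ε : ℝ} (hε : 0 < ε) (hε1 : ε ≤ 1) (B : ℕ → Set X) {N : ℕ} (hN : 1 < N) (N' : ℕ) :
    ∀ᶠ k in atTop, ∃ (d : X → ℝ) (D' : X → Finset G) (lv : X → G → ℕ), FR d ∧
      9 / 10 * (F k).card * m.μ (⋃ n ∈ Finset.Icc N N', B n) ≤ m.E d ∧ ∀ x, d x ≤ (F k).card ∧
      D' x ⊆ F k ∧ (∀ c ∈ D' x, lv x c ∈ Finset.Icc N N' ∧ c • x ∈ B (lv x c) ∧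
        rt (F (lv x c)) c ⊆ F k) ∧ (1 - ε) * ∑ c ∈ D' x, ((F (lv x c)).card : ℝ) ≤
        ((D' x).biUnion (fun c => rt (F (lv x c)) c)).card ∧
      d x ≤ (C + 1 / ε) * ∑ c ∈ D' x, ((F (lv x c)).card : ℝ) := by
  classical
  set Bad := ⋃ n ∈ Finset.Icc N N', B n with hBad
  set U := (Finset.range (N' + 1)).biUnion F with hU
  filter_upwards [hF.bdy_le U (δ := 1 / 10) (by norm_num)] with k k1
  set Φ := F k with hΦ
  set D : X → Finset G := fun x => (Φ \ bdy U Φ).filter (fun g => g • x ∈ Bad) with hD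
  have hlv : ∀ (x : X) (g : G), ∃ n, g • x ∈ Bad → n ∈ Finset.Icc N N' ∧ g • x ∈ B n := by
    intro x g
    by_cases h : g • x ∈ Bad
    · obtain ⟨n, h1, h2⟩ := mem_iUnion₂.1 h
      exact ⟨n, fun _ => ⟨h1, h2⟩⟩
    · exact ⟨0, fun h' => absurd h' h⟩
  choose lv hlv using hlv
  have hlv1 : ∀ x, ∀ g ∈ D x, lv x g ∈ Finset.Icc N N' ∧ g • x ∈ B (lv x g) :=
    fun x g hg => hlv x g (Finset.mem_filter.1 hg).2
  choose D' hD' v1 v2 using fun x => vitali_tempered hF hC hε hε1 (lv x) (D x)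
    (fun g hg => hN.trans_le (Finset.mem_Icc.1 (hlv1 x g hg).1).1)
  have e0 : (fun x => ((D x).card : ℝ)) =
      fun x => ∑ g ∈ Φ \ bdy U Φ, ind {x | g • x ∈ Bad} x := by
    funext x
    simp only [hD, Finset.card_filter, Nat.cast_sum]
    refine Finset.sum_congr rfl (fun g _ => ?_)
    by_cases h : g • x ∈ Bad <;> simp [ind, h]
  have hDΦ : ∀ x, D x ⊆ Φ := fun x => (Finset.filter_subset _ _).trans Finset.sdiff_subset
  refine ⟨fun x => (D x).card, D', lv, ?_, ?_, fun x => ⟨?_, (hD' x).trans (hDΦ x),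
    fun c hc => ⟨(hlv1 x c (hD' x hc)).1, (hlv1 x c (hD' x hc)).2, fun g hg => ?_⟩, v1 x, v2 x⟩⟩
  · rw [e0]; exact FR_sum _ (fun g _ => FR.ind _)
  · rw [e0, m.E_sum, Finset.sum_congr rfl (f := fun g => m.E (ind {x | g • x ∈ Bad}))
      (g := fun _ => m.μ Bad) (fun g _ => hi g Bad), Finset.sum_const, nsmul_eq_mul]
    have e3 : (Φ.card : ℝ) ≤ (Φ \ bdy U Φ).card + (bdy U Φ).card := by
      exact_mod_cast Finset.card_le_card_sdiff_add_card
    exact mul_le_mul_of_nonneg_right (by linarith) (m.μ_nonneg _)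
  · exact Nat.cast_le.2 (Finset.card_le_card (hDΦ x))
  · have h1 := (Finset.mem_filter.1 (hD' x hc)).1
    rw [Finset.mem_sdiff, notMem_bdy] at h1
    have h2 := (h1.2 _ (Finset.mem_biUnion.2 ⟨lv x c, Finset.mem_range.2 (Nat.lt_succ_of_le
      (Finset.mem_Icc.1 (hlv1 x c (hD' x hc)).1).2), mem_rt.1 hg⟩)).1 h1.1
    simpa using h2

theorem maximal (hF : Admissible F) {C : ℝ} (hC : Tempered F C) {m : Mean X} (hi : m.Inv G)
    (ω : X → Option A) {β : ℝ} (hβ : 0 < β) (hβ1 : β ≤ 1)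
    (hb : 10 * (C + 1 / (β / 2)) * m.μ {x | ω x = none} ≤ β) {N : ℕ} (hN : 1 < N) (N' : ℕ) :
    m.μ (⋃ n ∈ Finset.Icc N N', {x | β * (F n).card < (zs ω (F n) x).card}) ≤ 1 / 4 := by
  classical
  obtain ⟨k, d, D', lv, Fd, e1, h⟩ := (vitali_setup hF hC hi (half_pos hβ) (by linarith)
    (fun n => {x | β * (F n).card < (zs ω (F n) x).card}) hN N').exists
  have C0 := hC.1
  have e2 := m.mono (φ := fun x => β / 2 * d x)
    (ψ := fun x => (C + 1 / (β / 2)) * ((zs ω (F k) x).card : ℝ)) (Fd.comp (β / 2 * ·))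
    ((FR_zs ω (F k)).comp (fun Z => (C + 1 / (β / 2)) * (Z.card : ℝ))) (fun x => by
      obtain ⟨-, -, h3, h4, h5⟩ := h x
      set Z := zs ω (F k) x with hZ
      have a1 : ∀ c ∈ D' x, ((rt (F (lv x c)) c \ Z).card : ℝ) ≤ (1 - β) * (F (lv x c)).card := by
        intro c hc
        have b1 : β * (F (lv x c)).card < (zs ω (F (lv x c)) (c • x)).card := (h3 c hc).2.1
        have b2 : (zs ω (F (lv x c)) (c • x)).card ≤ (rt (F (lv x c)) c ∩ Z).card :=
          Finset.card_le_card_of_injOn (· * c) (fun g hg => by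
            have := mem_zs.1 hg
            exact Finset.mem_inter.2 ⟨mul_mem_rt this.1, mem_zs.2
              ⟨(h3 c hc).2.2 (mul_mem_rt this.1), by simpa [mul_smul] using this.2⟩⟩)
            (fun a _ b _ e => by simpa using e)
        have b3 := Finset.card_sdiff_add_card_inter (rt (F (lv x c)) c) Z
        rw [card_rt] at b3
        have b4 : ((rt (F (lv x c)) c \ Z).card : ℝ) + (rt (F (lv x c)) c ∩ Z).card =
          (F (lv x c)).card := by exact_mod_cast b3
        have b5 : ((zs ω (F (lv x c)) (c • x)).card : ℝ) ≤ (rt (F (lv x c)) c ∩ Z).card := by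
          exact_mod_cast b2
        linarith
      have a2 : (((D' x).biUnion (fun c => rt (F (lv x c)) c)).card : ℝ) ≤
          ∑ c ∈ D' x, ((rt (F (lv x c)) c \ Z).card : ℝ) + Z.card := by
        have : (D' x).biUnion (fun c => rt (F (lv x c)) c) ⊆
            (D' x).biUnion (fun c => rt (F (lv x c)) c \ Z) ∪ Z := by
          intro g hg
          simp only [Finset.mem_union, Finset.mem_biUnion, Finset.mem_sdiff] at hg ⊢
          obtain ⟨c, hc, hg⟩ := hg
          by_cases hz : g ∈ Z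
          · exact Or.inr hz
          · exact Or.inl ⟨c, hc, hg, hz⟩
        exact_mod_cast (Finset.card_le_card this).trans ((Finset.card_union_le _ _).trans
          (Nat.add_le_add_right Finset.card_biUnion_le _))
      have a3 := Finset.sum_le_sum a1
      rw [← Finset.mul_sum] at a3
      have a4 : β / 2 * ∑ c ∈ D' x, ((F (lv x c)).card : ℝ) ≤ Z.card := by linarith
      have a5 := mul_le_mul_of_nonneg_left h5 (half_pos hβ).le
      have a6 := mul_le_mul_of_nonneg_left a4 (by positivity : 0 ≤ C + 1 / (β / 2))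
      linarith)
  rw [m.E_mul, m.E_mul, E_zs hi] at e2
  have f0 := hF.card_pos k
  by_contra hcon
  push Not at hcon
  have e3 := mul_le_mul_of_nonneg_left hb f0.le
  have e4 := mul_le_mul_of_nonneg_left e1 (half_pos hβ).le
  have e5 := mul_lt_mul_of_pos_left hcon (mul_pos hβ f0)
  linarith [mul_pos hβ f0]

lemma cnt_tiles' {β : Type*} {ω : X → β} (hω : FR ω) (Φ D : Finset G) (T : G → Finset G)
    (Y : Set X) (b : G → ℝ) (hb : ∀ c ∈ D, (cnt (nm ω (T c)) Y : ℝ) ≤ exp (b c)) :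
    (cnt (nm ω Φ) Y : ℝ) ≤ exp (∑ c ∈ D, b c) * cnt (nm ω (Φ \ D.biUnion T)) Y := by
  have F1 : FR (tup (fun c => nm ω (T c)) D) := FR_tup (fun c _ => FR_nm hω _)
  have h1 := (cnt_det (Y := Y) (g := nm ω Φ) (FR.prod F1 (FR_nm hω (Φ \ D.biUnion T)))
    (fun x _ y _ e => by
      simp only [Prod.mk.injEq, tup_eq_iff, nm_eq_iff] at e ⊢
      intro g hg
      by_cases h : g ∈ D.biUnion T
      · obtain ⟨c, hc, h⟩ := Finset.mem_biUnion.1 h
        exact e.1 c hc g h
      · exact e.2 g (Finset.mem_sdiff.2 ⟨hg, h⟩))).trans ((cnt_pair_le F1 (FR_nm hω _) Y).trans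
    (Nat.mul_le_mul_right _ (cnt_tup_le (fun c _ => FR_nm hω _) Y)))
  refine le_trans (by exact_mod_cast h1) (b := (∏ c ∈ D, (cnt (nm ω (T c)) Y : ℝ)) *
    cnt (nm ω (Φ \ D.biUnion T)) Y) (mul_le_mul_of_nonneg_right ?_ (Nat.cast_nonneg _))
  rw [exp_sum]
  exact Finset.prod_le_prod (fun _ _ => Nat.cast_nonneg _) hb

theorem smbF (hF : Admissible F) {C : ℝ} (hC : Tempered F C) {m : Mean X} {ω : X → Option A}
    {H δ b : ℝ} (hm : App G m ω H δ b) (hH : 0 ≤ H) {ε τ γ p β : ℝ} (hε : 0 < ε) (hε1 : ε ≤ 1)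
    (hτ : 0 < τ) (h1 : ε * H ≤ τ / 2) (hγ : 0 < γ) (h2 : 3200 * (C + 1 / ε) * γ ≤ τ)
    (p0 : 0 < p) (p1 : p ≤ 1) (hβ : 0 < β) (h3 : p - β * log p ≤ γ) (h4 : δ ≤ γ)
    (h5 : b * (log (cnt ω univ) + 100 * γ) ≤ γ * β) : ∀ᶠ N in atTop, ∀ N',
      m.μ (⋃ n ∈ Finset.Icc N N', heavy m ω (F n) (H - τ)) ≤ 1 / 4 := by
  classical
  have hω : FR ω := FR.of_finite _
  have hX : Nonempty X := by
    obtain ⟨x, -⟩ := m.nonempty_of_pos (Y := univ) (by rw [hm.total]; exact one_pos)
    exact ⟨x⟩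
  have C0 := hC.1
  obtain ⟨K, L, L0, hK⟩ := hm.up γ hγ
  have LL : L * (1 / (L + 1)) ≤ 1 := by
    rw [mul_one_div, div_le_one (by positivity)]; linarith
  filter_upwards [hF.tail (θ := τ / 8) (by positivity) hγ, eventually_gt_atTop 1,
    eventually_forall_ge_atTop.2 (hF.bdy_le K (δ := τ / 8 * (1 / (L + 1))) (by positivity))]
    with N hN1 hN2 hN3 N'
  by_contra hcon
  push Not at hcon
  obtain ⟨k, ⟨d, D', lv, Fd, e1, hd⟩, k2, k3⟩ := ((vitali_setup hF hC hm.inv hε hε1
    (fun n => heavy m ω (F n) (H - τ)) hN2 N').and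
    ((hF.bdy_le K (δ := γ * (1 / (L + 1))) (by positivity)).and
      (hF.tendsto_card.eventually_ge_atTop (1 / γ)))).exists
  set Φ := F k with hΦ
  have f0 : (0 : ℝ) < Φ.card := hF.card_pos k
  have k4 : L * (bdy K Φ).card ≤ γ * Φ.card := by
    have := mul_le_mul_of_nonneg_left k2 L0
    nlinarith [mul_pos hγ f0]
  set Y := {x | (Φ.card : ℝ) / 8 ≤ d x} with hY
  set Y0 := {x | ((zs ω Φ x).card : ℝ) ≤ β * Φ.card} with hY0
  set a := log (cnt ω univ) with ha
  have a0 : 0 ≤ a := log_natCast_nonneg _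
  have hmY : 1 / 10 ≤ m.μ Y := by
    have e2 := m.mono Fd ((FR.ind Y).comp (fun t => (Φ.card : ℝ) * t + Φ.card / 8))
      (fun x => by
        by_cases hx : x ∈ Y
        · rw [ind_of_mem hx]; linarith [(hd x).1]
        · rw [ind_of_notMem hx]
          have : ¬ (Φ.card : ℝ) / 8 ≤ d x := hx
          linarith)
    rw [m.E_add, m.E_mul, m.E_const, hm.total] at e2
    change _ ≤ Φ.card * m.μ Y + _ at e2
    nlinarith
  have hmY0 : m.μ Y0ᶜ * (a + 100 * γ) ≤ γ := by
    have e2 := m.markov ((FR_zs ω Φ).comp (fun Z => (Z.card : ℝ))) m.μ_empty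
      (fun _ _ => Nat.cast_nonneg _) (t := β * Φ.card) (B := Y0ᶜ)
      (fun x hx _ => le_of_not_ge hx)
    rw [E_zs hm.inv] at e2
    have e3 : β * m.μ Y0ᶜ ≤ b := by
      refine le_trans (le_of_mul_le_mul_left ?_ f0) hm.zero
      linarith
    refine le_of_mul_le_mul_left ?_ hβ
    nlinarith [mul_le_mul_of_nonneg_right e3 (by positivity : 0 ≤ a + 100 * γ)]
  have hpat : ∀ Y' ⊆ Y0, (cnt (nm (zr ω) Φ) Y' : ℝ) ≤ exp (γ * Φ.card) := fun Y' hY' =>
    (pat_count ω Φ p0 p1 Y' hY').trans (exp_le_exp.2 (mul_le_mul_of_nonneg_right h3 f0.le))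
  set q : X → Φ → Option ℕ := fun x g => if g.1 ∈ D' x then some (lv x g) else none with hq
  set θ : Option ℕ → ℝ := fun o => o.elim 1 (fun n => exp (-(τ / 8) * (F n).card)) with hθ
  have θ0 : ∀ o, 0 < θ o := fun o => by cases o <;> simp [hθ, exp_pos]
  have hcY : (cnt (nm ω Φ) (Y0 ∩ Y) : ℝ) ≤ exp ((H + 4 * γ - 100 * γ) * Φ.card) := by
    refine (cnt_fiber (FR_nm hω Φ) (FR_nm (FR.of_finite (zr ω)) Φ) _
      (c := exp ((H + 3 * γ - 100 * γ) * Φ.card)) (fun x1 _ => ?_)).trans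
      ((mul_le_mul_of_nonneg_right (hpat _ inter_subset_left) (exp_pos _).le).trans (le_of_eq (by
        rw [← exp_add]; congr 1; ring)))
    set Y' := Y0 ∩ Y ∩ {y | nm (zr ω) Φ y = nm (zr ω) Φ x1} with hY'
    have a1 := cnt_le_sum_fiber (FR_nm hω Φ) q Y'
      (Fintype.piFinset (fun _ => Finset.insertNone (Finset.Icc N N'))) (fun x _ => by
        rw [Fintype.mem_piFinset]
        intro g
        simp only [hq]
        split_ifs with h
        · exact Finset.some_mem_insertNone.2 ((hd x).2.2.1 g h).1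
        · exact Finset.none_mem_insertNone)
    have a2 : ∀ a : Φ → Option ℕ, (cnt (nm ω Φ) (Y' ∩ {x | q x = a}) : ℝ) ≤
        exp ((H + 2 * γ - 100 * γ) * Φ.card) * ∏ g, θ (a g) := by
      intro a
      rcases (Y' ∩ {x | q x = a}).eq_empty_or_nonempty with e | ⟨x, hx, rfl⟩
      · rw [e, cnt_empty, Nat.cast_zero]
        exact mul_nonneg (exp_pos _).le (Finset.prod_nonneg (fun g _ => (θ0 _).le))
      obtain ⟨-, d2, d3, d4, d5⟩ := hd x
      set Sg := ∑ c ∈ D' x, ((F (lv x c)).card : ℝ) with hSg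
      set Cov := (D' x).biUnion (fun c => rt (F (lv x c)) c) with hCov
      have b1 : ∏ g, θ (q x g) = exp (-(τ / 8) * Sg) := by
        have : ∀ g : Φ, θ (q x g) =
            exp (if g.1 ∈ D' x then -(τ / 8) * ((F (lv x g)).card : ℝ) else 0) := by
          intro g
          by_cases h : g.1 ∈ D' x <;> simp [hq, hθ, h]
        simp only [this]
        rw [← exp_sum, Finset.sum_coe_sort Φ
          (fun g => if g ∈ D' x then -(τ / 8) * ((F (lv x g)).card : ℝ) else 0),
          ← Finset.sum_filter, Finset.filter_mem_eq_inter, Finset.inter_eq_right.2 d2,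
          ← Finset.mul_sum]
      have b2 := cnt_tiles' hω Φ (D' x) (fun c => rt (F (lv x c)) c) (Y' ∩ {y | q y = q x})
        (fun c => (H - τ) * (F (lv x c)).card) (fun c hc => by
          refine le_trans ?_ (cnt_heavy_le hm.total hω _ (H - τ))
          refine Nat.cast_le.2 (cnt_nm_rt hω _ c (fun y hy => ?_))
          have e := congrFun hy.2 ⟨c, d2 hc⟩
          simp only [hq, hc, if_true] at e
          split_ifs at e with h
          rw [← Option.some.inj e]
          exact ((hd y).2.2.1 c h).2.1)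
      have b3 : Cov ⊆ Φ := Finset.biUnion_subset.2 (fun c hc => (d3 c hc).2.2)
      set B := (D' x).biUnion (fun c => bdy K (rt (F (lv x c)) c)) with hB
      have b4 : (cnt (nm ω (Φ \ Cov)) (Y' ∩ {y | q y = q x}) : ℝ) ≤ _ :=
        le_trans (Nat.cast_le.2 (cnt_mono (FR_nm hω _) (fun y hy =>
          nm_det (det_refl _) Finset.sdiff_subset _ _ hy.1.2))) (hK (Φ \ Cov) x1)
      have b5 : ((bdy K (Φ \ Cov)).card : ℝ) ≤ (bdy K Φ).card + B.card := by
        exact_mod_cast (Finset.card_le_card ((bdy_sdiff _ _ _).trans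
          (Finset.union_subset_union_right (bdy_biUnion _ _ _)))).trans (Finset.card_union_le _ _)
      have b6 : (B.card : ℝ) ≤ τ / 8 * (1 / (L + 1)) * Sg := by
        have : (B.card : ℝ) ≤ ∑ c ∈ D' x, ((bdy K (rt (F (lv x c)) c)).card : ℝ) := by
          exact_mod_cast Finset.card_biUnion_le
        refine this.trans ?_
        rw [hSg, Finset.mul_sum]
        refine Finset.sum_le_sum (fun c hc => ?_)
        rw [bdy_rt, card_rt]
        exact hN3 _ (Finset.mem_Icc.1 (d3 c hc).1).1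
      have b7 : ((Φ \ Cov).card : ℝ) = Φ.card - Cov.card := by
        rw [Finset.card_sdiff_of_subset b3, Nat.cast_sub (Finset.card_le_card b3)]
      have Sg0 : 0 ≤ Sg := Finset.sum_nonneg (fun _ _ => Nat.cast_nonneg _)
      have b8 : L * B.card ≤ τ / 8 * Sg := by
        have := mul_le_mul_of_nonneg_left b6 L0
        nlinarith [mul_nonneg hτ.le Sg0]
      have b9 : (Φ.card : ℝ) / 8 ≤ (C + 1 / ε) * Sg := le_trans hx.1.2 d5
      have b11 := mul_le_mul_of_nonneg_left b5 L0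
      have b12 := mul_le_mul_of_nonneg_left d4 hH
      have b13 := mul_le_mul_of_nonneg_right h2 Sg0
      have b14 := mul_le_mul_of_nonneg_right h1 Sg0
      have b15 := mul_le_mul_of_nonneg_left b9 hγ.le
      have b16 : 0 ≤ γ * Cov.card := by positivity
      refine b2.trans ((mul_le_mul_of_nonneg_left b4 (exp_pos _).le).trans ?_)
      rw [b1, ← exp_add, ← exp_add, ← Finset.mul_sum, b7]
      apply exp_le_exp.2
      rw [← hSg]
      linarith
    have a3 : ∑ a ∈ Fintype.piFinset (fun _ : Φ => Finset.insertNone (Finset.Icc N N')),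
        ∏ g, θ (a g) ≤ exp (γ * Φ.card) := by
      rw [← Finset.prod_univ_sum]
      have : ∑ o ∈ Finset.insertNone (Finset.Icc N N'), θ o ≤ exp γ := by
        rw [Finset.sum_insertNone]
        have := hN1 (Finset.Icc N N') (fun n hn => (Finset.mem_Icc.1 hn).1)
        simp only [hθ, Option.elim]
        linarith [add_one_le_exp γ]
      refine (Finset.prod_le_prod (g := fun _ => exp γ) (fun _ _ => Finset.sum_nonneg
        (fun o _ => (θ0 o).le)) (fun _ _ => this)).trans (le_of_eq ?_)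
      simp [← exp_nat_mul, mul_comm]
    refine le_trans (by exact_mod_cast a1) (b := ∑ a ∈ Fintype.piFinset
      (fun _ : Φ => Finset.insertNone (Finset.Icc N N')),
        (cnt (nm ω Φ) (Y' ∩ {x | q x = a}) : ℝ)) ((Finset.sum_le_sum (fun a _ => a2 a)).trans ?_)
    rw [← Finset.mul_sum]
    refine (mul_le_mul_of_nonneg_left a3 (exp_pos _).le).trans (le_of_eq ?_)
    rw [← exp_add]; congr 1; ring
  have hc0 : (cnt (nm ω Φ) Y0 : ℝ) ≤ exp ((H + 4 * γ) * Φ.card) := by
    refine (cnt_fiber (FR_nm hω Φ) (FR_nm (FR.of_finite (zr ω)) Φ) _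
      (c := exp ((H + 2 * γ) * Φ.card)) (fun x1 _ => ?_)).trans
      ((mul_le_mul_of_nonneg_right (hpat _ Subset.rfl) (exp_pos _).le).trans (by
        rw [← exp_add]; apply exp_le_exp.2; nlinarith))
    refine le_trans (Nat.cast_le.2 (cnt_mono (FR_nm hω _) inter_subset_right))
      ((hK Φ x1).trans (exp_le_exp.2 (by linarith)))
  have hcU : (cnt (nm ω Φ) univ : ℝ) ≤ exp ((H + 4 * γ + a) * Φ.card) := by
    rw [← log_le_iff_le_exp (by exact_mod_cast cnt_pos (FR_nm hω _) univ_nonempty)]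
    refine (log_cnt_nm_le hω Φ le_rfl).trans ?_
    nlinarith
  have e2 := m.H_le_code hm.total (t := fun x => (x ∈ Y0, x ∈ Y)) (FR.of_finite _) (FR_nm hω Φ)
    (fun _ => 1 / 4) (fun q => exp ((H + 4 * γ + (if q.1 then if q.2 then - 100 * γ else 0 else a)) *
      Φ.card)) (fun _ => by norm_num) (fun q => exp_pos _) (fun x => by
      by_cases hx : x ∈ Y0
      · by_cases hx' : x ∈ Y
        · simp only [hx, hx', if_true]
          refine le_trans ?_ (hcY.trans (le_of_eq (by congr 1; ring)))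
          exact_mod_cast cnt_mono (FR_nm hω Φ) (fun y hy => by simpa using hy)
        · simp only [hx, hx', if_true, if_false, add_zero]
          refine le_trans ?_ hc0
          exact_mod_cast cnt_mono (FR_nm hω Φ) (fun y hy => by simp at hy; exact hy.1)
      · simp only [hx, if_false]
        refine le_trans ?_ hcU
        exact_mod_cast cnt_mono (FR_nm hω Φ) (subset_univ _)) (by
      rw [Finset.sum_const, nsmul_eq_mul]
      have : (((FR.of_finite (fun x => (x ∈ Y0, x ∈ Y))).toFinset.card : ℕ) : ℝ) ≤ 4 := by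
        exact_mod_cast (Finset.card_le_univ _).trans (by simp)
      linarith)
  have e3 := m.mono (φ := fun x => log (exp ((H + 4 * γ + (if x ∈ Y0 then if x ∈ Y then
      - 100 * γ else 0 else a)) * Φ.card)) - log (1 / 4))
    (ψ := fun x => (-(100 * γ * Φ.card) * ind Y x + (a + 100 * γ) * Φ.card * ind Y0ᶜ x) +
      ((H + 4 * γ) * Φ.card + log 4))
    ((FR.of_finite (fun x => (x ∈ Y0, x ∈ Y))).comp (fun q => log (exp ((H + 4 * γ +
      (if q.1 then if q.2 then - 100 * γ else 0 else a)) * Φ.card)) - log (1 / 4)))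
    ((FR.ind Y).comp₂ (FR.ind Y0ᶜ) (fun s t => (-(100 * γ * Φ.card) * s +
      (a + 100 * γ) * Φ.card * t) + ((H + 4 * γ) * Φ.card + log 4))) (fun x => by
      rw [one_div (4 : ℝ), log_inv, log_exp]
      by_cases hx : x ∈ Y0 <;> by_cases hx' : x ∈ Y <;> simp [ind, hx, hx'] <;>
        nlinarith [mul_pos hγ f0])
  have e4 := e2.trans e3
  rw [m.E_add, m.E_add, m.E_mul, m.E_mul, m.E_const, hm.total] at e4
  change _ ≤ _ * m.μ Y + _ * m.μ Y0ᶜ + _ at e4
  have e5 := hm.low Φ
  have e6 : log 4 < 2 := by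
    rw [show (4 : ℝ) = 2 ^ 2 by norm_num, log_pow]
    push_cast
    linarith [log_two_lt_d9]
  rw [div_le_iff₀ hγ] at k3
  have e7 := mul_le_mul_of_nonneg_left hmY (mul_pos hγ f0).le
  have e8 := mul_le_mul_of_nonneg_left hmY0 f0.le
  have e9 := mul_le_mul_of_nonneg_right h4 f0.le
  linarith

variable (G) in
/-- the data that drive both constructions in the finite entropy case -/
structure Res (F : ℕ → Finset G) (m : Mean X) (ω : X → Option A) (H τ : ℝ) (N : ℕ)
    (Bd : ℕ → Set X) : Prop where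
  total : m.μ univ = 1
  inv : m.Inv G
  i1 : ∀ n, ∀ y ∉ Bd n, m.pr (nm ω (F n)) y ≤ exp (-(H - τ) * (F n).card)
  i2 : ∀ n, (cnt (nm (zr ω) (F n)) (Bd n)ᶜ : ℝ) ≤ exp (τ * (F n).card)
  i3 : ∀ n, N ≤ n → (cnt (nm ω (F n)) (Bd n)ᶜ : ℝ) ≤ exp ((H + τ) * (F n).card)

end

variable {G X : Type*} [Group G] [DecidableEq G] [MulAction G X] [MetricSpace X]
  {F : ℕ → Finset G}

theorem exists_res [CompactSpace X] (hF : Admissible F) {H τ : ℝ}
    (htop : hTop X F = ENNReal.ofReal H) (hH : 0 < H) (hτ : 0 < τ) :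
    ∃ (r : ℕ) (ω : X → Option (Fin r)) (ι : X → Fin r) (ε : ℝ) (m ν : Mean X) (N : ℕ)
      (Bd : ℕ → Set X), 0 < ε ∧ (∀ x y, dist x y < 2 * ε → ω y = none ∨ ω y = some (ι x)) ∧
      Res G F m ω H τ N Bd ∧ ν.μ univ = 1 ∧ Dom ν 2 m ∧ ∀ n, N ≤ n → ν.μ (Bd n) = 0 := by
  obtain ⟨C, hC⟩ : ∃ C, Tempered F C := hF.2.2.1
  have C0 := hC.1
  set e : ℝ := min 1 (τ / 2 / H) with he
  have e0 : 0 < e := lt_min one_pos (by positivity)
  have e2 : e * H ≤ τ / 2 := by rw [← le_div_iff₀ hH]; exact min_le_right _ _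
  set γ : ℝ := min (τ / (3200 * (C + 1 / e))) (min (τ / 2) (min 1 (H / 2))) with hγ
  have γ0 : 0 < γ := lt_min (by positivity) (lt_min (by positivity) (lt_min one_pos (by positivity)))
  have γ1 : 3200 * (C + 1 / e) * γ ≤ τ := by
    rw [mul_comm, ← le_div_iff₀ (by positivity)]; exact min_le_left _ _
  have γ2 : γ ≤ τ / 2 := (min_le_right _ _).trans (min_le_left _ _)
  have γ3 : γ ≤ 1 := (min_le_right _ _).trans ((min_le_right _ _).trans (min_le_left _ _))
  have γ4 : γ ≤ H / 2 := (min_le_right _ _).trans ((min_le_right _ _).trans (min_le_right _ _))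
  have l0 : 0 ≤ - log (γ / 2) := by linarith [log_nonpos (half_pos γ0).le (by linarith)]
  set β : ℝ := γ / 2 / (- log (γ / 2) + 1) with hβ
  have β0 : 0 < β := by positivity
  have β1 : β * (- log (γ / 2) + 1) = γ / 2 := by rw [hβ]; field_simp
  have β2 : β ≤ 1 := by nlinarith
  have β3 : γ / 2 - β * log (γ / 2) ≤ γ := by linarith
  obtain ⟨r, hr⟩ := exists_app hF htop γ0 (by linarith)
  set b : ℝ := min (γ * β / (log (r + 1) + 100 * γ)) (β / (10 * (C + 1 / (β / 2)))) with hb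
  have r0 : 0 ≤ log ((r : ℝ) + 1) := log_nonneg (by simp)
  have b0 : 0 < b := lt_min (by positivity) (by positivity)
  obtain ⟨ω, ι, ε, m, hε, hsep, hm⟩ := hr b b0
  have hω : FR ω := FR.of_finite _
  obtain ⟨K, L, L0, hK⟩ := hm.up (τ / 4) (by positivity)
  obtain ⟨N, n1, n2, n3⟩ := ((smbF hF hC hm hH.le e0 (min_le_left _ _) hτ e2 γ0 γ1 (half_pos γ0)
    (by linarith) β0 β3 le_rfl (by
      have a1 : log (cnt ω univ) ≤ log ((r : ℝ) + 1) := by
        rcases Nat.eq_zero_or_pos (cnt ω univ) with e | e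
        · rw [e]; simpa using r0
        · refine log_le_log (by exact_mod_cast e) ?_
          have := cnt_le_card ω univ
          rw [Fintype.card_option, Fintype.card_fin] at this
          exact_mod_cast this
      have a2 : b * (log (r + 1) + 100 * γ) ≤ γ * β := by
        rw [← le_div_iff₀ (by positivity)]; exact min_le_left _ _
      nlinarith)).and ((eventually_gt_atTop 1).and (eventually_forall_ge_atTop.2
        (hF.bdy_le K (δ := τ / 4 / (L + 1)) (by positivity))))).exists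
  have n4 := maximal hF hC hm.inv ω β0 β2 (by
    refine (mul_le_mul_of_nonneg_left hm.zero (by positivity)).trans ?_
    rw [mul_comm, ← le_div_iff₀ (by positivity)]; exact min_le_right _ _) n2
  set Bd : ℕ → Set X := fun n => heavy m ω (F n) (H - τ) ∪
    {x | β * (F n).card < (zs ω (F n) x).card} with hBd
  have hpat : ∀ n, (cnt (nm (zr ω) (F n)) (Bd n)ᶜ : ℝ) ≤ exp (τ / 2 * (F n).card) := fun n =>
    (pat_count ω (F n) (half_pos γ0) (by linarith) (β := β) (Bd n)ᶜ (fun x hx =>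
      not_lt.1 (fun h => hx (Or.inr h)))).trans (exp_le_exp.2 (mul_le_mul_of_nonneg_right
        (β3.trans γ2) (hF.card_pos n).le))
  set Gd : ℕ → Set X := fun N' => (⋃ n ∈ Finset.Icc N N', Bd n)ᶜ with hGd
  have g1 : ∀ n, 1 / 2 ≤ m.μ (Gd n) := fun n => by
    simp only [hGd, hBd, iUnion_union_distrib]
    rw [m.μ_compl, hm.total]
    have := (m.μ_union_le _ _).trans (add_le_add (n1 n) (n4 n))
    linarith
  set νn : ℕ → Mean X := fun n => (m.restr (Gd n)).scale (m.μ (Gd n))⁻¹ with hνn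
  have hν : ∀ n B, (νn n).μ B = (m.μ (Gd n))⁻¹ * m.μ (Gd n ∩ B) := fun n B => by
    simp only [hνn]
    rw [Mean.scale_μ _ (inv_nonneg.2 (m.μ_nonneg _)), Mean.restr_μ]
  have a1 : ∀ n, (νn n).μ univ = 1 := fun n => by
    rw [hν, inter_univ]; exact inv_mul_cancel₀ (by linarith [g1 n])
  obtain ⟨ν, hl⟩ := Mean.exists_lim νn (fun n => (a1 n).le)
  have hl' : ∀ B, Tendsto (fun n => (νn n).μ B) (hyperfilter ℕ) (𝓝 (ν.μ B)) :=
    fun B => hl _ (FR.ind B)
  refine ⟨r, ω, ι, ε, m, ν, N, Bd, hε, hsep, ⟨hm.total, hm.inv,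
    fun n y hy => (not_le.1 (fun h => hy (Or.inl h))).le, fun n => (hpat n).trans (exp_le_exp.2 (by
      nlinarith [hF.card_pos n])), fun n hn => ?_⟩, ?_, fun B => le_of_tendsto' (hl' B) (fun n => ?_),
    fun n hn => ?_⟩
  · refine (cnt_fiber (FR_nm hω _) (FR_nm (FR.of_finite (zr ω)) (F n)) _
      (c := exp ((H + τ / 2) * (F n).card)) (fun x1 _ => ?_)).trans
      ((mul_le_mul_of_nonneg_right (hpat n) (exp_pos _).le).trans (le_of_eq (by
        rw [← exp_add]; congr 1; ring)))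
    refine le_trans (Nat.cast_le.2 (cnt_mono (FR_nm hω _) inter_subset_right))
      ((hK _ x1).trans (exp_le_exp.2 ?_))
    have c1 := mul_le_mul_of_nonneg_left (n3 n hn) L0
    have c2 : L * (τ / 4 / (L + 1)) ≤ τ / 4 := by
      rw [mul_div_assoc', div_le_iff₀ (by positivity)]; nlinarith
    nlinarith [mul_le_mul_of_nonneg_right c2 (hF.card_pos n).le]
  · have := hl' univ
    simp only [a1] at this
    exact tendsto_nhds_unique this tendsto_const_nhds
  · rw [hν]
    refine mul_le_mul ?_ (m.μ_mono inter_subset_right) (m.μ_nonneg _) (by norm_num)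
    rw [inv_le_comm₀ (by linarith [g1 n]) (by norm_num)]
    linarith [g1 n]
  · refine le_antisymm (le_of_tendsto (hl' _)
      (Filter.Eventually.filter_mono Nat.hyperfilter_le_atTop ?_)) (ν.μ_nonneg _)
    filter_upwards [eventually_ge_atTop n] with k hk
    have : Gd k ∩ Bd n = ∅ := eq_empty_of_forall_notMem (fun x hx =>
      hx.1 (mem_iUnion₂.2 ⟨n, Finset.mem_Icc.2 ⟨hn, hk⟩, hx.2⟩))
    rw [hν, this, m.μ_empty, mul_zero]

end Pool.Agent.P.MP_4cf0b2_an
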