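import Mathlib
import Pool.Agent.P.MP_4cf0b2_an.SMBF
import Pool.Agent.P.MP_4cf0b2_an.StageB

set_option autoImplicit false
set_option linter.unusedSectionVars false

namespace Pool.Agent.P.MP_4cf0b2_an

open Set Filter Real
open scoped Topology Pointwise

variable {G X : Type*} [Group G] [DecidableEq G] [MulAction G X] {F : ℕ → Finset G}

lemma Mean.mi_markov (m : Mean X) (h1 : m.μ univ = 1) {α β : Type*} {f : X → α} {g : X → β}
    (hf : FR f) (hg : FR g) (t : ℝ) :
    t * m.μ {x | exp (t + 1) * (m.pr f x * m.pr g x) ≤ m.pr (fun y => (f y, g y)) x} ≤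
      m.H f + m.H g - m.H (fun y => (f y, g y)) := by
  have := m.cmi_markov h1 hf hg (h := fun _ => ()) (fun _ _ _ => rfl) (fun _ _ _ => rfl) t
  have e : ∀ x, m.pr (fun _ => ()) x = 1 := fun x => by simp [Mean.pr, h1]
  simpa only [e, mul_one, m.H_const h1 (f := fun _ => ()) (fun _ _ => rfl), add_zero] using this

theorem tileF (hF : Admissible F) {β γ : Type*} {m : Mean X} {ω : X → β} (ht1 : m.μ univ = 1)
    (hi : m.Inv G) (hω : FR ω) {P : X → γ} (hP : FR P) (hd : Det P ω) {α τ σ : ℝ} (hα : 0 < α)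
    (hτ : 0 < τ) (hσ : 0 < σ) :
    ∃ T : Finset G, ∀ N : ℕ, ∀ᶠ M in atTop, ∃ (Cov : Finset G)
      (t : X → (G → Option γ) × (ℕ × G → Option ℕ)), FR t ∧ Cov ⊆ F M ∧
      ((F M \ Cov).card : ℝ) ≤ σ * (F M).card ∧
      m.μ {x | exp (τ * (F M).card + 1) * (m.pr t x * m.pr (nm ω Cov) x) ≤
        m.pr (fun y => (t y, nm ω Cov y)) x} ≤ α ∧
      (∀ x y, t x = t y → ∀ n ≤ M, ∀ g ∈ F n, g ∉ Cov → P (g • x) = P (g • y)) ∧
      (∀ n < N, ∀ g ∈ F n, g ∉ Cov) ∧
      (∀ x y, t x = t y → ∀ S : Finset G, (∀ g ∈ S, ω (g • x) = ω (g • y)) →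
        ∀ g ∈ S, g ∈ Cov → g ∉ bdy T S → P (g • x) = P (g • y)) := by
  classical
  have hX : Nonempty X := by
    obtain ⟨x, -⟩ := m.nonempty_of_pos (Y := univ) (by rw [ht1]; exact one_pos)
    exact ⟨x⟩
  obtain ⟨C, hC⟩ : ∃ C, Tempered F C := hF.2.2.1
  have C0 := hC.1
  obtain ⟨hp, hp0, hlow, hup⟩ := hi.rate ht1 hP
  obtain ⟨h0, h00, hlow', hup'⟩ := hi.rate ht1 hω
  set a := α * τ with ha
  have a0' : 0 < a := by positivity
  set δ : ℝ := a / (4 * (C + 2)) with hδ
  have δ0 : 0 < δ := by positivity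
  obtain ⟨K1, hK1⟩ := hup δ δ0
  obtain ⟨K2, hK2⟩ := hup' δ δ0
  set K := K1 ∪ K2 with hK
  set L : ℝ := (hp + h0 + δ) * K.card with hL
  have k0 : (0 : ℝ) ≤ K.card := Nat.cast_nonneg _
  have L0 : 0 ≤ L := by positivity
  have L1 : (hp + δ) * K.card ≤ L := by nlinarith
  have L2 : (h0 + δ) * K.card ≤ L := by nlinarith
  have a0 : 0 ≤ log (cnt P univ) := log_natCast_nonneg _
  obtain ⟨N1, hN1⟩ := eventually_atTop.1 ((hF.bdy_le K (δ := a / (24 * (L + 1)))
    (by positivity)).and (hF.tendsto_card.eventually (log_small a0 (κ := a / 8) (by positivity))))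
  obtain ⟨K', L', N', L0', hq⟩ := quasi_tile hF (ε := 1 / 2) (σ := σ / 4) (by norm_num)
    (by norm_num) (by positivity) N1
  set U := (Finset.range (N' + 1)).biUnion F with hU
  refine ⟨U * U⁻¹, fun N => ?_⟩
  set UN := (Finset.range N).biUnion F with hUN
  filter_upwards [hF.inv_hull hC K (ρ := a / (4 * (L + 1))) (by positivity),
    hF.bdy_le K' (δ := σ / 4 / (L' + 1)) (by positivity),
    (hF.tendsto_card.const_mul_atTop (half_pos hσ)).eventually_ge_atTop
      (L' * (bdy K' UN).card + UN.card)] with M hW hb hN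
  obtain ⟨W, hW1, hW2, hW3⟩ := hW
  have f0 := hF.card_pos M
  obtain ⟨J, j1, j2, j3⟩ := hq (F M \ UN)
  set Tl : ℕ × G → Finset G := fun p => rt (F p.1) p.2 with hTl
  set Cov := J.biUnion Tl with hCov
  have hC1 : Cov ⊆ F M \ UN := Finset.biUnion_subset.2 (fun p hp => (j1 p hp).2.2)
  have hCF : Cov ⊆ F M := hC1.trans Finset.sdiff_subset
  have hCN : ∀ n < N, ∀ g ∈ F n, g ∉ Cov := fun n hn g hg hg' =>
    (Finset.mem_sdiff.1 (hC1 hg')).2 (Finset.mem_biUnion.2 ⟨n, Finset.mem_range.2 hn, hg⟩)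
  have hCW : Cov ⊆ W := hCF.trans (hW1 M le_rfl)
  have cf : (Cov.card : ℝ) ≤ (F M).card := by exact_mod_cast Finset.card_le_card hCF
  have hunc : ((F M \ Cov).card : ℝ) ≤ σ * (F M).card := by
    have b1 : ((F M \ Cov).card : ℝ) ≤ ((F M \ UN) \ Cov).card + UN.card := by
      have : F M \ Cov ⊆ ((F M \ UN) \ Cov) ∪ UN := fun g hg => by
        simp only [Finset.mem_sdiff, Finset.mem_union] at hg ⊢; tauto
      exact_mod_cast (Finset.card_le_card this).trans (Finset.card_union_le _ _)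
    have b2 : ((bdy K' (F M \ UN)).card : ℝ) ≤ (bdy K' (F M)).card + (bdy K' UN).card := by
      exact_mod_cast (Finset.card_le_card (bdy_sdiff _ _ _)).trans (Finset.card_union_le _ _)
    have b3 : ((F M \ UN).card : ℝ) ≤ (F M).card := by
      exact_mod_cast Finset.card_le_card Finset.sdiff_subset
    have b4 : L' * (σ / 4 / (L' + 1)) ≤ σ / 4 := by
      rw [mul_div_assoc', div_le_iff₀ (by positivity)]; nlinarith
    have b5 := mul_le_mul_of_nonneg_left b2 L0'
    have b6 := mul_le_mul_of_nonneg_left hb L0'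
    have b7 := mul_le_mul_of_nonneg_right b4 f0.le
    have b8 := mul_le_mul_of_nonneg_left b3 hσ.le
    linarith
  set Sg := ∑ p ∈ J, ((F p.1).card : ℝ) with hSg
  have v1 : Sg ≤ 2 * (F M).card := by linarith
  have : Nonempty (ℕ × G) := ⟨(0, 1)⟩
  set o : G → ℕ × G := fun g => Classical.epsilon (fun c => c ∈ J ∧ g ∈ Tl c) with ho
  have ho1 : ∀ g ∈ Cov, o g ∈ J ∧ g ∈ Tl (o g) := fun g hg =>
    Classical.epsilon_spec (p := fun c => c ∈ J ∧ g ∈ Tl c) (Finset.mem_biUnion.1 hg)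
  set S : ℕ × G → Finset G := fun c => Cov.filter (fun g => o g = c) with hS
  set B := J.biUnion (fun c => bdy K (Tl c)) with hB
  have hSB : ∀ c, bdy K (S c) ⊆ B := by
    intro c g hg
    by_contra h
    simp only [hB, Finset.mem_biUnion, not_exists, not_and, notMem_bdy] at h
    obtain ⟨s, hs, h'⟩ := mem_bdy.1 hg
    apply h'
    have e1 : o g = o (s * g) := by
      simp only [ho]
      congr 1
      funext c'
      exact propext (and_congr_right (fun hc' => h c' hc' s hs))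
    have e2 : g ∈ Cov ↔ s * g ∈ Cov := by
      simp only [hCov, Finset.mem_biUnion]
      exact exists_congr (fun c' => and_congr_right (fun hc' => h c' hc' s hs))
    simp only [hS, Finset.mem_filter, e1, e2]
  have hBc : (B.card : ℝ) ≤ a / (12 * (L + 1)) * (F M).card := by
    have h1 : (B.card : ℝ) ≤ ∑ c ∈ J, ((bdy K (Tl c)).card : ℝ) := by
      exact_mod_cast Finset.card_biUnion_le
    have h2 : ∑ c ∈ J, ((bdy K (Tl c)).card : ℝ) ≤ a / (24 * (L + 1)) * Sg := by
      rw [hSg, Finset.mul_sum]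
      refine Finset.sum_le_sum (fun c hc => ?_)
      simp only [hTl, bdy_rt, card_rt]
      exact (hN1 _ (j1 c hc).1).1
    have h3 : a / (12 * (L + 1)) = 2 * (a / (24 * (L + 1))) := by field_simp; ring
    have h4 : 0 < a / (24 * (L + 1)) := by positivity
    rw [h3]
    linarith [mul_le_mul_of_nonneg_left v1 h4.le]
  have hS1 : ∑ c ∈ J, ((S c).card : ℝ) = Cov.card := by
    exact_mod_cast (Finset.card_eq_sum_card_fiberwise (fun g hg => (ho1 g hg).1)).symm
  have hS2 : ∑ c ∈ J, ((S c ∩ B).card : ℝ) ≤ B.card := by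
    have h1 := Finset.card_eq_sum_card_fiberwise (s := Cov ∩ B) (t := J) (f := o)
      (fun g hg => (ho1 g (Finset.mem_inter.1 hg).1).1)
    have h2 : ∀ c, S c ∩ B = (Cov ∩ B).filter (fun g => o g = c) := fun c => by
      ext g; simp only [hS, Finset.mem_inter, Finset.mem_filter]; tauto
    simp only [h2]
    exact_mod_cast h1.symm.le.trans (Finset.card_le_card Finset.inter_subset_right)
  have hST : ∀ c, S c ⊆ Tl c := fun c g hg => by
    obtain ⟨h1, h2⟩ := Finset.mem_filter.1 hg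
    exact h2 ▸ (ho1 g h1).2
  choose ψ hψ1 hψ2 hψ3 using fun c => m.exists_rank ht1 (FR_nm hP (S c))
    (nm_det hd (Finset.Subset.refl (S c)))
  set t : X → (G → Option γ) × (ℕ × G → Option ℕ) := fun x => (nm P (W \ Cov) x, tup ψ J x) with ht
  have Ft : FR t := FR.prod (FR_nm hP _) (FR_tup (fun c _ => hψ1 c))
  have det1 : ∀ x y, t x = t y → ∀ g ∈ Cov, (∀ g' ∈ S (o g), ω (g' • x) = ω (g' • y)) →
      P (g • x) = P (g • y) := by
    intro x y e g hg h
    simp only [ht, Prod.mk.injEq, tup_eq_iff] at e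
    exact nm_eq_iff.1 (hψ2 (o g) x y (nm_eq_iff.2 h) (e.2 _ (ho1 g hg).1)) g
      (Finset.mem_filter.2 ⟨hg, rfl⟩)
  have det2 : ∀ x y, t x = t y → ∀ g ∈ W, g ∉ Cov → P (g • x) = P (g • y) := by
    intro x y e g hg hg'
    simp only [ht, Prod.mk.injEq, nm_eq_iff] at e
    exact e.1 g (Finset.mem_sdiff.2 ⟨hg, hg'⟩)
  have b0 : (0 : ℝ) ≤ B.card := Nat.cast_nonneg _
  have cv0 : (0 : ℝ) ≤ Cov.card := Nat.cast_nonneg _
  refine ⟨Cov, t, Ft, hCF, hunc, ?_,
    fun x y e n hn g hg hg' => det2 x y e g (hW1 n hn hg) hg', hCN, ?_⟩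
  · have e0 := m.mi_markov ht1 Ft (FR_nm hω Cov) (τ * (F M).card)
    have e1 : m.H (nm ω Cov) ≤ (h0 + δ) * Cov.card + L * B.card :=
      (hK2 Cov).trans (mul_card_le_bdy Finset.subset_union_right (by positivity) L2
          Cov B (Finset.inter_subset_right.trans (bdy_biUnion _ _ _)))
    have e2 : m.H (nm P W) ≤ m.H (fun y => (t y, nm ω Cov y)) := by
      refine m.H_mono (FR.prod Ft (FR_nm hω _)) (fun x y e => ?_)
      simp only [Prod.mk.injEq, nm_eq_iff] at e ⊢
      intro g hg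
      by_cases hg' : g ∈ Cov
      · exact det1 x y e.1 g hg' (fun g' h' => e.2 g' (Finset.mem_filter.1 h').1)
      · exact det2 x y e.1 g hg hg'
    have e3 := hlow W
    have e4 : m.H t ≤ m.H (nm P (W \ Cov)) + ∑ c ∈ J, m.H (ψ c) :=
      (m.H_pair_le ht1 (FR_nm hP _) (FR_tup (fun c _ => hψ1 c))).trans
        (add_le_add_right (m.H_tup_le ht1 (fun c _ => hψ1 c)) _)
    have e5 : m.H (nm P (W \ Cov)) ≤ (hp + δ) * (W \ Cov).card + L * (bdy K W ∪ B).card :=
      (hK1 _).trans (mul_card_le_bdy Finset.subset_union_left (by positivity) L1 _ _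
        (Finset.inter_subset_right.trans ((bdy_sdiff _ _ _).trans
          (Finset.union_subset_union_right (bdy_biUnion _ _ _)))))
    have e6 : ((bdy K W ∪ B).card : ℝ) ≤ (bdy K W).card + B.card := by
      exact_mod_cast Finset.card_union_le _ _
    have e7 : ((W \ Cov).card : ℝ) = W.card - Cov.card := by
      rw [Finset.card_sdiff_of_subset hCW, Nat.cast_sub (Finset.card_le_card hCW)]
    have e8 : ∑ c ∈ J, m.H (ψ c) ≤ ∑ c ∈ J,
        ((hp + δ - h0) * (S c).card + L * (S c ∩ B).card + a / 8 * (F c.1).card) := by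
      refine Finset.sum_le_sum (fun c hc => (hψ3 c).trans ?_)
      have g1 := (hK1 (S c)).trans (mul_card_le_bdy Finset.subset_union_left (by positivity) L1 _
        (S c ∩ B) (Finset.inter_subset_inter_left (hSB c)))
      have g2 := hlow' (S c)
      have g3 := log_cnt_nm_le hP (S c) (k := (F c.1).card)
        ((Finset.card_le_card (hST c)).trans (card_rt _ _).le)
      have g4 : log (1 + log (cnt (nm P (S c)) univ)) ≤
          log (1 + (F c.1).card * log (cnt P univ)) :=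
        log_le_log (by have := log_natCast_nonneg (cnt (nm P (S c)) univ); positivity)
          (by linarith)
      linarith [(hN1 _ (j1 c hc).1).2]
    rw [Finset.sum_add_distrib, Finset.sum_add_distrib, ← Finset.mul_sum, ← Finset.mul_sum, hS1,
      ← Finset.mul_sum, ← hSg] at e8
    have e9 := mul_le_mul_of_nonneg_left hS2 L0
    have e10 := mul_le_mul_of_nonneg_left e6 L0
    have e11 : L * B.card ≤ a / 12 * (F M).card := by
      refine (mul_le_mul_of_nonneg_left hBc L0).trans ?_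
      rw [← mul_assoc]
      refine mul_le_mul_of_nonneg_right ?_ f0.le
      rw [mul_div_assoc', div_le_div_iff₀ (by positivity) (by norm_num)]
      linarith
    have e12 : L * (bdy K W).card ≤ a / 4 * (F M).card := by
      refine (mul_le_mul_of_nonneg_left hW3 L0).trans ?_
      rw [← mul_assoc]
      refine mul_le_mul_of_nonneg_right ?_ f0.le
      rw [mul_div_assoc', div_le_div_iff₀ (by positivity) (by norm_num)]
      linarith
    have e13 : δ * (Cov.card + W.card) ≤ a / 4 * (F M).card := by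
      have : δ * (C + 2) = a / 4 := by rw [hδ]; field_simp
      rw [← this, mul_assoc]
      exact mul_le_mul_of_nonneg_left (by linarith) δ0.le
    have e14 := mul_le_mul_of_nonneg_left v1 a0'.le
    rw [e7] at e5
    refine le_of_mul_le_mul_left (e0.trans ?_) (mul_pos hτ f0)
    have e15 : τ * (F M).card * α = a * (F M).card := by rw [ha]; ring
    linarith
  · intro x y e S' hS' g hg hgC hgb
    refine det1 x y e g hgC (fun g' hg' => hS' g' ?_)
    have hU' : F (o g).1 ⊆ U := Finset.subset_biUnion_of_mem F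
      (Finset.mem_range.2 (Nat.lt_succ_of_le (j1 _ (ho1 g hgC).1).2.1))
    have h1 := hU' (mem_rt.1 (hST _ hg'))
    have h2 := hU' (mem_rt.1 (ho1 g hgC).2)
    have := (notMem_bdy.1 hgb _ (Finset.mul_mem_mul h1 (Finset.inv_mem_inv h2))).1 hg
    simpa [mul_assoc] using this

theorem stageBF (hF : Admissible F) {A γ : Type*} [Finite A] {m ν : Mean X} {ω : X → Option A}
    {H τ h : ℝ} {N0 : ℕ} {Bd : ℕ → Set X} (hm : Res G F m ω H τ N0 Bd) (hτ : 0 < τ)
    (hbig : h + 6 * τ ≤ H) (n2 : Dom ν 2 m) (n3 : ∀ n, N0 ≤ n → ν.μ (Bd n) = 0)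
    {P : X → γ} (hP : FR P) (hd : Det P ω) {η α : ℝ} (hη : 0 < η) (hα : 0 < α) :
    ∀ᶠ N in atTop, ∀ᶠ M in atTop, ∀ Y : Set X, α ≤ ν.μ Y → ∃ 𝒮 : Finset (Set X),
      (∀ B ∈ 𝒮, B ⊆ Y ∧ 0 < ν.μ B) ∧ (∀ n < N, cnt (nm P (F n)) (⋃ B ∈ 𝒮, B) ≤ 1) ∧
      (∀ n, N ≤ n → n ≤ M → (cnt (nm P (F n)) (⋃ B ∈ 𝒮, B) : ℝ) ≤
        (exp (h * (F n).card) + 1) * exp (η * (F n).card)) ∧
      (𝒮.card : ℝ) ≤ exp (h * (F M).card) + 1 ∧
      ∃ n, N ≤ n ∧ ∃ 𝒯 ⊆ 𝒮, exp (h * (F n).card) ≤ 𝒯.card ∧ ∀ B ∈ 𝒯, ∀ B' ∈ 𝒯, B ≠ B' →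
        ∃ g ∈ F n, ∀ x ∈ B, ∀ y ∈ B',
          ω (g • x) ≠ ω (g • y) ∧ ω (g • x) ≠ none ∧ ω (g • y) ≠ none := by
  classical
  have hω : FR ω := FR.of_finite _
  have hX : Nonempty X := by
    obtain ⟨x, -⟩ := m.nonempty_of_pos (Y := univ) (by rw [hm.total]; exact one_pos)
    exact ⟨x⟩
  have a1 : 0 ≤ log (cnt ω univ) := log_natCast_nonneg _
  obtain ⟨T, hT⟩ := tileF hF hm.total hm.inv hω hP hd (α := α / 8) (by positivity) hτ
    (σ := τ / (log (cnt ω univ) + 1)) (by positivity)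
  have a0 : 0 ≤ log (cnt P univ) := log_natCast_nonneg _
  obtain ⟨N1, hN0⟩ := eventually_atTop.1
    (hF.bdy_le T (δ := η / (log (cnt P univ) + 1)) (by positivity))
  filter_upwards [eventually_ge_atTop N1] with N hN
  filter_upwards [hT N, eventually_ge_atTop N, eventually_ge_atTop N0,
    (hF.tendsto_card.const_mul_atTop hτ).eventually_ge_atTop (1 - log (α / 8)),
    hF.tail hτ (ρ := α / 8) (by positivity)] with M hM hNM hN0M hfM k4 Y hY
  replace k4 : exp (-τ * (F M).card) ≤ α / 8 := by simpa using k4 {M} (by simp)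
  obtain ⟨Cov, t, Ft, hCF, c1, hbad, D1, D1', D2⟩ := hM
  have f0 := hF.card_pos M
  set f := nm ω Cov with hf
  have Ff : FR f := FR_nm hω _
  set χ := nm (zr ω) Cov with hχ
  have Fχ : FR χ := FR_nm (FR.of_finite _) _
  set B1 := {x | exp (τ * (F M).card + 1) * (m.pr t x * m.pr f x) ≤
    m.pr (fun y => (t y, f y)) x} with hB1
  set B2 := {x | m.pr (fun y => (f y, nm ω (F M \ Cov) y)) x ≤
    exp (-(2 * τ) * (F M).card) * m.pr f x} with hB2
  have m2 : m.μ B2 ≤ α / 8 := by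
    refine (m.light hm.total Ff (FR_nm hω (F M \ Cov)) (c := exp (τ * (F M).card)) (fun x => ?_)
      (exp_pos _).le).trans (le_trans (le_of_eq ?_) k4)
    · refine le_trans (Nat.cast_le.2 (cnt_mono (FR_nm hω _) (subset_univ _))) ?_
      rw [← log_le_iff_le_exp (by exact_mod_cast cnt_pos (FR_nm hω _) univ_nonempty)]
      refine (log_cnt_nm_le hω _ le_rfl).trans ((mul_le_mul_of_nonneg_right c1 a1).trans ?_)
      rw [mul_right_comm]
      refine mul_le_mul_of_nonneg_right ?_ f0.le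
      rw [div_mul_eq_mul_div, div_le_iff₀ (by positivity)]
      linarith
    · rw [← exp_add]; congr 1; ring
  set Y1 := Y \ (B1 ∪ B2 ∪ Bd M) with hY1
  have g1 : α / 2 ≤ ν.μ Y1 := by
    linarith [ν.μ_inter_add_diff Y (B1 ∪ B2 ∪ Bd M), n3 M hN0M, n2 B1, n2 B2,
      ν.μ_mono (inter_subset_right (s := Y) (t := B1 ∪ B2 ∪ Bd M)),
      ν.μ_union_le (B1 ∪ B2) (Bd M), ν.μ_union_le B1 B2]
  obtain ⟨x0, hx0⟩ := ν.pick Ft Y1 (fun a => α / 4 * m.μ {y | t y = a}) (by
    rw [← Finset.mul_sum, m.sum_cells' Ft, hm.total]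
    linarith)
  obtain ⟨x1, hx1, hx1'⟩ : ∃ x1 ∈ Y1 ∩ {y | t y = t x0}, α / 4 * m.μ {y | t y = t x0} *
      exp (-τ * (F M).card) < ν.μ (Y1 ∩ {y | t y = t x0} ∩ {y | χ y = χ x1}) := by
    by_contra hcon
    push Not at hcon
    have b1 := ν.μ_le_cnt Fχ _ hcon
    have b2 : (cnt χ (Y1 ∩ {y | t y = t x0}) : ℝ) ≤ exp (τ * (F M).card) :=
      le_trans (Nat.cast_le.2 ((cnt_det (FR_nm (FR.of_finite _) (F M))
        (fun x _ y _ e => nm_det (det_refl _) hCF x y e)).trans (cnt_mono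
          (FR_nm (FR.of_finite _) (F M)) (fun x hx h => hx.1.2 (Or.inr h))))) (hm.i2 M)
    have b3 := m.μ_nonneg {y | t y = t x0}
    have b4 := mul_le_mul_of_nonneg_right b2 (by positivity : 0 ≤ α / 4 * m.μ {y | t y = t x0} *
      exp (-τ * (F M).card))
    have b5 : exp (τ * (F M).card) * exp (-τ * (F M).card) = 1 := by rw [← exp_add]; simp
    have b6 : exp (τ * (F M).card) * (α / 4 * m.μ {y | t y = t x0} * exp (-τ * (F M).card)) =
      α / 4 * m.μ {y | t y = t x0} := by linear_combination (α / 4 * m.μ {y | t y = t x0}) * b5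
    linarith
  set R := Y1 ∩ {y | t y = t x0} ∩ {y | χ y = χ x1} with hR
  have R1 : ∀ x ∈ R, t x = t x0 := fun x hx => hx.1.2
  have R2 : ∀ x ∈ R, χ x = χ x1 := fun x hx => hx.2
  obtain ⟨V, hV1, hV2⟩ := ν.pos_values Ff R
    (b := 2 * (exp (-(H - 4 * τ) * (F M).card + 1) * m.μ {y | t y = t x0})) (fun x hx => by
      have h0 := hx.1.1.2
      simp only [mem_union, not_or, hB1, hB2, mem_ofPred_eq, not_le] at h0
      obtain ⟨⟨h1, h2⟩, h3⟩ := h0
      have h4 := hm.i1 M x h3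
      have h5 : m.pr (fun y => (f y, nm ω (F M \ Cov) y)) x ≤ m.pr (nm ω (F M)) x :=
        m.pr_mono (fun y z e => by
          simp only [Prod.mk.injEq, hf, nm_eq_iff, Finset.mem_sdiff] at e ⊢
          intro g hg
          by_cases hg' : g ∈ Cov
          · exact e.1 g hg'
          · exact e.2 g ⟨hg, hg'⟩) x
      have h6 : m.pr f x ≤ exp (-(H - 3 * τ) * (F M).card) := by
        refine le_of_mul_le_mul_left ((h2.le.trans (h5.trans h4)).trans (le_of_eq ?_)) (exp_pos _)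
        rw [← exp_add]; congr 1; ring
      rw [← R1 x hx]
      refine (n2 _).trans (mul_le_mul_of_nonneg_left (le_trans (m.μ_mono ?_) (h1.le.trans ?_))
        zero_le_two)
      · rintro y ⟨hy1, hy2⟩
        exact Prod.ext ((R1 y hy1).trans (R1 x hx).symm) hy2
      · refine (mul_le_mul_of_nonneg_left (mul_le_mul_of_nonneg_left h6 (m.pr_nonneg _ _))
          (exp_pos _).le).trans (le_of_eq ?_)
        rw [mul_comm (m.pr t x), ← mul_assoc, ← exp_add]
        congr 2; ring)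
  have hVc : exp (h * (F M).card) ≤ V.card := by
    have p0 : 0 < m.μ {y | t y = t x0} := by
      have b1 := m.μ_nonneg {y | t y = t x0}
      have b2 := (ν.μ_mono (inter_subset_right (s := Y1))).trans (n2 {y | t y = t x0})
      have b3 : 0 ≤ α / 4 * m.μ {y | t y = t x0} := by positivity
      linarith
    have h1 : α / 8 * exp (-τ * (F M).card) ≤ V.card * exp (-(H - 4 * τ) * (F M).card + 1) := by
      refine le_of_mul_le_mul_right ?_ p0
      linarith [hx1'.le.trans hV2]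
    refine le_of_mul_le_mul_right (le_trans ?_ h1) (exp_pos _)
    rw [← exp_log (x := α / 8) (by positivity), ← exp_add, ← exp_add]
    apply exp_le_exp.2
    linarith [mul_le_mul_of_nonneg_right hbig f0.le]
  set Z : Finset (G → Option (Option A)) → Set X := fun V' => R ∩ {x | f x ∈ V'} with hZ
  have detω : ∀ n ≤ M, ∀ x ∈ R, ∀ y ∈ R, f x = f y → nm ω (F n) x = nm ω (F n) y := by
    intro n hn x hx y hy e
    rw [nm_eq_iff]
    intro g hg
    by_cases hg' : g ∈ Cov
    · exact nm_eq_iff.1 e g hg'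
    · exact hd _ _ (D1 x y ((R1 x hx).trans (R1 y hy).symm) n hn g hg hg')
  have hcardZ : ∀ V' ⊆ V, V'.card ≤ cnt (nm ω (F M)) (Z V') := by
    intro V' hV'
    refine le_trans (card_le_cnt Ff (fun v hv => ?_))
      (cnt_det (FR_nm hω _) (fun x _ y _ e => nm_det (det_refl ω) hCF x y e))
    obtain ⟨x, hx1, hx2⟩ := ν.nonempty_of_pos (hV1 v (hV' hv))
    exact ⟨x, ⟨hx1, by rw [mem_ofPred_eq, hx2]; exact hv⟩, hx2⟩
  obtain ⟨V', hV', ⟨n1, hn1, w1⟩, w2⟩ := greedy (fun n V' => (cnt (nm ω (F n)) (Z V') : ℝ))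
    (fun n => exp (h * (F n).card)) (Icc N M) (fun n _ => by simp [hZ, cnt_empty, exp_pos]) V
    (fun n hn v V' => by
      have h1 : Z (insert v V') ⊆ Z V' ∪ (R ∩ {x | f x = v}) := by
        rintro x ⟨hx1, hx2⟩
        rcases Finset.mem_insert.1 hx2 with h | h
        · exact Or.inr ⟨hx1, h⟩
        · exact Or.inl ⟨hx1, h⟩
      have h2 : cnt (nm ω (F n)) (R ∩ {x | f x = v}) ≤ 1 :=
        cnt_le_one (fun x hx y hy => detω n hn.2 x hx.1 y hy.1 (hx.2.trans hy.2.symm))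
      exact_mod_cast (cnt_mono (FR_nm hω _) h1).trans ((cnt_union_le _ _ _).trans
        (Nat.add_le_add_left h2 _)))
    ⟨M, ⟨hNM, le_rfl⟩, hVc.trans (by exact_mod_cast hcardZ V (Finset.Subset.refl _))⟩
  have hU : (⋃ B ∈ V'.image (fun v => R ∩ {x | f x = v}), B) ⊆ Z V' := by
    intro x hx
    simp only [mem_iUnion, Finset.mem_image] at hx
    obtain ⟨_, ⟨v, hv, rfl⟩, hx1, hx2⟩ := hx
    exact ⟨hx1, by rw [mem_ofPred_eq, hx2]; exact hv⟩
  refine ⟨V'.image (fun v => R ∩ {x | f x = v}), ?_, ?_, ?_, ?_, n1, hn1.1, ?_⟩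
  · intro B hB
    obtain ⟨v, hv, rfl⟩ := Finset.mem_image.1 hB
    exact ⟨fun x hx => hx.1.1.1.1, hV1 v (hV' hv)⟩
  · intro n hn
    refine cnt_le_one (fun x hx y hy => nm_eq_iff.2 (fun g hg => ?_))
    exact D1 x y ((R1 x (hU hx).1).trans (R1 y (hU hy).1).symm) n (hn.le.trans hNM) g hg
      (D1' n hn g hg)
  · intro n hn hn'
    have h1 := (cnt_mono (FR_nm hP (F n)) hU).trans ((cnt_det (Y := Z V') (g := nm P (F n))
      (FR.prod (FR_nm hω (F n)) (FR_nm hP (bdy T (F n)))) (fun x hx y hy e => by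
        simp only [Prod.mk.injEq, nm_eq_iff] at e ⊢
        intro g hg
        have et := (R1 x hx.1).trans (R1 y hy.1).symm
        by_cases hg1 : g ∈ Cov
        · by_cases hg2 : g ∈ bdy T (F n)
          · exact e.2 g hg2
          · exact D2 x y et (F n) e.1 g hg hg1 hg2
        · exact D1 x y et n hn' g hg hg1)).trans (cnt_pair_le (FR_nm hω _) (FR_nm hP _) _))
    have h2 : (cnt (nm P (bdy T (F n))) (Z V') : ℝ) ≤ exp (η * (F n).card) := by
      refine le_trans (by exact_mod_cast cnt_mono (FR_nm hP _) (subset_univ _))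
        (b := (cnt (nm P (bdy T (F n))) univ : ℝ)) ?_
      rw [← log_le_iff_le_exp (by exact_mod_cast cnt_pos (FR_nm hP _) univ_nonempty)]
      refine (log_cnt_nm_le hP _ le_rfl).trans ?_
      refine (mul_le_mul_of_nonneg_right (hN0 n (hN.trans hn)) a0).trans ?_
      rw [mul_right_comm]
      refine mul_le_mul_of_nonneg_right ?_ (hF.card_pos n).le
      rw [div_mul_eq_mul_div, div_le_iff₀ (by positivity)]
      linarith
    refine le_trans (by exact_mod_cast h1) (b := (cnt (nm ω (F n)) (Z V') : ℝ) *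
      cnt (nm P (bdy T (F n))) (Z V')) ?_
    exact mul_le_mul (w2 n ⟨hn, hn'⟩) h2 (Nat.cast_nonneg _) (by positivity)
  · refine le_trans ?_ (w2 M ⟨hNM, le_rfl⟩)
    exact_mod_cast Finset.card_image_le.trans (hcardZ V' hV')
  · set J := ((FR_nm hω (F n1)).img (Z V')).toFinset with hJ
    have hJ1 : ∀ w ∈ J, ∃ x ∈ Z V', nm ω (F n1) x = w := fun w hw =>
      (Set.Finite.mem_toFinset ((FR_nm hω (F n1)).img (Z V'))).1 hw
    choose! p hp1 hp2 using hJ1
    have hp3 : ∀ w ∈ J, ∀ x ∈ R ∩ {x | f x = f (p w)}, nm ω (F n1) x = w := fun w hw x hx =>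
      (detω n1 hn1.2 x hx.1 _ (hp1 w hw).1 hx.2).trans (hp2 w hw)
    refine ⟨J.image (fun w => R ∩ {x | f x = f (p w)}), ?_, ?_, ?_⟩
    · intro B hB
      obtain ⟨w, hw, rfl⟩ := Finset.mem_image.1 hB
      exact Finset.mem_image.2 ⟨_, (hp1 w hw).2, rfl⟩
    · rw [Finset.card_image_of_injOn]
      · refine w1.trans (le_of_eq ?_)
        simp only [cnt, hJ]
        rw [Set.ncard_eq_toFinset_card _ ((FR_nm hω (F n1)).img (Z V'))]
      · intro w hw w' hw' e
        have h1 : p w ∈ R ∩ {x | f x = f (p w)} := ⟨(hp1 w hw).1, rfl⟩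
        have e' : R ∩ {x | f x = f (p w)} = R ∩ {x | f x = f (p w')} := e
        exact (hp3 w hw _ h1).symm.trans (hp3 w' hw' _ (e' ▸ h1))
    · intro B hB B' hB' hne
      obtain ⟨w, hw, rfl⟩ := Finset.mem_image.1 hB
      obtain ⟨w', hw', rfl⟩ := Finset.mem_image.1 hB'
      have h1 : w ≠ w' := fun e => hne (by rw [e])
      rw [← hp2 w hw, ← hp2 w' hw', Ne, nm_eq_iff] at h1
      push Not at h1
      obtain ⟨g, hg, h1⟩ := h1
      refine ⟨g, hg, fun x hx y hy => ?_⟩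
      have e1 := nm_eq_iff.1 ((hp3 w hw x hx).trans (hp2 w hw).symm) g hg
      have e2 := nm_eq_iff.1 ((hp3 w' hw' y hy).trans (hp2 w' hw').symm) g hg
      have h2 : ω (g • x) ≠ ω (g • y) := by rw [e1, e2]; exact h1
      have h3 : g ∈ Cov := by
        by_contra h3
        exact h2 (hd _ _ (D1 x y ((R1 x hx.1).trans (R1 y hy.1).symm) n1 hn1.2 g hg h3))
      have h4 : (ω (g • x) = none) = (ω (g • y) = none) :=
        nm_eq_iff.1 ((R2 x hx.1).trans (R2 y hy.1).symm) g h3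
      refine ⟨h2, fun e => h2 ?_, fun e => h2 ?_⟩
      · rw [e, (h4 ▸ e : ω (g • y) = none)]
      · rw [e, (h4.symm ▸ e : ω (g • x) = none)]

end Pool.Agent.P.MP_4cf0b2_an
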