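import Mathlib
import Pool.Agent.P.MP_4cf0b2_an.PartB
import Pool.Agent.P.MP_4cf0b2_an.TileF

set_option autoImplicit false
set_option linter.unusedSectionVars false

namespace Pool.Agent.P.MP_4cf0b2_an

open Set Filter Real
open scoped Topology Pointwise ENNReal NNReal

variable {G X : Type*} [Group G] [DecidableEq G] [MulAction G X] [MetricSpace X]
  {F : ℕ → Finset G}

/-- the conclusion of one stage -/
def Stage {A γ : Type*} (F : ℕ → Finset G) (m : Mean X) (ω : X → Option A) (P : X → γ)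
    (h : ℝ) : Prop :=
  ∀ η > 0, ∀ α > 0, ∀ᶠ N in atTop, ∀ᶠ M in atTop, ∀ Y : Set X, α ≤ m.μ Y → ∃ 𝒮 : Finset (Set X),
      (∀ B ∈ 𝒮, B ⊆ Y ∧ 0 < m.μ B) ∧ (∀ n < N, cnt (nm P (F n)) (⋃ B ∈ 𝒮, B) ≤ 1) ∧
      (∀ n, N ≤ n → n ≤ M → (cnt (nm P (F n)) (⋃ B ∈ 𝒮, B) : ℝ) ≤
        (exp (h * (F n).card) + 1) * exp (η * (F n).card)) ∧
      (𝒮.card : ℝ) ≤ exp (h * (F M).card) + 1 ∧
      ∃ n, N ≤ n ∧ ∃ 𝒯 ⊆ 𝒮, exp (h * (F n).card) ≤ 𝒯.card ∧ ∀ B ∈ 𝒯, ∀ B' ∈ 𝒯, B ≠ B' →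
        ∃ g ∈ F n, ∀ x ∈ B, ∀ y ∈ B',
          ω (g • x) ≠ ω (g • y) ∧ ω (g • x) ≠ none ∧ ω (g • y) ≠ none

theorem stepB' (hF : Admissible F) {A γ : Type*} [Finite A] {m : Mean X} {ω : X → Option A}
    {h : ℝ} (hh : 0 ≤ h) {P : X → γ} (hst : Stage F m ω P h) {η η' : ℝ} (hη' : 0 < η') (hη : η' ≤ η) (𝒜 : Finset (Set X)) (N : ℕ)
    (h1 : 𝒜.Nonempty) (h2 : ∀ Y ∈ 𝒜, 0 < m.μ Y)
    (h3 : ∀ n, N ≤ n → (𝒜.card : ℝ) ≤ exp ((h + η) * (F n).card)) :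
    ∃ (𝒜' : Finset (Set X)) (N' : ℕ), (𝒜'.Nonempty ∧ (∀ Y ∈ 𝒜', 0 < m.μ Y) ∧
      ∀ n, N' ≤ n → (𝒜'.card : ℝ) ≤ exp ((h + η') * (F n).card)) ∧ N < N' ∧
      (∀ B ∈ 𝒜', ∃ Y ∈ 𝒜, B ⊆ Y) ∧ (∀ n, N ≤ n → n < N' →
        (cnt (nm P (F n)) (⋃ B ∈ 𝒜', B) : ℝ) ≤ exp ((h + η) * (F n).card)) ∧
      ∀ Y ∈ 𝒜, ∃ n, N ≤ n ∧ ∃ 𝒯 ⊆ 𝒜', (∀ B ∈ 𝒯, B ⊆ Y) ∧ exp (h * (F n).card) ≤ 𝒯.card ∧
        ∀ B ∈ 𝒯, ∀ B' ∈ 𝒯, B ≠ B' → ∃ g ∈ F n, ∀ x ∈ B, ∀ y ∈ B',
          ω (g • x) ≠ ω (g • y) ∧ ω (g • x) ≠ none ∧ ω (g • y) ≠ none := by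
  classical
  obtain ⟨Y0, hY0, hmin⟩ := 𝒜.exists_min_image m.μ h1
  obtain ⟨N1, s1, s2, s3⟩ := ((hst _ (half_pos hη') _ (h2 Y0 hY0)).and
    ((eventually_ge_atTop N).and (eventually_forall_ge_atTop.2
      (exp_eventually hF (2 * 𝒜.card) (half_pos hη'))))).exists
  obtain ⟨M0, hM0⟩ := eventually_atTop.1 (s1.and (eventually_ge_atTop N1))
  obtain ⟨M, hM, hrec⟩ := exists_record F M0
  obtain ⟨s4, s5⟩ := hM0 M hM
  choose! 𝒮 t1 t2 t3 t4 t5 using fun Y (hY : Y ∈ 𝒜) => s4 Y (hmin Y hY)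
  have hU : (⋃ B ∈ 𝒜.biUnion 𝒮, B) = ⋃ Y ∈ 𝒜, ⋃ B ∈ 𝒮 Y, B := Finset.set_biUnion_biUnion _ _ _
  have e1 : ∀ n, exp (h * (F n).card) + 1 ≤ 2 * exp (h * (F n).card) := fun n => by
    have := one_le_exp (mul_nonneg hh (hF.card_pos n).le)
    linarith
  have a0 : (0 : ℝ) ≤ 𝒜.card := Nat.cast_nonneg _
  refine ⟨𝒜.biUnion 𝒮, M + 1, ⟨?_, ?_, ?_⟩, by omega, ?_, ?_, ?_⟩
  · obtain ⟨n, -, 𝒯, h4, h5, -⟩ := t5 Y0 hY0
    have : 0 < 𝒯.card := by exact_mod_cast (exp_pos _).trans_le h5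
    obtain ⟨B, hB⟩ := Finset.card_pos.1 this
    exact ⟨B, Finset.mem_biUnion.2 ⟨Y0, hY0, h4 hB⟩⟩
  · intro B hB
    obtain ⟨Y, hY, hB⟩ := Finset.mem_biUnion.1 hB
    exact (t1 Y hY B hB).2
  · intro n hn
    have c1 : ((𝒜.biUnion 𝒮).card : ℝ) ≤ ∑ Y ∈ 𝒜, ((𝒮 Y).card : ℝ) := by
      exact_mod_cast Finset.card_biUnion_le
    have c2 := Finset.sum_le_card_nsmul 𝒜 _ _ t4
    rw [nsmul_eq_mul] at c2
    have c3 : exp (h * (F M).card) ≤ exp (h * (F n).card) :=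
      exp_le_exp.2 (mul_le_mul_of_nonneg_left (by exact_mod_cast hrec n (by omega)) hh)
    have c4 := s3 n (by omega)
    have c5 : exp (η' / 2 * (F n).card) ≤ exp (η' * (F n).card) :=
      exp_le_exp.2 (by nlinarith [hF.card_pos n])
    rw [add_mul, exp_add]
    nlinarith [e1 M, exp_pos (h * (F n).card), mul_le_mul_of_nonneg_left (e1 M) a0,
      mul_le_mul_of_nonneg_left c3 a0]
  · intro B hB
    obtain ⟨Y, hY, hB⟩ := Finset.mem_biUnion.1 hB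
    exact ⟨Y, hY, (t1 Y hY B hB).1⟩
  · intro n hn hn'
    rw [hU]
    have c1 : (cnt (nm P (F n)) (⋃ Y ∈ 𝒜, ⋃ B ∈ 𝒮 Y, B) : ℝ) ≤
        ∑ Y ∈ 𝒜, (cnt (nm P (F n)) (⋃ B ∈ 𝒮 Y, B) : ℝ) := by
      exact_mod_cast cnt_biUnion_le _ _ _
    refine c1.trans ?_
    rcases lt_or_ge n N1 with h4 | h4
    · refine le_trans (Finset.sum_le_card_nsmul _ _ 1
        (fun Y hY => by exact_mod_cast t2 Y hY n h4)) ?_
      simpa using h3 n hn
    · refine le_trans (Finset.sum_le_card_nsmul _ _ _ (fun Y hY => t3 Y hY n h4 (by omega))) ?_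
      rw [nsmul_eq_mul]
      have c4 := s3 n h4
      have c5 : exp (η' / 2 * (F n).card) * exp (η' / 2 * (F n).card) ≤ exp (η * (F n).card) := by
        rw [← exp_add]
        exact exp_le_exp.2 (by nlinarith [hF.card_pos n])
      have p1 := exp_pos (h * (F n).card)
      have p2 := exp_pos (η' / 2 * (F n).card)
      rw [add_mul h η, exp_add]
      calc _ ≤ 𝒜.card * ((2 * exp (h * (F n).card)) * exp (η' / 2 * (F n).card)) := by
            gcongr; exact e1 n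
        _ = exp (h * (F n).card) * ((2 * 𝒜.card) * exp (η' / 2 * (F n).card)) := by ring
        _ ≤ exp (h * (F n).card) * (exp (η' / 2 * (F n).card) * exp (η' / 2 * (F n).card)) := by
            gcongr
        _ ≤ _ := by gcongr
  · intro Y hY
    obtain ⟨n, h4, 𝒯, h5, h6, h7⟩ := t5 Y hY
    exact ⟨n, s2.trans h4, 𝒯, h5.trans (Finset.subset_biUnion_of_mem 𝒮 hY),
      fun B hB => (t1 Y hY B (h5 hB)).1, h6, h7⟩

theorem exists_pack' [CompactSpace X] [Nonempty X] [ContinuousConstSMul G X] (hF : Admissible F)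
    (h : ℝ≥0) {r : ℕ} {ω : X → Option (Fin r)} {ι : X → Fin r} {ε : ℝ} {m : Mean X} (hε : 0 < ε)
    (hsep : ∀ x y, dist x y < 2 * ε → ω y = none ∨ ω y = some (ι x)) (hm : m.μ univ = 1)
    (hst : ∀ (k : ℕ) (Q : X → Fin k), Stage F m ω (fun x => (ω x, Q x)) h) :
    ∃ Z : Set X, Z.Nonempty ∧ PThin F Z h ∧ (h : ℝ≥0∞) ≤ packTop F Z := by
  classical
  choose k Q hQ using fun j : ℕ => exists_fine (X := X) (ρ := 1 / ((j : ℝ) + 1)) (by positivity)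
  have hh : (0 : ℝ) ≤ h := h.2
  obtain ⟨u, -, hu⟩ := exists_seq (σ := Finset (Set X) × ℕ)
    (fun j s => s.1.Nonempty ∧ (∀ Y ∈ s.1, 0 < m.μ Y) ∧
      ∀ n, s.2 ≤ n → (s.1.card : ℝ) ≤ exp ((h + 1 / ((j : ℝ) + 1)) * (F n).card))
    (fun j s s' => s.2 < s'.2 ∧ (∀ B ∈ s'.1, ∃ Y ∈ s.1, B ⊆ Y) ∧ (∀ n, s.2 ≤ n → n < s'.2 →
        (cnt (nm (fun x => (ω x, Q j x)) (F n)) (⋃ B ∈ s'.1, B) : ℝ) ≤
          exp ((h + 1 / ((j : ℝ) + 1)) * (F n).card)) ∧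
      ∀ Y ∈ s.1, ∃ n, s.2 ≤ n ∧ ∃ 𝒯 ⊆ s'.1, (∀ B ∈ 𝒯, B ⊆ Y) ∧ exp (h * (F n).card) ≤ 𝒯.card ∧
        ∀ B ∈ 𝒯, ∀ B' ∈ 𝒯, B ≠ B' → ∃ g ∈ F n, ∀ x ∈ B, ∀ y ∈ B',
          ω (g • x) ≠ ω (g • y) ∧ ω (g • x) ≠ none ∧ ω (g • y) ≠ none)
    ({univ}, 0) ⟨by simp, by simp [hm], fun n _ => by
      simpa using mul_nonneg (by positivity) (hF.card_pos n).le⟩ (fun j s hs => by
      obtain ⟨𝒜', N', h1⟩ := stepB' hF hh (hst _ (Q j)) (η := 1 / ((j : ℝ) + 1))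
        (η' := 1 / (((j + 1 : ℕ) : ℝ) + 1)) (by positivity)
        (one_div_le_one_div_of_le (by positivity) (by push_cast; linarith)) s.1 s.2
        hs.1 hs.2.1 hs.2.2
      exact ⟨(𝒜', N'), h1⟩)
  have hN : StrictMono (fun j => (u j).2) := strictMono_nat_of_lt_succ (fun j => (hu j).2.1)
  set Y : ℕ → Set X := fun j => ⋃ B ∈ (u j).1, B with hY
  have hY1 : Antitone Y := antitone_nat_of_succ_le (fun j x hx => by
    obtain ⟨B, hB, hx⟩ := mem_iUnion₂.1 hx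
    obtain ⟨B', hB', h1⟩ := (hu j).2.2.1 B hB
    exact mem_iUnion₂.2 ⟨B', hB', h1 hx⟩)
  have hne : ∀ j, ∀ B ∈ (u j).1, B.Nonempty := fun j B hB =>
    m.nonempty_of_pos ((hu j).1.2.1 B hB)
  refine ⟨⋂ j, closure (Y j), ?_, ?_, le_packTop (half_pos hε) ?_⟩
  · refine IsCompact.nonempty_iInter_of_sequence_nonempty_isCompact_isClosed _
      (fun j => closure_mono (hY1 (Nat.le_succ j))) (fun j => ?_) isClosed_closure.isCompact
      (fun j => isClosed_closure)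
    obtain ⟨B, hB⟩ := (hu j).1.1
    obtain ⟨x, hx⟩ := hne j B hB
    exact ⟨x, subset_closure (mem_iUnion₂.2 ⟨B, hB, hx⟩)⟩
  · intro ρ hρ η hη
    obtain ⟨j0, hj0⟩ := exists_nat_one_div_lt (lt_min hρ hη)
    filter_upwards [eventually_ge_atTop (u j0).2] with n hn
    obtain ⟨j, h1, h2, h3⟩ := exists_between_strictMono hN hn
    have h4 : 1 / ((j : ℝ) + 1) ≤ min ρ η := le_trans (one_div_le_one_div_of_le (by positivity)
      (by exact_mod_cast Nat.succ_le_succ h1)) hj0.le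
    obtain ⟨S, hS1, hS2⟩ := cover_closure (G := G) (P := fun x => (ω x, Q j x)) (FR.of_finite _)
      (ρ := ρ) (fun x y e => (hQ j x y (Prod.mk.inj e).2).trans (h4.trans (min_le_left _ _)))
      (F n) (Y (j + 1))
    refine ⟨S, le_trans (by exact_mod_cast hS1) (((hu j).2.2.2.1 n h2 h3).trans (exp_le_exp.2 ?_)),
      (iInter_subset _ (j + 1)).trans hS2⟩
    have := h4.trans (min_le_right _ _)
    nlinarith [hF.card_pos n]
  · intro s hs W hW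
    by_contra hcon
    push Not at hcon
    choose Nw hNw using hcon
    have desc : ∀ j B, B ∈ (u j).1 → ∀ j', j ≤ j' → ∃ B' ∈ (u j').1, B' ⊆ B := by
      intro j B hB j' hj'
      induction j', hj' using Nat.le_induction with
      | base => exact ⟨B, hB, Subset.rfl⟩
      | succ j' _ ih =>
        obtain ⟨B', hB', h1⟩ := ih
        obtain ⟨n, -, 𝒯, h4, h5, h6, -⟩ := (hu j').2.2.2.2 B' hB'
        have : 0 < 𝒯.card := by exact_mod_cast (exp_pos _).trans_le h6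
        obtain ⟨B'', hB''⟩ := Finset.card_pos.1 this
        exact ⟨B'', h4 hB'', (h5 _ hB'').trans h1⟩
    obtain ⟨B0, hB0⟩ := (hu 0).1.1
    obtain ⟨v, -, hv⟩ := exists_seq (σ := ℕ × Set X) (fun _ p => p.2 ∈ (u p.1).1)
      (fun i p p' => p.1 < p'.1 ∧ p'.2 ⊆ p.2 ∧ Disjoint (closure p'.2) (W i)) (0, B0) hB0
      (fun i p hp => by
        obtain ⟨B', hB', h1⟩ := desc p.1 p.2 hp (max p.1 (Nw i)) (le_max_left _ _)
        obtain ⟨n, h3, 𝒯, h4, h5, h6, h7⟩ := (hu _).2.2.2.2 B' hB'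
        by_contra hc
        push Not at hc
        have h8 : ∀ B ∈ 𝒯, ∃ x, x ∈ closure B ∧ x ∈ W i := fun B hB =>
          not_disjoint_iff.1 (hc (max p.1 (Nw i) + 1, B) (h4 hB)
            (Nat.lt_succ_of_le (le_max_left _ _)) ((h5 B hB).trans h1))
        choose! x hx1 hx2 using h8
        refine absurd (hNw i) (not_lt.2 (one_le_packP (n := n)
          ((le_max_right _ _).trans (hN.le_apply.trans h3)) 𝒯 x hx2 (le_trans (exp_le_exp.2 ?_) h6)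
          (fun B hB B' hB' hne => ?_)))
        · have : (s : ℝ) < h := by exact_mod_cast hs
          nlinarith [hF.card_pos n]
        · obtain ⟨g, hg, h9⟩ := h7 B hB B' hB' hne
          refine ⟨g, hg, ?_⟩
          have := map_mem_closure₂ (f := fun x y : X => dist (g • x) (g • y)) (u := Ici (2 * ε))
            (by fun_prop) (hx1 B hB) (hx1 B' hB') (fun a ha b hb => by
              obtain ⟨e1, e2, e3⟩ := h9 a ha b hb
              by_contra hlt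
              rw [mem_Ici, not_le] at hlt
              have e4 := (hsep _ _ hlt).resolve_left e3
              have e5 := (hsep (g • a) (g • a) (by simpa using hε)).resolve_left e2
              exact e1 (e5.trans e4.symm))
          rw [closure_Ici, mem_Ici] at this
          linarith)
    have hj : StrictMono (fun i => (v i).1) := strictMono_nat_of_lt_succ (fun i => (hv i).2.1)
    obtain ⟨z, hz⟩ := IsCompact.nonempty_iInter_of_sequence_nonempty_isCompact_isClosed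
      (fun i => closure (v i).2) (fun i => closure_mono (hv i).2.2.1)
      (fun i => (hne _ _ (hv i).1).closure) isClosed_closure.isCompact (fun j => isClosed_closure)
    rw [mem_iInter] at hz
    have hzZ : z ∈ ⋂ j, closure (Y j) := mem_iInter.2 (fun j => closure_mono
      ((subset_biUnion_of_mem (u := fun B => B) (hv j).1).trans (hY1 hj.le_apply)) (hz j))
    obtain ⟨i, hi⟩ := mem_iUnion.1 (hW hzZ)
    exact Set.disjoint_left.1 (hv i).2.2.2 (hz (i + 1)) hi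

lemma packTop_iUnion_le (hF : Admissible F) {Z : ℕ → Set X} {h : ℝ≥0}
    (hZ : ∀ k, PThin F (Z k) h) : packTop F (⋃ k, Z k) ≤ h := by
  unfold packTop
  refine iSup_le (fun ε => iSup_le (fun hε => ENNReal.le_of_forall_nnreal_lt (fun r hr => ?_)))
  by_contra hlt
  rw [ENNReal.coe_le_coe, not_le] at hlt
  refine absurd hr (not_lt.2 ?_)
  unfold packEnt
  refine iInf_le_of_le r (iInf_le_of_le ?_ le_rfl)
  refine le_antisymm ?_ zero_le
  unfold packM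
  refine iInf_le_of_le Z (iInf_le_of_le Subset.rfl ?_)
  simp [fun k => packP_zero hF (hZ k) hε (s := r) (by exact_mod_cast hlt)]

theorem pLowerable_all [CompactSpace X] [Nonempty X] [ContinuousConstSMul G X]
    (hF : Admissible F) : PLowerable X F := by
  rcases eq_or_ne (hTop X F) ⊤ with htop | htop
  · exact pLowerable hF htop
  intro h hh
  lift h to ℝ≥0 using ne_top_of_le_ne_top htop hh
  have hH : (h : ℝ) ≤ (hTop X F).toReal := by simpa using ENNReal.toReal_mono htop hh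
  obtain ⟨x⟩ := ‹Nonempty X›
  have : Nonempty X := ⟨x⟩
  rcases eq_or_lt_of_le (zero_le (a := h)) with rfl | hpos
  · refine ⟨{x}, by simp, le_antisymm (packTop_le hF (fun ε hε η hη => Eventually.of_forall
      (fun n => ⟨{x}, ?_, by simp [closedBowenBall, hε.le]⟩))) (by simp)⟩
    simpa using mul_nonneg hη.le (hF.card_pos n).le
  obtain ⟨u, -, hu1, hu2⟩ := exists_seq_strictMono_tendsto' hpos
  have key : ∀ k, ∃ Z : Set X, Z.Nonempty ∧ PThin F Z (u k) ∧ (u k : ℝ≥0∞) ≤ packTop F Z := by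
    intro k
    have h1 : (u k : ℝ) < h := (hu1 k).2
    have h2 : (0 : ℝ) ≤ u k := (u k).2
    have τ0 : 0 < ((h : ℝ) - u k) / 6 := by linarith
    obtain ⟨r, ω, ι, ε, m, ν, N, Bd, hε, hsep, hm, n1, n2, n3⟩ :=
      exists_res hF (ENNReal.ofReal_toReal htop).symm (by linarith) τ0
    exact exists_pack' hF (u k) hε hsep n1 (fun k Q η hη α hα => stageBF hF hm τ0 (by linarith)
      n2 n3 (FR.of_finite _) (fun x y e => (Prod.mk.inj e).1) hη hα)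
  choose Z h1 h2 h3 using key
  refine ⟨⋃ k, Z k, (h1 0).mono (subset_iUnion Z 0), le_antisymm (packTop_iUnion_le hF
    (fun k ε hε η hη => ?_)) ?_⟩
  · filter_upwards [h2 k ε hε η hη] with n ⟨S, s1, s2⟩
    refine ⟨S, s1.trans (exp_le_exp.2 ?_), s2⟩
    have h1 : (u k : ℝ) < h := (hu1 k).2
    nlinarith [hF.card_pos n]
  · exact le_of_tendsto' (ENNReal.tendsto_coe.2 hu2)
      (fun k => (h3 k).trans (packTop_mono (subset_iUnion Z k)))

end Pool.Agent.P.MP_4cf0b2_an
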