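import Mathlib
import Pool.Agent.P.MP_4cf0b2_an.SMBF
import Pool.Agent.P.MP_4cf0b2_an.PartA

set_option autoImplicit false
set_option linter.unusedSectionVars false

namespace Pool.Agent.P.MP_4cf0b2_an

open Set Filter Real
open scoped Topology Pointwise ENNReal NNReal

section

variable {G X : Type*} [Group G] [DecidableEq G] [MulAction G X] {F : ℕ → Finset G}

lemma Mean.Inv.cond_low (hF : Admissible F) {β γ : Type*} {m : Mean X} {ω : X → β} {h0 : ℝ}
    (hi : m.Inv G) (ht : m.μ univ = 1) (hω : FR ω) (h00 : 0 ≤ h0)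
    (hup : ∀ δ > 0, ∃ K : Finset G, ∀ Φ : Finset G, m.H (nm ω Φ) ≤ (h0 + δ) * (K * Φ).card)
    {P : X → γ} (hP : FR P) {hp : ℝ}
    (hlow : ∀ T : Finset G, hp * T.card ≤ m.H (nm P T)) (T E : Finset G) :
    (hp - h0) * T.card ≤ m.H (fun x => (nm P T x, nm ω E x)) - m.H (nm ω E) := by
  set c := m.H (fun x => (nm P T x, nm ω E x)) - m.H (nm ω E) with hc
  have c0 : 0 ≤ c := sub_nonneg.2 (m.H_mono (FR.prod (FR_nm hP T) (FR_nm hω E))
    (fun x y e => by simp only [Prod.mk.injEq] at e; exact e.2))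
  have t0 : (0 : ℝ) ≤ T.card := Nat.cast_nonneg _
  have key : ∀ δ : ℝ, 0 < δ → (hp - (h0 + δ) * (1 + δ)) * T.card ≤ (1 + δ) * c := by
    intro δ hδ
    obtain ⟨K, hK⟩ := hup δ hδ
    obtain ⟨n, h1, h2⟩ := ((hF.mul_le T⁻¹ hδ).and (hF.mul_le (K * E * T⁻¹) hδ)).exists
    set E' := E * (T⁻¹ * F n) with hE'
    have s1 := m.shearer_cond ht (fun g => hP.precomp (fun x => g • x)) (FR_nm hω E')
      (T⁻¹ * F n) (rt T) T.card (F n) (cover_count T (F n) _
        (fun f hf a ha => Finset.mul_mem_mul (Finset.inv_mem_inv hf) ha))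
    have s2 : ∀ g ∈ T⁻¹ * F n, m.H (fun x => (nm P (rt T g) x, nm ω E' x)) - m.H (nm ω E') ≤ c := by
      intro g hg
      have := m.cond_mono ht (FR_nm hP (rt T g)) (FR_nm hω E') (h := nm ω (rt E g))
        (nm_det (det_refl ω) (fun a ha => by
          exact Finset.mem_mul.2 ⟨_, mem_rt.1 ha, g, hg, by simp⟩))
      refine this.trans (le_of_eq ?_)
      rw [hc, hi.H_rt hω, ← hi.H (FR.prod (FR_nm hP T) (FR_nm hω E)) g]
      congr 1
      exact m.H_congr (fun x y e => by simpa only [Prod.mk.injEq, nm_rt_iff] using e)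
        (fun x y e => by simpa only [Prod.mk.injEq, nm_rt_iff] using e)
    have s3 := s1.trans (Finset.sum_le_card_nsmul _ _ _ s2)
    rw [nsmul_eq_mul] at s3
    have s4 : m.H (nm P (F n)) ≤ m.H (fun x => (nm P (F n) x, nm ω E' x)) :=
      m.H_mono (FR.prod (FR_nm hP _) (FR_nm hω _))
        (fun x y e => by simp only [Prod.mk.injEq] at e; exact e.1)
    have s5 := hK E'
    rw [hE', ← mul_assoc, ← mul_assoc, ← mul_assoc K] at s5
    have s6 := hlow (F n)
    have n0 := hF.card_pos n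
    have s7 := mul_le_mul_of_nonneg_left h2 (add_nonneg h00 hδ.le)
    have s8 := mul_le_mul_of_nonneg_right h1 c0
    have s9 : (hp - (h0 + δ) * (1 + δ)) * (F n).card ≤
      m.H (fun x => (nm P (F n) x, nm ω E' x)) - m.H (nm ω E') := by
      simp only [hE', ← mul_assoc]
      simp only [hE', ← mul_assoc] at s4 s5 s7
      nlinarith
    have s10 := mul_le_mul_of_nonneg_left s9 t0
    refine le_of_mul_le_mul_right ?_ n0
    change (T.card : ℝ) * (m.H (fun x => (nm P (F n) x, nm ω E' x)) - m.H (nm ω E')) ≤ _ at s3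
    nlinarith
  have t1 : Tendsto (fun δ : ℝ => (hp - (h0 + δ) * (1 + δ)) * T.card) (𝓝[>] 0)
      (𝓝 ((hp - (h0 + 0) * (1 + 0)) * T.card)) :=
    (Continuous.tendsto (by fun_prop) 0).mono_left nhdsWithin_le_nhds
  have t2 : Tendsto (fun δ : ℝ => (1 + δ) * c) (𝓝[>] 0) (𝓝 ((1 + 0) * c)) :=
    (Continuous.tendsto (by fun_prop) 0).mono_left nhdsWithin_le_nhds
  simpa using le_of_tendsto_of_tendsto t1 t2
    (eventually_nhdsWithin_of_forall (fun δ hδ => key δ hδ))

variable {A : Type*} [Finite A]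

theorem goodAF (hF : Admissible F) {γ : Type*} {m : Mean X} {ω : X → Option A} {H τ : ℝ} {N : ℕ}
    {Bd : ℕ → Set X} (hm : Res G F m ω H τ N Bd) (hτ : 0 < τ) {P : X → γ} (hP : FR P)
    (hd : Det P ω) {ρ : ℝ} (hρ : 0 < ρ) : ∀ᶠ M in atTop, ∀ N' : ℕ, ∃ Good : Set X,
      m.μ (Goodᶜ \ Bd M) ≤ ρ ∧ ∀ y ∈ Good, ∀ n ≤ N', (F M).card ≤ (F n).card → y ∉ Bd n →
        m.μ ({z | nm P (F M) z = nm P (F M) y} ∩ {z | nm ω (F n) z = nm ω (F n) y}) ≤
          exp (-(H - 2 * τ) * (F n).card + (H + 3 * τ) * (F M).card + 1) *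
            m.pr (nm P (F M)) y := by
  classical
  have hω : FR ω := FR.of_finite _
  obtain ⟨hp, hp0, hlow, hup⟩ := hm.inv.rate hm.total hP
  obtain ⟨h0, h00, hlow', hup'⟩ := hm.inv.rate hm.total hω
  set δ : ℝ := min 1 (ρ / 3 * τ / (hp + 2)) with hδ
  have δ0 : 0 < δ := lt_min one_pos (by positivity)
  have δ1 : δ ≤ 1 := min_le_left _ _
  have δ2 : δ * (hp + 2) ≤ ρ / 3 * τ := by
    rw [← le_div_iff₀ (by positivity)]; exact min_le_right _ _
  obtain ⟨K1, hK1⟩ := hup δ δ0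
  filter_upwards [hF.mul_le K1 δ0, eventually_ge_atTop N,
    hF.tendsto_card.eventually (hF.tail_size hτ (ρ := ρ / 3) (by positivity)),
    exp_neg_eventually hF hτ (ρ := ρ / 3) (by positivity)] with M k1 k2 k3 k4 N'
  have f0 := hF.card_pos M
  set E := (Finset.range (N' + 1)).biUnion F ∪ F M with hE
  set f := nm P (F M) with hf
  set gE := nm ω E with hgE
  have Ff : FR f := FR_nm hP _
  have Fg : FR gE := FR_nm hω _
  set J := (Finset.range (N' + 1)).filter (fun n => (F M).card ≤ (F n).card) with hJ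
  set B1 : ℕ → Set X := fun n => {x | exp (τ * (F n).card) * (m.pr (nm ω (F M ∪ F n)) x *
    m.pr (fun y => (f y, gE y)) x) < m.pr (fun y => (f y, nm ω (F M ∪ F n) y)) x * m.pr gE x}
    with hB1
  set B2 := {x | exp (τ * (F M).card + 1) * (m.pr f x * m.pr gE x) ≤
      m.pr (fun y => (f y, gE y)) x * m.pr (nm ω (F M)) x} with hB2
  set B3 := {x | m.pr (nm ω (F M)) x ≤ exp (-(H + 2 * τ) * (F M).card)} with hB3
  have m1 : m.μ (⋃ n ∈ J, B1 n) ≤ ρ / 3 := by
    refine (m.μ_biUnion_le _ _).trans (le_trans (Finset.sum_le_sum (fun n hn => ?_))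
      (k3 J (fun n hn => by exact_mod_cast (Finset.mem_filter.1 hn).2)))
    rw [neg_mul]
    exact m.lr_markov hm.total Ff Fg (nm_det (det_refl ω) (Finset.union_subset
      Finset.subset_union_right ((Finset.subset_biUnion_of_mem F
        (Finset.mem_filter.1 hn).1).trans Finset.subset_union_left))) _
  have m2 : m.μ B2 ≤ ρ / 3 := by
    have e1 := m.cmi_markov hm.total Ff Fg (nm_det (det_refl ω) Finset.subset_union_right)
      (nm_det hd (Finset.Subset.refl _)) (τ * (F M).card)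
    have e2 := hm.inv.cond_low hF hm.total hω h00 hup' hP hlow (F M) E
    have e3 := hlow' (F M)
    have e4 := hK1 (F M)
    have e5 := mul_le_mul_of_nonneg_left k1 (add_nonneg hp0 δ0.le)
    have e6 := mul_le_mul_of_nonneg_right δ2 f0.le
    have e7 := mul_le_mul_of_nonneg_right (mul_le_mul_of_nonneg_left δ1 δ0.le) f0.le
    refine le_of_mul_le_mul_left (e1.trans ?_) (mul_pos hτ f0)
    linarith
  have m3 : m.μ (B3 \ Bd M) ≤ ρ / 3 := by
    refine (m.μ_le_cnt (FR_nm hω (F M)) _ (b := exp (-(H + 2 * τ) * (F M).card))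
      (fun x hx => (m.μ_mono inter_subset_right).trans hx.1)).trans (le_trans ?_ k4)
    have e1 : (cnt (nm ω (F M)) (B3 \ Bd M) : ℝ) ≤ exp ((H + τ) * (F M).card) :=
      le_trans (Nat.cast_le.2 (cnt_mono (FR_nm hω _) (fun x hx => hx.2))) (hm.i3 M k2)
    refine (mul_le_mul_of_nonneg_right e1 (exp_pos _).le).trans (le_of_eq ?_)
    rw [← exp_add]; congr 1; ring
  refine ⟨((⋃ n ∈ J, B1 n) ∪ B2 ∪ B3 ∪ {x | m.pr (fun y => (f y, gE y)) x = 0})ᶜ, ?_, ?_⟩
  · rw [compl_compl]
    refine (m.μ_le_add_null (t := (⋃ n ∈ J, B1 n) ∪ B2 ∪ B3 \ Bd M) (m.null_pr (FR.prod Ff Fg))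
      (fun x hx => by simp only [Set.mem_sdiff, mem_union] at hx ⊢; tauto)).trans ?_
    linarith [m.μ_union_le ((⋃ n ∈ J, B1 n) ∪ B2) (B3 \ Bd M), m.μ_union_le (⋃ n ∈ J, B1 n) B2]
  · intro y hy n hn hMn hh
    simp only [mem_compl_iff, mem_union, not_or, mem_iUnion, not_exists] at hy
    obtain ⟨⟨⟨y1, y2⟩, y3⟩, y4⟩ := hy
    have z0 := y1 n (Finset.mem_filter.2 ⟨Finset.mem_range.2 (by omega), hMn⟩)
    simp only [hB1, hB2, hB3, mem_ofPred_eq] at z0 y2 y3
    have z1 := not_lt.1 z0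
    have z2 := (not_le.1 y2).le
    have z3 := (not_le.1 y3).le
    have z4 := m.pr_pos y4
    have z5 : 0 < m.pr gE y := z4.trans_le (m.pr_mono (fun a b e => (Prod.mk.inj e).2) y)
    have z6 : m.pr (nm ω (F M ∪ F n)) y ≤ exp (-(H - τ) * (F n).card) :=
      (m.pr_mono (nm_det (det_refl ω) Finset.subset_union_right) y).trans (hm.i1 n y hh)
    refine le_trans (m.μ_mono (t := {z | (f z, nm ω (F M ∪ F n) z) = (f y, nm ω (F M ∪ F n) y)})
      ?_) ?_
    · rintro z ⟨h1, h2⟩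
      refine Prod.ext h1 (nm_eq_iff.2 (fun g hg => ?_))
      rcases Finset.mem_union.1 hg with hg | hg
      · exact hd _ _ (nm_eq_iff.1 h1 g hg)
      · exact nm_eq_iff.1 h2 g hg
    change m.pr (fun y => (f y, nm ω (F M ∪ F n) y)) y ≤ _
    have q0 := m.pr_nonneg (fun y => (f y, nm ω (F M ∪ F n) y)) y
    refine le_of_mul_le_mul_right ?_ (mul_pos z5 (exp_pos (-(H + 2 * τ) * (F M).card)))
    calc _ ≤ (m.pr (fun y => (f y, nm ω (F M ∪ F n) y)) y * m.pr gE y) * m.pr (nm ω (F M)) y := by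
          rw [mul_assoc]; gcongr
      _ ≤ (exp (τ * (F n).card) * (exp (-(H - τ) * (F n).card) * m.pr (fun y => (f y, gE y)) y)) *
          m.pr (nm ω (F M)) y := by
          refine mul_le_mul_of_nonneg_right (z1.trans ?_) (m.pr_nonneg _ _)
          gcongr
      _ = exp (τ * (F n).card) * exp (-(H - τ) * (F n).card) *
          (m.pr (fun y => (f y, gE y)) y * m.pr (nm ω (F M)) y) := by ring
      _ ≤ exp (τ * (F n).card) * exp (-(H - τ) * (F n).card) *
          (exp (τ * (F M).card + 1) * (m.pr f y * m.pr gE y)) := by gcongr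
      _ = _ := by
          have : exp (-(H - 2 * τ) * (F n).card + (H + 3 * τ) * (F M).card + 1) *
              exp (-(H + 2 * τ) * (F M).card) =
              exp (τ * (F n).card) * exp (-(H - τ) * (F n).card) * exp (τ * (F M).card + 1) := by
            simp only [← exp_add]; congr 1; ring
          linear_combination (-(m.pr f y * m.pr gE y)) * this

lemma Mean.μ_nb_le' (ν : Mean X) (ω : X → Option A) (ι : X → A) (T : Finset G) {b c : ℝ}
    {B : Set X} (hB : ν.μ B = 0) (hc : (cnt (nm (zr ω) T) Bᶜ : ℝ) ≤ c)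
    (hb : ∀ y, ν.pr (nm ω T) y ≤ b) (x : X) : ν.μ (nb ω ι T x) ≤ c * b := by
  have b0 : 0 ≤ b := (ν.pr_nonneg _ _).trans (hb x)
  refine (ν.μ_le_add_null (t := nb ω ι T x \ B) hB (fun y hy => by
    simp only [Set.mem_sdiff, mem_union]; tauto)).trans ?_
  refine (ν.μ_le_cnt (FR_nm (FR.of_finite ω) T) _ (b := b)
    (fun y _ => (ν.μ_mono inter_subset_right).trans (hb y))).trans
    (mul_le_mul_of_nonneg_right (le_trans ?_ hc) b0)
  refine Nat.cast_le.2 ((cnt_det (g := nm ω T) (Y := nb ω ι T x \ B)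
    (FR_nm (FR.of_finite (zr ω)) T) (fun y hy z hz e => ?_)).trans
    (cnt_mono (FR_nm (FR.of_finite _) T) (fun y hy => hy.2)))
  rw [nm_eq_iff] at e ⊢
  intro g hg
  have e1 : (ω (g • y) = none) = (ω (g • z) = none) := e g hg
  rcases hy.1 g hg with h1 | h1
  · rw [h1, (e1 ▸ h1 : ω (g • z) = none)]
  · rcases hz.1 g hg with h2 | h2
    · rw [h2, (e1.symm ▸ h2 : ω (g • y) = none)]
    · rw [h1, h2]

theorem sampleAF (hF : Admissible F) {γ : Type*} {m : Mean X} {ω : X → Option A} (ι : X → A)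
    {H τ : ℝ} {N : ℕ} {Bd : ℕ → Set X} (hm : Res G F m ω H τ N Bd) (hτ : 0 < τ) {P : X → γ}
    (hP : FR P) (hd : Det P ω) {s h : ℝ} (hs : 0 ≤ s) (h1 : s + 9 * τ ≤ h) (h2 : s + 4 * τ ≤ H)
    {ν : Mean X} (n1 : ν.μ univ = 1) {c : ℝ}
    (hc : 0 < c) (n2 : Dom ν c m) (n3 : ∀ n, N ≤ n → ν.μ (Bd n) = 0) {ρ : ℝ}
    (hρ : 0 < ρ) (hρ1 : ρ < 1) : ∀ᶠ M in atTop, ∃ (c' : ℝ) (k : ℕ), 0 < c' ∧ 0 < k ∧
      (k : ℝ) ≤ exp (h * (F M).card) ∧ ∀ N', ∃ ν' : Mean X, ν'.μ univ = 1 ∧ Dom ν' c' ν ∧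
        (∀ v, ν'.μ {x | nm P (F M) x = v} = 0 ∨ 1 / (k : ℝ) ≤ ν'.μ {x | nm P (F M) x = v}) ∧
        enS ω ι F s N N' ν' ν' ≤ (1 / (1 - ρ)) ^ 2 * enS ω ι F s N N' ν ν + ρ := by
  classical
  have hω : FR ω := FR.of_finite _
  obtain ⟨S1, S10, hS1⟩ := hF.sum_bound hτ
  filter_upwards [goodAF hF hm hτ hP hd (ρ := ρ / (2 * c)) (by positivity),
    exp_neg_eventually hF hτ (half_pos hρ),
    exp_neg_eventually hF hτ (ρ := ρ / (2 * ((1 + c * exp 1) * S1))) (by positivity),
    eventually_ge_atTop N] with M k1 k2 k3 k5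
  have f0 := hF.card_pos M
  set f := nm P (F M) with hf
  have Ff : FR f := FR_nm hP _
  obtain ⟨μ0, μ00, hμ0⟩ : ∃ μ0 : ℝ, 0 < μ0 ∧ ∀ v, 0 < m.μ {x | f x = v} → μ0 ≤ m.μ {x | f x = v} := by
    have hne : (Ff.toFinset.filter (fun v => 0 < m.μ {x | f x = v})).Nonempty := by
      by_contra hcon
      rw [Finset.not_nonempty_iff_eq_empty, Finset.filter_eq_empty_iff] at hcon
      have := m.sum_cells' Ff
      rw [Finset.sum_eq_zero (fun v hv => le_antisymm (not_lt.1 (hcon hv)) (m.μ_nonneg _)),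
        hm.total] at this
      exact zero_ne_one this
    obtain ⟨v0, hv0, hmin⟩ := Finset.exists_min_image _ (fun v => m.μ {x | f x = v}) hne
    refine ⟨_, (Finset.mem_filter.1 hv0).2, fun v hv => hmin v (Finset.mem_filter.2 ⟨?_, hv⟩)⟩
    obtain ⟨x, hx⟩ := m.nonempty_of_pos hv
    exact (Set.Finite.mem_toFinset _).2 ⟨x, hx⟩
  set k := ⌊exp (h * (F M).card)⌋₊ with hk
  have e1 : 1 ≤ exp (h * (F M).card) := one_le_exp (by nlinarith)
  have k0 : 0 < k := Nat.floor_pos.2 e1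
  have k0' : (0 : ℝ) < k := by exact_mod_cast k0
  have k4 : exp (h * (F M).card) ≤ 2 * k := by
    have := Nat.lt_floor_add_one (exp (h * (F M).card))
    have : (1 : ℝ) ≤ k := by exact_mod_cast k0
    linarith
  refine ⟨exp (τ * (F M).card) / μ0, k, by positivity, k0, Nat.floor_le (exp_pos _).le,
    fun N' => ?_⟩
  obtain ⟨Good, g1, g2⟩ := k1 N'
  set q : (G → Option γ) → ℝ := fun v => ν.μ (Good ∩ {x | f x = v}) with hq
  set J := Ff.toFinset.filter (fun v => exp (-τ * (F M).card) * m.μ {x | f x = v} < q v) with hJ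
  have q0 : ∀ v, 0 ≤ q v := fun v => ν.μ_nonneg _
  have q1 : ∀ v ∈ J, 0 < q v := fun v hv =>
    lt_of_le_of_lt (mul_nonneg (exp_pos _).le (m.μ_nonneg _)) (Finset.mem_filter.1 hv).2
  have q2 : ∀ v ∈ J, m.μ {x | f x = v} ≤ exp (τ * (F M).card) * q v := fun v hv => by
    have := (Finset.mem_filter.1 hv).2.le
    rwa [neg_mul, exp_neg, ← div_eq_inv_mul, div_le_iff₀ (exp_pos _), mul_comm] at this
  set t := ∑ v ∈ J, q v with ht
  have τ1 : 1 - ρ ≤ t := by
    have a1 := ν.sum_cells Ff Good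
    have a2 := Finset.sum_filter_add_sum_filter_not Ff.toFinset
      (fun v => exp (-τ * (F M).card) * m.μ {x | f x = v} < q v) q
    have a3 : ∑ v ∈ Ff.toFinset.filter
        (fun v => ¬ exp (-τ * (F M).card) * m.μ {x | f x = v} < q v), q v ≤
        exp (-τ * (F M).card) := by
      refine (Finset.sum_le_sum (fun v hv => not_lt.1 (Finset.mem_filter.1 hv).2)).trans
        ((Finset.sum_le_sum_of_subset_of_nonneg (Finset.filter_subset _ _)
          (fun _ _ _ => mul_nonneg (exp_pos _).le (m.μ_nonneg _))).trans (le_of_eq ?_))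
      rw [← Finset.mul_sum, m.sum_cells' Ff, hm.total, mul_one]
    have a4 := ν.μ_compl Good
    have a5 := (ν.μ_le_add_null (s := Goodᶜ) (t := Goodᶜ \ Bd M) (n3 M k5) (fun x hx => by
      simp only [Set.mem_sdiff, mem_union]; tauto)).trans
      ((n2 _).trans (mul_le_mul_of_nonneg_left g1 hc.le))
    have a6 : c * (ρ / (2 * c)) = ρ / 2 := by field_simp
    change ∑ v ∈ Ff.toFinset, q v = _ at a1
    linarith
  have τ0 : 0 < t := by linarith
  set νv : (G → Option γ) → Mean X := fun v => (ν.restr (Good ∩ {x | f x = v})).scale (q v)⁻¹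
    with hνv
  have hν : ∀ v B, (νv v).μ B = (q v)⁻¹ * ν.μ (Good ∩ {x | f x = v} ∩ B) := fun v B => by
    simp only [hνv]
    rw [Mean.scale_μ _ (inv_nonneg.2 (q0 v)), Mean.restr_μ]
  have hν1 : ∀ v ∈ J, (νv v).μ univ = 1 := fun v hv => by
    rw [hν, inter_univ]; exact inv_mul_cancel₀ (q1 v hv).ne'
  obtain ⟨b, hb, hsam⟩ := sampling J (fun v => q v / t) (fun v _ => div_nonneg (q0 v) τ0.le)
    (by rw [← Finset.sum_div, div_self τ0.ne'])
    (fun v v' => enS ω ι F s N N' (νv v) (νv v')) k (fun _ => 0)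
  refine ⟨Mean.wsum Finset.univ (fun _ => 1 / (k : ℝ)) (fun _ => by positivity) (fun i => νv (b i)),
    ?_, fun B => ?_, fun v => ?_, ?_⟩
  · rw [Mean.wsum_μ]
    simp [hν1 _ (hb _), k0'.ne']
  · rw [Mean.wsum_μ]
    refine (Finset.sum_le_card_nsmul _ _ (1 / (k : ℝ) * (exp (τ * (F M).card) / μ0 * ν.μ B))
      (fun i _ => mul_le_mul_of_nonneg_left ?_ (by positivity))).trans (le_of_eq ?_)
    · rw [hν]
      refine mul_le_mul ?_ (ν.μ_mono inter_subset_right) (ν.μ_nonneg _) (by positivity)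
      have a1 := q1 _ (hb i)
      have a2 : 0 < m.μ {x | f x = b i} := by
        have := (ν.μ_mono (inter_subset_right (s := Good))).trans (n2 {x | f x = b i})
        exact (mul_pos_iff_of_pos_left hc).1 (a1.trans_le this)
      rw [← one_div, div_le_div_iff₀ a1 μ00]
      linarith [hμ0 _ a2, q2 _ (hb i)]
    · simp [k0'.ne']
  · rw [Mean.wsum_μ]
    by_cases hv : ∃ i, b i = v
    · obtain ⟨i, rfl⟩ := hv
      right
      refine le_trans (le_of_eq ?_) (Finset.single_le_sum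
        (f := fun j => 1 / (k : ℝ) * (νv (b j)).μ {x | f x = b i})
        (fun j _ => mul_nonneg (by positivity) (Mean.μ_nonneg _ _)) (Finset.mem_univ i))
      rw [hν, inter_assoc, inter_self, inv_mul_cancel₀ (q1 _ (hb i)).ne', mul_one]
    · left
      refine Finset.sum_eq_zero (fun i _ => ?_)
      have : Good ∩ {x | f x = b i} ∩ {x | f x = v} = ∅ :=
        eq_empty_of_forall_notMem (fun x hx => hv ⟨i, hx.1.2.symm.trans hx.2⟩)
      rw [hν, this, ν.μ_empty]; simp
  · have a1 : ∑ i ∈ J, ∑ j ∈ J, q i / t * (q j / t) * enS ω ι F s N N' (νv i) (νv j) ≤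
        (1 / (1 - ρ)) ^ 2 * enS ω ι F s N N' ν ν := by
      rw [← enS_wsum J (fun v => q v / t) (fun v => div_nonneg (q0 v) τ0.le)]
      refine enS_dom (one_div_pos.2 (by linarith)).le (fun B => ?_)
      rw [Mean.wsum_μ]
      refine le_trans ?_ (mul_le_mul_of_nonneg_right
        (one_div_le_one_div_of_le (by linarith) τ1) (ν.μ_nonneg _))
      rw [← ν.sum_cells Ff B, Finset.mul_sum]
      refine le_trans (Finset.sum_le_sum (fun v hv => ?_)) (Finset.sum_le_sum_of_subset_of_nonneg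
        (Finset.filter_subset _ _) (fun _ _ _ => mul_nonneg (by positivity) (ν.μ_nonneg _)))
      rw [hν, ← mul_assoc, div_mul_eq_mul_div, mul_inv_cancel₀ (q1 v hv).ne']
      exact mul_le_mul_of_nonneg_left (ν.μ_mono (fun x hx => ⟨hx.2, hx.1.2⟩)) (by positivity)
    have a2 : ∀ v ∈ J, enS ω ι F s N N' (νv v) (νv v) ≤
        exp ((h - τ) * (F M).card) * ((1 + c * exp 1) * S1) := by
      intro v hv
      have b1 : ∀ n ∈ Finset.Icc N N', exp (s * (F n).card) * en ω ι (F n) (νv v) (νv v) ≤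
          exp ((h - τ) * (F M).card) * ((1 + c * exp 1) * exp (-τ * (F n).card)) := by
        intro n hn
        rw [Finset.mem_Icc] at hn
        have n0 := hF.card_pos n
        have c0 : 0 < c * exp 1 := by positivity
        rcases le_total (F n).card (F M).card with hl | hl
        · have := en_le (ω := ω) (ι := ι) (F n) (hν1 v hv) (ν' := νv v) (b := 1)
            (fun x => ((νv v).μ_mono (subset_univ _)).trans (hν1 v hv).le)
          have hl' : ((F n).card : ℝ) ≤ (F M).card := by exact_mod_cast hl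
          have c1 : exp (s * (F n).card) ≤ exp ((h - τ) * (F M).card) * exp (-τ * (F n).card) := by
            rw [← exp_add]
            apply exp_le_exp.2
            nlinarith
          have c2 := mul_le_mul_of_nonneg_left this (exp_pos (s * (F n).card)).le
          have c3 : 0 < exp ((h - τ) * (F M).card) * (c * exp 1 * exp (-τ * (F n).card)) := by
            positivity
          linarith
        · have hl' : ((F M).card : ℝ) ≤ (F n).card := by exact_mod_cast hl
          have := en_le (ω := ω) (ι := ι) (F n) (hν1 v hv) (ν' := νv v)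
            ((νv v).μ_nb_le' ω ι (F n) (b := c * exp (-(H - 2 * τ) * (F n).card +
              (H + 4 * τ) * (F M).card + 1)) (B := Bd n) (by
                rw [hν, le_antisymm ((ν.μ_mono inter_subset_right).trans (n3 n hn.1).le)
                  (ν.μ_nonneg _), mul_zero]) (hm.i2 n) (fun y => by
              unfold Mean.pr
              rw [hν, ← div_eq_inv_mul, div_le_iff₀ (q1 v hv)]
              rcases ((Good ∩ {x | f x = v} ∩ {z | nm ω (F n) z = nm ω (F n) y}) \
                Bd n).eq_empty_or_nonempty with e | ⟨z, ⟨⟨z1, z2⟩, z3⟩, z4⟩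
              · rw [sdiff_eq_empty] at e
                refine ((ν.μ_mono e).trans (n3 n hn.1).le).trans ?_
                have := q0 v
                positivity
              have d1 := g2 z z1 n hn.2 hl z4
              have d2 : m.pr f z ≤ exp (τ * (F M).card) * q v := by
                unfold Mean.pr; rw [show f z = v from z2]; exact q2 v hv
              refine (ν.μ_mono (t := {x | f x = f z} ∩ {x | nm ω (F n) x = nm ω (F n) z})
                (fun x hx => ⟨hx.1.2.trans z2.symm, hx.2.trans z3.symm⟩)).trans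
                ((n2 _).trans ?_)
              rw [mul_assoc]
              refine mul_le_mul_of_nonneg_left (d1.trans ((mul_le_mul_of_nonneg_left d2
                (exp_pos _).le).trans (le_of_eq ?_))) hc.le
              rw [← mul_assoc, ← exp_add]
              congr 2; ring))
          refine (mul_le_mul_of_nonneg_left this (exp_pos _).le).trans (le_trans ?_
            (mul_le_mul_of_nonneg_left (mul_le_mul_of_nonneg_right (le_add_of_nonneg_left zero_le_one)
              (exp_pos _).le) (exp_pos _).le))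
          rw [mul_left_comm (exp _) c, mul_left_comm (exp _) c, mul_assoc c, mul_left_comm (exp _) c,
            ← exp_add, ← exp_add, ← exp_add, ← exp_add]
          refine mul_le_mul_of_nonneg_left (exp_le_exp.2 ?_) hc.le
          nlinarith [mul_le_mul_of_nonneg_left hl' (sub_nonneg.2 h2),
            mul_le_mul_of_nonneg_right h1 f0.le]
      refine (Finset.sum_le_sum b1).trans ?_
      rw [← Finset.mul_sum, ← Finset.mul_sum]
      gcongr
      exact hS1 _
    have a3 : ∑ i ∈ J, q i / t * enS ω ι F s N N' (νv i) (νv i) ≤ ρ * k := by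
      refine (Finset.sum_le_sum (fun v hv => mul_le_mul_of_nonneg_left (a2 v hv)
        (div_nonneg (q0 v) τ0.le))).trans ?_
      rw [← Finset.sum_mul, ← Finset.sum_div, div_self τ0.ne', one_mul]
      rw [le_div_iff₀ (by positivity)] at k3
      rw [sub_mul, sub_eq_add_neg, exp_add, ← neg_mul]
      have := mul_le_mul k4 k3 (by positivity) (by positivity)
      linarith
    rw [enS_wsum]
    simp only [← Finset.mul_sum]
    simp only [Finset.sum_const_zero, mul_zero, add_zero] at hsam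
    have a4 : 0 ≤ (1 / (1 - ρ)) ^ 2 * enS ω ι F s N N' ν ν :=
      mul_nonneg (sq_nonneg _) (enS_nonneg _ _)
    have a5 : (1 : ℝ) ≤ k := by exact_mod_cast k0
    rw [div_mul_div_comm, one_mul, div_mul_eq_mul_div, one_mul, div_le_iff₀ (by positivity)]
    have a6 := mul_le_mul_of_nonneg_left a1 (mul_nonneg k0'.le (sub_nonneg.2 a5))
    have a7 := mul_le_mul_of_nonneg_left a3 k0'.le
    nlinarith

theorem stepAF (hF : Admissible F) {γ : Type*} {m : Mean X} {ω : X → Option A} (ι : X → A)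
    {H τ : ℝ} {N : ℕ} {Bd : ℕ → Set X} (hm : Res G F m ω H τ N Bd) (hτ : 0 < τ) {P : X → γ}
    (hP : FR P) (hd : Det P ω) {s h : ℝ} (hs : 0 ≤ s) (h1 : s + 9 * τ ≤ h) (h2 : s + 4 * τ ≤ H)
    {ν : Mean X} (n1 : ν.μ univ = 1) {c : ℝ}
    (hc : 0 < c) (n2 : Dom ν c m) (n3 : ∀ n, N ≤ n → ν.μ (Bd n) = 0) {W W' : ℝ}
    (hW : W < W') (n4 : ∀ N', enS ω ι F s N N' ν ν ≤ W) (j : ℕ) :
    ∃ (ν' : Mean X) (c' : ℝ), ν'.μ univ = 1 ∧ 0 < c' ∧ Dom ν' c' ν ∧
      (∀ N', enS ω ι F s N N' ν' ν' ≤ W') ∧ ∃ M, j ≤ M ∧ ∃ Y : Set X, ν'.μ Yᶜ = 0 ∧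
        (cnt (nm P (F M)) Y : ℝ) ≤ exp (h * (F M).card) := by
  have t1 : Tendsto (fun ρ : ℝ => (1 / (1 - ρ)) ^ 2 * W + ρ) (𝓝[>] 0)
      (𝓝 ((1 / (1 - 0)) ^ 2 * W + 0)) :=
    (ContinuousAt.tendsto (by fun_prop (disch := norm_num))).mono_left nhdsWithin_le_nhds
  obtain ⟨ρ, r1, r2⟩ := ((t1.eventually (gt_mem_nhds (by simpa using hW))).and
    (Ioo_mem_nhdsGT one_pos)).exists
  obtain ⟨M, ⟨c', k, c0, k0, k1, hν⟩, hM⟩ := ((sampleAF hF ι hm hτ hP hd hs h1 h2 n1 hc n2 n3
    r2.1 r2.2).and (eventually_ge_atTop j)).exists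
  choose νn a1 a2 a3 a4 using hν
  obtain ⟨ν', hl⟩ := Mean.exists_lim νn (fun n => (a1 n).le)
  have hl' : ∀ B, Tendsto (fun n => (νn n).μ B) (hyperfilter ℕ) (𝓝 (ν'.μ B)) :=
    fun B => hl _ (FR.ind B)
  have b1 : ν'.μ univ = 1 := by
    have := hl' univ
    simp only [a1] at this
    exact tendsto_nhds_unique this tendsto_const_nhds
  have k0' : (0 : ℝ) < k := by exact_mod_cast k0
  refine ⟨ν', c', b1, c0, fun B => le_of_tendsto' (hl' B) (fun n => a2 n B), fun N' => ?_, M, hM,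
    {x | ν'.pr (nm P (F M)) x = 0}ᶜ, ?_, ?_⟩
  · have t2 : Tendsto (fun n => enS ω ι F s N N' (νn n) (νn n)) (hyperfilter ℕ)
        (𝓝 (enS ω ι F s N N' ν' ν')) :=
      tendsto_finsetSum _ (fun n _ => (tendsto_en _ hl).const_mul _)
    refine le_of_tendsto t2 (Filter.Eventually.filter_mono Nat.hyperfilter_le_atTop ?_)
    filter_upwards [eventually_ge_atTop N'] with n hn
    refine (enS_mono hn _).trans ((a4 n).trans (le_trans ?_ r1.le))
    gcongr
    exact n4 n
  · rw [compl_compl]; exact ν'.null_pr (FR_nm hP _)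
  · have := ν'.cnt_heavy (FR_nm hP (F M)) {x | ν'.pr (nm P (F M)) x = 0}ᶜ (b := 1 / (k : ℝ))
      (fun x hx => by
        have hcl : IsClosed {t : ℝ | t = 0 ∨ 1 / (k : ℝ) ≤ t} :=
          (isClosed_eq continuous_id continuous_const).union isClosed_Ici
        exact (hcl.mem_of_tendsto (hl' _) (Eventually.of_forall
          (fun n => a3 n (nm P (F M) x)))).resolve_left hx)
    rw [b1, mul_one_div, div_le_one k0'] at this
    exact this.trans k1

lemma Res.pr_le {m ν : Mean X} {ω : X → Option A} {H τ : ℝ} {N : ℕ} {Bd : ℕ → Set X}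
    (hm : Res G F m ω H τ N Bd) {c : ℝ} (hc : 0 ≤ c) (n2 : Dom ν c m) {n : ℕ}
    (n3 : ν.μ (Bd n) = 0) (y : X) : ν.pr (nm ω (F n)) y ≤ c * exp (-(H - τ) * (F n).card) := by
  rcases ({z | nm ω (F n) z = nm ω (F n) y} \ Bd n).eq_empty_or_nonempty with e | ⟨z, z1, z2⟩
  · rw [sdiff_eq_empty] at e
    exact ((ν.μ_mono e).trans n3.le).trans (by positivity)
  · have := hm.i1 n z z2
    unfold Mean.pr at this ⊢
    rw [show nm ω (F n) z = nm ω (F n) y from z1] at this
    exact (n2 _).trans (mul_le_mul_of_nonneg_left this hc)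

end

variable {G X : Type*} [Group G] [DecidableEq G] [MulAction G X] [MetricSpace X]
  {F : ℕ → Finset G}

theorem exists_bowen_approxF [CompactSpace X] [ContinuousConstSMul G X] (hF : Admissible F)
    {H : ℝ} (htop : hTop X F = ENNReal.ofReal H) {s h : ℝ≥0} (hsh : s < h) (hH : h ≤ H) :
    ∃ Z : Set X, Z.Nonempty ∧ Thin F Z h ∧ (s : ℝ≥0∞) ≤ bowenTop F Z := by
  classical
  have hs : (0 : ℝ) ≤ s := s.2
  have hsh' : (s : ℝ) < h := hsh
  set τ : ℝ := (h - s) / 9 with hτ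
  have τ0 : 0 < τ := by linarith
  obtain ⟨r, ω, ι, ε, m, ν0, N, Bd, hε, hsep, hm, n1, n2, n3⟩ :=
    exists_res hF htop (by linarith) τ0
  have hX : Nonempty X := by
    obtain ⟨x, -⟩ := m.nonempty_of_pos (Y := univ) (by rw [hm.total]; exact one_pos)
    exact ⟨x⟩
  obtain ⟨S, S0, hS⟩ := hF.sum_bound τ0
  have n4 : ∀ N', enS ω ι F s N N' ν0 ν0 ≤ 2 * S := fun N' => by
    refine le_trans (Finset.sum_le_sum (fun n hn => ?_)) ((Finset.mul_sum _ _ _).symm.le.trans
      (mul_le_mul_of_nonneg_left (hS (Finset.Icc N N')) zero_le_two))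
    have hn' := n3 n (Finset.mem_Icc.1 hn).1
    have := en_le (ω := ω) (ι := ι) (F n) n1 (ν0.μ_nb_le' ω ι (F n) hn' (hm.i2 n)
      (hm.pr_le zero_le_two n2 hn'))
    refine (mul_le_mul_of_nonneg_left this (exp_pos _).le).trans ?_
    rw [mul_left_comm (exp _) 2, mul_left_comm (exp _) 2, ← exp_add, ← exp_add]
    refine mul_le_mul_of_nonneg_left (exp_le_exp.2 ?_) zero_le_two
    nlinarith [hF.card_pos n]
  set W := 2 * S with hW
  have W0 : 0 < W := by positivity
  choose k Q hQ using fun j : ℕ => exists_fine (X := X) (ρ := 1 / ((j : ℝ) + 1)) (by positivity)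
  obtain ⟨u, -, hu⟩ := exists_seq (σ := Mean X)
    (fun j ν => ν.μ univ = 1 ∧ (∃ c, 0 < c ∧ Dom ν c m) ∧
      (∀ n, N ≤ n → ν.μ (Bd n) = 0) ∧
      ∀ N', enS ω ι F s N N' ν ν ≤ W + 1 - 1 / ((j : ℝ) + 1))
    (fun j ν ν' => (∃ c, Dom ν' c ν) ∧ ∃ M, j ≤ M ∧ ∃ Y : Set X, ν'.μ Yᶜ = 0 ∧
      (cnt (nm (fun x => (ω x, Q j x)) (F M)) Y : ℝ) ≤ exp (h * (F M).card))
    ν0 ⟨n1, ⟨2, two_pos, n2⟩, n3, fun N' => by simpa using n4 N'⟩ (fun j ν hν => by
      obtain ⟨a1, ⟨c, c0, a2⟩, a3, a4⟩ := hν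
      obtain ⟨ν', c', d1, d2, d3, d4, d5⟩ := stepAF hF ι hm τ0 (P := fun x => (ω x, Q j x))
        (FR.of_finite _) (fun x y e => (Prod.mk.inj e).1) hs (h := h) (by linarith) (by linarith)
        a1 c0 a2 a3 (W' := W + 1 - 1 / (((j + 1 : ℕ) : ℝ) + 1)) (by
          have : 1 / (((j + 1 : ℕ) : ℝ) + 1) < 1 / ((j : ℝ) + 1) :=
            one_div_lt_one_div_of_lt (by positivity) (by push_cast; linarith)
          linarith) a4 j
      exact ⟨ν', ⟨d1, ⟨c' * c, mul_pos d2 c0, d3.trans a2 d2.le⟩, fun n hn => d3.null (a3 n hn), d4⟩,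
        ⟨c', d3⟩, d5⟩)
  choose M hM Y hY1 hY2 using fun j => (hu j).2.2
  have null : ∀ j B, (u j).μ B = 0 → ∀ j', j ≤ j' → (u j').μ B = 0 := by
    intro j B hB j' hj'
    induction j', hj' using Nat.le_induction with
    | base => exact hB
    | succ j' _ ih =>
      obtain ⟨c, hc⟩ := (hu j').2.1
      exact hc.null ih
  have key : ∀ (J : Finset ℕ) (x : ℕ → X) (n : ℕ → ℕ), (∀ i ∈ J, N ≤ n i) →
      (⋂ j, closure (Y j)) ⊆ ⋃ i ∈ J, bowenBall (F (n i)) (x i) ε →
      1 / (4 * (W + 1)) ≤ ∑ i ∈ J, exp (-(s : ℝ) * (F (n i)).card) := by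
    intro J x n hn hcov
    obtain ⟨t, ht⟩ := (isOpen_biUnion (fun i (_ : i ∈ J) => isOpen_bowenBall (F (n i)) (x i) ε)
      ).isClosed_compl.isCompact.elim_finite_subfamily_closed (fun j => closure (Y j))
      (fun j => isClosed_closure) (eq_empty_of_forall_notMem (fun z hz => hz.1 (hcov hz.2)))
    refine energy_cover hsep (hu (t.sup id + 1)).1.1 (by positivity) (fun N' =>
      ((hu _).1.2.2.2 N').trans (sub_le_self _ (by positivity))) J x n hn
      (le_antisymm ?_ (Mean.μ_nonneg _ _))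
    refine (Mean.μ_mono _ (t := ⋃ j ∈ t, (Y j)ᶜ) (fun z hz => ?_)).trans
      ((Mean.μ_biUnion_le _ _ _).trans (Finset.sum_eq_zero (fun j hj => null (j + 1) _ (hY1 j) _
        (Nat.succ_le_succ (Finset.le_sup (f := id) hj)))).le)
    by_contra hcon
    simp only [mem_iUnion, mem_compl_iff, not_exists, not_not] at hcon
    exact (eq_empty_iff_forall_notMem.1 ht z)
      ⟨hz, mem_iInter₂.2 (fun j hj => subset_closure (hcon j hj))⟩
  have hne : (⋂ j, closure (Y j)).Nonempty := by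
    by_contra hcon
    rw [not_nonempty_iff_eq_empty] at hcon
    have := key ∅ (fun _ => hX.some) (fun _ => 0) (by simp) (by simp [hcon])
    rw [Finset.sum_empty] at this
    have : 0 < 1 / (4 * (W + 1)) := by positivity
    linarith
  refine ⟨⋂ j, closure (Y j), hne, fun ρ hρ N1 => ?_, le_bowenTop
    (isClosed_iInter (fun j => isClosed_closure)).isCompact hε (by positivity) key hne⟩
  obtain ⟨j0, hj0⟩ := exists_nat_one_div_lt hρ
  obtain ⟨S, hS1, hS2⟩ := cover_closure (G := G) (P := fun x => (ω x, Q (max j0 N1) x))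
    (FR.of_finite _) (fun x y e => hQ _ x y (Prod.mk.inj e).2) (F (M (max j0 N1))) (Y (max j0 N1))
  refine ⟨M (max j0 N1), (le_max_right _ _).trans (hM _), S,
    le_trans (by exact_mod_cast hS1) (hY2 _), (iInter_subset _ (max j0 N1)).trans (hS2.trans
      (iUnion₂_mono (fun z _ y hy g hg => (hy g hg).trans_lt (lt_of_le_of_lt ?_ hj0))))⟩
  exact one_div_le_one_div_of_le (by positivity)
    (by exact_mod_cast Nat.succ_le_succ (le_max_left j0 N1))

theorem dLowerable_all [CompactSpace X] [Nonempty X] [ContinuousConstSMul G X]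
    (hF : Admissible F) : DLowerable X F := by
  rcases eq_or_ne (hTop X F) ⊤ with htop | htop
  · exact dLowerable hF htop
  intro h hh
  lift h to ℝ≥0 using ne_top_of_le_ne_top htop hh
  obtain ⟨x⟩ := ‹Nonempty X›
  rcases eq_or_lt_of_le (zero_le (a := h)) with rfl | hpos
  · refine ⟨⋃ _ : ℕ, {x}, by simp, le_antisymm (bowenTop_le hF (fun _ ε hε N =>
      ⟨N, le_rfl, {x}, by simp, by simp [bowenBall, hε]⟩)) (by simp)⟩
  obtain ⟨u, -, hu1, hu2⟩ := exists_seq_strictMono_tendsto' hpos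
  choose Z h1 h2 h3 using fun k => exists_bowen_approxF hF (ENNReal.ofReal_toReal htop).symm
    (hu1 k).2 (by simpa using ENNReal.toReal_mono htop hh)
  refine ⟨⋃ k, Z k, (h1 0).mono (subset_iUnion Z 0), le_antisymm (bowenTop_le hF h2) ?_⟩
  exact le_of_tendsto' (ENNReal.tendsto_coe.2 hu2)
    (fun k => (h3 k).trans (bowenTop_mono (subset_iUnion Z k)))

end Pool.Agent.P.MP_4cf0b2_an
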