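import Pool.Agent.P.MP_4cf0b2_an.Counter

namespace Pool.Agent.P.MP_4cf0b2_an.VariantNotDHereditary

open Pool.Agent.P.MP_4cf0b2_an

theorem result : ∃ (X : Type) (_ : MetricSpace X) (_ : CompactSpace X)
    (_ : MulAction (Multiplicative ℤ) X) (_ : ContinuousConstSMul (Multiplicative ℤ) X)
    (F : ℕ → Finset (Multiplicative ℤ)), Admissible F ∧ ¬ DHereditarilyLowerable X F :=
  main

end Pool.Agent.P.MP_4cf0b2_an.VariantNotDHereditary
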